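import Pool.Agent.Gen.F5.X12CD3Cm6.S000
import Pool.Agent.Gen.F5.X12CD3Cm6.S001
import Pool.Agent.Gen.F5.X12CD3Cm6.S002
import Pool.Agent.Gen.F5.X12CD3Cm6.S003
import Pool.Agent.Gen.F5.X12CD3Cm6.S004
import Pool.Agent.Gen.F5.X12CD3Cm6.S005
import Pool.Agent.Gen.F5.X12CD3Cm6.S006
import Pool.Agent.Gen.F5.X12CD3Cm6.S007
import Pool.Agent.Gen.F5.X12CD3Cm6.S008
import Pool.Agent.Gen.F5.X12CD3Cm6.S009
import Pool.Agent.Gen.F5.X12CD3Cm6.S010

set_option autoImplicit false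
set_option maxRecDepth 100000

namespace Pool.Agent.Gen.F5.X12CD3Cm6

open Pool.Agent.Helper72.F5

def n0 : Cl (O (nat_lit 6)) (R (nat_lit 14353))
    (p (nat_lit 0x111) (nat_lit 1) (p (nat_lit 0x89) (nat_lit 0) (p (nat_lit 0x109) (nat_lit 0) (p (nat_lit 0x41) (nat_lit 0) (p (nat_lit 0x10000c) (nat_lit 0) (p (nat_lit 0xc1) (nat_lit 1) (p (nat_lit 0xb0004) (nat_lit 0) (p (nat_lit 0x20000c) (nat_lit 0) (p (nat_lit 0x380c2) (nat_lit 1) (p (nat_lit 0x444aa) (nat_lit 7) (p (nat_lit 0xd1) (nat_lit 1) (p (nat_lit 0x111) (nat_lit 1) (p (nat_lit 0x109) (nat_lit 0) (p (nat_lit 0x101) (nat_lit 0) (p (nat_lit 0x119) (nat_lit 0) (p (nat_lit 0xc9) (nat_lit 0) (p (nat_lit 0x89) (nat_lit 1) (p (nat_lit 0x41) (nat_lit 0) (p (nat_lit 0x10a0b0a89089a) (nat_lit 0) (p (nat_lit 0x898a8a08881a) (nat_lit 0) (p (nat_lit 0x109088988079a) (nat_lit 0) (p (nat_lit 0x88880907871a) (nat_lit 0) (p (nat_lit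 0x8000080000000080887068a) (nat_lit 0) (p (nat_lit 0x10888068602) (nat_lit 0) (p (nat_lit 0x8807860582) (nat_lit 0) (p (nat_lit 0x10607058502) (nat_lit 0) (p (nat_lit 0x8586850482) (nat_lit 0) (p (nat_lit 0x160004) (nat_lit 0) (p (nat_lit 0x68612) (nat_lit 0) (p (nat_lit 0x50592) (nat_lit 0) (p (nat_lit 0x40512) (nat_lit 0) (p (nat_lit 0x50312) (nat_lit 0) (p (nat_lit 0x38292) (nat_lit 0) (p (nat_lit 0x28212) (nat_lit 0) (p (nat_lit 0x38112) (nat_lit 0) (p (nat_lit 0x20092) (nat_lit 0) (p (nat_lit 0x10012) (nat_lit 0) pn))))))))))))))))))))))))))))))))))))) :=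
  Cl.node (nat_lit 0x3cc2a) (nat_lit 12) (by decide +kernel) (ClAll.succ (ClAll.succ (ClAll.succ (ClAll.succ (ClAll.succ (ClAll.succ (ClAll.succ (ClAll.succ (ClAll.succ (ClAll.succ (ClAll.succ (ClAll.succ ClAll.zero s270) s271) s272) s273) s274) s275) s276) s277) s278) s279) s280) s281)

def n1 : Cl (O (nat_lit 6)) (R (nat_lit 14353))
    (p (nat_lit 0x101) (nat_lit 1) (p (nat_lit 0x111) (nat_lit 1) (p (nat_lit 0x101) (nat_lit 1) (p (nat_lit 0x41) (nat_lit 1) (p (nat_lit 0xb0004) (nat_lit 0) (p (nat_lit 0xc9) (nat_lit 1) (p (nat_lit 0x10000c) (nat_lit 0) (p (nat_lit 0x20000c) (nat_lit 0) (p (nat_lit 0x380c2) (nat_lit 0) (p (nat_lit 0x3c4aa) (nat_lit 7) (p (nat_lit 0xd1) (nat_lit 1) (p (nat_lit 0x111) (nat_lit 1) (p (nat_lit 0x109) (nat_lit 0) (p (nat_lit 0x101) (nat_lit 0) (p (nat_lit 0x119) (nat_lit 0) (p (nat_lit 0xc1) (nat_lit 0) (p (nat_lit 0x81) (nat_lit 1) (p (nat_lit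 0x41) (nat_lit 1) (p (nat_lit 0x10a0b0a89089a) (nat_lit 0) (p (nat_lit 0x898a8a08881a) (nat_lit 0) (p (nat_lit 0x109088988079a) (nat_lit 0) (p (nat_lit 0x88880907871a) (nat_lit 0) (p (nat_lit 0x8000080000000080887068a) (nat_lit 0) (p (nat_lit 0x10888068602) (nat_lit 0) (p (nat_lit 0x8807860582) (nat_lit 0) (p (nat_lit 0x10607058502) (nat_lit 0) (p (nat_lit 0x8586850482) (nat_lit 0) (p (nat_lit 0x160004) (nat_lit 0) (p (nat_lit 0x68612) (nat_lit 0) (p (nat_lit 0x50592) (nat_lit 0) (p (nat_lit 0x40512) (nat_lit 0) (p (nat_lit 0x50312) (nat_lit 0) (p (nat_lit 0x38292) (nat_lit 0) (p (nat_lit 0x28212) (nat_lit 0) (p (nat_lit 0x38112) (nat_lit 0) (p (nat_lit 0x20092) (nat_lit 0) (p (nat_lit 0x10012) (nat_lit 0) pn))))))))))))))))))))))))))))))))))))) :=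
  Cl.node (nat_lit 0xc1) (nat_lit 2) (by decide +kernel) (ClAll.succ (ClAll.succ ClAll.zero s593) s594)

def n2 : Cl (O (nat_lit 6)) (R (nat_lit 14353))
    (p (nat_lit 0x89) (nat_lit 0) (p (nat_lit 0x109) (nat_lit 0) (p (nat_lit 0x41) (nat_lit 0) (p (nat_lit 0x10000c) (nat_lit 0) (p (nat_lit 0xc1) (nat_lit 1) (p (nat_lit 0xb0004) (nat_lit 0) (p (nat_lit 0x20000c) (nat_lit 0) (p (nat_lit 0x380c2) (nat_lit 1) (p (nat_lit 0x444aa) (nat_lit 7) (p (nat_lit 0xd1) (nat_lit 1) (p (nat_lit 0x111) (nat_lit 1) (p (nat_lit 0x109) (nat_lit 0) (p (nat_lit 0x101) (nat_lit 0) (p (nat_lit 0x119) (nat_lit 0) (p (nat_lit 0xc9) (nat_lit 0) (p (nat_lit 0x89) (nat_lit 1) (p (nat_lit 0x41) (nat_lit 0) (p (nat_lit 0x10a0b0a89089a) (nat_lit 0) (p (nat_lit 0x898a8a08881a) (nat_lit 0) (p (nat_lit 0x109088988079a) (nat_lit 0) (p (nat_lit 0x88880907871a) (nat_lit 0) (p (nat_lit 0x8000080000000080887068a)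 (nat_lit 0) (p (nat_lit 0x10888068602) (nat_lit 0) (p (nat_lit 0x8807860582) (nat_lit 0) (p (nat_lit 0x10607058502) (nat_lit 0) (p (nat_lit 0x8586850482) (nat_lit 0) (p (nat_lit 0x160004) (nat_lit 0) (p (nat_lit 0x68612) (nat_lit 0) (p (nat_lit 0x50592) (nat_lit 0) (p (nat_lit 0x40512) (nat_lit 0) (p (nat_lit 0x50312) (nat_lit 0) (p (nat_lit 0x38292) (nat_lit 0) (p (nat_lit 0x28212) (nat_lit 0) (p (nat_lit 0x38112) (nat_lit 0) (p (nat_lit 0x20092) (nat_lit 0) (p (nat_lit 0x10012) (nat_lit 0) pn)))))))))))))))))))))))))))))))))))) :=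
  Cl.node (nat_lit 0x111) (nat_lit 2) (by decide +kernel) (ClAll.succ (ClAll.succ ClAll.zero s269) n0)

def n3 : Cl (O (nat_lit 6)) (R (nat_lit 14353))
    (p (nat_lit 0x111) (nat_lit 1) (p (nat_lit 0x101) (nat_lit 1) (p (nat_lit 0x41) (nat_lit 1) (p (nat_lit 0xb0004) (nat_lit 0) (p (nat_lit 0xc9) (nat_lit 1) (p (nat_lit 0x10000c) (nat_lit 0) (p (nat_lit 0x20000c) (nat_lit 0) (p (nat_lit 0x380c2) (nat_lit 0) (p (nat_lit 0x3c4aa) (nat_lit 7) (p (nat_lit 0xd1) (nat_lit 1) (p (nat_lit 0x111) (nat_lit 1) (p (nat_lit 0x109) (nat_lit 0) (p (nat_lit 0x101) (nat_lit 0) (p (nat_lit 0x119) (nat_lit 0) (p (nat_lit 0xc1) (nat_lit 0) (p (nat_lit 0x81) (nat_lit 1) (p (nat_lit 0x41) (nat_lit 1) (p (nat_lit 0x10a0b0a89089a) (nat_lit 0) (p (nat_lit 0x898a8a08881a) (nat_lit 0) (p (nat_lit 0x109088988079a) (nat_lit 0) (p (nat_lit 0x88880907871a) (nat_lit 0) (p (nat_lit 0x8000080000000080887068a)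 (nat_lit 0) (p (nat_lit 0x10888068602) (nat_lit 0) (p (nat_lit 0x8807860582) (nat_lit 0) (p (nat_lit 0x10607058502) (nat_lit 0) (p (nat_lit 0x8586850482) (nat_lit 0) (p (nat_lit 0x160004) (nat_lit 0) (p (nat_lit 0x68612) (nat_lit 0) (p (nat_lit 0x50592) (nat_lit 0) (p (nat_lit 0x40512) (nat_lit 0) (p (nat_lit 0x50312) (nat_lit 0) (p (nat_lit 0x38292) (nat_lit 0) (p (nat_lit 0x28212) (nat_lit 0) (p (nat_lit 0x38112) (nat_lit 0) (p (nat_lit 0x20092) (nat_lit 0) (p (nat_lit 0x10012) (nat_lit 0) pn)))))))))))))))))))))))))))))))))))) :=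
  Cl.node (nat_lit 0x101) (nat_lit 2) (by decide +kernel) (ClAll.succ (ClAll.succ ClAll.zero s592) n1)

def n4 : Cl (O (nat_lit 6)) (R (nat_lit 14353))
    (p (nat_lit 0x111) (nat_lit 1) (p (nat_lit 0x101) (nat_lit 1) (p (nat_lit 0x41) (nat_lit 1) (p (nat_lit 0xb0004) (nat_lit 0) (p (nat_lit 0xc9) (nat_lit 1) (p (nat_lit 0x10000c) (nat_lit 0) (p (nat_lit 0x20000c) (nat_lit 0) (p (nat_lit 0x380c2) (nat_lit 1) (p (nat_lit 0x3c4aa) (nat_lit 7) (p (nat_lit 0xd1) (nat_lit 1) (p (nat_lit 0x111) (nat_lit 1) (p (nat_lit 0x109) (nat_lit 0) (p (nat_lit 0x101) (nat_lit 0) (p (nat_lit 0x119) (nat_lit 0) (p (nat_lit 0xc1) (nat_lit 0) (p (nat_lit 0x81) (nat_lit 1) (p (nat_lit 0x41) (nat_lit 1) (p (nat_lit 0x10a0b0a89089a) (nat_lit 0) (p (nat_lit 0x898a8a08881a) (nat_lit 0) (p (nat_lit 0x109088988079a) (nat_lit 0) (p (nat_lit 0x88880907871a) (nat_lit 0) (p (nat_lit 0x8000080000000080887068a)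 (nat_lit 0) (p (nat_lit 0x10888068602) (nat_lit 0) (p (nat_lit 0x8807860582) (nat_lit 0) (p (nat_lit 0x10607058502) (nat_lit 0) (p (nat_lit 0x8586850482) (nat_lit 0) (p (nat_lit 0x160004) (nat_lit 0) (p (nat_lit 0x68612) (nat_lit 0) (p (nat_lit 0x50592) (nat_lit 0) (p (nat_lit 0x40512) (nat_lit 0) (p (nat_lit 0x50312) (nat_lit 0) (p (nat_lit 0x38292) (nat_lit 0) (p (nat_lit 0x28212) (nat_lit 0) (p (nat_lit 0x38112) (nat_lit 0) (p (nat_lit 0x20092) (nat_lit 0) (p (nat_lit 0x10012) (nat_lit 0) pn)))))))))))))))))))))))))))))))))))) :=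
  Cl.node (nat_lit 0x101) (nat_lit 2) (by decide +kernel) (ClAll.succ (ClAll.succ ClAll.zero s605) s606)

def n5 : Cl (O (nat_lit 6)) (R (nat_lit 14353))
    (p (nat_lit 0x109) (nat_lit 0) (p (nat_lit 0x41) (nat_lit 0) (p (nat_lit 0x10000c) (nat_lit 0) (p (nat_lit 0xc1) (nat_lit 1) (p (nat_lit 0xb0004) (nat_lit 0) (p (nat_lit 0x20000c) (nat_lit 0) (p (nat_lit 0x380c2) (nat_lit 1) (p (nat_lit 0x444aa) (nat_lit 7) (p (nat_lit 0xd1) (nat_lit 1) (p (nat_lit 0x111) (nat_lit 1) (p (nat_lit 0x109) (nat_lit 0) (p (nat_lit 0x101) (nat_lit 0) (p (nat_lit 0x119) (nat_lit 0) (p (nat_lit 0xc9) (nat_lit 0) (p (nat_lit 0x89) (nat_lit 1) (p (nat_lit 0x41) (nat_lit 0) (p (nat_lit 0x10a0b0a89089a) (nat_lit 0) (p (nat_lit 0x898a8a08881a) (nat_lit 0) (p (nat_lit 0x109088988079a) (nat_lit 0) (p (nat_lit 0x88880907871a) (nat_lit 0) (p (nat_lit 0x8000080000000080887068a) (nat_lit 0) (p (nat_lit 0x10888068602)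 (nat_lit 0) (p (nat_lit 0x8807860582) (nat_lit 0) (p (nat_lit 0x10607058502) (nat_lit 0) (p (nat_lit 0x8586850482) (nat_lit 0) (p (nat_lit 0x160004) (nat_lit 0) (p (nat_lit 0x68612) (nat_lit 0) (p (nat_lit 0x50592) (nat_lit 0) (p (nat_lit 0x40512) (nat_lit 0) (p (nat_lit 0x50312) (nat_lit 0) (p (nat_lit 0x38292) (nat_lit 0) (p (nat_lit 0x28212) (nat_lit 0) (p (nat_lit 0x38112) (nat_lit 0) (p (nat_lit 0x20092) (nat_lit 0) (p (nat_lit 0x10012) (nat_lit 0) pn))))))))))))))))))))))))))))))))))) :=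
  Cl.node (nat_lit 0x89) (nat_lit 2) (by decide +kernel) (ClAll.succ (ClAll.succ ClAll.zero n2) s282)

def n6 : Cl (O (nat_lit 6)) (R (nat_lit 14353))
    (p (nat_lit 0x101) (nat_lit 1) (p (nat_lit 0x41) (nat_lit 1) (p (nat_lit 0xb0004) (nat_lit 0) (p (nat_lit 0xc9) (nat_lit 1) (p (nat_lit 0x10000c) (nat_lit 0) (p (nat_lit 0x20000c) (nat_lit 0) (p (nat_lit 0x380c2) (nat_lit 0) (p (nat_lit 0x3c4aa) (nat_lit 7) (p (nat_lit 0xd1) (nat_lit 1) (p (nat_lit 0x111) (nat_lit 1) (p (nat_lit 0x109) (nat_lit 0) (p (nat_lit 0x101) (nat_lit 0) (p (nat_lit 0x119) (nat_lit 0) (p (nat_lit 0xc1) (nat_lit 0) (p (nat_lit 0x81) (nat_lit 1) (p (nat_lit 0x41) (nat_lit 1) (p (nat_lit 0x10a0b0a89089a) (nat_lit 0) (p (nat_lit 0x898a8a08881a) (nat_lit 0) (p (nat_lit 0x109088988079a) (nat_lit 0) (p (nat_lit 0x88880907871a) (nat_lit 0) (p (nat_lit 0x8000080000000080887068a) (nat_lit 0) (p (nat_lit 0x10888068602)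 (nat_lit 0) (p (nat_lit 0x8807860582) (nat_lit 0) (p (nat_lit 0x10607058502) (nat_lit 0) (p (nat_lit 0x8586850482) (nat_lit 0) (p (nat_lit 0x160004) (nat_lit 0) (p (nat_lit 0x68612) (nat_lit 0) (p (nat_lit 0x50592) (nat_lit 0) (p (nat_lit 0x40512) (nat_lit 0) (p (nat_lit 0x50312) (nat_lit 0) (p (nat_lit 0x38292) (nat_lit 0) (p (nat_lit 0x28212) (nat_lit 0) (p (nat_lit 0x38112) (nat_lit 0) (p (nat_lit 0x20092) (nat_lit 0) (p (nat_lit 0x10012) (nat_lit 0) pn))))))))))))))))))))))))))))))))))) :=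
  Cl.node (nat_lit 0x111) (nat_lit 2) (by decide +kernel) (ClAll.succ (ClAll.succ ClAll.zero s591) n3)

def n7 : Cl (O (nat_lit 6)) (R (nat_lit 14353))
    (p (nat_lit 0x101) (nat_lit 1) (p (nat_lit 0x41) (nat_lit 1) (p (nat_lit 0xb0004) (nat_lit 0) (p (nat_lit 0xc9) (nat_lit 1) (p (nat_lit 0x10000c) (nat_lit 0) (p (nat_lit 0x20000c) (nat_lit 0) (p (nat_lit 0x380c2) (nat_lit 1) (p (nat_lit 0x3c4aa) (nat_lit 7) (p (nat_lit 0xd1) (nat_lit 1) (p (nat_lit 0x111) (nat_lit 1) (p (nat_lit 0x109) (nat_lit 0) (p (nat_lit 0x101) (nat_lit 0) (p (nat_lit 0x119) (nat_lit 0) (p (nat_lit 0xc1) (nat_lit 0) (p (nat_lit 0x81) (nat_lit 1) (p (nat_lit 0x41) (nat_lit 1) (p (nat_lit 0x10a0b0a89089a) (nat_lit 0) (p (nat_lit 0x898a8a08881a) (nat_lit 0) (p (nat_lit 0x109088988079a) (nat_lit 0) (p (nat_lit 0x88880907871a) (nat_lit 0) (p (nat_lit 0x8000080000000080887068a) (nat_lit 0) (p (nat_lit 0x10888068602)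 (nat_lit 0) (p (nat_lit 0x8807860582) (nat_lit 0) (p (nat_lit 0x10607058502) (nat_lit 0) (p (nat_lit 0x8586850482) (nat_lit 0) (p (nat_lit 0x160004) (nat_lit 0) (p (nat_lit 0x68612) (nat_lit 0) (p (nat_lit 0x50592) (nat_lit 0) (p (nat_lit 0x40512) (nat_lit 0) (p (nat_lit 0x50312) (nat_lit 0) (p (nat_lit 0x38292) (nat_lit 0) (p (nat_lit 0x28212) (nat_lit 0) (p (nat_lit 0x38112) (nat_lit 0) (p (nat_lit 0x20092) (nat_lit 0) (p (nat_lit 0x10012) (nat_lit 0) pn))))))))))))))))))))))))))))))))))) :=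
  Cl.node (nat_lit 0x111) (nat_lit 2) (by decide +kernel) (ClAll.succ (ClAll.succ ClAll.zero s604) n4)

def n8 : Cl (O (nat_lit 6)) (R (nat_lit 14353))
    (p (nat_lit 0xd1) (nat_lit 1) (p (nat_lit 0xc1) (nat_lit 0) (p (nat_lit 0x81) (nat_lit 1) (p (nat_lit 0x10000c) (nat_lit 0) (p (nat_lit 0x20000c) (nat_lit 0) (p (nat_lit 0x380c2) (nat_lit 0) (p (nat_lit 0x444aa) (nat_lit 7) (p (nat_lit 0x81) (nat_lit 1) (p (nat_lit 0xc9) (nat_lit 1) (p (nat_lit 0x109) (nat_lit 1) (p (nat_lit 0x101) (nat_lit 0) (p (nat_lit 0x119) (nat_lit 0) (p (nat_lit 0xd1) (nat_lit 0) (p (nat_lit 0x89) (nat_lit 0) (p (nat_lit 0x41) (nat_lit 0) (p (nat_lit 0x10a0b0a89089a) (nat_lit 0) (p (nat_lit 0x898a8a08881a) (nat_lit 0) (p (nat_lit 0x109088988079a) (nat_lit 0) (p (nat_lit 0x88880907871a) (nat_lit 0) (p (nat_lit 0x8000080000000080887068a) (nat_lit 0) (p (nat_lit 0x10888068602) (nat_lit 0) (p (nat_lit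 0x8807860582) (nat_lit 0) (p (nat_lit 0x10607058502) (nat_lit 0) (p (nat_lit 0x8586850482) (nat_lit 0) (p (nat_lit 0x160004) (nat_lit 0) (p (nat_lit 0x68612) (nat_lit 0) (p (nat_lit 0x50592) (nat_lit 0) (p (nat_lit 0x40512) (nat_lit 0) (p (nat_lit 0x50312) (nat_lit 0) (p (nat_lit 0x38292) (nat_lit 0) (p (nat_lit 0x28212) (nat_lit 0) (p (nat_lit 0x38112) (nat_lit 0) (p (nat_lit 0x20092) (nat_lit 0) (p (nat_lit 0x10012) (nat_lit 0) pn)))))))))))))))))))))))))))))))))) :=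
  Cl.node (nat_lit 0xb0004) (nat_lit 2) (by decide +kernel) (ClAll.succ (ClAll.succ ClAll.zero s12) s13)

def n9 : Cl (O (nat_lit 6)) (R (nat_lit 14353))
    (p (nat_lit 0x101) (nat_lit 1) (p (nat_lit 0x119) (nat_lit 0) (p (nat_lit 0xb0004) (nat_lit 0) (p (nat_lit 0x10000c) (nat_lit 0) (p (nat_lit 0x20000c) (nat_lit 0) (p (nat_lit 0x380c2) (nat_lit 0) (p (nat_lit 0x444aa) (nat_lit 7) (p (nat_lit 0x109) (nat_lit 1) (p (nat_lit 0x101) (nat_lit 0) (p (nat_lit 0x81) (nat_lit 1) (p (nat_lit 0xc1) (nat_lit 1) (p (nat_lit 0x119) (nat_lit 1) (p (nat_lit 0xd1) (nat_lit 0) (p (nat_lit 0x89) (nat_lit 0) (p (nat_lit 0x41) (nat_lit 0) (p (nat_lit 0x10a0b0a89089a) (nat_lit 0) (p (nat_lit 0x898a8a08881a) (nat_lit 0) (p (nat_lit 0x109088988079a) (nat_lit 0) (p (nat_lit 0x88880907871a) (nat_lit 0) (p (nat_lit 0x8000080000000080887068a) (nat_lit 0) (p (nat_lit 0x10888068602) (nat_lit 0) (p (nat_lit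 0x8807860582) (nat_lit 0) (p (nat_lit 0x10607058502) (nat_lit 0) (p (nat_lit 0x8586850482) (nat_lit 0) (p (nat_lit 0x160004) (nat_lit 0) (p (nat_lit 0x68612) (nat_lit 0) (p (nat_lit 0x50592) (nat_lit 0) (p (nat_lit 0x40512) (nat_lit 0) (p (nat_lit 0x50312) (nat_lit 0) (p (nat_lit 0x38292) (nat_lit 0) (p (nat_lit 0x28212) (nat_lit 0) (p (nat_lit 0x38112) (nat_lit 0) (p (nat_lit 0x20092) (nat_lit 0) (p (nat_lit 0x10012) (nat_lit 0) pn)))))))))))))))))))))))))))))))))) :=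
  Cl.node (nat_lit 0x3cc2a) (nat_lit 12) (by decide +kernel) (ClAll.succ (ClAll.succ (ClAll.succ (ClAll.succ (ClAll.succ (ClAll.succ (ClAll.succ (ClAll.succ (ClAll.succ (ClAll.succ (ClAll.succ (ClAll.succ ClAll.zero s131) s132) s133) s134) s135) s136) s137) s138) s139) s140) s141) s142)

def n10 : Cl (O (nat_lit 6)) (R (nat_lit 14353))
    (p (nat_lit 0x101) (nat_lit 1) (p (nat_lit 0x119) (nat_lit 0) (p (nat_lit 0x10000c) (nat_lit 0) (p (nat_lit 0xb0004) (nat_lit 0) (p (nat_lit 0x20000c) (nat_lit 0) (p (nat_lit 0x380c2) (nat_lit 1) (p (nat_lit 0x444aa) (nat_lit 7) (p (nat_lit 0x109) (nat_lit 1) (p (nat_lit 0x101) (nat_lit 0) (p (nat_lit 0x81) (nat_lit 1) (p (nat_lit 0xc1) (nat_lit 1) (p (nat_lit 0x119) (nat_lit 1) (p (nat_lit 0xd1) (nat_lit 0) (p (nat_lit 0x89) (nat_lit 0) (p (nat_lit 0x41) (nat_lit 0) (p (nat_lit 0x10a0b0a89089a) (nat_lit 0) (p (nat_lit 0x898a8a08881a) (nat_lit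 0) (p (nat_lit 0x109088988079a) (nat_lit 0) (p (nat_lit 0x88880907871a) (nat_lit 0) (p (nat_lit 0x8000080000000080887068a) (nat_lit 0) (p (nat_lit 0x10888068602) (nat_lit 0) (p (nat_lit 0x8807860582) (nat_lit 0) (p (nat_lit 0x10607058502) (nat_lit 0) (p (nat_lit 0x8586850482) (nat_lit 0) (p (nat_lit 0x160004) (nat_lit 0) (p (nat_lit 0x68612) (nat_lit 0) (p (nat_lit 0x50592) (nat_lit 0) (p (nat_lit 0x40512) (nat_lit 0) (p (nat_lit 0x50312) (nat_lit 0) (p (nat_lit 0x38292) (nat_lit 0) (p (nat_lit 0x28212) (nat_lit 0) (p (nat_lit 0x38112) (nat_lit 0) (p (nat_lit 0x20092) (nat_lit 0) (p (nat_lit 0x10012) (nat_lit 0) pn)))))))))))))))))))))))))))))))))) :=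
  Cl.node (nat_lit 0x3cc2a) (nat_lit 12) (by decide +kernel) (ClAll.succ (ClAll.succ (ClAll.succ (ClAll.succ (ClAll.succ (ClAll.succ (ClAll.succ (ClAll.succ (ClAll.succ (ClAll.succ (ClAll.succ (ClAll.succ ClAll.zero s148) s149) s150) s151) s152) s153) s154) s155) s156) s157) s158) s159)

def n11 : Cl (O (nat_lit 6)) (R (nat_lit 14353))
    (p (nat_lit 0x41) (nat_lit 0) (p (nat_lit 0x10000c) (nat_lit 0) (p (nat_lit 0xc1) (nat_lit 1) (p (nat_lit 0xb0004) (nat_lit 0) (p (nat_lit 0x20000c) (nat_lit 0) (p (nat_lit 0x380c2) (nat_lit 1) (p (nat_lit 0x444aa) (nat_lit 7) (p (nat_lit 0xd1) (nat_lit 1) (p (nat_lit 0x111) (nat_lit 1) (p (nat_lit 0x109) (nat_lit 0) (p (nat_lit 0x101) (nat_lit 0) (p (nat_lit 0x119) (nat_lit 0) (p (nat_lit 0xc9) (nat_lit 0) (p (nat_lit 0x89) (nat_lit 1) (p (nat_lit 0x41) (nat_lit 0) (p (nat_lit 0x10a0b0a89089a) (nat_lit 0) (p (nat_lit 0x898a8a08881a) (nat_lit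 0) (p (nat_lit 0x109088988079a) (nat_lit 0) (p (nat_lit 0x88880907871a) (nat_lit 0) (p (nat_lit 0x8000080000000080887068a) (nat_lit 0) (p (nat_lit 0x10888068602) (nat_lit 0) (p (nat_lit 0x8807860582) (nat_lit 0) (p (nat_lit 0x10607058502) (nat_lit 0) (p (nat_lit 0x8586850482) (nat_lit 0) (p (nat_lit 0x160004) (nat_lit 0) (p (nat_lit 0x68612) (nat_lit 0) (p (nat_lit 0x50592) (nat_lit 0) (p (nat_lit 0x40512) (nat_lit 0) (p (nat_lit 0x50312) (nat_lit 0) (p (nat_lit 0x38292) (nat_lit 0) (p (nat_lit 0x28212) (nat_lit 0) (p (nat_lit 0x38112) (nat_lit 0) (p (nat_lit 0x20092) (nat_lit 0) (p (nat_lit 0x10012) (nat_lit 0) pn)))))))))))))))))))))))))))))))))) :=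
  Cl.node (nat_lit 0x109) (nat_lit 2) (by decide +kernel) (ClAll.succ (ClAll.succ ClAll.zero n5) s283)

def n12 : Cl (O (nat_lit 6)) (R (nat_lit 14353))
    (p (nat_lit 0x101) (nat_lit 1) (p (nat_lit 0x119) (nat_lit 0) (p (nat_lit 0xb0004) (nat_lit 0) (p (nat_lit 0x109) (nat_lit 0) (p (nat_lit 0x10000c) (nat_lit 0) (p (nat_lit 0x20000c) (nat_lit 0) (p (nat_lit 0x380c2) (nat_lit 0) (p (nat_lit 0x444aa) (nat_lit 7) (p (nat_lit 0x111) (nat_lit 1) (p (nat_lit 0x101) (nat_lit 0) (p (nat_lit 0xc1) (nat_lit 1) (p (nat_lit 0x119) (nat_lit 1) (p (nat_lit 0xc9) (nat_lit 0) (p (nat_lit 0x89) (nat_lit 1) (p (nat_lit 0x41) (nat_lit 0) (p (nat_lit 0x10a0b0a89089a) (nat_lit 0) (p (nat_lit 0x898a8a08881a) (nat_lit 0) (p (nat_lit 0x109088988079a) (nat_lit 0) (p (nat_lit 0x88880907871a) (nat_lit 0) (p (nat_lit 0x8000080000000080887068a) (nat_lit 0) (p (nat_lit 0x10888068602) (nat_lit 0) (p (nat_lit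 0x8807860582) (nat_lit 0) (p (nat_lit 0x10607058502) (nat_lit 0) (p (nat_lit 0x8586850482) (nat_lit 0) (p (nat_lit 0x160004) (nat_lit 0) (p (nat_lit 0x68612) (nat_lit 0) (p (nat_lit 0x50592) (nat_lit 0) (p (nat_lit 0x40512) (nat_lit 0) (p (nat_lit 0x50312) (nat_lit 0) (p (nat_lit 0x38292) (nat_lit 0) (p (nat_lit 0x28212) (nat_lit 0) (p (nat_lit 0x38112) (nat_lit 0) (p (nat_lit 0x20092) (nat_lit 0) (p (nat_lit 0x10012) (nat_lit 0) pn)))))))))))))))))))))))))))))))))) :=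
  Cl.node (nat_lit 0x3cc2a) (nat_lit 12) (by decide +kernel) (ClAll.succ (ClAll.succ (ClAll.succ (ClAll.succ (ClAll.succ (ClAll.succ (ClAll.succ (ClAll.succ (ClAll.succ (ClAll.succ (ClAll.succ (ClAll.succ ClAll.zero s383) s384) s385) s386) s387) s388) s389) s390) s391) s392) s393) s394)

def n13 : Cl (O (nat_lit 6)) (R (nat_lit 14353))
    (p (nat_lit 0x8000c) (nat_lit 0) (p (nat_lit 0x200014) (nat_lit 0) (p (nat_lit 0xc9) (nat_lit 0) (p (nat_lit 0x10000c) (nat_lit 0) (p (nat_lit 0x20000c) (nat_lit 0) (p (nat_lit 0x380c2) (nat_lit 0) (p (nat_lit 0x3c4aa) (nat_lit 7) (p (nat_lit 0xd1) (nat_lit 1) (p (nat_lit 0x111) (nat_lit 1) (p (nat_lit 0x109) (nat_lit 0) (p (nat_lit 0x101) (nat_lit 0) (p (nat_lit 0x119) (nat_lit 0) (p (nat_lit 0xc1) (nat_lit 0) (p (nat_lit 0x81) (nat_lit 1) (p (nat_lit 0x41) (nat_lit 1) (p (nat_lit 0x10a0b0a89089a) (nat_lit 0) (p (nat_lit 0x898a8a08881a) (nat_lit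 0) (p (nat_lit 0x109088988079a) (nat_lit 0) (p (nat_lit 0x88880907871a) (nat_lit 0) (p (nat_lit 0x8000080000000080887068a) (nat_lit 0) (p (nat_lit 0x10888068602) (nat_lit 0) (p (nat_lit 0x8807860582) (nat_lit 0) (p (nat_lit 0x10607058502) (nat_lit 0) (p (nat_lit 0x8586850482) (nat_lit 0) (p (nat_lit 0x160004) (nat_lit 0) (p (nat_lit 0x68612) (nat_lit 0) (p (nat_lit 0x50592) (nat_lit 0) (p (nat_lit 0x40512) (nat_lit 0) (p (nat_lit 0x50312) (nat_lit 0) (p (nat_lit 0x38292) (nat_lit 0) (p (nat_lit 0x28212) (nat_lit 0) (p (nat_lit 0x38112) (nat_lit 0) (p (nat_lit 0x20092) (nat_lit 0) (p (nat_lit 0x10012) (nat_lit 0) pn)))))))))))))))))))))))))))))))))) :=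
  Cl.node (nat_lit 0xb0004) (nat_lit 2) (by decide +kernel) (ClAll.succ (ClAll.succ ClAll.zero s583) s584)

def n14 : Cl (O (nat_lit 6)) (R (nat_lit 14353))
    (p (nat_lit 0xb0004) (nat_lit 0) (p (nat_lit 0x200014) (nat_lit 1) (p (nat_lit 0xc9) (nat_lit 0) (p (nat_lit 0x10000c) (nat_lit 0) (p (nat_lit 0x20000c) (nat_lit 0) (p (nat_lit 0x380c2) (nat_lit 0) (p (nat_lit 0x3c4aa) (nat_lit 7) (p (nat_lit 0xd1) (nat_lit 1) (p (nat_lit 0x111) (nat_lit 1) (p (nat_lit 0x109) (nat_lit 0) (p (nat_lit 0x101) (nat_lit 0) (p (nat_lit 0x119) (nat_lit 0) (p (nat_lit 0xc1) (nat_lit 0) (p (nat_lit 0x81) (nat_lit 1) (p (nat_lit 0x41) (nat_lit 1) (p (nat_lit 0x10a0b0a89089a) (nat_lit 0) (p (nat_lit 0x898a8a08881a) (nat_lit 0) (p (nat_lit 0x109088988079a) (nat_lit 0) (p (nat_lit 0x88880907871a) (nat_lit 0) (p (nat_lit 0x8000080000000080887068a) (nat_lit 0) (p (nat_lit 0x10888068602) (nat_lit 0)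 (p (nat_lit 0x8807860582) (nat_lit 0) (p (nat_lit 0x10607058502) (nat_lit 0) (p (nat_lit 0x8586850482) (nat_lit 0) (p (nat_lit 0x160004) (nat_lit 0) (p (nat_lit 0x68612) (nat_lit 0) (p (nat_lit 0x50592) (nat_lit 0) (p (nat_lit 0x40512) (nat_lit 0) (p (nat_lit 0x50312) (nat_lit 0) (p (nat_lit 0x38292) (nat_lit 0) (p (nat_lit 0x28212) (nat_lit 0) (p (nat_lit 0x38112) (nat_lit 0) (p (nat_lit 0x20092) (nat_lit 0) (p (nat_lit 0x10012) (nat_lit 0) pn)))))))))))))))))))))))))))))))))) :=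
  Cl.node (nat_lit 0x8000c) (nat_lit 2) (by decide +kernel) (ClAll.succ (ClAll.succ ClAll.zero s586) s587)

def n15 : Cl (O (nat_lit 6)) (R (nat_lit 14353))
    (p (nat_lit 0x41) (nat_lit 1) (p (nat_lit 0xb0004) (nat_lit 0) (p (nat_lit 0xc9) (nat_lit 1) (p (nat_lit 0x10000c) (nat_lit 0) (p (nat_lit 0x20000c) (nat_lit 0) (p (nat_lit 0x380c2) (nat_lit 0) (p (nat_lit 0x3c4aa) (nat_lit 7) (p (nat_lit 0xd1) (nat_lit 1) (p (nat_lit 0x111) (nat_lit 1) (p (nat_lit 0x109) (nat_lit 0) (p (nat_lit 0x101) (nat_lit 0) (p (nat_lit 0x119) (nat_lit 0) (p (nat_lit 0xc1) (nat_lit 0) (p (nat_lit 0x81) (nat_lit 1) (p (nat_lit 0x41) (nat_lit 1) (p (nat_lit 0x10a0b0a89089a) (nat_lit 0) (p (nat_lit 0x898a8a08881a) (nat_lit 0) (p (nat_lit 0x109088988079a) (nat_lit 0) (p (nat_lit 0x88880907871a) (nat_lit 0) (p (nat_lit 0x8000080000000080887068a) (nat_lit 0) (p (nat_lit 0x10888068602) (nat_lit 0) (p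 (nat_lit 0x8807860582) (nat_lit 0) (p (nat_lit 0x10607058502) (nat_lit 0) (p (nat_lit 0x8586850482) (nat_lit 0) (p (nat_lit 0x160004) (nat_lit 0) (p (nat_lit 0x68612) (nat_lit 0) (p (nat_lit 0x50592) (nat_lit 0) (p (nat_lit 0x40512) (nat_lit 0) (p (nat_lit 0x50312) (nat_lit 0) (p (nat_lit 0x38292) (nat_lit 0) (p (nat_lit 0x28212) (nat_lit 0) (p (nat_lit 0x38112) (nat_lit 0) (p (nat_lit 0x20092) (nat_lit 0) (p (nat_lit 0x10012) (nat_lit 0) pn)))))))))))))))))))))))))))))))))) :=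
  Cl.node (nat_lit 0x101) (nat_lit 2) (by decide +kernel) (ClAll.succ (ClAll.succ ClAll.zero s590) n6)

def n16 : Cl (O (nat_lit 6)) (R (nat_lit 14353))
    (p (nat_lit 0xb0004) (nat_lit 0) (p (nat_lit 0xc1) (nat_lit 1) (p (nat_lit 0xc9) (nat_lit 0) (p (nat_lit 0x10000c) (nat_lit 0) (p (nat_lit 0x20000c) (nat_lit 0) (p (nat_lit 0x380c2) (nat_lit 1) (p (nat_lit 0x3c4aa) (nat_lit 7) (p (nat_lit 0xd1) (nat_lit 1) (p (nat_lit 0x111) (nat_lit 1) (p (nat_lit 0x109) (nat_lit 0) (p (nat_lit 0x101) (nat_lit 0) (p (nat_lit 0x119) (nat_lit 0) (p (nat_lit 0xc1) (nat_lit 0) (p (nat_lit 0x81) (nat_lit 1) (p (nat_lit 0x41) (nat_lit 1) (p (nat_lit 0x10a0b0a89089a) (nat_lit 0) (p (nat_lit 0x898a8a08881a) (nat_lit 0) (p (nat_lit 0x109088988079a) (nat_lit 0) (p (nat_lit 0x88880907871a) (nat_lit 0) (p (nat_lit 0x8000080000000080887068a) (nat_lit 0) (p (nat_lit 0x10888068602) (nat_lit 0) (p (nat_lit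 0x8807860582) (nat_lit 0) (p (nat_lit 0x10607058502) (nat_lit 0) (p (nat_lit 0x8586850482) (nat_lit 0) (p (nat_lit 0x160004) (nat_lit 0) (p (nat_lit 0x68612) (nat_lit 0) (p (nat_lit 0x50592) (nat_lit 0) (p (nat_lit 0x40512) (nat_lit 0) (p (nat_lit 0x50312) (nat_lit 0) (p (nat_lit 0x38292) (nat_lit 0) (p (nat_lit 0x28212) (nat_lit 0) (p (nat_lit 0x38112) (nat_lit 0) (p (nat_lit 0x20092) (nat_lit 0) (p (nat_lit 0x10012) (nat_lit 0) pn)))))))))))))))))))))))))))))))))) :=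
  Cl.node (nat_lit 0x119) (nat_lit 2) (by decide +kernel) (ClAll.succ (ClAll.succ ClAll.zero s599) s600)

def n17 : Cl (O (nat_lit 6)) (R (nat_lit 14353))
    (p (nat_lit 0x41) (nat_lit 1) (p (nat_lit 0xb0004) (nat_lit 0) (p (nat_lit 0xc9) (nat_lit 1) (p (nat_lit 0x10000c) (nat_lit 0) (p (nat_lit 0x20000c) (nat_lit 0) (p (nat_lit 0x380c2) (nat_lit 1) (p (nat_lit 0x3c4aa) (nat_lit 7) (p (nat_lit 0xd1) (nat_lit 1) (p (nat_lit 0x111) (nat_lit 1) (p (nat_lit 0x109) (nat_lit 0) (p (nat_lit 0x101) (nat_lit 0) (p (nat_lit 0x119) (nat_lit 0) (p (nat_lit 0xc1) (nat_lit 0) (p (nat_lit 0x81) (nat_lit 1) (p (nat_lit 0x41) (nat_lit 1) (p (nat_lit 0x10a0b0a89089a) (nat_lit 0) (p (nat_lit 0x898a8a08881a) (nat_lit 0) (p (nat_lit 0x109088988079a) (nat_lit 0) (p (nat_lit 0x88880907871a) (nat_lit 0) (p (nat_lit 0x8000080000000080887068a) (nat_lit 0) (p (nat_lit 0x10888068602) (nat_lit 0) (p (nat_lit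 0x8807860582) (nat_lit 0) (p (nat_lit 0x10607058502) (nat_lit 0) (p (nat_lit 0x8586850482) (nat_lit 0) (p (nat_lit 0x160004) (nat_lit 0) (p (nat_lit 0x68612) (nat_lit 0) (p (nat_lit 0x50592) (nat_lit 0) (p (nat_lit 0x40512) (nat_lit 0) (p (nat_lit 0x50312) (nat_lit 0) (p (nat_lit 0x38292) (nat_lit 0) (p (nat_lit 0x28212) (nat_lit 0) (p (nat_lit 0x38112) (nat_lit 0) (p (nat_lit 0x20092) (nat_lit 0) (p (nat_lit 0x10012) (nat_lit 0) pn)))))))))))))))))))))))))))))))))) :=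
  Cl.node (nat_lit 0x101) (nat_lit 2) (by decide +kernel) (ClAll.succ (ClAll.succ ClAll.zero s603) n7)

def n18 : Cl (O (nat_lit 6)) (R (nat_lit 14353))
    (p (nat_lit 0x20000c) (nat_lit 0) (p (nat_lit 0x58004) (nat_lit 0) (p (nat_lit 0x300014) (nat_lit 1) (p (nat_lit 0x200014) (nat_lit 1) (p (nat_lit 0xb0004) (nat_lit 0) (p (nat_lit 0x380c2) (nat_lit 0) (p (nat_lit 0x3c4aa) (nat_lit 8) (p (nat_lit 0xd1) (nat_lit 1) (p (nat_lit 0x111) (nat_lit 1) (p (nat_lit 0x109) (nat_lit 0) (p (nat_lit 0x101) (nat_lit 0) (p (nat_lit 0x119) (nat_lit 0) (p (nat_lit 0xc1) (nat_lit 0) (p (nat_lit 0x81) (nat_lit 1) (p (nat_lit 0x41) (nat_lit 1) (p (nat_lit 0x10a0b0a89089a) (nat_lit 0) (p (nat_lit 0x898a8a08881a) (nat_lit 0) (p (nat_lit 0x109088988079a) (nat_lit 0) (p (nat_lit 0x88880907871a) (nat_lit 0) (p (nat_lit 0x8000080000000080887068a) (nat_lit 0) (p (nat_lit 0x10888068602) (nat_lit 0)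 (p (nat_lit 0x8807860582) (nat_lit 0) (p (nat_lit 0x10607058502) (nat_lit 0) (p (nat_lit 0x8586850482) (nat_lit 0) (p (nat_lit 0x160004) (nat_lit 0) (p (nat_lit 0x68612) (nat_lit 0) (p (nat_lit 0x50592) (nat_lit 0) (p (nat_lit 0x40512) (nat_lit 0) (p (nat_lit 0x50312) (nat_lit 0) (p (nat_lit 0x38292) (nat_lit 0) (p (nat_lit 0x28212) (nat_lit 0) (p (nat_lit 0x38112) (nat_lit 0) (p (nat_lit 0x20092) (nat_lit 0) (p (nat_lit 0x10012) (nat_lit 0) pn)))))))))))))))))))))))))))))))))) :=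
  Cl.node (nat_lit 0x380014) (nat_lit 2) (by decide +kernel) (ClAll.succ (ClAll.succ ClAll.zero s612) s613)

def n19 : Cl (O (nat_lit 6)) (R (nat_lit 14353))
    (p (nat_lit 0xc1) (nat_lit 0) (p (nat_lit 0x81) (nat_lit 1) (p (nat_lit 0x10000c) (nat_lit 0) (p (nat_lit 0x20000c) (nat_lit 0) (p (nat_lit 0x380c2) (nat_lit 0) (p (nat_lit 0x444aa) (nat_lit 7) (p (nat_lit 0x81) (nat_lit 1) (p (nat_lit 0xc9) (nat_lit 1) (p (nat_lit 0x109) (nat_lit 1) (p (nat_lit 0x101) (nat_lit 0) (p (nat_lit 0x119) (nat_lit 0) (p (nat_lit 0xd1) (nat_lit 0) (p (nat_lit 0x89) (nat_lit 0) (p (nat_lit 0x41) (nat_lit 0) (p (nat_lit 0x10a0b0a89089a) (nat_lit 0) (p (nat_lit 0x898a8a08881a) (nat_lit 0) (p (nat_lit 0x109088988079a) (nat_lit 0) (p (nat_lit 0x88880907871a) (nat_lit 0) (p (nat_lit 0x8000080000000080887068a) (nat_lit 0) (p (nat_lit 0x10888068602) (nat_lit 0) (p (nat_lit 0x8807860582) (nat_lit 0)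 (p (nat_lit 0x10607058502) (nat_lit 0) (p (nat_lit 0x8586850482) (nat_lit 0) (p (nat_lit 0x160004) (nat_lit 0) (p (nat_lit 0x68612) (nat_lit 0) (p (nat_lit 0x50592) (nat_lit 0) (p (nat_lit 0x40512) (nat_lit 0) (p (nat_lit 0x50312) (nat_lit 0) (p (nat_lit 0x38292) (nat_lit 0) (p (nat_lit 0x28212) (nat_lit 0) (p (nat_lit 0x38112) (nat_lit 0) (p (nat_lit 0x20092) (nat_lit 0) (p (nat_lit 0x10012) (nat_lit 0) pn))))))))))))))))))))))))))))))))) :=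
  Cl.node (nat_lit 0xd1) (nat_lit 2) (by decide +kernel) (ClAll.succ (ClAll.succ ClAll.zero s11) n8)

def n20 : Cl (O (nat_lit 6)) (R (nat_lit 14353))
    (p (nat_lit 0x119) (nat_lit 0) (p (nat_lit 0xb0004) (nat_lit 0) (p (nat_lit 0x10000c) (nat_lit 0) (p (nat_lit 0x20000c) (nat_lit 0) (p (nat_lit 0x380c2) (nat_lit 0) (p (nat_lit 0x444aa) (nat_lit 7) (p (nat_lit 0x109) (nat_lit 1) (p (nat_lit 0x101) (nat_lit 0) (p (nat_lit 0x81) (nat_lit 1) (p (nat_lit 0xc1) (nat_lit 1) (p (nat_lit 0x119) (nat_lit 1) (p (nat_lit 0xd1) (nat_lit 0) (p (nat_lit 0x89) (nat_lit 0) (p (nat_lit 0x41) (nat_lit 0) (p (nat_lit 0x10a0b0a89089a) (nat_lit 0) (p (nat_lit 0x898a8a08881a) (nat_lit 0) (p (nat_lit 0x109088988079a) (nat_lit 0) (p (nat_lit 0x88880907871a) (nat_lit 0) (p (nat_lit 0x8000080000000080887068a) (nat_lit 0) (p (nat_lit 0x10888068602) (nat_lit 0) (p (nat_lit 0x8807860582) (nat_lit 0) (p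 (nat_lit 0x10607058502) (nat_lit 0) (p (nat_lit 0x8586850482) (nat_lit 0) (p (nat_lit 0x160004) (nat_lit 0) (p (nat_lit 0x68612) (nat_lit 0) (p (nat_lit 0x50592) (nat_lit 0) (p (nat_lit 0x40512) (nat_lit 0) (p (nat_lit 0x50312) (nat_lit 0) (p (nat_lit 0x38292) (nat_lit 0) (p (nat_lit 0x28212) (nat_lit 0) (p (nat_lit 0x38112) (nat_lit 0) (p (nat_lit 0x20092) (nat_lit 0) (p (nat_lit 0x10012) (nat_lit 0) pn))))))))))))))))))))))))))))))))) :=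
  Cl.node (nat_lit 0x101) (nat_lit 2) (by decide +kernel) (ClAll.succ (ClAll.succ ClAll.zero s130) n9)

def n21 : Cl (O (nat_lit 6)) (R (nat_lit 14353))
    (p (nat_lit 0x119) (nat_lit 0) (p (nat_lit 0x10000c) (nat_lit 0) (p (nat_lit 0xb0004) (nat_lit 0) (p (nat_lit 0x20000c) (nat_lit 0) (p (nat_lit 0x380c2) (nat_lit 1) (p (nat_lit 0x444aa) (nat_lit 7) (p (nat_lit 0x109) (nat_lit 1) (p (nat_lit 0x101) (nat_lit 0) (p (nat_lit 0x81) (nat_lit 1) (p (nat_lit 0xc1) (nat_lit 1) (p (nat_lit 0x119) (nat_lit 1) (p (nat_lit 0xd1) (nat_lit 0) (p (nat_lit 0x89) (nat_lit 0) (p (nat_lit 0x41) (nat_lit 0) (p (nat_lit 0x10a0b0a89089a) (nat_lit 0) (p (nat_lit 0x898a8a08881a) (nat_lit 0) (p (nat_lit 0x109088988079a) (nat_lit 0) (p (nat_lit 0x88880907871a) (nat_lit 0) (p (nat_lit 0x8000080000000080887068a) (nat_lit 0) (p (nat_lit 0x10888068602) (nat_lit 0) (p (nat_lit 0x8807860582) (nat_lit 0)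 (p (nat_lit 0x10607058502) (nat_lit 0) (p (nat_lit 0x8586850482) (nat_lit 0) (p (nat_lit 0x160004) (nat_lit 0) (p (nat_lit 0x68612) (nat_lit 0) (p (nat_lit 0x50592) (nat_lit 0) (p (nat_lit 0x40512) (nat_lit 0) (p (nat_lit 0x50312) (nat_lit 0) (p (nat_lit 0x38292) (nat_lit 0) (p (nat_lit 0x28212) (nat_lit 0) (p (nat_lit 0x38112) (nat_lit 0) (p (nat_lit 0x20092) (nat_lit 0) (p (nat_lit 0x10012) (nat_lit 0) pn))))))))))))))))))))))))))))))))) :=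
  Cl.node (nat_lit 0x101) (nat_lit 2) (by decide +kernel) (ClAll.succ (ClAll.succ ClAll.zero s147) n10)

def n22 : Cl (O (nat_lit 6)) (R (nat_lit 14353))
    (p (nat_lit 0x10000c) (nat_lit 0) (p (nat_lit 0xc1) (nat_lit 1) (p (nat_lit 0xb0004) (nat_lit 0) (p (nat_lit 0x20000c) (nat_lit 0) (p (nat_lit 0x380c2) (nat_lit 1) (p (nat_lit 0x444aa) (nat_lit 7) (p (nat_lit 0xd1) (nat_lit 1) (p (nat_lit 0x111) (nat_lit 1) (p (nat_lit 0x109) (nat_lit 0) (p (nat_lit 0x101) (nat_lit 0) (p (nat_lit 0x119) (nat_lit 0) (p (nat_lit 0xc9) (nat_lit 0) (p (nat_lit 0x89) (nat_lit 1) (p (nat_lit 0x41) (nat_lit 0) (p (nat_lit 0x10a0b0a89089a) (nat_lit 0) (p (nat_lit 0x898a8a08881a) (nat_lit 0) (p (nat_lit 0x109088988079a) (nat_lit 0) (p (nat_lit 0x88880907871a) (nat_lit 0) (p (nat_lit 0x8000080000000080887068a) (nat_lit 0) (p (nat_lit 0x10888068602) (nat_lit 0) (p (nat_lit 0x8807860582) (nat_lit 0)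 (p (nat_lit 0x10607058502) (nat_lit 0) (p (nat_lit 0x8586850482) (nat_lit 0) (p (nat_lit 0x160004) (nat_lit 0) (p (nat_lit 0x68612) (nat_lit 0) (p (nat_lit 0x50592) (nat_lit 0) (p (nat_lit 0x40512) (nat_lit 0) (p (nat_lit 0x50312) (nat_lit 0) (p (nat_lit 0x38292) (nat_lit 0) (p (nat_lit 0x28212) (nat_lit 0) (p (nat_lit 0x38112) (nat_lit 0) (p (nat_lit 0x20092) (nat_lit 0) (p (nat_lit 0x10012) (nat_lit 0) pn))))))))))))))))))))))))))))))))) :=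
  Cl.node (nat_lit 0x41) (nat_lit 2) (by decide +kernel) (ClAll.succ (ClAll.succ ClAll.zero n11) s284)

def n23 : Cl (O (nat_lit 6)) (R (nat_lit 14353))
    (p (nat_lit 0x10000c) (nat_lit 0) (p (nat_lit 0x1fc014) (nat_lit 0) (p (nat_lit 0xb0004) (nat_lit 1) (p (nat_lit 0x20000c) (nat_lit 0) (p (nat_lit 0x380c2) (nat_lit 1) (p (nat_lit 0x444aa) (nat_lit 7) (p (nat_lit 0xd1) (nat_lit 1) (p (nat_lit 0x111) (nat_lit 1) (p (nat_lit 0x109) (nat_lit 0) (p (nat_lit 0x101) (nat_lit 0) (p (nat_lit 0x119) (nat_lit 0) (p (nat_lit 0xc9) (nat_lit 0) (p (nat_lit 0x89) (nat_lit 1) (p (nat_lit 0x41) (nat_lit 0) (p (nat_lit 0x10a0b0a89089a) (nat_lit 0) (p (nat_lit 0x898a8a08881a) (nat_lit 0) (p (nat_lit 0x109088988079a) (nat_lit 0) (p (nat_lit 0x88880907871a) (nat_lit 0) (p (nat_lit 0x8000080000000080887068a) (nat_lit 0) (p (nat_lit 0x10888068602) (nat_lit 0) (p (nat_lit 0x8807860582) (nat_lit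 0) (p (nat_lit 0x10607058502) (nat_lit 0) (p (nat_lit 0x8586850482) (nat_lit 0) (p (nat_lit 0x160004) (nat_lit 0) (p (nat_lit 0x68612) (nat_lit 0) (p (nat_lit 0x50592) (nat_lit 0) (p (nat_lit 0x40512) (nat_lit 0) (p (nat_lit 0x50312) (nat_lit 0) (p (nat_lit 0x38292) (nat_lit 0) (p (nat_lit 0x28212) (nat_lit 0) (p (nat_lit 0x38112) (nat_lit 0) (p (nat_lit 0x20092) (nat_lit 0) (p (nat_lit 0x10012) (nat_lit 0) pn))))))))))))))))))))))))))))))))) :=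
  Cl.node (nat_lit 0x108004) (nat_lit 2) (by decide +kernel) (ClAll.succ (ClAll.succ ClAll.zero s286) s287)

def n24 : Cl (O (nat_lit 6)) (R (nat_lit 14353))
    (p (nat_lit 0x119) (nat_lit 0) (p (nat_lit 0xb0004) (nat_lit 0) (p (nat_lit 0x109) (nat_lit 0) (p (nat_lit 0x10000c) (nat_lit 0) (p (nat_lit 0x20000c) (nat_lit 0) (p (nat_lit 0x380c2) (nat_lit 0) (p (nat_lit 0x444aa) (nat_lit 7) (p (nat_lit 0x111) (nat_lit 1) (p (nat_lit 0x101) (nat_lit 0) (p (nat_lit 0xc1) (nat_lit 1) (p (nat_lit 0x119) (nat_lit 1) (p (nat_lit 0xc9) (nat_lit 0) (p (nat_lit 0x89) (nat_lit 1) (p (nat_lit 0x41) (nat_lit 0) (p (nat_lit 0x10a0b0a89089a) (nat_lit 0) (p (nat_lit 0x898a8a08881a) (nat_lit 0) (p (nat_lit 0x109088988079a) (nat_lit 0) (p (nat_lit 0x88880907871a) (nat_lit 0) (p (nat_lit 0x8000080000000080887068a) (nat_lit 0) (p (nat_lit 0x10888068602) (nat_lit 0) (p (nat_lit 0x8807860582) (nat_lit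 0) (p (nat_lit 0x10607058502) (nat_lit 0) (p (nat_lit 0x8586850482) (nat_lit 0) (p (nat_lit 0x160004) (nat_lit 0) (p (nat_lit 0x68612) (nat_lit 0) (p (nat_lit 0x50592) (nat_lit 0) (p (nat_lit 0x40512) (nat_lit 0) (p (nat_lit 0x50312) (nat_lit 0) (p (nat_lit 0x38292) (nat_lit 0) (p (nat_lit 0x28212) (nat_lit 0) (p (nat_lit 0x38112) (nat_lit 0) (p (nat_lit 0x20092) (nat_lit 0) (p (nat_lit 0x10012) (nat_lit 0) pn))))))))))))))))))))))))))))))))) :=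
  Cl.node (nat_lit 0x101) (nat_lit 2) (by decide +kernel) (ClAll.succ (ClAll.succ ClAll.zero s382) n12)

def n25 : Cl (O (nat_lit 6)) (R (nat_lit 14353))
    (p (nat_lit 0x119) (nat_lit 0) (p (nat_lit 0x10000c) (nat_lit 0) (p (nat_lit 0x109) (nat_lit 0) (p (nat_lit 0xb0004) (nat_lit 0) (p (nat_lit 0x20000c) (nat_lit 0) (p (nat_lit 0x380c2) (nat_lit 1) (p (nat_lit 0x444aa) (nat_lit 7) (p (nat_lit 0x111) (nat_lit 1) (p (nat_lit 0x101) (nat_lit 0) (p (nat_lit 0xc1) (nat_lit 1) (p (nat_lit 0x119) (nat_lit 1) (p (nat_lit 0xc9) (nat_lit 0) (p (nat_lit 0x89) (nat_lit 1) (p (nat_lit 0x41) (nat_lit 0) (p (nat_lit 0x10a0b0a89089a) (nat_lit 0) (p (nat_lit 0x898a8a08881a) (nat_lit 0) (p (nat_lit 0x109088988079a) (nat_lit 0) (p (nat_lit 0x88880907871a) (nat_lit 0) (p (nat_lit 0x8000080000000080887068a) (nat_lit 0) (p (nat_lit 0x10888068602) (nat_lit 0) (p (nat_lit 0x8807860582) (nat_lit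 0) (p (nat_lit 0x10607058502) (nat_lit 0) (p (nat_lit 0x8586850482) (nat_lit 0) (p (nat_lit 0x160004) (nat_lit 0) (p (nat_lit 0x68612) (nat_lit 0) (p (nat_lit 0x50592) (nat_lit 0) (p (nat_lit 0x40512) (nat_lit 0) (p (nat_lit 0x50312) (nat_lit 0) (p (nat_lit 0x38292) (nat_lit 0) (p (nat_lit 0x28212) (nat_lit 0) (p (nat_lit 0x38112) (nat_lit 0) (p (nat_lit 0x20092) (nat_lit 0) (p (nat_lit 0x10012) (nat_lit 0) pn))))))))))))))))))))))))))))))))) :=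
  Cl.node (nat_lit 0x101) (nat_lit 2) (by decide +kernel) (ClAll.succ (ClAll.succ ClAll.zero s400) s401)

def n26 : Cl (O (nat_lit 6)) (R (nat_lit 14353))
    (p (nat_lit 0x200014) (nat_lit 0) (p (nat_lit 0xc9) (nat_lit 0) (p (nat_lit 0x10000c) (nat_lit 0) (p (nat_lit 0x20000c) (nat_lit 0) (p (nat_lit 0x380c2) (nat_lit 0) (p (nat_lit 0x3c4aa) (nat_lit 7) (p (nat_lit 0xd1) (nat_lit 1) (p (nat_lit 0x111) (nat_lit 1) (p (nat_lit 0x109) (nat_lit 0) (p (nat_lit 0x101) (nat_lit 0) (p (nat_lit 0x119) (nat_lit 0) (p (nat_lit 0xc1) (nat_lit 0) (p (nat_lit 0x81) (nat_lit 1) (p (nat_lit 0x41) (nat_lit 1) (p (nat_lit 0x10a0b0a89089a) (nat_lit 0) (p (nat_lit 0x898a8a08881a) (nat_lit 0) (p (nat_lit 0x109088988079a) (nat_lit 0) (p (nat_lit 0x88880907871a) (nat_lit 0) (p (nat_lit 0x8000080000000080887068a) (nat_lit 0) (p (nat_lit 0x10888068602) (nat_lit 0) (p (nat_lit 0x8807860582) (nat_lit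 0) (p (nat_lit 0x10607058502) (nat_lit 0) (p (nat_lit 0x8586850482) (nat_lit 0) (p (nat_lit 0x160004) (nat_lit 0) (p (nat_lit 0x68612) (nat_lit 0) (p (nat_lit 0x50592) (nat_lit 0) (p (nat_lit 0x40512) (nat_lit 0) (p (nat_lit 0x50312) (nat_lit 0) (p (nat_lit 0x38292) (nat_lit 0) (p (nat_lit 0x28212) (nat_lit 0) (p (nat_lit 0x38112) (nat_lit 0) (p (nat_lit 0x20092) (nat_lit 0) (p (nat_lit 0x10012) (nat_lit 0) pn))))))))))))))))))))))))))))))))) :=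
  Cl.node (nat_lit 0x8000c) (nat_lit 2) (by decide +kernel) (ClAll.succ (ClAll.succ ClAll.zero n13) s585)

def n27 : Cl (O (nat_lit 6)) (R (nat_lit 14353))
    (p (nat_lit 0x200014) (nat_lit 1) (p (nat_lit 0xc9) (nat_lit 0) (p (nat_lit 0x10000c) (nat_lit 0) (p (nat_lit 0x20000c) (nat_lit 0) (p (nat_lit 0x380c2) (nat_lit 0) (p (nat_lit 0x3c4aa) (nat_lit 7) (p (nat_lit 0xd1) (nat_lit 1) (p (nat_lit 0x111) (nat_lit 1) (p (nat_lit 0x109) (nat_lit 0) (p (nat_lit 0x101) (nat_lit 0) (p (nat_lit 0x119) (nat_lit 0) (p (nat_lit 0xc1) (nat_lit 0) (p (nat_lit 0x81) (nat_lit 1) (p (nat_lit 0x41) (nat_lit 1) (p (nat_lit 0x10a0b0a89089a) (nat_lit 0) (p (nat_lit 0x898a8a08881a) (nat_lit 0) (p (nat_lit 0x109088988079a) (nat_lit 0) (p (nat_lit 0x88880907871a) (nat_lit 0) (p (nat_lit 0x8000080000000080887068a) (nat_lit 0) (p (nat_lit 0x10888068602) (nat_lit 0) (p (nat_lit 0x8807860582) (nat_lit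 0) (p (nat_lit 0x10607058502) (nat_lit 0) (p (nat_lit 0x8586850482) (nat_lit 0) (p (nat_lit 0x160004) (nat_lit 0) (p (nat_lit 0x68612) (nat_lit 0) (p (nat_lit 0x50592) (nat_lit 0) (p (nat_lit 0x40512) (nat_lit 0) (p (nat_lit 0x50312) (nat_lit 0) (p (nat_lit 0x38292) (nat_lit 0) (p (nat_lit 0x28212) (nat_lit 0) (p (nat_lit 0x38112) (nat_lit 0) (p (nat_lit 0x20092) (nat_lit 0) (p (nat_lit 0x10012) (nat_lit 0) pn))))))))))))))))))))))))))))))))) :=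
  Cl.node (nat_lit 0xb0004) (nat_lit 2) (by decide +kernel) (ClAll.succ (ClAll.succ ClAll.zero n14) s588)

def n28 : Cl (O (nat_lit 6)) (R (nat_lit 14353))
    (p (nat_lit 0xb0004) (nat_lit 0) (p (nat_lit 0xc9) (nat_lit 1) (p (nat_lit 0x10000c) (nat_lit 0) (p (nat_lit 0x20000c) (nat_lit 0) (p (nat_lit 0x380c2) (nat_lit 0) (p (nat_lit 0x3c4aa) (nat_lit 7) (p (nat_lit 0xd1) (nat_lit 1) (p (nat_lit 0x111) (nat_lit 1) (p (nat_lit 0x109) (nat_lit 0) (p (nat_lit 0x101) (nat_lit 0) (p (nat_lit 0x119) (nat_lit 0) (p (nat_lit 0xc1) (nat_lit 0) (p (nat_lit 0x81) (nat_lit 1) (p (nat_lit 0x41) (nat_lit 1) (p (nat_lit 0x10a0b0a89089a) (nat_lit 0) (p (nat_lit 0x898a8a08881a) (nat_lit 0) (p (nat_lit 0x109088988079a) (nat_lit 0) (p (nat_lit 0x88880907871a) (nat_lit 0) (p (nat_lit 0x8000080000000080887068a) (nat_lit 0) (p (nat_lit 0x10888068602) (nat_lit 0) (p (nat_lit 0x8807860582) (nat_lit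 0) (p (nat_lit 0x10607058502) (nat_lit 0) (p (nat_lit 0x8586850482) (nat_lit 0) (p (nat_lit 0x160004) (nat_lit 0) (p (nat_lit 0x68612) (nat_lit 0) (p (nat_lit 0x50592) (nat_lit 0) (p (nat_lit 0x40512) (nat_lit 0) (p (nat_lit 0x50312) (nat_lit 0) (p (nat_lit 0x38292) (nat_lit 0) (p (nat_lit 0x28212) (nat_lit 0) (p (nat_lit 0x38112) (nat_lit 0) (p (nat_lit 0x20092) (nat_lit 0) (p (nat_lit 0x10012) (nat_lit 0) pn))))))))))))))))))))))))))))))))) :=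
  Cl.node (nat_lit 0x41) (nat_lit 2) (by decide +kernel) (ClAll.succ (ClAll.succ ClAll.zero s589) n15)

def n29 : Cl (O (nat_lit 6)) (R (nat_lit 14353))
    (p (nat_lit 0xc1) (nat_lit 1) (p (nat_lit 0xc9) (nat_lit 0) (p (nat_lit 0x10000c) (nat_lit 0) (p (nat_lit 0x20000c) (nat_lit 0) (p (nat_lit 0x380c2) (nat_lit 1) (p (nat_lit 0x3c4aa) (nat_lit 7) (p (nat_lit 0xd1) (nat_lit 1) (p (nat_lit 0x111) (nat_lit 1) (p (nat_lit 0x109) (nat_lit 0) (p (nat_lit 0x101) (nat_lit 0) (p (nat_lit 0x119) (nat_lit 0) (p (nat_lit 0xc1) (nat_lit 0) (p (nat_lit 0x81) (nat_lit 1) (p (nat_lit 0x41) (nat_lit 1) (p (nat_lit 0x10a0b0a89089a) (nat_lit 0) (p (nat_lit 0x898a8a08881a) (nat_lit 0) (p (nat_lit 0x109088988079a) (nat_lit 0) (p (nat_lit 0x88880907871a) (nat_lit 0) (p (nat_lit 0x8000080000000080887068a) (nat_lit 0) (p (nat_lit 0x10888068602) (nat_lit 0) (p (nat_lit 0x8807860582) (nat_lit 0) (p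 (nat_lit 0x10607058502) (nat_lit 0) (p (nat_lit 0x8586850482) (nat_lit 0) (p (nat_lit 0x160004) (nat_lit 0) (p (nat_lit 0x68612) (nat_lit 0) (p (nat_lit 0x50592) (nat_lit 0) (p (nat_lit 0x40512) (nat_lit 0) (p (nat_lit 0x50312) (nat_lit 0) (p (nat_lit 0x38292) (nat_lit 0) (p (nat_lit 0x28212) (nat_lit 0) (p (nat_lit 0x38112) (nat_lit 0) (p (nat_lit 0x20092) (nat_lit 0) (p (nat_lit 0x10012) (nat_lit 0) pn))))))))))))))))))))))))))))))))) :=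
  Cl.node (nat_lit 0xb0004) (nat_lit 2) (by decide +kernel) (ClAll.succ (ClAll.succ ClAll.zero n16) s601)

def n30 : Cl (O (nat_lit 6)) (R (nat_lit 14353))
    (p (nat_lit 0xb0004) (nat_lit 0) (p (nat_lit 0xc9) (nat_lit 1) (p (nat_lit 0x10000c) (nat_lit 0) (p (nat_lit 0x20000c) (nat_lit 0) (p (nat_lit 0x380c2) (nat_lit 1) (p (nat_lit 0x3c4aa) (nat_lit 7) (p (nat_lit 0xd1) (nat_lit 1) (p (nat_lit 0x111) (nat_lit 1) (p (nat_lit 0x109) (nat_lit 0) (p (nat_lit 0x101) (nat_lit 0) (p (nat_lit 0x119) (nat_lit 0) (p (nat_lit 0xc1) (nat_lit 0) (p (nat_lit 0x81) (nat_lit 1) (p (nat_lit 0x41) (nat_lit 1) (p (nat_lit 0x10a0b0a89089a) (nat_lit 0) (p (nat_lit 0x898a8a08881a) (nat_lit 0) (p (nat_lit 0x109088988079a) (nat_lit 0) (p (nat_lit 0x88880907871a) (nat_lit 0) (p (nat_lit 0x8000080000000080887068a) (nat_lit 0) (p (nat_lit 0x10888068602) (nat_lit 0) (p (nat_lit 0x8807860582) (nat_lit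 0) (p (nat_lit 0x10607058502) (nat_lit 0) (p (nat_lit 0x8586850482) (nat_lit 0) (p (nat_lit 0x160004) (nat_lit 0) (p (nat_lit 0x68612) (nat_lit 0) (p (nat_lit 0x50592) (nat_lit 0) (p (nat_lit 0x40512) (nat_lit 0) (p (nat_lit 0x50312) (nat_lit 0) (p (nat_lit 0x38292) (nat_lit 0) (p (nat_lit 0x28212) (nat_lit 0) (p (nat_lit 0x38112) (nat_lit 0) (p (nat_lit 0x20092) (nat_lit 0) (p (nat_lit 0x10012) (nat_lit 0) pn))))))))))))))))))))))))))))))))) :=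
  Cl.node (nat_lit 0x41) (nat_lit 2) (by decide +kernel) (ClAll.succ (ClAll.succ ClAll.zero s602) n17)

def n31 : Cl (O (nat_lit 6)) (R (nat_lit 14353))
    (p (nat_lit 0x58004) (nat_lit 0) (p (nat_lit 0x300014) (nat_lit 1) (p (nat_lit 0x200014) (nat_lit 1) (p (nat_lit 0xb0004) (nat_lit 0) (p (nat_lit 0x380c2) (nat_lit 0) (p (nat_lit 0x3c4aa) (nat_lit 8) (p (nat_lit 0xd1) (nat_lit 1) (p (nat_lit 0x111) (nat_lit 1) (p (nat_lit 0x109) (nat_lit 0) (p (nat_lit 0x101) (nat_lit 0) (p (nat_lit 0x119) (nat_lit 0) (p (nat_lit 0xc1) (nat_lit 0) (p (nat_lit 0x81) (nat_lit 1) (p (nat_lit 0x41) (nat_lit 1) (p (nat_lit 0x10a0b0a89089a) (nat_lit 0) (p (nat_lit 0x898a8a08881a) (nat_lit 0) (p (nat_lit 0x109088988079a) (nat_lit 0) (p (nat_lit 0x88880907871a) (nat_lit 0) (p (nat_lit 0x8000080000000080887068a) (nat_lit 0) (p (nat_lit 0x10888068602) (nat_lit 0) (p (nat_lit 0x8807860582) (nat_lit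 0) (p (nat_lit 0x10607058502) (nat_lit 0) (p (nat_lit 0x8586850482) (nat_lit 0) (p (nat_lit 0x160004) (nat_lit 0) (p (nat_lit 0x68612) (nat_lit 0) (p (nat_lit 0x50592) (nat_lit 0) (p (nat_lit 0x40512) (nat_lit 0) (p (nat_lit 0x50312) (nat_lit 0) (p (nat_lit 0x38292) (nat_lit 0) (p (nat_lit 0x28212) (nat_lit 0) (p (nat_lit 0x38112) (nat_lit 0) (p (nat_lit 0x20092) (nat_lit 0) (p (nat_lit 0x10012) (nat_lit 0) pn))))))))))))))))))))))))))))))))) :=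
  Cl.node (nat_lit 0x20000c) (nat_lit 2) (by decide +kernel) (ClAll.succ (ClAll.succ ClAll.zero n18) s614)

def n32 : Cl (O (nat_lit 6)) (R (nat_lit 14353))
    (p (nat_lit 0xb0004) (nat_lit 0) (p (nat_lit 0x119) (nat_lit 1) (p (nat_lit 0x10000c) (nat_lit 0) (p (nat_lit 0x20000c) (nat_lit 0) (p (nat_lit 0x380c2) (nat_lit 1) (p (nat_lit 0x3c4aa) (nat_lit 7) (p (nat_lit 0xd1) (nat_lit 1) (p (nat_lit 0xc9) (nat_lit 0) (p (nat_lit 0x109) (nat_lit 1) (p (nat_lit 0x101) (nat_lit 0) (p (nat_lit 0x119) (nat_lit 0) (p (nat_lit 0xc1) (nat_lit 0) (p (nat_lit 0x81) (nat_lit 1) (p (nat_lit 0x41) (nat_lit 1) (p (nat_lit 0x10a0b0a89089a) (nat_lit 0) (p (nat_lit 0x898a8a08881a) (nat_lit 0) (p (nat_lit 0x109088988079a) (nat_lit 0) (p (nat_lit 0x88880907871a) (nat_lit 0) (p (nat_lit 0x8000080000000080887068a) (nat_lit 0) (p (nat_lit 0x10888068602) (nat_lit 0) (p (nat_lit 0x8807860582) (nat_lit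 0) (p (nat_lit 0x10607058502) (nat_lit 0) (p (nat_lit 0x8586850482) (nat_lit 0) (p (nat_lit 0x160004) (nat_lit 0) (p (nat_lit 0x68612) (nat_lit 0) (p (nat_lit 0x50592) (nat_lit 0) (p (nat_lit 0x40512) (nat_lit 0) (p (nat_lit 0x50312) (nat_lit 0) (p (nat_lit 0x38292) (nat_lit 0) (p (nat_lit 0x28212) (nat_lit 0) (p (nat_lit 0x38112) (nat_lit 0) (p (nat_lit 0x20092) (nat_lit 0) (p (nat_lit 0x10012) (nat_lit 0) pn))))))))))))))))))))))))))))))))) :=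
  Cl.node (nat_lit 0xc1) (nat_lit 2) (by decide +kernel) (ClAll.succ (ClAll.succ ClAll.zero s631) s632)

def n33 : Cl (O (nat_lit 6)) (R (nat_lit 14353))
    (p (nat_lit 0x81) (nat_lit 1) (p (nat_lit 0x10000c) (nat_lit 0) (p (nat_lit 0x20000c) (nat_lit 0) (p (nat_lit 0x380c2) (nat_lit 0) (p (nat_lit 0x444aa) (nat_lit 7) (p (nat_lit 0x81) (nat_lit 1) (p (nat_lit 0xc9) (nat_lit 1) (p (nat_lit 0x109) (nat_lit 1) (p (nat_lit 0x101) (nat_lit 0) (p (nat_lit 0x119) (nat_lit 0) (p (nat_lit 0xd1) (nat_lit 0) (p (nat_lit 0x89) (nat_lit 0) (p (nat_lit 0x41) (nat_lit 0) (p (nat_lit 0x10a0b0a89089a) (nat_lit 0) (p (nat_lit 0x898a8a08881a) (nat_lit 0) (p (nat_lit 0x109088988079a) (nat_lit 0) (p (nat_lit 0x88880907871a) (nat_lit 0) (p (nat_lit 0x8000080000000080887068a) (nat_lit 0) (p (nat_lit 0x10888068602) (nat_lit 0) (p (nat_lit 0x8807860582) (nat_lit 0) (p (nat_lit 0x10607058502) (nat_lit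 0) (p (nat_lit 0x8586850482) (nat_lit 0) (p (nat_lit 0x160004) (nat_lit 0) (p (nat_lit 0x68612) (nat_lit 0) (p (nat_lit 0x50592) (nat_lit 0) (p (nat_lit 0x40512) (nat_lit 0) (p (nat_lit 0x50312) (nat_lit 0) (p (nat_lit 0x38292) (nat_lit 0) (p (nat_lit 0x28212) (nat_lit 0) (p (nat_lit 0x38112) (nat_lit 0) (p (nat_lit 0x20092) (nat_lit 0) (p (nat_lit 0x10012) (nat_lit 0) pn)))))))))))))))))))))))))))))))) :=
  Cl.node (nat_lit 0xc1) (nat_lit 2) (by decide +kernel) (ClAll.succ (ClAll.succ ClAll.zero n19) s14)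

def n34 : Cl (O (nat_lit 6)) (R (nat_lit 14353))
    (p (nat_lit 0xb0004) (nat_lit 0) (p (nat_lit 0x89) (nat_lit 1) (p (nat_lit 0x20000c) (nat_lit 0) (p (nat_lit 0x380c2) (nat_lit 0) (p (nat_lit 0x444aa) (nat_lit 7) (p (nat_lit 0x111) (nat_lit 0) (p (nat_lit 0xc9) (nat_lit 1) (p (nat_lit 0x81) (nat_lit 0) (p (nat_lit 0x101) (nat_lit 1) (p (nat_lit 0x119) (nat_lit 0) (p (nat_lit 0xd1) (nat_lit 0) (p (nat_lit 0x89) (nat_lit 0) (p (nat_lit 0x41) (nat_lit 0) (p (nat_lit 0x10a0b0a89089a) (nat_lit 0) (p (nat_lit 0x898a8a08881a) (nat_lit 0) (p (nat_lit 0x109088988079a) (nat_lit 0) (p (nat_lit 0x88880907871a) (nat_lit 0) (p (nat_lit 0x8000080000000080887068a) (nat_lit 0) (p (nat_lit 0x10888068602) (nat_lit 0) (p (nat_lit 0x8807860582) (nat_lit 0) (p (nat_lit 0x10607058502) (nat_lit 0) (p (nat_lit 0x8586850482) (nat_lit 0) (p (nat_lit 0x160004) (nat_lit 0) (p (nat_lit 0x68612) (nat_lit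 0) (p (nat_lit 0x50592) (nat_lit 0) (p (nat_lit 0x40512) (nat_lit 0) (p (nat_lit 0x50312) (nat_lit 0) (p (nat_lit 0x38292) (nat_lit 0) (p (nat_lit 0x28212) (nat_lit 0) (p (nat_lit 0x38112) (nat_lit 0) (p (nat_lit 0x20092) (nat_lit 0) (p (nat_lit 0x10012) (nat_lit 0) pn)))))))))))))))))))))))))))))))) :=
  Cl.node (nat_lit 0xc9) (nat_lit 2) (by decide +kernel) (ClAll.succ (ClAll.succ ClAll.zero s37) s38)

def n35 : Cl (O (nat_lit 6)) (R (nat_lit 14353))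
    (p (nat_lit 0xb0004) (nat_lit 0) (p (nat_lit 0x89) (nat_lit 1) (p (nat_lit 0x20000c) (nat_lit 0) (p (nat_lit 0x380c2) (nat_lit 1) (p (nat_lit 0x444aa) (nat_lit 7) (p (nat_lit 0x111) (nat_lit 0) (p (nat_lit 0xc9) (nat_lit 1) (p (nat_lit 0x81) (nat_lit 0) (p (nat_lit 0x101) (nat_lit 1) (p (nat_lit 0x119) (nat_lit 0) (p (nat_lit 0xd1) (nat_lit 0) (p (nat_lit 0x89) (nat_lit 0) (p (nat_lit 0x41) (nat_lit 0) (p (nat_lit 0x10a0b0a89089a) (nat_lit 0) (p (nat_lit 0x898a8a08881a) (nat_lit 0) (p (nat_lit 0x109088988079a) (nat_lit 0) (p (nat_lit 0x88880907871a) (nat_lit 0) (p (nat_lit 0x8000080000000080887068a) (nat_lit 0) (p (nat_lit 0x10888068602) (nat_lit 0) (p (nat_lit 0x8807860582) (nat_lit 0) (p (nat_lit 0x10607058502) (nat_lit 0) (p (nat_lit 0x8586850482) (nat_lit 0) (p (nat_lit 0x160004) (nat_lit 0) (p (nat_lit 0x68612) (nat_lit 0) (p (nat_lit 0x50592) (nat_lit 0) (p (nat_lit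 0x40512) (nat_lit 0) (p (nat_lit 0x50312) (nat_lit 0) (p (nat_lit 0x38292) (nat_lit 0) (p (nat_lit 0x28212) (nat_lit 0) (p (nat_lit 0x38112) (nat_lit 0) (p (nat_lit 0x20092) (nat_lit 0) (p (nat_lit 0x10012) (nat_lit 0) pn)))))))))))))))))))))))))))))))) :=
  Cl.node (nat_lit 0xc9) (nat_lit 2) (by decide +kernel) (ClAll.succ (ClAll.succ ClAll.zero s42) s43)

def n36 : Cl (O (nat_lit 6)) (R (nat_lit 14353))
    (p (nat_lit 0xb0004) (nat_lit 0) (p (nat_lit 0x10000c) (nat_lit 0) (p (nat_lit 0x20000c) (nat_lit 0) (p (nat_lit 0x380c2) (nat_lit 0) (p (nat_lit 0x444aa) (nat_lit 7) (p (nat_lit 0x109) (nat_lit 1) (p (nat_lit 0x101) (nat_lit 0) (p (nat_lit 0x81) (nat_lit 1) (p (nat_lit 0xc1) (nat_lit 1) (p (nat_lit 0x119) (nat_lit 1) (p (nat_lit 0xd1) (nat_lit 0) (p (nat_lit 0x89) (nat_lit 0) (p (nat_lit 0x41) (nat_lit 0) (p (nat_lit 0x10a0b0a89089a) (nat_lit 0) (p (nat_lit 0x898a8a08881a)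 (nat_lit 0) (p (nat_lit 0x109088988079a) (nat_lit 0) (p (nat_lit 0x88880907871a) (nat_lit 0) (p (nat_lit 0x8000080000000080887068a) (nat_lit 0) (p (nat_lit 0x10888068602) (nat_lit 0) (p (nat_lit 0x8807860582) (nat_lit 0) (p (nat_lit 0x10607058502) (nat_lit 0) (p (nat_lit 0x8586850482) (nat_lit 0) (p (nat_lit 0x160004) (nat_lit 0) (p (nat_lit 0x68612) (nat_lit 0) (p (nat_lit 0x50592) (nat_lit 0) (p (nat_lit 0x40512) (nat_lit 0) (p (nat_lit 0x50312) (nat_lit 0) (p (nat_lit 0x38292) (nat_lit 0) (p (nat_lit 0x28212) (nat_lit 0) (p (nat_lit 0x38112) (nat_lit 0) (p (nat_lit 0x20092) (nat_lit 0) (p (nat_lit 0x10012) (nat_lit 0) pn)))))))))))))))))))))))))))))))) :=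
  Cl.node (nat_lit 0x119) (nat_lit 2) (by decide +kernel) (ClAll.succ (ClAll.succ ClAll.zero n20) s143)

def n37 : Cl (O (nat_lit 6)) (R (nat_lit 14353))
    (p (nat_lit 0x10000c) (nat_lit 0) (p (nat_lit 0xb0004) (nat_lit 0) (p (nat_lit 0x20000c) (nat_lit 0) (p (nat_lit 0x380c2) (nat_lit 1) (p (nat_lit 0x444aa) (nat_lit 7) (p (nat_lit 0x109) (nat_lit 1) (p (nat_lit 0x101) (nat_lit 0) (p (nat_lit 0x81) (nat_lit 1) (p (nat_lit 0xc1) (nat_lit 1) (p (nat_lit 0x119) (nat_lit 1) (p (nat_lit 0xd1) (nat_lit 0) (p (nat_lit 0x89) (nat_lit 0) (p (nat_lit 0x41) (nat_lit 0) (p (nat_lit 0x10a0b0a89089a) (nat_lit 0) (p (nat_lit 0x898a8a08881a) (nat_lit 0) (p (nat_lit 0x109088988079a) (nat_lit 0) (p (nat_lit 0x88880907871a) (nat_lit 0) (p (nat_lit 0x8000080000000080887068a) (nat_lit 0) (p (nat_lit 0x10888068602) (nat_lit 0) (p (nat_lit 0x8807860582) (nat_lit 0) (p (nat_lit 0x10607058502) (nat_lit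 0) (p (nat_lit 0x8586850482) (nat_lit 0) (p (nat_lit 0x160004) (nat_lit 0) (p (nat_lit 0x68612) (nat_lit 0) (p (nat_lit 0x50592) (nat_lit 0) (p (nat_lit 0x40512) (nat_lit 0) (p (nat_lit 0x50312) (nat_lit 0) (p (nat_lit 0x38292) (nat_lit 0) (p (nat_lit 0x28212) (nat_lit 0) (p (nat_lit 0x38112) (nat_lit 0) (p (nat_lit 0x20092) (nat_lit 0) (p (nat_lit 0x10012) (nat_lit 0) pn)))))))))))))))))))))))))))))))) :=
  Cl.node (nat_lit 0x119) (nat_lit 2) (by decide +kernel) (ClAll.succ (ClAll.succ ClAll.zero n21) s160)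

def n38 : Cl (O (nat_lit 6)) (R (nat_lit 14353))
    (p (nat_lit 0xc1) (nat_lit 1) (p (nat_lit 0xb0004) (nat_lit 0) (p (nat_lit 0x20000c) (nat_lit 0) (p (nat_lit 0x380c2) (nat_lit 1) (p (nat_lit 0x444aa) (nat_lit 7) (p (nat_lit 0xd1) (nat_lit 1) (p (nat_lit 0x111) (nat_lit 1) (p (nat_lit 0x109) (nat_lit 0) (p (nat_lit 0x101) (nat_lit 0) (p (nat_lit 0x119) (nat_lit 0) (p (nat_lit 0xc9) (nat_lit 0) (p (nat_lit 0x89) (nat_lit 1) (p (nat_lit 0x41) (nat_lit 0) (p (nat_lit 0x10a0b0a89089a) (nat_lit 0) (p (nat_lit 0x898a8a08881a) (nat_lit 0) (p (nat_lit 0x109088988079a) (nat_lit 0) (p (nat_lit 0x88880907871a) (nat_lit 0) (p (nat_lit 0x8000080000000080887068a) (nat_lit 0) (p (nat_lit 0x10888068602) (nat_lit 0) (p (nat_lit 0x8807860582) (nat_lit 0) (p (nat_lit 0x10607058502) (nat_lit 0) (p (nat_lit 0x8586850482) (nat_lit 0) (p (nat_lit 0x160004) (nat_lit 0) (p (nat_lit 0x68612) (nat_lit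 0) (p (nat_lit 0x50592) (nat_lit 0) (p (nat_lit 0x40512) (nat_lit 0) (p (nat_lit 0x50312) (nat_lit 0) (p (nat_lit 0x38292) (nat_lit 0) (p (nat_lit 0x28212) (nat_lit 0) (p (nat_lit 0x38112) (nat_lit 0) (p (nat_lit 0x20092) (nat_lit 0) (p (nat_lit 0x10012) (nat_lit 0) pn)))))))))))))))))))))))))))))))) :=
  Cl.node (nat_lit 0x10000c) (nat_lit 2) (by decide +kernel) (ClAll.succ (ClAll.succ ClAll.zero n22) s285)

def n39 : Cl (O (nat_lit 6)) (R (nat_lit 14353))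
    (p (nat_lit 0x1fc014) (nat_lit 0) (p (nat_lit 0xb0004) (nat_lit 1) (p (nat_lit 0x20000c) (nat_lit 0) (p (nat_lit 0x380c2) (nat_lit 1) (p (nat_lit 0x444aa) (nat_lit 7) (p (nat_lit 0xd1) (nat_lit 1) (p (nat_lit 0x111) (nat_lit 1) (p (nat_lit 0x109) (nat_lit 0) (p (nat_lit 0x101) (nat_lit 0) (p (nat_lit 0x119) (nat_lit 0) (p (nat_lit 0xc9) (nat_lit 0) (p (nat_lit 0x89) (nat_lit 1) (p (nat_lit 0x41) (nat_lit 0) (p (nat_lit 0x10a0b0a89089a) (nat_lit 0) (p (nat_lit 0x898a8a08881a) (nat_lit 0) (p (nat_lit 0x109088988079a) (nat_lit 0) (p (nat_lit 0x88880907871a) (nat_lit 0) (p (nat_lit 0x8000080000000080887068a) (nat_lit 0) (p (nat_lit 0x10888068602) (nat_lit 0) (p (nat_lit 0x8807860582) (nat_lit 0) (p (nat_lit 0x10607058502) (nat_lit 0) (p (nat_lit 0x8586850482) (nat_lit 0) (p (nat_lit 0x160004) (nat_lit 0) (p (nat_lit 0x68612) (nat_lit 0) (p (nat_lit 0x50592) (nat_lit 0) (p (nat_lit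 0x40512) (nat_lit 0) (p (nat_lit 0x50312) (nat_lit 0) (p (nat_lit 0x38292) (nat_lit 0) (p (nat_lit 0x28212) (nat_lit 0) (p (nat_lit 0x38112) (nat_lit 0) (p (nat_lit 0x20092) (nat_lit 0) (p (nat_lit 0x10012) (nat_lit 0) pn)))))))))))))))))))))))))))))))) :=
  Cl.node (nat_lit 0x10000c) (nat_lit 2) (by decide +kernel) (ClAll.succ (ClAll.succ ClAll.zero n23) s288)

def n40 : Cl (O (nat_lit 6)) (R (nat_lit 14353))
    (p (nat_lit 0xb0004) (nat_lit 0) (p (nat_lit 0xc1) (nat_lit 0) (p (nat_lit 0x10000c) (nat_lit 0) (p (nat_lit 0x20000c) (nat_lit 0) (p (nat_lit 0x380c2) (nat_lit 0) (p (nat_lit 0x444aa) (nat_lit 7) (p (nat_lit 0xd1) (nat_lit 1) (p (nat_lit 0x109) (nat_lit 1) (p (nat_lit 0x101) (nat_lit 0) (p (nat_lit 0x119) (nat_lit 0) (p (nat_lit 0xc9) (nat_lit 0) (p (nat_lit 0x89) (nat_lit 1) (p (nat_lit 0x41) (nat_lit 0) (p (nat_lit 0x10a0b0a89089a) (nat_lit 0) (p (nat_lit 0x898a8a08881a)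 (nat_lit 0) (p (nat_lit 0x109088988079a) (nat_lit 0) (p (nat_lit 0x88880907871a) (nat_lit 0) (p (nat_lit 0x8000080000000080887068a) (nat_lit 0) (p (nat_lit 0x10888068602) (nat_lit 0) (p (nat_lit 0x8807860582) (nat_lit 0) (p (nat_lit 0x10607058502) (nat_lit 0) (p (nat_lit 0x8586850482) (nat_lit 0) (p (nat_lit 0x160004) (nat_lit 0) (p (nat_lit 0x68612) (nat_lit 0) (p (nat_lit 0x50592) (nat_lit 0) (p (nat_lit 0x40512) (nat_lit 0) (p (nat_lit 0x50312) (nat_lit 0) (p (nat_lit 0x38292) (nat_lit 0) (p (nat_lit 0x28212) (nat_lit 0) (p (nat_lit 0x38112) (nat_lit 0) (p (nat_lit 0x20092) (nat_lit 0) (p (nat_lit 0x10012) (nat_lit 0) pn)))))))))))))))))))))))))))))))) :=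
  Cl.node (nat_lit 0xc9) (nat_lit 2) (by decide +kernel) (ClAll.succ (ClAll.succ ClAll.zero s308) s309)

def n41 : Cl (O (nat_lit 6)) (R (nat_lit 14353))
    (p (nat_lit 0xb0004) (nat_lit 0) (p (nat_lit 0x109) (nat_lit 0) (p (nat_lit 0x10000c) (nat_lit 0) (p (nat_lit 0x20000c) (nat_lit 0) (p (nat_lit 0x380c2) (nat_lit 0) (p (nat_lit 0x444aa) (nat_lit 7) (p (nat_lit 0x111) (nat_lit 1) (p (nat_lit 0x101) (nat_lit 0) (p (nat_lit 0xc1) (nat_lit 1) (p (nat_lit 0x119) (nat_lit 1) (p (nat_lit 0xc9) (nat_lit 0) (p (nat_lit 0x89) (nat_lit 1) (p (nat_lit 0x41) (nat_lit 0) (p (nat_lit 0x10a0b0a89089a) (nat_lit 0) (p (nat_lit 0x898a8a08881a) (nat_lit 0) (p (nat_lit 0x109088988079a) (nat_lit 0) (p (nat_lit 0x88880907871a) (nat_lit 0) (p (nat_lit 0x8000080000000080887068a) (nat_lit 0) (p (nat_lit 0x10888068602) (nat_lit 0) (p (nat_lit 0x8807860582) (nat_lit 0) (p (nat_lit 0x10607058502) (nat_lit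 0) (p (nat_lit 0x8586850482) (nat_lit 0) (p (nat_lit 0x160004) (nat_lit 0) (p (nat_lit 0x68612) (nat_lit 0) (p (nat_lit 0x50592) (nat_lit 0) (p (nat_lit 0x40512) (nat_lit 0) (p (nat_lit 0x50312) (nat_lit 0) (p (nat_lit 0x38292) (nat_lit 0) (p (nat_lit 0x28212) (nat_lit 0) (p (nat_lit 0x38112) (nat_lit 0) (p (nat_lit 0x20092) (nat_lit 0) (p (nat_lit 0x10012) (nat_lit 0) pn)))))))))))))))))))))))))))))))) :=
  Cl.node (nat_lit 0x119) (nat_lit 2) (by decide +kernel) (ClAll.succ (ClAll.succ ClAll.zero n24) s395)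

def n42 : Cl (O (nat_lit 6)) (R (nat_lit 14353))
    (p (nat_lit 0x10000c) (nat_lit 0) (p (nat_lit 0x109) (nat_lit 0) (p (nat_lit 0xb0004) (nat_lit 0) (p (nat_lit 0x20000c) (nat_lit 0) (p (nat_lit 0x380c2) (nat_lit 1) (p (nat_lit 0x444aa) (nat_lit 7) (p (nat_lit 0x111) (nat_lit 1) (p (nat_lit 0x101) (nat_lit 0) (p (nat_lit 0xc1) (nat_lit 1) (p (nat_lit 0x119) (nat_lit 1) (p (nat_lit 0xc9) (nat_lit 0) (p (nat_lit 0x89) (nat_lit 1) (p (nat_lit 0x41) (nat_lit 0) (p (nat_lit 0x10a0b0a89089a) (nat_lit 0) (p (nat_lit 0x898a8a08881a) (nat_lit 0) (p (nat_lit 0x109088988079a) (nat_lit 0) (p (nat_lit 0x88880907871a) (nat_lit 0) (p (nat_lit 0x8000080000000080887068a) (nat_lit 0) (p (nat_lit 0x10888068602) (nat_lit 0) (p (nat_lit 0x8807860582) (nat_lit 0) (p (nat_lit 0x10607058502) (nat_lit 0) (p (nat_lit 0x8586850482) (nat_lit 0) (p (nat_lit 0x160004) (nat_lit 0) (p (nat_lit 0x68612)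 (nat_lit 0) (p (nat_lit 0x50592) (nat_lit 0) (p (nat_lit 0x40512) (nat_lit 0) (p (nat_lit 0x50312) (nat_lit 0) (p (nat_lit 0x38292) (nat_lit 0) (p (nat_lit 0x28212) (nat_lit 0) (p (nat_lit 0x38112) (nat_lit 0) (p (nat_lit 0x20092) (nat_lit 0) (p (nat_lit 0x10012) (nat_lit 0) pn)))))))))))))))))))))))))))))))) :=
  Cl.node (nat_lit 0x119) (nat_lit 2) (by decide +kernel) (ClAll.succ (ClAll.succ ClAll.zero n25) s402)

def n43 : Cl (O (nat_lit 6)) (R (nat_lit 14353))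
    (p (nat_lit 0xc9) (nat_lit 0) (p (nat_lit 0x10000c) (nat_lit 0) (p (nat_lit 0x20000c) (nat_lit 0) (p (nat_lit 0x380c2) (nat_lit 0) (p (nat_lit 0x3c4aa) (nat_lit 7) (p (nat_lit 0xd1) (nat_lit 1) (p (nat_lit 0x111) (nat_lit 1) (p (nat_lit 0x109) (nat_lit 0) (p (nat_lit 0x101) (nat_lit 0) (p (nat_lit 0x119) (nat_lit 0) (p (nat_lit 0xc1) (nat_lit 0) (p (nat_lit 0x81) (nat_lit 1) (p (nat_lit 0x41) (nat_lit 1) (p (nat_lit 0x10a0b0a89089a) (nat_lit 0) (p (nat_lit 0x898a8a08881a) (nat_lit 0) (p (nat_lit 0x109088988079a) (nat_lit 0) (p (nat_lit 0x88880907871a) (nat_lit 0) (p (nat_lit 0x8000080000000080887068a) (nat_lit 0) (p (nat_lit 0x10888068602) (nat_lit 0) (p (nat_lit 0x8807860582) (nat_lit 0) (p (nat_lit 0x10607058502) (nat_lit 0) (p (nat_lit 0x8586850482) (nat_lit 0) (p (nat_lit 0x160004) (nat_lit 0) (p (nat_lit 0x68612) (nat_lit 0) (p (nat_lit 0x50592) (nat_lit 0) (p (nat_lit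 0x40512) (nat_lit 0) (p (nat_lit 0x50312) (nat_lit 0) (p (nat_lit 0x38292) (nat_lit 0) (p (nat_lit 0x28212) (nat_lit 0) (p (nat_lit 0x38112) (nat_lit 0) (p (nat_lit 0x20092) (nat_lit 0) (p (nat_lit 0x10012) (nat_lit 0) pn)))))))))))))))))))))))))))))))) :=
  Cl.node (nat_lit 0x200014) (nat_lit 2) (by decide +kernel) (ClAll.succ (ClAll.succ ClAll.zero n26) n27)

def n44 : Cl (O (nat_lit 6)) (R (nat_lit 14353))
    (p (nat_lit 0xc9) (nat_lit 1) (p (nat_lit 0x10000c) (nat_lit 0) (p (nat_lit 0x20000c) (nat_lit 0) (p (nat_lit 0x380c2) (nat_lit 0) (p (nat_lit 0x3c4aa) (nat_lit 7) (p (nat_lit 0xd1) (nat_lit 1) (p (nat_lit 0x111) (nat_lit 1) (p (nat_lit 0x109) (nat_lit 0) (p (nat_lit 0x101) (nat_lit 0) (p (nat_lit 0x119) (nat_lit 0) (p (nat_lit 0xc1) (nat_lit 0) (p (nat_lit 0x81) (nat_lit 1) (p (nat_lit 0x41) (nat_lit 1) (p (nat_lit 0x10a0b0a89089a) (nat_lit 0) (p (nat_lit 0x898a8a08881a)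 (nat_lit 0) (p (nat_lit 0x109088988079a) (nat_lit 0) (p (nat_lit 0x88880907871a) (nat_lit 0) (p (nat_lit 0x8000080000000080887068a) (nat_lit 0) (p (nat_lit 0x10888068602) (nat_lit 0) (p (nat_lit 0x8807860582) (nat_lit 0) (p (nat_lit 0x10607058502) (nat_lit 0) (p (nat_lit 0x8586850482) (nat_lit 0) (p (nat_lit 0x160004) (nat_lit 0) (p (nat_lit 0x68612) (nat_lit 0) (p (nat_lit 0x50592) (nat_lit 0) (p (nat_lit 0x40512) (nat_lit 0) (p (nat_lit 0x50312) (nat_lit 0) (p (nat_lit 0x38292) (nat_lit 0) (p (nat_lit 0x28212) (nat_lit 0) (p (nat_lit 0x38112) (nat_lit 0) (p (nat_lit 0x20092) (nat_lit 0) (p (nat_lit 0x10012) (nat_lit 0) pn)))))))))))))))))))))))))))))))) :=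
  Cl.node (nat_lit 0xb0004) (nat_lit 2) (by decide +kernel) (ClAll.succ (ClAll.succ ClAll.zero n28) s595)

def n45 : Cl (O (nat_lit 6)) (R (nat_lit 14353))
    (p (nat_lit 0xc9) (nat_lit 0) (p (nat_lit 0x10000c) (nat_lit 0) (p (nat_lit 0x20000c) (nat_lit 0) (p (nat_lit 0x380c2) (nat_lit 1) (p (nat_lit 0x3c4aa) (nat_lit 7) (p (nat_lit 0xd1) (nat_lit 1) (p (nat_lit 0x111) (nat_lit 1) (p (nat_lit 0x109) (nat_lit 0) (p (nat_lit 0x101) (nat_lit 0) (p (nat_lit 0x119) (nat_lit 0) (p (nat_lit 0xc1) (nat_lit 0) (p (nat_lit 0x81) (nat_lit 1) (p (nat_lit 0x41) (nat_lit 1) (p (nat_lit 0x10a0b0a89089a) (nat_lit 0) (p (nat_lit 0x898a8a08881a) (nat_lit 0) (p (nat_lit 0x109088988079a) (nat_lit 0) (p (nat_lit 0x88880907871a) (nat_lit 0) (p (nat_lit 0x8000080000000080887068a) (nat_lit 0) (p (nat_lit 0x10888068602) (nat_lit 0) (p (nat_lit 0x8807860582) (nat_lit 0) (p (nat_lit 0x10607058502) (nat_lit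 0) (p (nat_lit 0x8586850482) (nat_lit 0) (p (nat_lit 0x160004) (nat_lit 0) (p (nat_lit 0x68612) (nat_lit 0) (p (nat_lit 0x50592) (nat_lit 0) (p (nat_lit 0x40512) (nat_lit 0) (p (nat_lit 0x50312) (nat_lit 0) (p (nat_lit 0x38292) (nat_lit 0) (p (nat_lit 0x28212) (nat_lit 0) (p (nat_lit 0x38112) (nat_lit 0) (p (nat_lit 0x20092) (nat_lit 0) (p (nat_lit 0x10012) (nat_lit 0) pn)))))))))))))))))))))))))))))))) :=
  Cl.node (nat_lit 0xc1) (nat_lit 2) (by decide +kernel) (ClAll.succ (ClAll.succ ClAll.zero s598) n29)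

def n46 : Cl (O (nat_lit 6)) (R (nat_lit 14353))
    (p (nat_lit 0xc9) (nat_lit 1) (p (nat_lit 0x10000c) (nat_lit 0) (p (nat_lit 0x20000c) (nat_lit 0) (p (nat_lit 0x380c2) (nat_lit 1) (p (nat_lit 0x3c4aa) (nat_lit 7) (p (nat_lit 0xd1) (nat_lit 1) (p (nat_lit 0x111) (nat_lit 1) (p (nat_lit 0x109) (nat_lit 0) (p (nat_lit 0x101) (nat_lit 0) (p (nat_lit 0x119) (nat_lit 0) (p (nat_lit 0xc1) (nat_lit 0) (p (nat_lit 0x81) (nat_lit 1) (p (nat_lit 0x41) (nat_lit 1) (p (nat_lit 0x10a0b0a89089a) (nat_lit 0) (p (nat_lit 0x898a8a08881a) (nat_lit 0) (p (nat_lit 0x109088988079a) (nat_lit 0) (p (nat_lit 0x88880907871a) (nat_lit 0) (p (nat_lit 0x8000080000000080887068a) (nat_lit 0) (p (nat_lit 0x10888068602) (nat_lit 0) (p (nat_lit 0x8807860582) (nat_lit 0) (p (nat_lit 0x10607058502) (nat_lit 0) (p (nat_lit 0x8586850482) (nat_lit 0) (p (nat_lit 0x160004) (nat_lit 0) (p (nat_lit 0x68612) (nat_lit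 0) (p (nat_lit 0x50592) (nat_lit 0) (p (nat_lit 0x40512) (nat_lit 0) (p (nat_lit 0x50312) (nat_lit 0) (p (nat_lit 0x38292) (nat_lit 0) (p (nat_lit 0x28212) (nat_lit 0) (p (nat_lit 0x38112) (nat_lit 0) (p (nat_lit 0x20092) (nat_lit 0) (p (nat_lit 0x10012) (nat_lit 0) pn)))))))))))))))))))))))))))))))) :=
  Cl.node (nat_lit 0xb0004) (nat_lit 2) (by decide +kernel) (ClAll.succ (ClAll.succ ClAll.zero n30) s607)

def n47 : Cl (O (nat_lit 6)) (R (nat_lit 14353))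
    (p (nat_lit 0x300014) (nat_lit 1) (p (nat_lit 0x200014) (nat_lit 1) (p (nat_lit 0xb0004) (nat_lit 0) (p (nat_lit 0x380c2) (nat_lit 0) (p (nat_lit 0x3c4aa) (nat_lit 8) (p (nat_lit 0xd1) (nat_lit 1) (p (nat_lit 0x111) (nat_lit 1) (p (nat_lit 0x109) (nat_lit 0) (p (nat_lit 0x101) (nat_lit 0) (p (nat_lit 0x119) (nat_lit 0) (p (nat_lit 0xc1) (nat_lit 0) (p (nat_lit 0x81) (nat_lit 1) (p (nat_lit 0x41) (nat_lit 1) (p (nat_lit 0x10a0b0a89089a) (nat_lit 0) (p (nat_lit 0x898a8a08881a) (nat_lit 0) (p (nat_lit 0x109088988079a) (nat_lit 0) (p (nat_lit 0x88880907871a) (nat_lit 0) (p (nat_lit 0x8000080000000080887068a) (nat_lit 0) (p (nat_lit 0x10888068602) (nat_lit 0) (p (nat_lit 0x8807860582) (nat_lit 0) (p (nat_lit 0x10607058502) (nat_lit 0) (p (nat_lit 0x8586850482) (nat_lit 0) (p (nat_lit 0x160004) (nat_lit 0) (p (nat_lit 0x68612) (nat_lit 0) (p (nat_lit 0x50592) (nat_lit 0) (p (nat_lit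 0x40512) (nat_lit 0) (p (nat_lit 0x50312) (nat_lit 0) (p (nat_lit 0x38292) (nat_lit 0) (p (nat_lit 0x28212) (nat_lit 0) (p (nat_lit 0x38112) (nat_lit 0) (p (nat_lit 0x20092) (nat_lit 0) (p (nat_lit 0x10012) (nat_lit 0) pn)))))))))))))))))))))))))))))))) :=
  Cl.node (nat_lit 0x58004) (nat_lit 2) (by decide +kernel) (ClAll.succ (ClAll.succ ClAll.zero n31) s615)

def n48 : Cl (O (nat_lit 6)) (R (nat_lit 14353))
    (p (nat_lit 0x119) (nat_lit 1) (p (nat_lit 0x10000c) (nat_lit 0) (p (nat_lit 0x20000c) (nat_lit 0) (p (nat_lit 0x380c2) (nat_lit 1) (p (nat_lit 0x3c4aa) (nat_lit 7) (p (nat_lit 0xd1) (nat_lit 1) (p (nat_lit 0xc9) (nat_lit 0) (p (nat_lit 0x109) (nat_lit 1) (p (nat_lit 0x101) (nat_lit 0) (p (nat_lit 0x119) (nat_lit 0) (p (nat_lit 0xc1) (nat_lit 0) (p (nat_lit 0x81) (nat_lit 1) (p (nat_lit 0x41) (nat_lit 1) (p (nat_lit 0x10a0b0a89089a) (nat_lit 0) (p (nat_lit 0x898a8a08881a)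 (nat_lit 0) (p (nat_lit 0x109088988079a) (nat_lit 0) (p (nat_lit 0x88880907871a) (nat_lit 0) (p (nat_lit 0x8000080000000080887068a) (nat_lit 0) (p (nat_lit 0x10888068602) (nat_lit 0) (p (nat_lit 0x8807860582) (nat_lit 0) (p (nat_lit 0x10607058502) (nat_lit 0) (p (nat_lit 0x8586850482) (nat_lit 0) (p (nat_lit 0x160004) (nat_lit 0) (p (nat_lit 0x68612) (nat_lit 0) (p (nat_lit 0x50592) (nat_lit 0) (p (nat_lit 0x40512) (nat_lit 0) (p (nat_lit 0x50312) (nat_lit 0) (p (nat_lit 0x38292) (nat_lit 0) (p (nat_lit 0x28212) (nat_lit 0) (p (nat_lit 0x38112) (nat_lit 0) (p (nat_lit 0x20092) (nat_lit 0) (p (nat_lit 0x10012) (nat_lit 0) pn)))))))))))))))))))))))))))))))) :=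
  Cl.node (nat_lit 0xb0004) (nat_lit 2) (by decide +kernel) (ClAll.succ (ClAll.succ ClAll.zero n32) s633)

def n49 : Cl (O (nat_lit 6)) (R (nat_lit 14353))
    (p (nat_lit 0xc1) (nat_lit 0) (p (nat_lit 0xb0004) (nat_lit 0) (p (nat_lit 0x10000c) (nat_lit 0) (p (nat_lit 0x20000c) (nat_lit 0) (p (nat_lit 0x380c2) (nat_lit 0) (p (nat_lit 0x3c4aa) (nat_lit 7) (p (nat_lit 0xd1) (nat_lit 1) (p (nat_lit 0xc9) (nat_lit 0) (p (nat_lit 0x101) (nat_lit 1) (p (nat_lit 0x119) (nat_lit 0) (p (nat_lit 0xc1) (nat_lit 0) (p (nat_lit 0x81) (nat_lit 1) (p (nat_lit 0x41) (nat_lit 1) (p (nat_lit 0x10a0b0a89089a) (nat_lit 0) (p (nat_lit 0x898a8a08881a) (nat_lit 0) (p (nat_lit 0x109088988079a) (nat_lit 0) (p (nat_lit 0x88880907871a) (nat_lit 0) (p (nat_lit 0x8000080000000080887068a) (nat_lit 0) (p (nat_lit 0x10888068602) (nat_lit 0) (p (nat_lit 0x8807860582) (nat_lit 0) (p (nat_lit 0x10607058502) (nat_lit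 0) (p (nat_lit 0x8586850482) (nat_lit 0) (p (nat_lit 0x160004) (nat_lit 0) (p (nat_lit 0x68612) (nat_lit 0) (p (nat_lit 0x50592) (nat_lit 0) (p (nat_lit 0x40512) (nat_lit 0) (p (nat_lit 0x50312) (nat_lit 0) (p (nat_lit 0x38292) (nat_lit 0) (p (nat_lit 0x28212) (nat_lit 0) (p (nat_lit 0x38112) (nat_lit 0) (p (nat_lit 0x20092) (nat_lit 0) (p (nat_lit 0x10012) (nat_lit 0) pn)))))))))))))))))))))))))))))))) :=
  Cl.node (nat_lit 0xd1) (nat_lit 2) (by decide +kernel) (ClAll.succ (ClAll.succ ClAll.zero s661) s662)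

def n50 : Cl (O (nat_lit 6)) (R (nat_lit 14353))
    (p (nat_lit 0xc1) (nat_lit 0) (p (nat_lit 0xb0004) (nat_lit 0) (p (nat_lit 0x10000c) (nat_lit 0) (p (nat_lit 0x20000c) (nat_lit 0) (p (nat_lit 0x380c2) (nat_lit 1) (p (nat_lit 0x3c4aa) (nat_lit 7) (p (nat_lit 0xd1) (nat_lit 1) (p (nat_lit 0xc9) (nat_lit 0) (p (nat_lit 0x101) (nat_lit 1) (p (nat_lit 0x119) (nat_lit 0) (p (nat_lit 0xc1) (nat_lit 0) (p (nat_lit 0x81) (nat_lit 1) (p (nat_lit 0x41) (nat_lit 1) (p (nat_lit 0x10a0b0a89089a) (nat_lit 0) (p (nat_lit 0x898a8a08881a) (nat_lit 0) (p (nat_lit 0x109088988079a) (nat_lit 0) (p (nat_lit 0x88880907871a) (nat_lit 0) (p (nat_lit 0x8000080000000080887068a) (nat_lit 0) (p (nat_lit 0x10888068602) (nat_lit 0) (p (nat_lit 0x8807860582) (nat_lit 0) (p (nat_lit 0x10607058502) (nat_lit 0) (p (nat_lit 0x8586850482) (nat_lit 0) (p (nat_lit 0x160004) (nat_lit 0) (p (nat_lit 0x68612) (nat_lit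 0) (p (nat_lit 0x50592) (nat_lit 0) (p (nat_lit 0x40512) (nat_lit 0) (p (nat_lit 0x50312) (nat_lit 0) (p (nat_lit 0x38292) (nat_lit 0) (p (nat_lit 0x28212) (nat_lit 0) (p (nat_lit 0x38112) (nat_lit 0) (p (nat_lit 0x20092) (nat_lit 0) (p (nat_lit 0x10012) (nat_lit 0) pn)))))))))))))))))))))))))))))))) :=
  Cl.node (nat_lit 0xd1) (nat_lit 2) (by decide +kernel) (ClAll.succ (ClAll.succ ClAll.zero s667) s668)

def n51 : Cl (O (nat_lit 6)) (R (nat_lit 14353))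
    (p (nat_lit 0x101) (nat_lit 0) (p (nat_lit 0x10000c) (nat_lit 0) (p (nat_lit 0xb0004) (nat_lit 0) (p (nat_lit 0x20000c) (nat_lit 0) (p (nat_lit 0x380c2) (nat_lit 0) (p (nat_lit 0x3c4aa) (nat_lit 7) (p (nat_lit 0x111) (nat_lit 1) (p (nat_lit 0xd1) (nat_lit 1) (p (nat_lit 0xc9) (nat_lit 0) (p (nat_lit 0x119) (nat_lit 1) (p (nat_lit 0xc1) (nat_lit 0) (p (nat_lit 0x81) (nat_lit 1) (p (nat_lit 0x41) (nat_lit 1) (p (nat_lit 0x10a0b0a89089a) (nat_lit 0) (p (nat_lit 0x898a8a08881a) (nat_lit 0) (p (nat_lit 0x109088988079a) (nat_lit 0) (p (nat_lit 0x88880907871a) (nat_lit 0) (p (nat_lit 0x8000080000000080887068a) (nat_lit 0) (p (nat_lit 0x10888068602) (nat_lit 0) (p (nat_lit 0x8807860582) (nat_lit 0) (p (nat_lit 0x10607058502) (nat_lit 0) (p (nat_lit 0x8586850482) (nat_lit 0) (p (nat_lit 0x160004) (nat_lit 0) (p (nat_lit 0x68612) (nat_lit 0) (p (nat_lit 0x50592) (nat_lit 0) (p (nat_lit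 0x40512) (nat_lit 0) (p (nat_lit 0x50312) (nat_lit 0) (p (nat_lit 0x38292) (nat_lit 0) (p (nat_lit 0x28212) (nat_lit 0) (p (nat_lit 0x38112) (nat_lit 0) (p (nat_lit 0x20092) (nat_lit 0) (p (nat_lit 0x10012) (nat_lit 0) pn)))))))))))))))))))))))))))))))) :=
  Cl.node (nat_lit 0x109) (nat_lit 2) (by decide +kernel) (ClAll.succ (ClAll.succ ClAll.zero s687) s688)

def n52 : Cl (O (nat_lit 6)) (R (nat_lit 14353))
    (p (nat_lit 0x10000c) (nat_lit 0) (p (nat_lit 0x20000c) (nat_lit 0) (p (nat_lit 0x380c2) (nat_lit 0) (p (nat_lit 0x444aa) (nat_lit 7) (p (nat_lit 0x81) (nat_lit 1) (p (nat_lit 0xc9) (nat_lit 1) (p (nat_lit 0x109) (nat_lit 1) (p (nat_lit 0x101) (nat_lit 0) (p (nat_lit 0x119) (nat_lit 0) (p (nat_lit 0xd1) (nat_lit 0) (p (nat_lit 0x89) (nat_lit 0) (p (nat_lit 0x41) (nat_lit 0) (p (nat_lit 0x10a0b0a89089a) (nat_lit 0) (p (nat_lit 0x898a8a08881a) (nat_lit 0) (p (nat_lit 0x109088988079a)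 (nat_lit 0) (p (nat_lit 0x88880907871a) (nat_lit 0) (p (nat_lit 0x8000080000000080887068a) (nat_lit 0) (p (nat_lit 0x10888068602) (nat_lit 0) (p (nat_lit 0x8807860582) (nat_lit 0) (p (nat_lit 0x10607058502) (nat_lit 0) (p (nat_lit 0x8586850482) (nat_lit 0) (p (nat_lit 0x160004) (nat_lit 0) (p (nat_lit 0x68612) (nat_lit 0) (p (nat_lit 0x50592) (nat_lit 0) (p (nat_lit 0x40512) (nat_lit 0) (p (nat_lit 0x50312) (nat_lit 0) (p (nat_lit 0x38292) (nat_lit 0) (p (nat_lit 0x28212) (nat_lit 0) (p (nat_lit 0x38112) (nat_lit 0) (p (nat_lit 0x20092) (nat_lit 0) (p (nat_lit 0x10012) (nat_lit 0) pn))))))))))))))))))))))))))))))) :=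
  Cl.node (nat_lit 0x81) (nat_lit 2) (by decide +kernel) (ClAll.succ (ClAll.succ ClAll.zero s10) n33)

def n53 : Cl (O (nat_lit 6)) (R (nat_lit 14353))
    (p (nat_lit 0x89) (nat_lit 1) (p (nat_lit 0x20000c) (nat_lit 0) (p (nat_lit 0x380c2) (nat_lit 1) (p (nat_lit 0x444aa) (nat_lit 7) (p (nat_lit 0x81) (nat_lit 1) (p (nat_lit 0xc9) (nat_lit 1) (p (nat_lit 0x109) (nat_lit 1) (p (nat_lit 0x101) (nat_lit 0) (p (nat_lit 0x119) (nat_lit 0) (p (nat_lit 0xd1) (nat_lit 0) (p (nat_lit 0x89) (nat_lit 0) (p (nat_lit 0x41) (nat_lit 0) (p (nat_lit 0x10a0b0a89089a) (nat_lit 0) (p (nat_lit 0x898a8a08881a) (nat_lit 0) (p (nat_lit 0x109088988079a) (nat_lit 0) (p (nat_lit 0x88880907871a) (nat_lit 0) (p (nat_lit 0x8000080000000080887068a) (nat_lit 0) (p (nat_lit 0x10888068602) (nat_lit 0) (p (nat_lit 0x8807860582) (nat_lit 0) (p (nat_lit 0x10607058502) (nat_lit 0) (p (nat_lit 0x8586850482) (nat_lit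 0) (p (nat_lit 0x160004) (nat_lit 0) (p (nat_lit 0x68612) (nat_lit 0) (p (nat_lit 0x50592) (nat_lit 0) (p (nat_lit 0x40512) (nat_lit 0) (p (nat_lit 0x50312) (nat_lit 0) (p (nat_lit 0x38292) (nat_lit 0) (p (nat_lit 0x28212) (nat_lit 0) (p (nat_lit 0x38112) (nat_lit 0) (p (nat_lit 0x20092) (nat_lit 0) (p (nat_lit 0x10012) (nat_lit 0) pn))))))))))))))))))))))))))))))) :=
  Cl.node (nat_lit 0xb0004) (nat_lit 2) (by decide +kernel) (ClAll.succ (ClAll.succ ClAll.zero s18) s19)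

def n54 : Cl (O (nat_lit 6)) (R (nat_lit 14353))
    (p (nat_lit 0x89) (nat_lit 1) (p (nat_lit 0x20000c) (nat_lit 0) (p (nat_lit 0x380c2) (nat_lit 0) (p (nat_lit 0x444aa) (nat_lit 7) (p (nat_lit 0x111) (nat_lit 0) (p (nat_lit 0xc9) (nat_lit 1) (p (nat_lit 0x81) (nat_lit 0) (p (nat_lit 0x101) (nat_lit 1) (p (nat_lit 0x119) (nat_lit 0) (p (nat_lit 0xd1) (nat_lit 0) (p (nat_lit 0x89) (nat_lit 0) (p (nat_lit 0x41) (nat_lit 0) (p (nat_lit 0x10a0b0a89089a) (nat_lit 0) (p (nat_lit 0x898a8a08881a) (nat_lit 0) (p (nat_lit 0x109088988079a) (nat_lit 0) (p (nat_lit 0x88880907871a) (nat_lit 0) (p (nat_lit 0x8000080000000080887068a) (nat_lit 0) (p (nat_lit 0x10888068602) (nat_lit 0) (p (nat_lit 0x8807860582) (nat_lit 0) (p (nat_lit 0x10607058502) (nat_lit 0) (p (nat_lit 0x8586850482) (nat_lit 0) (p (nat_lit 0x160004) (nat_lit 0) (p (nat_lit 0x68612) (nat_lit 0) (p (nat_lit 0x50592) (nat_lit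 0) (p (nat_lit 0x40512) (nat_lit 0) (p (nat_lit 0x50312) (nat_lit 0) (p (nat_lit 0x38292) (nat_lit 0) (p (nat_lit 0x28212) (nat_lit 0) (p (nat_lit 0x38112) (nat_lit 0) (p (nat_lit 0x20092) (nat_lit 0) (p (nat_lit 0x10012) (nat_lit 0) pn))))))))))))))))))))))))))))))) :=
  Cl.node (nat_lit 0xb0004) (nat_lit 2) (by decide +kernel) (ClAll.succ (ClAll.succ ClAll.zero n34) s39)

def n55 : Cl (O (nat_lit 6)) (R (nat_lit 14353))
    (p (nat_lit 0x89) (nat_lit 1) (p (nat_lit 0x20000c) (nat_lit 0) (p (nat_lit 0x380c2) (nat_lit 1) (p (nat_lit 0x444aa) (nat_lit 7) (p (nat_lit 0x111) (nat_lit 0) (p (nat_lit 0xc9) (nat_lit 1) (p (nat_lit 0x81) (nat_lit 0) (p (nat_lit 0x101) (nat_lit 1) (p (nat_lit 0x119) (nat_lit 0) (p (nat_lit 0xd1) (nat_lit 0) (p (nat_lit 0x89) (nat_lit 0) (p (nat_lit 0x41) (nat_lit 0) (p (nat_lit 0x10a0b0a89089a) (nat_lit 0) (p (nat_lit 0x898a8a08881a) (nat_lit 0) (p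 (nat_lit 0x109088988079a) (nat_lit 0) (p (nat_lit 0x88880907871a) (nat_lit 0) (p (nat_lit 0x8000080000000080887068a) (nat_lit 0) (p (nat_lit 0x10888068602) (nat_lit 0) (p (nat_lit 0x8807860582) (nat_lit 0) (p (nat_lit 0x10607058502) (nat_lit 0) (p (nat_lit 0x8586850482) (nat_lit 0) (p (nat_lit 0x160004) (nat_lit 0) (p (nat_lit 0x68612) (nat_lit 0) (p (nat_lit 0x50592) (nat_lit 0) (p (nat_lit 0x40512) (nat_lit 0) (p (nat_lit 0x50312) (nat_lit 0) (p (nat_lit 0x38292) (nat_lit 0) (p (nat_lit 0x28212) (nat_lit 0) (p (nat_lit 0x38112) (nat_lit 0) (p (nat_lit 0x20092) (nat_lit 0) (p (nat_lit 0x10012) (nat_lit 0) pn))))))))))))))))))))))))))))))) :=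
  Cl.node (nat_lit 0xb0004) (nat_lit 2) (by decide +kernel) (ClAll.succ (ClAll.succ ClAll.zero n35) s44)

def n56 : Cl (O (nat_lit 6)) (R (nat_lit 14353))
    (p (nat_lit 0x20000c) (nat_lit 0) (p (nat_lit 0xb0004) (nat_lit 0) (p (nat_lit 0x380c2) (nat_lit 1) (p (nat_lit 0x444aa) (nat_lit 7) (p (nat_lit 0xc9) (nat_lit 1) (p (nat_lit 0xc1) (nat_lit 0) (p (nat_lit 0x81) (nat_lit 1) (p (nat_lit 0x101) (nat_lit 1) (p (nat_lit 0x119) (nat_lit 0) (p (nat_lit 0xd1) (nat_lit 0) (p (nat_lit 0x89) (nat_lit 0) (p (nat_lit 0x41) (nat_lit 0) (p (nat_lit 0x10a0b0a89089a) (nat_lit 0) (p (nat_lit 0x898a8a08881a) (nat_lit 0) (p (nat_lit 0x109088988079a) (nat_lit 0) (p (nat_lit 0x88880907871a) (nat_lit 0) (p (nat_lit 0x8000080000000080887068a) (nat_lit 0) (p (nat_lit 0x10888068602) (nat_lit 0) (p (nat_lit 0x8807860582) (nat_lit 0) (p (nat_lit 0x10607058502) (nat_lit 0) (p (nat_lit 0x8586850482)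 (nat_lit 0) (p (nat_lit 0x160004) (nat_lit 0) (p (nat_lit 0x68612) (nat_lit 0) (p (nat_lit 0x50592) (nat_lit 0) (p (nat_lit 0x40512) (nat_lit 0) (p (nat_lit 0x50312) (nat_lit 0) (p (nat_lit 0x38292) (nat_lit 0) (p (nat_lit 0x28212) (nat_lit 0) (p (nat_lit 0x38112) (nat_lit 0) (p (nat_lit 0x20092) (nat_lit 0) (p (nat_lit 0x10012) (nat_lit 0) pn))))))))))))))))))))))))))))))) :=
  Cl.node (nat_lit 0x119) (nat_lit 2) (by decide +kernel) (ClAll.succ (ClAll.succ ClAll.zero s74) s75)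

def n57 : Cl (O (nat_lit 6)) (R (nat_lit 14353))
    (p (nat_lit 0x10000c) (nat_lit 0) (p (nat_lit 0x20000c) (nat_lit 0) (p (nat_lit 0x380c2) (nat_lit 0) (p (nat_lit 0x444aa) (nat_lit 7) (p (nat_lit 0x109) (nat_lit 1) (p (nat_lit 0x101) (nat_lit 0) (p (nat_lit 0x81) (nat_lit 1) (p (nat_lit 0xc1) (nat_lit 1) (p (nat_lit 0x119) (nat_lit 1) (p (nat_lit 0xd1) (nat_lit 0) (p (nat_lit 0x89) (nat_lit 0) (p (nat_lit 0x41) (nat_lit 0) (p (nat_lit 0x10a0b0a89089a) (nat_lit 0) (p (nat_lit 0x898a8a08881a) (nat_lit 0) (p (nat_lit 0x109088988079a) (nat_lit 0) (p (nat_lit 0x88880907871a) (nat_lit 0) (p (nat_lit 0x8000080000000080887068a) (nat_lit 0) (p (nat_lit 0x10888068602) (nat_lit 0) (p (nat_lit 0x8807860582) (nat_lit 0) (p (nat_lit 0x10607058502) (nat_lit 0) (p (nat_lit 0x8586850482) (nat_lit 0) (p (nat_lit 0x160004) (nat_lit 0) (p (nat_lit 0x68612) (nat_lit 0) (p (nat_lit 0x50592) (nat_lit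 0) (p (nat_lit 0x40512) (nat_lit 0) (p (nat_lit 0x50312) (nat_lit 0) (p (nat_lit 0x38292) (nat_lit 0) (p (nat_lit 0x28212) (nat_lit 0) (p (nat_lit 0x38112) (nat_lit 0) (p (nat_lit 0x20092) (nat_lit 0) (p (nat_lit 0x10012) (nat_lit 0) pn))))))))))))))))))))))))))))))) :=
  Cl.node (nat_lit 0xb0004) (nat_lit 2) (by decide +kernel) (ClAll.succ (ClAll.succ ClAll.zero n36) s144)

def n58 : Cl (O (nat_lit 6)) (R (nat_lit 14353))
    (p (nat_lit 0xb0004) (nat_lit 0) (p (nat_lit 0x20000c) (nat_lit 0) (p (nat_lit 0x380c2) (nat_lit 1) (p (nat_lit 0x444aa) (nat_lit 7) (p (nat_lit 0x109) (nat_lit 1) (p (nat_lit 0x101) (nat_lit 0) (p (nat_lit 0x81) (nat_lit 1) (p (nat_lit 0xc1) (nat_lit 1) (p (nat_lit 0x119) (nat_lit 1) (p (nat_lit 0xd1) (nat_lit 0) (p (nat_lit 0x89) (nat_lit 0) (p (nat_lit 0x41) (nat_lit 0) (p (nat_lit 0x10a0b0a89089a) (nat_lit 0) (p (nat_lit 0x898a8a08881a) (nat_lit 0)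 (p (nat_lit 0x109088988079a) (nat_lit 0) (p (nat_lit 0x88880907871a) (nat_lit 0) (p (nat_lit 0x8000080000000080887068a) (nat_lit 0) (p (nat_lit 0x10888068602) (nat_lit 0) (p (nat_lit 0x8807860582) (nat_lit 0) (p (nat_lit 0x10607058502) (nat_lit 0) (p (nat_lit 0x8586850482) (nat_lit 0) (p (nat_lit 0x160004) (nat_lit 0) (p (nat_lit 0x68612) (nat_lit 0) (p (nat_lit 0x50592) (nat_lit 0) (p (nat_lit 0x40512) (nat_lit 0) (p (nat_lit 0x50312) (nat_lit 0) (p (nat_lit 0x38292) (nat_lit 0) (p (nat_lit 0x28212) (nat_lit 0) (p (nat_lit 0x38112) (nat_lit 0) (p (nat_lit 0x20092) (nat_lit 0) (p (nat_lit 0x10012) (nat_lit 0) pn))))))))))))))))))))))))))))))) :=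
  Cl.node (nat_lit 0x10000c) (nat_lit 2) (by decide +kernel) (ClAll.succ (ClAll.succ ClAll.zero n37) s161)

def n59 : Cl (O (nat_lit 6)) (R (nat_lit 14353))
    (p (nat_lit 0x20000c) (nat_lit 0) (p (nat_lit 0xb0004) (nat_lit 0) (p (nat_lit 0x380c2) (nat_lit 0) (p (nat_lit 0x444aa) (nat_lit 8) (p (nat_lit 0x109) (nat_lit 1) (p (nat_lit 0x101) (nat_lit 0) (p (nat_lit 0x81) (nat_lit 1) (p (nat_lit 0xc1) (nat_lit 1) (p (nat_lit 0x119) (nat_lit 1) (p (nat_lit 0xd1) (nat_lit 0) (p (nat_lit 0x89) (nat_lit 0) (p (nat_lit 0x41) (nat_lit 0) (p (nat_lit 0x10a0b0a89089a) (nat_lit 0) (p (nat_lit 0x898a8a08881a) (nat_lit 0) (p (nat_lit 0x109088988079a) (nat_lit 0) (p (nat_lit 0x88880907871a) (nat_lit 0) (p (nat_lit 0x8000080000000080887068a) (nat_lit 0) (p (nat_lit 0x10888068602) (nat_lit 0) (p (nat_lit 0x8807860582) (nat_lit 0) (p (nat_lit 0x10607058502) (nat_lit 0) (p (nat_lit 0x8586850482)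 (nat_lit 0) (p (nat_lit 0x160004) (nat_lit 0) (p (nat_lit 0x68612) (nat_lit 0) (p (nat_lit 0x50592) (nat_lit 0) (p (nat_lit 0x40512) (nat_lit 0) (p (nat_lit 0x50312) (nat_lit 0) (p (nat_lit 0x38292) (nat_lit 0) (p (nat_lit 0x28212) (nat_lit 0) (p (nat_lit 0x38112) (nat_lit 0) (p (nat_lit 0x20092) (nat_lit 0) (p (nat_lit 0x10012) (nat_lit 0) pn))))))))))))))))))))))))))))))) :=
  Cl.node (nat_lit 0x200014) (nat_lit 2) (by decide +kernel) (ClAll.succ (ClAll.succ ClAll.zero s164) s165)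

def n60 : Cl (O (nat_lit 6)) (R (nat_lit 14353))
    (p (nat_lit 0xb0004) (nat_lit 0) (p (nat_lit 0x20000c) (nat_lit 0) (p (nat_lit 0x380c2) (nat_lit 1) (p (nat_lit 0x444aa) (nat_lit 7) (p (nat_lit 0xd1) (nat_lit 1) (p (nat_lit 0x111) (nat_lit 1) (p (nat_lit 0x109) (nat_lit 0) (p (nat_lit 0x101) (nat_lit 0) (p (nat_lit 0x119) (nat_lit 0) (p (nat_lit 0xc9) (nat_lit 0) (p (nat_lit 0x89) (nat_lit 1) (p (nat_lit 0x41) (nat_lit 0) (p (nat_lit 0x10a0b0a89089a) (nat_lit 0) (p (nat_lit 0x898a8a08881a) (nat_lit 0) (p (nat_lit 0x109088988079a) (nat_lit 0) (p (nat_lit 0x88880907871a) (nat_lit 0) (p (nat_lit 0x8000080000000080887068a) (nat_lit 0) (p (nat_lit 0x10888068602) (nat_lit 0) (p (nat_lit 0x8807860582) (nat_lit 0) (p (nat_lit 0x10607058502) (nat_lit 0) (p (nat_lit 0x8586850482) (nat_lit 0) (p (nat_lit 0x160004) (nat_lit 0) (p (nat_lit 0x68612) (nat_lit 0) (p (nat_lit 0x50592) (nat_lit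 0) (p (nat_lit 0x40512) (nat_lit 0) (p (nat_lit 0x50312) (nat_lit 0) (p (nat_lit 0x38292) (nat_lit 0) (p (nat_lit 0x28212) (nat_lit 0) (p (nat_lit 0x38112) (nat_lit 0) (p (nat_lit 0x20092) (nat_lit 0) (p (nat_lit 0x10012) (nat_lit 0) pn))))))))))))))))))))))))))))))) :=
  Cl.node (nat_lit 0xc1) (nat_lit 2) (by decide +kernel) (ClAll.succ (ClAll.succ ClAll.zero s268) n38)

def n61 : Cl (O (nat_lit 6)) (R (nat_lit 14353))
    (p (nat_lit 0xb0004) (nat_lit 1) (p (nat_lit 0x20000c) (nat_lit 0) (p (nat_lit 0x380c2) (nat_lit 1) (p (nat_lit 0x444aa) (nat_lit 7) (p (nat_lit 0xd1) (nat_lit 1) (p (nat_lit 0x111) (nat_lit 1) (p (nat_lit 0x109) (nat_lit 0) (p (nat_lit 0x101) (nat_lit 0) (p (nat_lit 0x119) (nat_lit 0) (p (nat_lit 0xc9) (nat_lit 0) (p (nat_lit 0x89) (nat_lit 1) (p (nat_lit 0x41) (nat_lit 0) (p (nat_lit 0x10a0b0a89089a) (nat_lit 0) (p (nat_lit 0x898a8a08881a) (nat_lit 0) (p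 (nat_lit 0x109088988079a) (nat_lit 0) (p (nat_lit 0x88880907871a) (nat_lit 0) (p (nat_lit 0x8000080000000080887068a) (nat_lit 0) (p (nat_lit 0x10888068602) (nat_lit 0) (p (nat_lit 0x8807860582) (nat_lit 0) (p (nat_lit 0x10607058502) (nat_lit 0) (p (nat_lit 0x8586850482) (nat_lit 0) (p (nat_lit 0x160004) (nat_lit 0) (p (nat_lit 0x68612) (nat_lit 0) (p (nat_lit 0x50592) (nat_lit 0) (p (nat_lit 0x40512) (nat_lit 0) (p (nat_lit 0x50312) (nat_lit 0) (p (nat_lit 0x38292) (nat_lit 0) (p (nat_lit 0x28212) (nat_lit 0) (p (nat_lit 0x38112) (nat_lit 0) (p (nat_lit 0x20092) (nat_lit 0) (p (nat_lit 0x10012) (nat_lit 0) pn))))))))))))))))))))))))))))))) :=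
  Cl.node (nat_lit 0x1fc014) (nat_lit 2) (by decide +kernel) (ClAll.succ (ClAll.succ ClAll.zero n39) s289)

def n62 : Cl (O (nat_lit 6)) (R (nat_lit 14353))
    (p (nat_lit 0xc1) (nat_lit 0) (p (nat_lit 0x10000c) (nat_lit 0) (p (nat_lit 0x20000c) (nat_lit 0) (p (nat_lit 0x380c2) (nat_lit 0) (p (nat_lit 0x444aa) (nat_lit 7) (p (nat_lit 0xd1) (nat_lit 1) (p (nat_lit 0x109) (nat_lit 1) (p (nat_lit 0x101) (nat_lit 0) (p (nat_lit 0x119) (nat_lit 0) (p (nat_lit 0xc9) (nat_lit 0) (p (nat_lit 0x89) (nat_lit 1) (p (nat_lit 0x41) (nat_lit 0) (p (nat_lit 0x10a0b0a89089a) (nat_lit 0) (p (nat_lit 0x898a8a08881a) (nat_lit 0) (p (nat_lit 0x109088988079a) (nat_lit 0) (p (nat_lit 0x88880907871a) (nat_lit 0) (p (nat_lit 0x8000080000000080887068a) (nat_lit 0) (p (nat_lit 0x10888068602) (nat_lit 0) (p (nat_lit 0x8807860582) (nat_lit 0) (p (nat_lit 0x10607058502) (nat_lit 0) (p (nat_lit 0x8586850482)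 (nat_lit 0) (p (nat_lit 0x160004) (nat_lit 0) (p (nat_lit 0x68612) (nat_lit 0) (p (nat_lit 0x50592) (nat_lit 0) (p (nat_lit 0x40512) (nat_lit 0) (p (nat_lit 0x50312) (nat_lit 0) (p (nat_lit 0x38292) (nat_lit 0) (p (nat_lit 0x28212) (nat_lit 0) (p (nat_lit 0x38112) (nat_lit 0) (p (nat_lit 0x20092) (nat_lit 0) (p (nat_lit 0x10012) (nat_lit 0) pn))))))))))))))))))))))))))))))) :=
  Cl.node (nat_lit 0xb0004) (nat_lit 2) (by decide +kernel) (ClAll.succ (ClAll.succ ClAll.zero n40) s310)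

def n63 : Cl (O (nat_lit 6)) (R (nat_lit 14353))
    (p (nat_lit 0x10000c) (nat_lit 0) (p (nat_lit 0x20000c) (nat_lit 0) (p (nat_lit 0xb0004) (nat_lit 0) (p (nat_lit 0x380c2) (nat_lit 1) (p (nat_lit 0x444aa) (nat_lit 7) (p (nat_lit 0xd1) (nat_lit 1) (p (nat_lit 0x109) (nat_lit 1) (p (nat_lit 0x101) (nat_lit 0) (p (nat_lit 0x119) (nat_lit 0) (p (nat_lit 0xc9) (nat_lit 0) (p (nat_lit 0x89) (nat_lit 1) (p (nat_lit 0x41) (nat_lit 0) (p (nat_lit 0x10a0b0a89089a) (nat_lit 0) (p (nat_lit 0x898a8a08881a) (nat_lit 0) (p (nat_lit 0x109088988079a) (nat_lit 0) (p (nat_lit 0x88880907871a) (nat_lit 0) (p (nat_lit 0x8000080000000080887068a) (nat_lit 0) (p (nat_lit 0x10888068602) (nat_lit 0) (p (nat_lit 0x8807860582) (nat_lit 0) (p (nat_lit 0x10607058502) (nat_lit 0) (p (nat_lit 0x8586850482) (nat_lit 0) (p (nat_lit 0x160004) (nat_lit 0) (p (nat_lit 0x68612) (nat_lit 0) (p (nat_lit 0x50592)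 (nat_lit 0) (p (nat_lit 0x40512) (nat_lit 0) (p (nat_lit 0x50312) (nat_lit 0) (p (nat_lit 0x38292) (nat_lit 0) (p (nat_lit 0x28212) (nat_lit 0) (p (nat_lit 0x38112) (nat_lit 0) (p (nat_lit 0x20092) (nat_lit 0) (p (nat_lit 0x10012) (nat_lit 0) pn))))))))))))))))))))))))))))))) :=
  Cl.node (nat_lit 0xc1) (nat_lit 2) (by decide +kernel) (ClAll.succ (ClAll.succ ClAll.zero s314) s315)

def n64 : Cl (O (nat_lit 6)) (R (nat_lit 14353))
    (p (nat_lit 0x10000c) (nat_lit 0) (p (nat_lit 0xb0004) (nat_lit 0) (p (nat_lit 0x20000c) (nat_lit 0) (p (nat_lit 0x380c2) (nat_lit 1) (p (nat_lit 0x444aa) (nat_lit 7) (p (nat_lit 0x111) (nat_lit 1) (p (nat_lit 0xd1) (nat_lit 1) (p (nat_lit 0xc1) (nat_lit 0) (p (nat_lit 0x119) (nat_lit 1) (p (nat_lit 0xc9) (nat_lit 0) (p (nat_lit 0x89) (nat_lit 1) (p (nat_lit 0x41) (nat_lit 0) (p (nat_lit 0x10a0b0a89089a) (nat_lit 0) (p (nat_lit 0x898a8a08881a) (nat_lit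 0) (p (nat_lit 0x109088988079a) (nat_lit 0) (p (nat_lit 0x88880907871a) (nat_lit 0) (p (nat_lit 0x8000080000000080887068a) (nat_lit 0) (p (nat_lit 0x10888068602) (nat_lit 0) (p (nat_lit 0x8807860582) (nat_lit 0) (p (nat_lit 0x10607058502) (nat_lit 0) (p (nat_lit 0x8586850482) (nat_lit 0) (p (nat_lit 0x160004) (nat_lit 0) (p (nat_lit 0x68612) (nat_lit 0) (p (nat_lit 0x50592) (nat_lit 0) (p (nat_lit 0x40512) (nat_lit 0) (p (nat_lit 0x50312) (nat_lit 0) (p (nat_lit 0x38292) (nat_lit 0) (p (nat_lit 0x28212) (nat_lit 0) (p (nat_lit 0x38112) (nat_lit 0) (p (nat_lit 0x20092) (nat_lit 0) (p (nat_lit 0x10012) (nat_lit 0) pn))))))))))))))))))))))))))))))) :=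
  Cl.node (nat_lit 0x109) (nat_lit 2) (by decide +kernel) (ClAll.succ (ClAll.succ ClAll.zero s352) s353)

def n65 : Cl (O (nat_lit 6)) (R (nat_lit 14353))
    (p (nat_lit 0x109) (nat_lit 0) (p (nat_lit 0x10000c) (nat_lit 0) (p (nat_lit 0x20000c) (nat_lit 0) (p (nat_lit 0x380c2) (nat_lit 0) (p (nat_lit 0x444aa) (nat_lit 7) (p (nat_lit 0x111) (nat_lit 1) (p (nat_lit 0x101) (nat_lit 0) (p (nat_lit 0xc1) (nat_lit 1) (p (nat_lit 0x119) (nat_lit 1) (p (nat_lit 0xc9) (nat_lit 0) (p (nat_lit 0x89) (nat_lit 1) (p (nat_lit 0x41) (nat_lit 0) (p (nat_lit 0x10a0b0a89089a) (nat_lit 0) (p (nat_lit 0x898a8a08881a) (nat_lit 0) (p (nat_lit 0x109088988079a) (nat_lit 0) (p (nat_lit 0x88880907871a) (nat_lit 0) (p (nat_lit 0x8000080000000080887068a) (nat_lit 0) (p (nat_lit 0x10888068602) (nat_lit 0) (p (nat_lit 0x8807860582) (nat_lit 0) (p (nat_lit 0x10607058502) (nat_lit 0) (p (nat_lit 0x8586850482)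 (nat_lit 0) (p (nat_lit 0x160004) (nat_lit 0) (p (nat_lit 0x68612) (nat_lit 0) (p (nat_lit 0x50592) (nat_lit 0) (p (nat_lit 0x40512) (nat_lit 0) (p (nat_lit 0x50312) (nat_lit 0) (p (nat_lit 0x38292) (nat_lit 0) (p (nat_lit 0x28212) (nat_lit 0) (p (nat_lit 0x38112) (nat_lit 0) (p (nat_lit 0x20092) (nat_lit 0) (p (nat_lit 0x10012) (nat_lit 0) pn))))))))))))))))))))))))))))))) :=
  Cl.node (nat_lit 0xb0004) (nat_lit 2) (by decide +kernel) (ClAll.succ (ClAll.succ ClAll.zero n41) s396)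

def n66 : Cl (O (nat_lit 6)) (R (nat_lit 14353))
    (p (nat_lit 0x109) (nat_lit 0) (p (nat_lit 0xb0004) (nat_lit 0) (p (nat_lit 0x20000c) (nat_lit 0) (p (nat_lit 0x380c2) (nat_lit 1) (p (nat_lit 0x444aa) (nat_lit 7) (p (nat_lit 0x111) (nat_lit 1) (p (nat_lit 0x101) (nat_lit 0) (p (nat_lit 0xc1) (nat_lit 1) (p (nat_lit 0x119) (nat_lit 1) (p (nat_lit 0xc9) (nat_lit 0) (p (nat_lit 0x89) (nat_lit 1) (p (nat_lit 0x41) (nat_lit 0) (p (nat_lit 0x10a0b0a89089a) (nat_lit 0) (p (nat_lit 0x898a8a08881a) (nat_lit 0) (p (nat_lit 0x109088988079a) (nat_lit 0) (p (nat_lit 0x88880907871a) (nat_lit 0) (p (nat_lit 0x8000080000000080887068a) (nat_lit 0) (p (nat_lit 0x10888068602) (nat_lit 0) (p (nat_lit 0x8807860582) (nat_lit 0) (p (nat_lit 0x10607058502) (nat_lit 0) (p (nat_lit 0x8586850482) (nat_lit 0) (p (nat_lit 0x160004) (nat_lit 0) (p (nat_lit 0x68612) (nat_lit 0) (p (nat_lit 0x50592) (nat_lit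 0) (p (nat_lit 0x40512) (nat_lit 0) (p (nat_lit 0x50312) (nat_lit 0) (p (nat_lit 0x38292) (nat_lit 0) (p (nat_lit 0x28212) (nat_lit 0) (p (nat_lit 0x38112) (nat_lit 0) (p (nat_lit 0x20092) (nat_lit 0) (p (nat_lit 0x10012) (nat_lit 0) pn))))))))))))))))))))))))))))))) :=
  Cl.node (nat_lit 0x10000c) (nat_lit 2) (by decide +kernel) (ClAll.succ (ClAll.succ ClAll.zero n42) s403)

def n67 : Cl (O (nat_lit 6)) (R (nat_lit 14353))
    (p (nat_lit 0x10000c) (nat_lit 0) (p (nat_lit 0x20000c) (nat_lit 0) (p (nat_lit 0x380c2) (nat_lit 0) (p (nat_lit 0x3c4aa) (nat_lit 7) (p (nat_lit 0xd1) (nat_lit 1) (p (nat_lit 0x111) (nat_lit 1) (p (nat_lit 0x109) (nat_lit 0) (p (nat_lit 0x101) (nat_lit 0) (p (nat_lit 0x119) (nat_lit 0) (p (nat_lit 0xc1) (nat_lit 0) (p (nat_lit 0x81) (nat_lit 1) (p (nat_lit 0x41) (nat_lit 1) (p (nat_lit 0x10a0b0a89089a) (nat_lit 0) (p (nat_lit 0x898a8a08881a) (nat_lit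 0) (p (nat_lit 0x109088988079a) (nat_lit 0) (p (nat_lit 0x88880907871a) (nat_lit 0) (p (nat_lit 0x8000080000000080887068a) (nat_lit 0) (p (nat_lit 0x10888068602) (nat_lit 0) (p (nat_lit 0x8807860582) (nat_lit 0) (p (nat_lit 0x10607058502) (nat_lit 0) (p (nat_lit 0x8586850482) (nat_lit 0) (p (nat_lit 0x160004) (nat_lit 0) (p (nat_lit 0x68612) (nat_lit 0) (p (nat_lit 0x50592) (nat_lit 0) (p (nat_lit 0x40512) (nat_lit 0) (p (nat_lit 0x50312) (nat_lit 0) (p (nat_lit 0x38292) (nat_lit 0) (p (nat_lit 0x28212) (nat_lit 0) (p (nat_lit 0x38112) (nat_lit 0) (p (nat_lit 0x20092) (nat_lit 0) (p (nat_lit 0x10012) (nat_lit 0) pn))))))))))))))))))))))))))))))) :=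
  Cl.node (nat_lit 0xc9) (nat_lit 2) (by decide +kernel) (ClAll.succ (ClAll.succ ClAll.zero n43) n44)

def n68 : Cl (O (nat_lit 6)) (R (nat_lit 14353))
    (p (nat_lit 0x10000c) (nat_lit 0) (p (nat_lit 0x20000c) (nat_lit 0) (p (nat_lit 0x380c2) (nat_lit 1) (p (nat_lit 0x3c4aa) (nat_lit 7) (p (nat_lit 0xd1) (nat_lit 1) (p (nat_lit 0x111) (nat_lit 1) (p (nat_lit 0x109) (nat_lit 0) (p (nat_lit 0x101) (nat_lit 0) (p (nat_lit 0x119) (nat_lit 0) (p (nat_lit 0xc1) (nat_lit 0) (p (nat_lit 0x81) (nat_lit 1) (p (nat_lit 0x41) (nat_lit 1) (p (nat_lit 0x10a0b0a89089a) (nat_lit 0) (p (nat_lit 0x898a8a08881a) (nat_lit 0) (p (nat_lit 0x109088988079a) (nat_lit 0) (p (nat_lit 0x88880907871a) (nat_lit 0) (p (nat_lit 0x8000080000000080887068a) (nat_lit 0) (p (nat_lit 0x10888068602) (nat_lit 0) (p (nat_lit 0x8807860582) (nat_lit 0) (p (nat_lit 0x10607058502) (nat_lit 0) (p (nat_lit 0x8586850482)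 (nat_lit 0) (p (nat_lit 0x160004) (nat_lit 0) (p (nat_lit 0x68612) (nat_lit 0) (p (nat_lit 0x50592) (nat_lit 0) (p (nat_lit 0x40512) (nat_lit 0) (p (nat_lit 0x50312) (nat_lit 0) (p (nat_lit 0x38292) (nat_lit 0) (p (nat_lit 0x28212) (nat_lit 0) (p (nat_lit 0x38112) (nat_lit 0) (p (nat_lit 0x20092) (nat_lit 0) (p (nat_lit 0x10012) (nat_lit 0) pn))))))))))))))))))))))))))))))) :=
  Cl.node (nat_lit 0xc9) (nat_lit 2) (by decide +kernel) (ClAll.succ (ClAll.succ ClAll.zero n45) n46)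

def n69 : Cl (O (nat_lit 6)) (R (nat_lit 14353))
    (p (nat_lit 0x200014) (nat_lit 1) (p (nat_lit 0xb0004) (nat_lit 0) (p (nat_lit 0x380c2) (nat_lit 0) (p (nat_lit 0x3c4aa) (nat_lit 8) (p (nat_lit 0xd1) (nat_lit 1) (p (nat_lit 0x111) (nat_lit 1) (p (nat_lit 0x109) (nat_lit 0) (p (nat_lit 0x101) (nat_lit 0) (p (nat_lit 0x119) (nat_lit 0) (p (nat_lit 0xc1) (nat_lit 0) (p (nat_lit 0x81) (nat_lit 1) (p (nat_lit 0x41) (nat_lit 1) (p (nat_lit 0x10a0b0a89089a) (nat_lit 0) (p (nat_lit 0x898a8a08881a) (nat_lit 0) (p (nat_lit 0x109088988079a) (nat_lit 0) (p (nat_lit 0x88880907871a) (nat_lit 0) (p (nat_lit 0x8000080000000080887068a) (nat_lit 0) (p (nat_lit 0x10888068602) (nat_lit 0) (p (nat_lit 0x8807860582) (nat_lit 0) (p (nat_lit 0x10607058502) (nat_lit 0) (p (nat_lit 0x8586850482) (nat_lit 0) (p (nat_lit 0x160004) (nat_lit 0) (p (nat_lit 0x68612) (nat_lit 0) (p (nat_lit 0x50592) (nat_lit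 0) (p (nat_lit 0x40512) (nat_lit 0) (p (nat_lit 0x50312) (nat_lit 0) (p (nat_lit 0x38292) (nat_lit 0) (p (nat_lit 0x28212) (nat_lit 0) (p (nat_lit 0x38112) (nat_lit 0) (p (nat_lit 0x20092) (nat_lit 0) (p (nat_lit 0x10012) (nat_lit 0) pn))))))))))))))))))))))))))))))) :=
  Cl.node (nat_lit 0x300014) (nat_lit 2) (by decide +kernel) (ClAll.succ (ClAll.succ ClAll.zero s611) n47)

def n70 : Cl (O (nat_lit 6)) (R (nat_lit 14353))
    (p (nat_lit 0x10000c) (nat_lit 0) (p (nat_lit 0x20000c) (nat_lit 0) (p (nat_lit 0x380c2) (nat_lit 1) (p (nat_lit 0x3c4aa) (nat_lit 7) (p (nat_lit 0xd1) (nat_lit 1) (p (nat_lit 0xc9) (nat_lit 0) (p (nat_lit 0x109) (nat_lit 1) (p (nat_lit 0x101) (nat_lit 0) (p (nat_lit 0x119) (nat_lit 0) (p (nat_lit 0xc1) (nat_lit 0) (p (nat_lit 0x81) (nat_lit 1) (p (nat_lit 0x41) (nat_lit 1) (p (nat_lit 0x10a0b0a89089a) (nat_lit 0) (p (nat_lit 0x898a8a08881a) (nat_lit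 0) (p (nat_lit 0x109088988079a) (nat_lit 0) (p (nat_lit 0x88880907871a) (nat_lit 0) (p (nat_lit 0x8000080000000080887068a) (nat_lit 0) (p (nat_lit 0x10888068602) (nat_lit 0) (p (nat_lit 0x8807860582) (nat_lit 0) (p (nat_lit 0x10607058502) (nat_lit 0) (p (nat_lit 0x8586850482) (nat_lit 0) (p (nat_lit 0x160004) (nat_lit 0) (p (nat_lit 0x68612) (nat_lit 0) (p (nat_lit 0x50592) (nat_lit 0) (p (nat_lit 0x40512) (nat_lit 0) (p (nat_lit 0x50312) (nat_lit 0) (p (nat_lit 0x38292) (nat_lit 0) (p (nat_lit 0x28212) (nat_lit 0) (p (nat_lit 0x38112) (nat_lit 0) (p (nat_lit 0x20092) (nat_lit 0) (p (nat_lit 0x10012) (nat_lit 0) pn))))))))))))))))))))))))))))))) :=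
  Cl.node (nat_lit 0x119) (nat_lit 2) (by decide +kernel) (ClAll.succ (ClAll.succ ClAll.zero s630) n48)

def n71 : Cl (O (nat_lit 6)) (R (nat_lit 14353))
    (p (nat_lit 0xb0004) (nat_lit 0) (p (nat_lit 0x10000c) (nat_lit 0) (p (nat_lit 0x20000c) (nat_lit 0) (p (nat_lit 0x380c2) (nat_lit 0) (p (nat_lit 0x3c4aa) (nat_lit 7) (p (nat_lit 0xd1) (nat_lit 1) (p (nat_lit 0xc9) (nat_lit 0) (p (nat_lit 0x101) (nat_lit 1) (p (nat_lit 0x119) (nat_lit 0) (p (nat_lit 0xc1) (nat_lit 0) (p (nat_lit 0x81) (nat_lit 1) (p (nat_lit 0x41) (nat_lit 1) (p (nat_lit 0x10a0b0a89089a) (nat_lit 0) (p (nat_lit 0x898a8a08881a) (nat_lit 0) (p (nat_lit 0x109088988079a) (nat_lit 0) (p (nat_lit 0x88880907871a) (nat_lit 0) (p (nat_lit 0x8000080000000080887068a) (nat_lit 0) (p (nat_lit 0x10888068602) (nat_lit 0) (p (nat_lit 0x8807860582) (nat_lit 0) (p (nat_lit 0x10607058502) (nat_lit 0) (p (nat_lit 0x8586850482)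 (nat_lit 0) (p (nat_lit 0x160004) (nat_lit 0) (p (nat_lit 0x68612) (nat_lit 0) (p (nat_lit 0x50592) (nat_lit 0) (p (nat_lit 0x40512) (nat_lit 0) (p (nat_lit 0x50312) (nat_lit 0) (p (nat_lit 0x38292) (nat_lit 0) (p (nat_lit 0x28212) (nat_lit 0) (p (nat_lit 0x38112) (nat_lit 0) (p (nat_lit 0x20092) (nat_lit 0) (p (nat_lit 0x10012) (nat_lit 0) pn))))))))))))))))))))))))))))))) :=
  Cl.node (nat_lit 0xc1) (nat_lit 2) (by decide +kernel) (ClAll.succ (ClAll.succ ClAll.zero n49) s663)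

def n72 : Cl (O (nat_lit 6)) (R (nat_lit 14353))
    (p (nat_lit 0xb0004) (nat_lit 0) (p (nat_lit 0x10000c) (nat_lit 0) (p (nat_lit 0x20000c) (nat_lit 0) (p (nat_lit 0x380c2) (nat_lit 1) (p (nat_lit 0x3c4aa) (nat_lit 7) (p (nat_lit 0xd1) (nat_lit 1) (p (nat_lit 0xc9) (nat_lit 0) (p (nat_lit 0x101) (nat_lit 1) (p (nat_lit 0x119) (nat_lit 0) (p (nat_lit 0xc1) (nat_lit 0) (p (nat_lit 0x81) (nat_lit 1) (p (nat_lit 0x41) (nat_lit 1) (p (nat_lit 0x10a0b0a89089a) (nat_lit 0) (p (nat_lit 0x898a8a08881a) (nat_lit 0) (p (nat_lit 0x109088988079a) (nat_lit 0) (p (nat_lit 0x88880907871a) (nat_lit 0) (p (nat_lit 0x8000080000000080887068a) (nat_lit 0) (p (nat_lit 0x10888068602) (nat_lit 0) (p (nat_lit 0x8807860582) (nat_lit 0) (p (nat_lit 0x10607058502) (nat_lit 0) (p (nat_lit 0x8586850482) (nat_lit 0) (p (nat_lit 0x160004) (nat_lit 0) (p (nat_lit 0x68612) (nat_lit 0) (p (nat_lit 0x50592)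 (nat_lit 0) (p (nat_lit 0x40512) (nat_lit 0) (p (nat_lit 0x50312) (nat_lit 0) (p (nat_lit 0x38292) (nat_lit 0) (p (nat_lit 0x28212) (nat_lit 0) (p (nat_lit 0x38112) (nat_lit 0) (p (nat_lit 0x20092) (nat_lit 0) (p (nat_lit 0x10012) (nat_lit 0) pn))))))))))))))))))))))))))))))) :=
  Cl.node (nat_lit 0xc1) (nat_lit 2) (by decide +kernel) (ClAll.succ (ClAll.succ ClAll.zero n50) s669)

def n73 : Cl (O (nat_lit 6)) (R (nat_lit 14353))
    (p (nat_lit 0x10000c) (nat_lit 0) (p (nat_lit 0xb0004) (nat_lit 0) (p (nat_lit 0x20000c) (nat_lit 0) (p (nat_lit 0x380c2) (nat_lit 0) (p (nat_lit 0x3c4aa) (nat_lit 7) (p (nat_lit 0x111) (nat_lit 1) (p (nat_lit 0xd1) (nat_lit 1) (p (nat_lit 0xc9) (nat_lit 0) (p (nat_lit 0x119) (nat_lit 1) (p (nat_lit 0xc1) (nat_lit 0) (p (nat_lit 0x81) (nat_lit 1) (p (nat_lit 0x41) (nat_lit 1) (p (nat_lit 0x10a0b0a89089a) (nat_lit 0) (p (nat_lit 0x898a8a08881a) (nat_lit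 0) (p (nat_lit 0x109088988079a) (nat_lit 0) (p (nat_lit 0x88880907871a) (nat_lit 0) (p (nat_lit 0x8000080000000080887068a) (nat_lit 0) (p (nat_lit 0x10888068602) (nat_lit 0) (p (nat_lit 0x8807860582) (nat_lit 0) (p (nat_lit 0x10607058502) (nat_lit 0) (p (nat_lit 0x8586850482) (nat_lit 0) (p (nat_lit 0x160004) (nat_lit 0) (p (nat_lit 0x68612) (nat_lit 0) (p (nat_lit 0x50592) (nat_lit 0) (p (nat_lit 0x40512) (nat_lit 0) (p (nat_lit 0x50312) (nat_lit 0) (p (nat_lit 0x38292) (nat_lit 0) (p (nat_lit 0x28212) (nat_lit 0) (p (nat_lit 0x38112) (nat_lit 0) (p (nat_lit 0x20092) (nat_lit 0) (p (nat_lit 0x10012) (nat_lit 0) pn))))))))))))))))))))))))))))))) :=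
  Cl.node (nat_lit 0x101) (nat_lit 2) (by decide +kernel) (ClAll.succ (ClAll.succ ClAll.zero n51) s689)

def n74 : Cl (O (nat_lit 6)) (R (nat_lit 14353))
    (p (nat_lit 0x10000c) (nat_lit 0) (p (nat_lit 0x101) (nat_lit 0) (p (nat_lit 0x20000c) (nat_lit 0) (p (nat_lit 0x380c2) (nat_lit 1) (p (nat_lit 0x3c4aa) (nat_lit 7) (p (nat_lit 0x111) (nat_lit 1) (p (nat_lit 0xd1) (nat_lit 1) (p (nat_lit 0xc9) (nat_lit 0) (p (nat_lit 0x119) (nat_lit 1) (p (nat_lit 0xc1) (nat_lit 0) (p (nat_lit 0x81) (nat_lit 1) (p (nat_lit 0x41) (nat_lit 1) (p (nat_lit 0x10a0b0a89089a) (nat_lit 0) (p (nat_lit 0x898a8a08881a) (nat_lit 0) (p (nat_lit 0x109088988079a) (nat_lit 0) (p (nat_lit 0x88880907871a) (nat_lit 0) (p (nat_lit 0x8000080000000080887068a) (nat_lit 0) (p (nat_lit 0x10888068602) (nat_lit 0) (p (nat_lit 0x8807860582) (nat_lit 0) (p (nat_lit 0x10607058502) (nat_lit 0) (p (nat_lit 0x8586850482)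 (nat_lit 0) (p (nat_lit 0x160004) (nat_lit 0) (p (nat_lit 0x68612) (nat_lit 0) (p (nat_lit 0x50592) (nat_lit 0) (p (nat_lit 0x40512) (nat_lit 0) (p (nat_lit 0x50312) (nat_lit 0) (p (nat_lit 0x38292) (nat_lit 0) (p (nat_lit 0x28212) (nat_lit 0) (p (nat_lit 0x38112) (nat_lit 0) (p (nat_lit 0x20092) (nat_lit 0) (p (nat_lit 0x10012) (nat_lit 0) pn))))))))))))))))))))))))))))))) :=
  Cl.node (nat_lit 0x109) (nat_lit 2) (by decide +kernel) (ClAll.succ (ClAll.succ ClAll.zero s693) s694)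

def n75 : Cl (O (nat_lit 6)) (R (nat_lit 14353))
    (p (nat_lit 0x20000c) (nat_lit 0) (p (nat_lit 0x380c2) (nat_lit 0) (p (nat_lit 0x444aa) (nat_lit 7) (p (nat_lit 0x81) (nat_lit 1) (p (nat_lit 0xc9) (nat_lit 1) (p (nat_lit 0x109) (nat_lit 1) (p (nat_lit 0x101) (nat_lit 0) (p (nat_lit 0x119) (nat_lit 0) (p (nat_lit 0xd1) (nat_lit 0) (p (nat_lit 0x89) (nat_lit 0) (p (nat_lit 0x41) (nat_lit 0) (p (nat_lit 0x10a0b0a89089a) (nat_lit 0) (p (nat_lit 0x898a8a08881a) (nat_lit 0) (p (nat_lit 0x109088988079a) (nat_lit 0) (p (nat_lit 0x88880907871a) (nat_lit 0) (p (nat_lit 0x8000080000000080887068a) (nat_lit 0) (p (nat_lit 0x10888068602) (nat_lit 0) (p (nat_lit 0x8807860582) (nat_lit 0) (p (nat_lit 0x10607058502) (nat_lit 0) (p (nat_lit 0x8586850482) (nat_lit 0) (p (nat_lit 0x160004) (nat_lit 0) (p (nat_lit 0x68612) (nat_lit 0) (p (nat_lit 0x50592) (nat_lit 0) (p (nat_lit 0x40512) (nat_lit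 0) (p (nat_lit 0x50312) (nat_lit 0) (p (nat_lit 0x38292) (nat_lit 0) (p (nat_lit 0x28212) (nat_lit 0) (p (nat_lit 0x38112) (nat_lit 0) (p (nat_lit 0x20092) (nat_lit 0) (p (nat_lit 0x10012) (nat_lit 0) pn)))))))))))))))))))))))))))))) :=
  Cl.node (nat_lit 0x10000c) (nat_lit 2) (by decide +kernel) (ClAll.succ (ClAll.succ ClAll.zero n52) s15)

def n76 : Cl (O (nat_lit 6)) (R (nat_lit 14353))
    (p (nat_lit 0x20000c) (nat_lit 0) (p (nat_lit 0x380c2) (nat_lit 1) (p (nat_lit 0x444aa) (nat_lit 7) (p (nat_lit 0x81) (nat_lit 1) (p (nat_lit 0xc9) (nat_lit 1) (p (nat_lit 0x109) (nat_lit 1) (p (nat_lit 0x101) (nat_lit 0) (p (nat_lit 0x119) (nat_lit 0) (p (nat_lit 0xd1) (nat_lit 0) (p (nat_lit 0x89) (nat_lit 0) (p (nat_lit 0x41) (nat_lit 0) (p (nat_lit 0x10a0b0a89089a) (nat_lit 0) (p (nat_lit 0x898a8a08881a) (nat_lit 0) (p (nat_lit 0x109088988079a) (nat_lit 0) (p (nat_lit 0x88880907871a)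 (nat_lit 0) (p (nat_lit 0x8000080000000080887068a) (nat_lit 0) (p (nat_lit 0x10888068602) (nat_lit 0) (p (nat_lit 0x8807860582) (nat_lit 0) (p (nat_lit 0x10607058502) (nat_lit 0) (p (nat_lit 0x8586850482) (nat_lit 0) (p (nat_lit 0x160004) (nat_lit 0) (p (nat_lit 0x68612) (nat_lit 0) (p (nat_lit 0x50592) (nat_lit 0) (p (nat_lit 0x40512) (nat_lit 0) (p (nat_lit 0x50312) (nat_lit 0) (p (nat_lit 0x38292) (nat_lit 0) (p (nat_lit 0x28212) (nat_lit 0) (p (nat_lit 0x38112) (nat_lit 0) (p (nat_lit 0x20092) (nat_lit 0) (p (nat_lit 0x10012) (nat_lit 0) pn)))))))))))))))))))))))))))))) :=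
  Cl.node (nat_lit 0x89) (nat_lit 2) (by decide +kernel) (ClAll.succ (ClAll.succ ClAll.zero s17) n53)

def n77 : Cl (O (nat_lit 6)) (R (nat_lit 14353))
    (p (nat_lit 0x20000c) (nat_lit 0) (p (nat_lit 0x380c2) (nat_lit 0) (p (nat_lit 0x444aa) (nat_lit 7) (p (nat_lit 0x111) (nat_lit 0) (p (nat_lit 0xc9) (nat_lit 1) (p (nat_lit 0x81) (nat_lit 0) (p (nat_lit 0x101) (nat_lit 1) (p (nat_lit 0x119) (nat_lit 0) (p (nat_lit 0xd1) (nat_lit 0) (p (nat_lit 0x89) (nat_lit 0) (p (nat_lit 0x41) (nat_lit 0) (p (nat_lit 0x10a0b0a89089a) (nat_lit 0) (p (nat_lit 0x898a8a08881a) (nat_lit 0) (p (nat_lit 0x109088988079a) (nat_lit 0) (p (nat_lit 0x88880907871a) (nat_lit 0) (p (nat_lit 0x8000080000000080887068a) (nat_lit 0) (p (nat_lit 0x10888068602) (nat_lit 0) (p (nat_lit 0x8807860582) (nat_lit 0) (p (nat_lit 0x10607058502) (nat_lit 0) (p (nat_lit 0x8586850482) (nat_lit 0) (p (nat_lit 0x160004)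 (nat_lit 0) (p (nat_lit 0x68612) (nat_lit 0) (p (nat_lit 0x50592) (nat_lit 0) (p (nat_lit 0x40512) (nat_lit 0) (p (nat_lit 0x50312) (nat_lit 0) (p (nat_lit 0x38292) (nat_lit 0) (p (nat_lit 0x28212) (nat_lit 0) (p (nat_lit 0x38112) (nat_lit 0) (p (nat_lit 0x20092) (nat_lit 0) (p (nat_lit 0x10012) (nat_lit 0) pn)))))))))))))))))))))))))))))) :=
  Cl.node (nat_lit 0x89) (nat_lit 2) (by decide +kernel) (ClAll.succ (ClAll.succ ClAll.zero s36) n54)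

def n78 : Cl (O (nat_lit 6)) (R (nat_lit 14353))
    (p (nat_lit 0x20000c) (nat_lit 0) (p (nat_lit 0x380c2) (nat_lit 1) (p (nat_lit 0x444aa) (nat_lit 7) (p (nat_lit 0x111) (nat_lit 0) (p (nat_lit 0xc9) (nat_lit 1) (p (nat_lit 0x81) (nat_lit 0) (p (nat_lit 0x101) (nat_lit 1) (p (nat_lit 0x119) (nat_lit 0) (p (nat_lit 0xd1) (nat_lit 0) (p (nat_lit 0x89) (nat_lit 0) (p (nat_lit 0x41) (nat_lit 0) (p (nat_lit 0x10a0b0a89089a) (nat_lit 0) (p (nat_lit 0x898a8a08881a) (nat_lit 0) (p (nat_lit 0x109088988079a) (nat_lit 0) (p (nat_lit 0x88880907871a) (nat_lit 0) (p (nat_lit 0x8000080000000080887068a) (nat_lit 0) (p (nat_lit 0x10888068602) (nat_lit 0) (p (nat_lit 0x8807860582) (nat_lit 0) (p (nat_lit 0x10607058502) (nat_lit 0) (p (nat_lit 0x8586850482) (nat_lit 0) (p (nat_lit 0x160004) (nat_lit 0) (p (nat_lit 0x68612) (nat_lit 0) (p (nat_lit 0x50592) (nat_lit 0) (p (nat_lit 0x40512) (nat_lit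 0) (p (nat_lit 0x50312) (nat_lit 0) (p (nat_lit 0x38292) (nat_lit 0) (p (nat_lit 0x28212) (nat_lit 0) (p (nat_lit 0x38112) (nat_lit 0) (p (nat_lit 0x20092) (nat_lit 0) (p (nat_lit 0x10012) (nat_lit 0) pn)))))))))))))))))))))))))))))) :=
  Cl.node (nat_lit 0x89) (nat_lit 2) (by decide +kernel) (ClAll.succ (ClAll.succ ClAll.zero s41) n55)

def n79 : Cl (O (nat_lit 6)) (R (nat_lit 14353))
    (p (nat_lit 0x20000c) (nat_lit 0) (p (nat_lit 0x380c2) (nat_lit 0) (p (nat_lit 0x444aa) (nat_lit 7) (p (nat_lit 0xc9) (nat_lit 1) (p (nat_lit 0xc1) (nat_lit 0) (p (nat_lit 0x81) (nat_lit 1) (p (nat_lit 0x101) (nat_lit 1) (p (nat_lit 0x119) (nat_lit 0) (p (nat_lit 0xd1) (nat_lit 0) (p (nat_lit 0x89) (nat_lit 0) (p (nat_lit 0x41) (nat_lit 0) (p (nat_lit 0x10a0b0a89089a) (nat_lit 0) (p (nat_lit 0x898a8a08881a) (nat_lit 0) (p (nat_lit 0x109088988079a) (nat_lit 0) (p (nat_lit 0x88880907871a) (nat_lit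 0) (p (nat_lit 0x8000080000000080887068a) (nat_lit 0) (p (nat_lit 0x10888068602) (nat_lit 0) (p (nat_lit 0x8807860582) (nat_lit 0) (p (nat_lit 0x10607058502) (nat_lit 0) (p (nat_lit 0x8586850482) (nat_lit 0) (p (nat_lit 0x160004) (nat_lit 0) (p (nat_lit 0x68612) (nat_lit 0) (p (nat_lit 0x50592) (nat_lit 0) (p (nat_lit 0x40512) (nat_lit 0) (p (nat_lit 0x50312) (nat_lit 0) (p (nat_lit 0x38292) (nat_lit 0) (p (nat_lit 0x28212) (nat_lit 0) (p (nat_lit 0x38112) (nat_lit 0) (p (nat_lit 0x20092) (nat_lit 0) (p (nat_lit 0x10012) (nat_lit 0) pn)))))))))))))))))))))))))))))) :=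
  Cl.node (nat_lit 0x119) (nat_lit 2) (by decide +kernel) (ClAll.succ (ClAll.succ ClAll.zero s71) s72)

def n80 : Cl (O (nat_lit 6)) (R (nat_lit 14353))
    (p (nat_lit 0xb0004) (nat_lit 0) (p (nat_lit 0x380c2) (nat_lit 1) (p (nat_lit 0x444aa) (nat_lit 7) (p (nat_lit 0xc9) (nat_lit 1) (p (nat_lit 0xc1) (nat_lit 0) (p (nat_lit 0x81) (nat_lit 1) (p (nat_lit 0x101) (nat_lit 1) (p (nat_lit 0x119) (nat_lit 0) (p (nat_lit 0xd1) (nat_lit 0) (p (nat_lit 0x89) (nat_lit 0) (p (nat_lit 0x41) (nat_lit 0) (p (nat_lit 0x10a0b0a89089a) (nat_lit 0) (p (nat_lit 0x898a8a08881a) (nat_lit 0) (p (nat_lit 0x109088988079a) (nat_lit 0) (p (nat_lit 0x88880907871a) (nat_lit 0) (p (nat_lit 0x8000080000000080887068a) (nat_lit 0) (p (nat_lit 0x10888068602) (nat_lit 0) (p (nat_lit 0x8807860582) (nat_lit 0) (p (nat_lit 0x10607058502) (nat_lit 0) (p (nat_lit 0x8586850482) (nat_lit 0) (p (nat_lit 0x160004)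 (nat_lit 0) (p (nat_lit 0x68612) (nat_lit 0) (p (nat_lit 0x50592) (nat_lit 0) (p (nat_lit 0x40512) (nat_lit 0) (p (nat_lit 0x50312) (nat_lit 0) (p (nat_lit 0x38292) (nat_lit 0) (p (nat_lit 0x28212) (nat_lit 0) (p (nat_lit 0x38112) (nat_lit 0) (p (nat_lit 0x20092) (nat_lit 0) (p (nat_lit 0x10012) (nat_lit 0) pn)))))))))))))))))))))))))))))) :=
  Cl.node (nat_lit 0x20000c) (nat_lit 2) (by decide +kernel) (ClAll.succ (ClAll.succ ClAll.zero n56) s76)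

def n81 : Cl (O (nat_lit 6)) (R (nat_lit 14353))
    (p (nat_lit 0x20000c) (nat_lit 0) (p (nat_lit 0x380c2) (nat_lit 0) (p (nat_lit 0x444aa) (nat_lit 7) (p (nat_lit 0x109) (nat_lit 1) (p (nat_lit 0x101) (nat_lit 0) (p (nat_lit 0x81) (nat_lit 1) (p (nat_lit 0xc1) (nat_lit 1) (p (nat_lit 0x119) (nat_lit 1) (p (nat_lit 0xd1) (nat_lit 0) (p (nat_lit 0x89) (nat_lit 0) (p (nat_lit 0x41) (nat_lit 0) (p (nat_lit 0x10a0b0a89089a) (nat_lit 0) (p (nat_lit 0x898a8a08881a) (nat_lit 0) (p (nat_lit 0x109088988079a) (nat_lit 0) (p (nat_lit 0x88880907871a) (nat_lit 0) (p (nat_lit 0x8000080000000080887068a) (nat_lit 0) (p (nat_lit 0x10888068602) (nat_lit 0) (p (nat_lit 0x8807860582) (nat_lit 0) (p (nat_lit 0x10607058502) (nat_lit 0) (p (nat_lit 0x8586850482) (nat_lit 0) (p (nat_lit 0x160004) (nat_lit 0) (p (nat_lit 0x68612) (nat_lit 0) (p (nat_lit 0x50592) (nat_lit 0) (p (nat_lit 0x40512) (nat_lit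 0) (p (nat_lit 0x50312) (nat_lit 0) (p (nat_lit 0x38292) (nat_lit 0) (p (nat_lit 0x28212) (nat_lit 0) (p (nat_lit 0x38112) (nat_lit 0) (p (nat_lit 0x20092) (nat_lit 0) (p (nat_lit 0x10012) (nat_lit 0) pn)))))))))))))))))))))))))))))) :=
  Cl.node (nat_lit 0x10000c) (nat_lit 2) (by decide +kernel) (ClAll.succ (ClAll.succ ClAll.zero n57) s145)

def n82 : Cl (O (nat_lit 6)) (R (nat_lit 14353))
    (p (nat_lit 0x20000c) (nat_lit 0) (p (nat_lit 0x380c2) (nat_lit 1) (p (nat_lit 0x444aa) (nat_lit 7) (p (nat_lit 0x109) (nat_lit 1) (p (nat_lit 0x101) (nat_lit 0) (p (nat_lit 0x81) (nat_lit 1) (p (nat_lit 0xc1) (nat_lit 1) (p (nat_lit 0x119) (nat_lit 1) (p (nat_lit 0xd1) (nat_lit 0) (p (nat_lit 0x89) (nat_lit 0) (p (nat_lit 0x41) (nat_lit 0) (p (nat_lit 0x10a0b0a89089a) (nat_lit 0) (p (nat_lit 0x898a8a08881a) (nat_lit 0) (p (nat_lit 0x109088988079a) (nat_lit 0) (p (nat_lit 0x88880907871a)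 (nat_lit 0) (p (nat_lit 0x8000080000000080887068a) (nat_lit 0) (p (nat_lit 0x10888068602) (nat_lit 0) (p (nat_lit 0x8807860582) (nat_lit 0) (p (nat_lit 0x10607058502) (nat_lit 0) (p (nat_lit 0x8586850482) (nat_lit 0) (p (nat_lit 0x160004) (nat_lit 0) (p (nat_lit 0x68612) (nat_lit 0) (p (nat_lit 0x50592) (nat_lit 0) (p (nat_lit 0x40512) (nat_lit 0) (p (nat_lit 0x50312) (nat_lit 0) (p (nat_lit 0x38292) (nat_lit 0) (p (nat_lit 0x28212) (nat_lit 0) (p (nat_lit 0x38112) (nat_lit 0) (p (nat_lit 0x20092) (nat_lit 0) (p (nat_lit 0x10012) (nat_lit 0) pn)))))))))))))))))))))))))))))) :=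
  Cl.node (nat_lit 0xb0004) (nat_lit 2) (by decide +kernel) (ClAll.succ (ClAll.succ ClAll.zero n58) s162)

def n83 : Cl (O (nat_lit 6)) (R (nat_lit 14353))
    (p (nat_lit 0xb0004) (nat_lit 0) (p (nat_lit 0x380c2) (nat_lit 0) (p (nat_lit 0x444aa) (nat_lit 8) (p (nat_lit 0x109) (nat_lit 1) (p (nat_lit 0x101) (nat_lit 0) (p (nat_lit 0x81) (nat_lit 1) (p (nat_lit 0xc1) (nat_lit 1) (p (nat_lit 0x119) (nat_lit 1) (p (nat_lit 0xd1) (nat_lit 0) (p (nat_lit 0x89) (nat_lit 0) (p (nat_lit 0x41) (nat_lit 0) (p (nat_lit 0x10a0b0a89089a) (nat_lit 0) (p (nat_lit 0x898a8a08881a) (nat_lit 0) (p (nat_lit 0x109088988079a) (nat_lit 0) (p (nat_lit 0x88880907871a) (nat_lit 0) (p (nat_lit 0x8000080000000080887068a) (nat_lit 0) (p (nat_lit 0x10888068602) (nat_lit 0) (p (nat_lit 0x8807860582) (nat_lit 0) (p (nat_lit 0x10607058502) (nat_lit 0) (p (nat_lit 0x8586850482) (nat_lit 0) (p (nat_lit 0x160004)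 (nat_lit 0) (p (nat_lit 0x68612) (nat_lit 0) (p (nat_lit 0x50592) (nat_lit 0) (p (nat_lit 0x40512) (nat_lit 0) (p (nat_lit 0x50312) (nat_lit 0) (p (nat_lit 0x38292) (nat_lit 0) (p (nat_lit 0x28212) (nat_lit 0) (p (nat_lit 0x38112) (nat_lit 0) (p (nat_lit 0x20092) (nat_lit 0) (p (nat_lit 0x10012) (nat_lit 0) pn)))))))))))))))))))))))))))))) :=
  Cl.node (nat_lit 0x20000c) (nat_lit 2) (by decide +kernel) (ClAll.succ (ClAll.succ ClAll.zero n59) s166)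

def n84 : Cl (O (nat_lit 6)) (R (nat_lit 14353))
    (p (nat_lit 0x20000c) (nat_lit 0) (p (nat_lit 0x380c2) (nat_lit 1) (p (nat_lit 0x444aa) (nat_lit 7) (p (nat_lit 0xd1) (nat_lit 1) (p (nat_lit 0x111) (nat_lit 1) (p (nat_lit 0x109) (nat_lit 0) (p (nat_lit 0x101) (nat_lit 0) (p (nat_lit 0x119) (nat_lit 0) (p (nat_lit 0xc9) (nat_lit 0) (p (nat_lit 0x89) (nat_lit 1) (p (nat_lit 0x41) (nat_lit 0) (p (nat_lit 0x10a0b0a89089a) (nat_lit 0) (p (nat_lit 0x898a8a08881a) (nat_lit 0) (p (nat_lit 0x109088988079a) (nat_lit 0) (p (nat_lit 0x88880907871a) (nat_lit 0) (p (nat_lit 0x8000080000000080887068a) (nat_lit 0) (p (nat_lit 0x10888068602) (nat_lit 0) (p (nat_lit 0x8807860582) (nat_lit 0) (p (nat_lit 0x10607058502) (nat_lit 0) (p (nat_lit 0x8586850482) (nat_lit 0) (p (nat_lit 0x160004) (nat_lit 0) (p (nat_lit 0x68612) (nat_lit 0) (p (nat_lit 0x50592) (nat_lit 0) (p (nat_lit 0x40512) (nat_lit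 0) (p (nat_lit 0x50312) (nat_lit 0) (p (nat_lit 0x38292) (nat_lit 0) (p (nat_lit 0x28212) (nat_lit 0) (p (nat_lit 0x38112) (nat_lit 0) (p (nat_lit 0x20092) (nat_lit 0) (p (nat_lit 0x10012) (nat_lit 0) pn)))))))))))))))))))))))))))))) :=
  Cl.node (nat_lit 0xb0004) (nat_lit 2) (by decide +kernel) (ClAll.succ (ClAll.succ ClAll.zero n60) n61)

def n85 : Cl (O (nat_lit 6)) (R (nat_lit 14353))
    (p (nat_lit 0xb0004) (nat_lit 0) (p (nat_lit 0x380c2) (nat_lit 0) (p (nat_lit 0x444aa) (nat_lit 8) (p (nat_lit 0xd1) (nat_lit 1) (p (nat_lit 0x111) (nat_lit 1) (p (nat_lit 0x109) (nat_lit 0) (p (nat_lit 0x101) (nat_lit 0) (p (nat_lit 0x119) (nat_lit 0) (p (nat_lit 0xc9) (nat_lit 0) (p (nat_lit 0x89) (nat_lit 1) (p (nat_lit 0x41) (nat_lit 0) (p (nat_lit 0x10a0b0a89089a) (nat_lit 0) (p (nat_lit 0x898a8a08881a) (nat_lit 0) (p (nat_lit 0x109088988079a) (nat_lit 0) (p (nat_lit 0x88880907871a)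 (nat_lit 0) (p (nat_lit 0x8000080000000080887068a) (nat_lit 0) (p (nat_lit 0x10888068602) (nat_lit 0) (p (nat_lit 0x8807860582) (nat_lit 0) (p (nat_lit 0x10607058502) (nat_lit 0) (p (nat_lit 0x8586850482) (nat_lit 0) (p (nat_lit 0x160004) (nat_lit 0) (p (nat_lit 0x68612) (nat_lit 0) (p (nat_lit 0x50592) (nat_lit 0) (p (nat_lit 0x40512) (nat_lit 0) (p (nat_lit 0x50312) (nat_lit 0) (p (nat_lit 0x38292) (nat_lit 0) (p (nat_lit 0x28212) (nat_lit 0) (p (nat_lit 0x38112) (nat_lit 0) (p (nat_lit 0x20092) (nat_lit 0) (p (nat_lit 0x10012) (nat_lit 0) pn)))))))))))))))))))))))))))))) :=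
  Cl.node (nat_lit 0x200014) (nat_lit 2) (by decide +kernel) (ClAll.succ (ClAll.succ ClAll.zero s291) s292)

def n86 : Cl (O (nat_lit 6)) (R (nat_lit 14353))
    (p (nat_lit 0x10000c) (nat_lit 0) (p (nat_lit 0x20000c) (nat_lit 0) (p (nat_lit 0x380c2) (nat_lit 0) (p (nat_lit 0x444aa) (nat_lit 7) (p (nat_lit 0xd1) (nat_lit 1) (p (nat_lit 0x109) (nat_lit 1) (p (nat_lit 0x101) (nat_lit 0) (p (nat_lit 0x119) (nat_lit 0) (p (nat_lit 0xc9) (nat_lit 0) (p (nat_lit 0x89) (nat_lit 1) (p (nat_lit 0x41) (nat_lit 0) (p (nat_lit 0x10a0b0a89089a) (nat_lit 0) (p (nat_lit 0x898a8a08881a) (nat_lit 0) (p (nat_lit 0x109088988079a) (nat_lit 0) (p (nat_lit 0x88880907871a) (nat_lit 0) (p (nat_lit 0x8000080000000080887068a) (nat_lit 0) (p (nat_lit 0x10888068602) (nat_lit 0) (p (nat_lit 0x8807860582) (nat_lit 0) (p (nat_lit 0x10607058502) (nat_lit 0) (p (nat_lit 0x8586850482) (nat_lit 0) (p (nat_lit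 0x160004) (nat_lit 0) (p (nat_lit 0x68612) (nat_lit 0) (p (nat_lit 0x50592) (nat_lit 0) (p (nat_lit 0x40512) (nat_lit 0) (p (nat_lit 0x50312) (nat_lit 0) (p (nat_lit 0x38292) (nat_lit 0) (p (nat_lit 0x28212) (nat_lit 0) (p (nat_lit 0x38112) (nat_lit 0) (p (nat_lit 0x20092) (nat_lit 0) (p (nat_lit 0x10012) (nat_lit 0) pn)))))))))))))))))))))))))))))) :=
  Cl.node (nat_lit 0xc1) (nat_lit 2) (by decide +kernel) (ClAll.succ (ClAll.succ ClAll.zero n62) s311)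

def n87 : Cl (O (nat_lit 6)) (R (nat_lit 14353))
    (p (nat_lit 0x20000c) (nat_lit 0) (p (nat_lit 0xb0004) (nat_lit 0) (p (nat_lit 0x380c2) (nat_lit 1) (p (nat_lit 0x444aa) (nat_lit 7) (p (nat_lit 0xd1) (nat_lit 1) (p (nat_lit 0x109) (nat_lit 1) (p (nat_lit 0x101) (nat_lit 0) (p (nat_lit 0x119) (nat_lit 0) (p (nat_lit 0xc9) (nat_lit 0) (p (nat_lit 0x89) (nat_lit 1) (p (nat_lit 0x41) (nat_lit 0) (p (nat_lit 0x10a0b0a89089a) (nat_lit 0) (p (nat_lit 0x898a8a08881a) (nat_lit 0) (p (nat_lit 0x109088988079a) (nat_lit 0) (p (nat_lit 0x88880907871a) (nat_lit 0) (p (nat_lit 0x8000080000000080887068a) (nat_lit 0) (p (nat_lit 0x10888068602) (nat_lit 0) (p (nat_lit 0x8807860582) (nat_lit 0) (p (nat_lit 0x10607058502) (nat_lit 0) (p (nat_lit 0x8586850482) (nat_lit 0) (p (nat_lit 0x160004) (nat_lit 0) (p (nat_lit 0x68612) (nat_lit 0) (p (nat_lit 0x50592) (nat_lit 0) (p (nat_lit 0x40512)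 (nat_lit 0) (p (nat_lit 0x50312) (nat_lit 0) (p (nat_lit 0x38292) (nat_lit 0) (p (nat_lit 0x28212) (nat_lit 0) (p (nat_lit 0x38112) (nat_lit 0) (p (nat_lit 0x20092) (nat_lit 0) (p (nat_lit 0x10012) (nat_lit 0) pn)))))))))))))))))))))))))))))) :=
  Cl.node (nat_lit 0x10000c) (nat_lit 2) (by decide +kernel) (ClAll.succ (ClAll.succ ClAll.zero n63) s316)

def n88 : Cl (O (nat_lit 6)) (R (nat_lit 14353))
    (p (nat_lit 0xb0004) (nat_lit 0) (p (nat_lit 0x20000c) (nat_lit 0) (p (nat_lit 0x380c2) (nat_lit 1) (p (nat_lit 0x444aa) (nat_lit 7) (p (nat_lit 0x111) (nat_lit 1) (p (nat_lit 0xd1) (nat_lit 1) (p (nat_lit 0xc1) (nat_lit 0) (p (nat_lit 0x119) (nat_lit 1) (p (nat_lit 0xc9) (nat_lit 0) (p (nat_lit 0x89) (nat_lit 1) (p (nat_lit 0x41) (nat_lit 0) (p (nat_lit 0x10a0b0a89089a) (nat_lit 0) (p (nat_lit 0x898a8a08881a) (nat_lit 0) (p (nat_lit 0x109088988079a) (nat_lit 0) (p (nat_lit 0x88880907871a)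 (nat_lit 0) (p (nat_lit 0x8000080000000080887068a) (nat_lit 0) (p (nat_lit 0x10888068602) (nat_lit 0) (p (nat_lit 0x8807860582) (nat_lit 0) (p (nat_lit 0x10607058502) (nat_lit 0) (p (nat_lit 0x8586850482) (nat_lit 0) (p (nat_lit 0x160004) (nat_lit 0) (p (nat_lit 0x68612) (nat_lit 0) (p (nat_lit 0x50592) (nat_lit 0) (p (nat_lit 0x40512) (nat_lit 0) (p (nat_lit 0x50312) (nat_lit 0) (p (nat_lit 0x38292) (nat_lit 0) (p (nat_lit 0x28212) (nat_lit 0) (p (nat_lit 0x38112) (nat_lit 0) (p (nat_lit 0x20092) (nat_lit 0) (p (nat_lit 0x10012) (nat_lit 0) pn)))))))))))))))))))))))))))))) :=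
  Cl.node (nat_lit 0x10000c) (nat_lit 2) (by decide +kernel) (ClAll.succ (ClAll.succ ClAll.zero n64) s354)

def n89 : Cl (O (nat_lit 6)) (R (nat_lit 14353))
    (p (nat_lit 0x10000c) (nat_lit 0) (p (nat_lit 0x20000c) (nat_lit 0) (p (nat_lit 0x380c2) (nat_lit 0) (p (nat_lit 0x444aa) (nat_lit 7) (p (nat_lit 0x111) (nat_lit 1) (p (nat_lit 0x101) (nat_lit 0) (p (nat_lit 0xc1) (nat_lit 1) (p (nat_lit 0x119) (nat_lit 1) (p (nat_lit 0xc9) (nat_lit 0) (p (nat_lit 0x89) (nat_lit 1) (p (nat_lit 0x41) (nat_lit 0) (p (nat_lit 0x10a0b0a89089a) (nat_lit 0) (p (nat_lit 0x898a8a08881a) (nat_lit 0) (p (nat_lit 0x109088988079a) (nat_lit 0) (p (nat_lit 0x88880907871a) (nat_lit 0) (p (nat_lit 0x8000080000000080887068a) (nat_lit 0) (p (nat_lit 0x10888068602) (nat_lit 0) (p (nat_lit 0x8807860582) (nat_lit 0) (p (nat_lit 0x10607058502) (nat_lit 0) (p (nat_lit 0x8586850482) (nat_lit 0) (p (nat_lit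 0x160004) (nat_lit 0) (p (nat_lit 0x68612) (nat_lit 0) (p (nat_lit 0x50592) (nat_lit 0) (p (nat_lit 0x40512) (nat_lit 0) (p (nat_lit 0x50312) (nat_lit 0) (p (nat_lit 0x38292) (nat_lit 0) (p (nat_lit 0x28212) (nat_lit 0) (p (nat_lit 0x38112) (nat_lit 0) (p (nat_lit 0x20092) (nat_lit 0) (p (nat_lit 0x10012) (nat_lit 0) pn)))))))))))))))))))))))))))))) :=
  Cl.node (nat_lit 0x109) (nat_lit 2) (by decide +kernel) (ClAll.succ (ClAll.succ ClAll.zero n65) s397)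

def n90 : Cl (O (nat_lit 6)) (R (nat_lit 14353))
    (p (nat_lit 0xb0004) (nat_lit 0) (p (nat_lit 0x20000c) (nat_lit 0) (p (nat_lit 0x380c2) (nat_lit 1) (p (nat_lit 0x444aa) (nat_lit 7) (p (nat_lit 0x111) (nat_lit 1) (p (nat_lit 0x101) (nat_lit 0) (p (nat_lit 0xc1) (nat_lit 1) (p (nat_lit 0x119) (nat_lit 1) (p (nat_lit 0xc9) (nat_lit 0) (p (nat_lit 0x89) (nat_lit 1) (p (nat_lit 0x41) (nat_lit 0) (p (nat_lit 0x10a0b0a89089a) (nat_lit 0) (p (nat_lit 0x898a8a08881a) (nat_lit 0) (p (nat_lit 0x109088988079a) (nat_lit 0) (p (nat_lit 0x88880907871a) (nat_lit 0) (p (nat_lit 0x8000080000000080887068a) (nat_lit 0) (p (nat_lit 0x10888068602) (nat_lit 0) (p (nat_lit 0x8807860582) (nat_lit 0) (p (nat_lit 0x10607058502) (nat_lit 0) (p (nat_lit 0x8586850482) (nat_lit 0) (p (nat_lit 0x160004) (nat_lit 0) (p (nat_lit 0x68612) (nat_lit 0) (p (nat_lit 0x50592) (nat_lit 0) (p (nat_lit 0x40512)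 (nat_lit 0) (p (nat_lit 0x50312) (nat_lit 0) (p (nat_lit 0x38292) (nat_lit 0) (p (nat_lit 0x28212) (nat_lit 0) (p (nat_lit 0x38112) (nat_lit 0) (p (nat_lit 0x20092) (nat_lit 0) (p (nat_lit 0x10012) (nat_lit 0) pn)))))))))))))))))))))))))))))) :=
  Cl.node (nat_lit 0x109) (nat_lit 2) (by decide +kernel) (ClAll.succ (ClAll.succ ClAll.zero n66) s404)

def n91 : Cl (O (nat_lit 6)) (R (nat_lit 14353))
    (p (nat_lit 0x20000c) (nat_lit 0) (p (nat_lit 0x380c2) (nat_lit 0) (p (nat_lit 0x3c4aa) (nat_lit 7) (p (nat_lit 0xd1) (nat_lit 1) (p (nat_lit 0x111) (nat_lit 1) (p (nat_lit 0x109) (nat_lit 0) (p (nat_lit 0x101) (nat_lit 0) (p (nat_lit 0x119) (nat_lit 0) (p (nat_lit 0xc1) (nat_lit 0) (p (nat_lit 0x81) (nat_lit 1) (p (nat_lit 0x41) (nat_lit 1) (p (nat_lit 0x10a0b0a89089a) (nat_lit 0) (p (nat_lit 0x898a8a08881a) (nat_lit 0) (p (nat_lit 0x109088988079a) (nat_lit 0) (p (nat_lit 0x88880907871a)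 (nat_lit 0) (p (nat_lit 0x8000080000000080887068a) (nat_lit 0) (p (nat_lit 0x10888068602) (nat_lit 0) (p (nat_lit 0x8807860582) (nat_lit 0) (p (nat_lit 0x10607058502) (nat_lit 0) (p (nat_lit 0x8586850482) (nat_lit 0) (p (nat_lit 0x160004) (nat_lit 0) (p (nat_lit 0x68612) (nat_lit 0) (p (nat_lit 0x50592) (nat_lit 0) (p (nat_lit 0x40512) (nat_lit 0) (p (nat_lit 0x50312) (nat_lit 0) (p (nat_lit 0x38292) (nat_lit 0) (p (nat_lit 0x28212) (nat_lit 0) (p (nat_lit 0x38112) (nat_lit 0) (p (nat_lit 0x20092) (nat_lit 0) (p (nat_lit 0x10012) (nat_lit 0) pn)))))))))))))))))))))))))))))) :=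
  Cl.node (nat_lit 0x10000c) (nat_lit 2) (by decide +kernel) (ClAll.succ (ClAll.succ ClAll.zero n67) s596)

def n92 : Cl (O (nat_lit 6)) (R (nat_lit 14353))
    (p (nat_lit 0x20000c) (nat_lit 0) (p (nat_lit 0x380c2) (nat_lit 1) (p (nat_lit 0x3c4aa) (nat_lit 7) (p (nat_lit 0xd1) (nat_lit 1) (p (nat_lit 0x111) (nat_lit 1) (p (nat_lit 0x109) (nat_lit 0) (p (nat_lit 0x101) (nat_lit 0) (p (nat_lit 0x119) (nat_lit 0) (p (nat_lit 0xc1) (nat_lit 0) (p (nat_lit 0x81) (nat_lit 1) (p (nat_lit 0x41) (nat_lit 1) (p (nat_lit 0x10a0b0a89089a) (nat_lit 0) (p (nat_lit 0x898a8a08881a) (nat_lit 0) (p (nat_lit 0x109088988079a) (nat_lit 0) (p (nat_lit 0x88880907871a) (nat_lit 0) (p (nat_lit 0x8000080000000080887068a) (nat_lit 0) (p (nat_lit 0x10888068602) (nat_lit 0) (p (nat_lit 0x8807860582) (nat_lit 0) (p (nat_lit 0x10607058502) (nat_lit 0) (p (nat_lit 0x8586850482) (nat_lit 0) (p (nat_lit 0x160004)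 (nat_lit 0) (p (nat_lit 0x68612) (nat_lit 0) (p (nat_lit 0x50592) (nat_lit 0) (p (nat_lit 0x40512) (nat_lit 0) (p (nat_lit 0x50312) (nat_lit 0) (p (nat_lit 0x38292) (nat_lit 0) (p (nat_lit 0x28212) (nat_lit 0) (p (nat_lit 0x38112) (nat_lit 0) (p (nat_lit 0x20092) (nat_lit 0) (p (nat_lit 0x10012) (nat_lit 0) pn)))))))))))))))))))))))))))))) :=
  Cl.node (nat_lit 0x10000c) (nat_lit 2) (by decide +kernel) (ClAll.succ (ClAll.succ ClAll.zero n68) s608)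

def n93 : Cl (O (nat_lit 6)) (R (nat_lit 14353))
    (p (nat_lit 0xb0004) (nat_lit 0) (p (nat_lit 0x380c2) (nat_lit 0) (p (nat_lit 0x3c4aa) (nat_lit 8) (p (nat_lit 0xd1) (nat_lit 1) (p (nat_lit 0x111) (nat_lit 1) (p (nat_lit 0x109) (nat_lit 0) (p (nat_lit 0x101) (nat_lit 0) (p (nat_lit 0x119) (nat_lit 0) (p (nat_lit 0xc1) (nat_lit 0) (p (nat_lit 0x81) (nat_lit 1) (p (nat_lit 0x41) (nat_lit 1) (p (nat_lit 0x10a0b0a89089a) (nat_lit 0) (p (nat_lit 0x898a8a08881a) (nat_lit 0) (p (nat_lit 0x109088988079a) (nat_lit 0) (p (nat_lit 0x88880907871a) (nat_lit 0) (p (nat_lit 0x8000080000000080887068a) (nat_lit 0) (p (nat_lit 0x10888068602) (nat_lit 0) (p (nat_lit 0x8807860582) (nat_lit 0) (p (nat_lit 0x10607058502) (nat_lit 0) (p (nat_lit 0x8586850482) (nat_lit 0) (p (nat_lit 0x160004) (nat_lit 0) (p (nat_lit 0x68612) (nat_lit 0) (p (nat_lit 0x50592) (nat_lit 0) (p (nat_lit 0x40512) (nat_lit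 0) (p (nat_lit 0x50312) (nat_lit 0) (p (nat_lit 0x38292) (nat_lit 0) (p (nat_lit 0x28212) (nat_lit 0) (p (nat_lit 0x38112) (nat_lit 0) (p (nat_lit 0x20092) (nat_lit 0) (p (nat_lit 0x10012) (nat_lit 0) pn)))))))))))))))))))))))))))))) :=
  Cl.node (nat_lit 0x200014) (nat_lit 2) (by decide +kernel) (ClAll.succ (ClAll.succ ClAll.zero s610) n69)

def n94 : Cl (O (nat_lit 6)) (R (nat_lit 14353))
    (p (nat_lit 0x20000c) (nat_lit 0) (p (nat_lit 0x380c2) (nat_lit 1) (p (nat_lit 0x3c4aa) (nat_lit 7) (p (nat_lit 0xd1) (nat_lit 1) (p (nat_lit 0xc9) (nat_lit 0) (p (nat_lit 0x109) (nat_lit 1) (p (nat_lit 0x101) (nat_lit 0) (p (nat_lit 0x119) (nat_lit 0) (p (nat_lit 0xc1) (nat_lit 0) (p (nat_lit 0x81) (nat_lit 1) (p (nat_lit 0x41) (nat_lit 1) (p (nat_lit 0x10a0b0a89089a) (nat_lit 0) (p (nat_lit 0x898a8a08881a) (nat_lit 0) (p (nat_lit 0x109088988079a) (nat_lit 0) (p (nat_lit 0x88880907871a)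 (nat_lit 0) (p (nat_lit 0x8000080000000080887068a) (nat_lit 0) (p (nat_lit 0x10888068602) (nat_lit 0) (p (nat_lit 0x8807860582) (nat_lit 0) (p (nat_lit 0x10607058502) (nat_lit 0) (p (nat_lit 0x8586850482) (nat_lit 0) (p (nat_lit 0x160004) (nat_lit 0) (p (nat_lit 0x68612) (nat_lit 0) (p (nat_lit 0x50592) (nat_lit 0) (p (nat_lit 0x40512) (nat_lit 0) (p (nat_lit 0x50312) (nat_lit 0) (p (nat_lit 0x38292) (nat_lit 0) (p (nat_lit 0x28212) (nat_lit 0) (p (nat_lit 0x38112) (nat_lit 0) (p (nat_lit 0x20092) (nat_lit 0) (p (nat_lit 0x10012) (nat_lit 0) pn)))))))))))))))))))))))))))))) :=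
  Cl.node (nat_lit 0x10000c) (nat_lit 2) (by decide +kernel) (ClAll.succ (ClAll.succ ClAll.zero n70) s634)

def n95 : Cl (O (nat_lit 6)) (R (nat_lit 14353))
    (p (nat_lit 0x10000c) (nat_lit 0) (p (nat_lit 0x20000c) (nat_lit 0) (p (nat_lit 0x380c2) (nat_lit 0) (p (nat_lit 0x3c4aa) (nat_lit 7) (p (nat_lit 0xd1) (nat_lit 1) (p (nat_lit 0xc9) (nat_lit 0) (p (nat_lit 0x101) (nat_lit 1) (p (nat_lit 0x119) (nat_lit 0) (p (nat_lit 0xc1) (nat_lit 0) (p (nat_lit 0x81) (nat_lit 1) (p (nat_lit 0x41) (nat_lit 1) (p (nat_lit 0x10a0b0a89089a) (nat_lit 0) (p (nat_lit 0x898a8a08881a) (nat_lit 0) (p (nat_lit 0x109088988079a) (nat_lit 0) (p (nat_lit 0x88880907871a) (nat_lit 0) (p (nat_lit 0x8000080000000080887068a) (nat_lit 0) (p (nat_lit 0x10888068602) (nat_lit 0) (p (nat_lit 0x8807860582) (nat_lit 0) (p (nat_lit 0x10607058502) (nat_lit 0) (p (nat_lit 0x8586850482) (nat_lit 0) (p (nat_lit 0x160004)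 (nat_lit 0) (p (nat_lit 0x68612) (nat_lit 0) (p (nat_lit 0x50592) (nat_lit 0) (p (nat_lit 0x40512) (nat_lit 0) (p (nat_lit 0x50312) (nat_lit 0) (p (nat_lit 0x38292) (nat_lit 0) (p (nat_lit 0x28212) (nat_lit 0) (p (nat_lit 0x38112) (nat_lit 0) (p (nat_lit 0x20092) (nat_lit 0) (p (nat_lit 0x10012) (nat_lit 0) pn)))))))))))))))))))))))))))))) :=
  Cl.node (nat_lit 0xb0004) (nat_lit 2) (by decide +kernel) (ClAll.succ (ClAll.succ ClAll.zero n71) s664)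

def n96 : Cl (O (nat_lit 6)) (R (nat_lit 14353))
    (p (nat_lit 0x10000c) (nat_lit 0) (p (nat_lit 0x20000c) (nat_lit 0) (p (nat_lit 0x380c2) (nat_lit 1) (p (nat_lit 0x3c4aa) (nat_lit 7) (p (nat_lit 0xd1) (nat_lit 1) (p (nat_lit 0xc9) (nat_lit 0) (p (nat_lit 0x101) (nat_lit 1) (p (nat_lit 0x119) (nat_lit 0) (p (nat_lit 0xc1) (nat_lit 0) (p (nat_lit 0x81) (nat_lit 1) (p (nat_lit 0x41) (nat_lit 1) (p (nat_lit 0x10a0b0a89089a) (nat_lit 0) (p (nat_lit 0x898a8a08881a) (nat_lit 0) (p (nat_lit 0x109088988079a) (nat_lit 0) (p (nat_lit 0x88880907871a) (nat_lit 0) (p (nat_lit 0x8000080000000080887068a) (nat_lit 0) (p (nat_lit 0x10888068602) (nat_lit 0) (p (nat_lit 0x8807860582) (nat_lit 0) (p (nat_lit 0x10607058502) (nat_lit 0) (p (nat_lit 0x8586850482) (nat_lit 0) (p (nat_lit 0x160004) (nat_lit 0) (p (nat_lit 0x68612) (nat_lit 0) (p (nat_lit 0x50592) (nat_lit 0) (p (nat_lit 0x40512)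 (nat_lit 0) (p (nat_lit 0x50312) (nat_lit 0) (p (nat_lit 0x38292) (nat_lit 0) (p (nat_lit 0x28212) (nat_lit 0) (p (nat_lit 0x38112) (nat_lit 0) (p (nat_lit 0x20092) (nat_lit 0) (p (nat_lit 0x10012) (nat_lit 0) pn)))))))))))))))))))))))))))))) :=
  Cl.node (nat_lit 0xb0004) (nat_lit 2) (by decide +kernel) (ClAll.succ (ClAll.succ ClAll.zero n72) s670)

def n97 : Cl (O (nat_lit 6)) (R (nat_lit 14353))
    (p (nat_lit 0xb0004) (nat_lit 0) (p (nat_lit 0x20000c) (nat_lit 0) (p (nat_lit 0x380c2) (nat_lit 0) (p (nat_lit 0x3c4aa) (nat_lit 7) (p (nat_lit 0x111) (nat_lit 1) (p (nat_lit 0xd1) (nat_lit 1) (p (nat_lit 0xc9) (nat_lit 0) (p (nat_lit 0x119) (nat_lit 1) (p (nat_lit 0xc1) (nat_lit 0) (p (nat_lit 0x81) (nat_lit 1) (p (nat_lit 0x41) (nat_lit 1) (p (nat_lit 0x10a0b0a89089a) (nat_lit 0) (p (nat_lit 0x898a8a08881a) (nat_lit 0) (p (nat_lit 0x109088988079a) (nat_lit 0) (p (nat_lit 0x88880907871a)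 (nat_lit 0) (p (nat_lit 0x8000080000000080887068a) (nat_lit 0) (p (nat_lit 0x10888068602) (nat_lit 0) (p (nat_lit 0x8807860582) (nat_lit 0) (p (nat_lit 0x10607058502) (nat_lit 0) (p (nat_lit 0x8586850482) (nat_lit 0) (p (nat_lit 0x160004) (nat_lit 0) (p (nat_lit 0x68612) (nat_lit 0) (p (nat_lit 0x50592) (nat_lit 0) (p (nat_lit 0x40512) (nat_lit 0) (p (nat_lit 0x50312) (nat_lit 0) (p (nat_lit 0x38292) (nat_lit 0) (p (nat_lit 0x28212) (nat_lit 0) (p (nat_lit 0x38112) (nat_lit 0) (p (nat_lit 0x20092) (nat_lit 0) (p (nat_lit 0x10012) (nat_lit 0) pn)))))))))))))))))))))))))))))) :=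
  Cl.node (nat_lit 0x10000c) (nat_lit 2) (by decide +kernel) (ClAll.succ (ClAll.succ ClAll.zero n73) s690)

def n98 : Cl (O (nat_lit 6)) (R (nat_lit 14353))
    (p (nat_lit 0x101) (nat_lit 0) (p (nat_lit 0x20000c) (nat_lit 0) (p (nat_lit 0x380c2) (nat_lit 1) (p (nat_lit 0x3c4aa) (nat_lit 7) (p (nat_lit 0x111) (nat_lit 1) (p (nat_lit 0xd1) (nat_lit 1) (p (nat_lit 0xc9) (nat_lit 0) (p (nat_lit 0x119) (nat_lit 1) (p (nat_lit 0xc1) (nat_lit 0) (p (nat_lit 0x81) (nat_lit 1) (p (nat_lit 0x41) (nat_lit 1) (p (nat_lit 0x10a0b0a89089a) (nat_lit 0) (p (nat_lit 0x898a8a08881a) (nat_lit 0) (p (nat_lit 0x109088988079a) (nat_lit 0) (p (nat_lit 0x88880907871a) (nat_lit 0) (p (nat_lit 0x8000080000000080887068a) (nat_lit 0) (p (nat_lit 0x10888068602) (nat_lit 0) (p (nat_lit 0x8807860582) (nat_lit 0) (p (nat_lit 0x10607058502) (nat_lit 0) (p (nat_lit 0x8586850482) (nat_lit 0) (p (nat_lit 0x160004)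 (nat_lit 0) (p (nat_lit 0x68612) (nat_lit 0) (p (nat_lit 0x50592) (nat_lit 0) (p (nat_lit 0x40512) (nat_lit 0) (p (nat_lit 0x50312) (nat_lit 0) (p (nat_lit 0x38292) (nat_lit 0) (p (nat_lit 0x28212) (nat_lit 0) (p (nat_lit 0x38112) (nat_lit 0) (p (nat_lit 0x20092) (nat_lit 0) (p (nat_lit 0x10012) (nat_lit 0) pn)))))))))))))))))))))))))))))) :=
  Cl.node (nat_lit 0x10000c) (nat_lit 2) (by decide +kernel) (ClAll.succ (ClAll.succ ClAll.zero n74) s695)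

def n99 : Cl (O (nat_lit 6)) (R (nat_lit 14353))
    (p (nat_lit 0x380c2) (nat_lit 0) (p (nat_lit 0x444aa) (nat_lit 7) (p (nat_lit 0x81) (nat_lit 1) (p (nat_lit 0xc9) (nat_lit 1) (p (nat_lit 0x109) (nat_lit 1) (p (nat_lit 0x101) (nat_lit 0) (p (nat_lit 0x119) (nat_lit 0) (p (nat_lit 0xd1) (nat_lit 0) (p (nat_lit 0x89) (nat_lit 0) (p (nat_lit 0x41) (nat_lit 0) (p (nat_lit 0x10a0b0a89089a) (nat_lit 0) (p (nat_lit 0x898a8a08881a) (nat_lit 0) (p (nat_lit 0x109088988079a) (nat_lit 0) (p (nat_lit 0x88880907871a) (nat_lit 0) (p (nat_lit 0x8000080000000080887068a) (nat_lit 0) (p (nat_lit 0x10888068602) (nat_lit 0) (p (nat_lit 0x8807860582) (nat_lit 0) (p (nat_lit 0x10607058502) (nat_lit 0) (p (nat_lit 0x8586850482) (nat_lit 0) (p (nat_lit 0x160004) (nat_lit 0) (p (nat_lit 0x68612) (nat_lit 0) (p (nat_lit 0x50592) (nat_lit 0) (p (nat_lit 0x40512) (nat_lit 0) (p (nat_lit 0x50312) (nat_lit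 0) (p (nat_lit 0x38292) (nat_lit 0) (p (nat_lit 0x28212) (nat_lit 0) (p (nat_lit 0x38112) (nat_lit 0) (p (nat_lit 0x20092) (nat_lit 0) (p (nat_lit 0x10012) (nat_lit 0) pn))))))))))))))))))))))))))))) :=
  Cl.node (nat_lit 0x20000c) (nat_lit 2) (by decide +kernel) (ClAll.succ (ClAll.succ ClAll.zero n75) s16)

def n100 : Cl (O (nat_lit 6)) (R (nat_lit 14353))
    (p (nat_lit 0x380c2) (nat_lit 1) (p (nat_lit 0x444aa) (nat_lit 7) (p (nat_lit 0x81) (nat_lit 1) (p (nat_lit 0xc9) (nat_lit 1) (p (nat_lit 0x109) (nat_lit 1) (p (nat_lit 0x101) (nat_lit 0) (p (nat_lit 0x119) (nat_lit 0) (p (nat_lit 0xd1) (nat_lit 0) (p (nat_lit 0x89) (nat_lit 0) (p (nat_lit 0x41) (nat_lit 0) (p (nat_lit 0x10a0b0a89089a) (nat_lit 0) (p (nat_lit 0x898a8a08881a) (nat_lit 0) (p (nat_lit 0x109088988079a) (nat_lit 0) (p (nat_lit 0x88880907871a) (nat_lit 0) (p (nat_lit 0x8000080000000080887068a) (nat_lit 0) (p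 (nat_lit 0x10888068602) (nat_lit 0) (p (nat_lit 0x8807860582) (nat_lit 0) (p (nat_lit 0x10607058502) (nat_lit 0) (p (nat_lit 0x8586850482) (nat_lit 0) (p (nat_lit 0x160004) (nat_lit 0) (p (nat_lit 0x68612) (nat_lit 0) (p (nat_lit 0x50592) (nat_lit 0) (p (nat_lit 0x40512) (nat_lit 0) (p (nat_lit 0x50312) (nat_lit 0) (p (nat_lit 0x38292) (nat_lit 0) (p (nat_lit 0x28212) (nat_lit 0) (p (nat_lit 0x38112) (nat_lit 0) (p (nat_lit 0x20092) (nat_lit 0) (p (nat_lit 0x10012) (nat_lit 0) pn))))))))))))))))))))))))))))) :=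
  Cl.node (nat_lit 0x20000c) (nat_lit 2) (by decide +kernel) (ClAll.succ (ClAll.succ ClAll.zero n76) s20)

def n101 : Cl (O (nat_lit 6)) (R (nat_lit 14353))
    (p (nat_lit 0x380c2) (nat_lit 0) (p (nat_lit 0x444aa) (nat_lit 8) (p (nat_lit 0x81) (nat_lit 1) (p (nat_lit 0xc9) (nat_lit 1) (p (nat_lit 0x109) (nat_lit 1) (p (nat_lit 0x101) (nat_lit 0) (p (nat_lit 0x119) (nat_lit 0) (p (nat_lit 0xd1) (nat_lit 0) (p (nat_lit 0x89) (nat_lit 0) (p (nat_lit 0x41) (nat_lit 0) (p (nat_lit 0x10a0b0a89089a) (nat_lit 0) (p (nat_lit 0x898a8a08881a) (nat_lit 0) (p (nat_lit 0x109088988079a) (nat_lit 0) (p (nat_lit 0x88880907871a) (nat_lit 0) (p (nat_lit 0x8000080000000080887068a) (nat_lit 0) (p (nat_lit 0x10888068602) (nat_lit 0) (p (nat_lit 0x8807860582) (nat_lit 0) (p (nat_lit 0x10607058502) (nat_lit 0) (p (nat_lit 0x8586850482) (nat_lit 0) (p (nat_lit 0x160004) (nat_lit 0) (p (nat_lit 0x68612)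 (nat_lit 0) (p (nat_lit 0x50592) (nat_lit 0) (p (nat_lit 0x40512) (nat_lit 0) (p (nat_lit 0x50312) (nat_lit 0) (p (nat_lit 0x38292) (nat_lit 0) (p (nat_lit 0x28212) (nat_lit 0) (p (nat_lit 0x38112) (nat_lit 0) (p (nat_lit 0x20092) (nat_lit 0) (p (nat_lit 0x10012) (nat_lit 0) pn))))))))))))))))))))))))))))) :=
  Cl.node (nat_lit 0xb0004) (nat_lit 2) (by decide +kernel) (ClAll.succ (ClAll.succ ClAll.zero s21) s22)

def n102 : Cl (O (nat_lit 6)) (R (nat_lit 14353))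
    (p (nat_lit 0x380c2) (nat_lit 0) (p (nat_lit 0x444aa) (nat_lit 7) (p (nat_lit 0x111) (nat_lit 0) (p (nat_lit 0xc9) (nat_lit 1) (p (nat_lit 0x81) (nat_lit 0) (p (nat_lit 0x101) (nat_lit 1) (p (nat_lit 0x119) (nat_lit 0) (p (nat_lit 0xd1) (nat_lit 0) (p (nat_lit 0x89) (nat_lit 0) (p (nat_lit 0x41) (nat_lit 0) (p (nat_lit 0x10a0b0a89089a) (nat_lit 0) (p (nat_lit 0x898a8a08881a) (nat_lit 0) (p (nat_lit 0x109088988079a) (nat_lit 0) (p (nat_lit 0x88880907871a) (nat_lit 0) (p (nat_lit 0x8000080000000080887068a) (nat_lit 0) (p (nat_lit 0x10888068602) (nat_lit 0) (p (nat_lit 0x8807860582) (nat_lit 0) (p (nat_lit 0x10607058502) (nat_lit 0) (p (nat_lit 0x8586850482) (nat_lit 0) (p (nat_lit 0x160004) (nat_lit 0) (p (nat_lit 0x68612) (nat_lit 0) (p (nat_lit 0x50592) (nat_lit 0) (p (nat_lit 0x40512) (nat_lit 0) (p (nat_lit 0x50312) (nat_lit 0) (p (nat_lit 0x38292) (nat_lit 0) (p (nat_lit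 0x28212) (nat_lit 0) (p (nat_lit 0x38112) (nat_lit 0) (p (nat_lit 0x20092) (nat_lit 0) (p (nat_lit 0x10012) (nat_lit 0) pn))))))))))))))))))))))))))))) :=
  Cl.node (nat_lit 0x20000c) (nat_lit 2) (by decide +kernel) (ClAll.succ (ClAll.succ ClAll.zero n77) s40)

def n103 : Cl (O (nat_lit 6)) (R (nat_lit 14353))
    (p (nat_lit 0x380c2) (nat_lit 1) (p (nat_lit 0x444aa) (nat_lit 7) (p (nat_lit 0x111) (nat_lit 0) (p (nat_lit 0xc9) (nat_lit 1) (p (nat_lit 0x81) (nat_lit 0) (p (nat_lit 0x101) (nat_lit 1) (p (nat_lit 0x119) (nat_lit 0) (p (nat_lit 0xd1) (nat_lit 0) (p (nat_lit 0x89) (nat_lit 0) (p (nat_lit 0x41) (nat_lit 0) (p (nat_lit 0x10a0b0a89089a) (nat_lit 0) (p (nat_lit 0x898a8a08881a) (nat_lit 0) (p (nat_lit 0x109088988079a) (nat_lit 0) (p (nat_lit 0x88880907871a) (nat_lit 0) (p (nat_lit 0x8000080000000080887068a) (nat_lit 0) (p (nat_lit 0x10888068602) (nat_lit 0) (p (nat_lit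 0x8807860582) (nat_lit 0) (p (nat_lit 0x10607058502) (nat_lit 0) (p (nat_lit 0x8586850482) (nat_lit 0) (p (nat_lit 0x160004) (nat_lit 0) (p (nat_lit 0x68612) (nat_lit 0) (p (nat_lit 0x50592) (nat_lit 0) (p (nat_lit 0x40512) (nat_lit 0) (p (nat_lit 0x50312) (nat_lit 0) (p (nat_lit 0x38292) (nat_lit 0) (p (nat_lit 0x28212) (nat_lit 0) (p (nat_lit 0x38112) (nat_lit 0) (p (nat_lit 0x20092) (nat_lit 0) (p (nat_lit 0x10012) (nat_lit 0) pn))))))))))))))))))))))))))))) :=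
  Cl.node (nat_lit 0x20000c) (nat_lit 2) (by decide +kernel) (ClAll.succ (ClAll.succ ClAll.zero n78) s45)

def n104 : Cl (O (nat_lit 6)) (R (nat_lit 14353))
    (p (nat_lit 0x380c2) (nat_lit 0) (p (nat_lit 0x444aa) (nat_lit 7) (p (nat_lit 0xc9) (nat_lit 1) (p (nat_lit 0xc1) (nat_lit 0) (p (nat_lit 0x81) (nat_lit 1) (p (nat_lit 0x101) (nat_lit 1) (p (nat_lit 0x119) (nat_lit 0) (p (nat_lit 0xd1) (nat_lit 0) (p (nat_lit 0x89) (nat_lit 0) (p (nat_lit 0x41) (nat_lit 0) (p (nat_lit 0x10a0b0a89089a) (nat_lit 0) (p (nat_lit 0x898a8a08881a) (nat_lit 0) (p (nat_lit 0x109088988079a) (nat_lit 0) (p (nat_lit 0x88880907871a) (nat_lit 0) (p (nat_lit 0x8000080000000080887068a) (nat_lit 0) (p (nat_lit 0x10888068602) (nat_lit 0) (p (nat_lit 0x8807860582) (nat_lit 0) (p (nat_lit 0x10607058502) (nat_lit 0) (p (nat_lit 0x8586850482) (nat_lit 0) (p (nat_lit 0x160004) (nat_lit 0) (p (nat_lit 0x68612)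 (nat_lit 0) (p (nat_lit 0x50592) (nat_lit 0) (p (nat_lit 0x40512) (nat_lit 0) (p (nat_lit 0x50312) (nat_lit 0) (p (nat_lit 0x38292) (nat_lit 0) (p (nat_lit 0x28212) (nat_lit 0) (p (nat_lit 0x38112) (nat_lit 0) (p (nat_lit 0x20092) (nat_lit 0) (p (nat_lit 0x10012) (nat_lit 0) pn))))))))))))))))))))))))))))) :=
  Cl.node (nat_lit 0x20000c) (nat_lit 2) (by decide +kernel) (ClAll.succ (ClAll.succ ClAll.zero n79) s73)

def n105 : Cl (O (nat_lit 6)) (R (nat_lit 14353))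
    (p (nat_lit 0x380c2) (nat_lit 1) (p (nat_lit 0x444aa) (nat_lit 7) (p (nat_lit 0xc9) (nat_lit 1) (p (nat_lit 0xc1) (nat_lit 0) (p (nat_lit 0x81) (nat_lit 1) (p (nat_lit 0x101) (nat_lit 1) (p (nat_lit 0x119) (nat_lit 0) (p (nat_lit 0xd1) (nat_lit 0) (p (nat_lit 0x89) (nat_lit 0) (p (nat_lit 0x41) (nat_lit 0) (p (nat_lit 0x10a0b0a89089a) (nat_lit 0) (p (nat_lit 0x898a8a08881a) (nat_lit 0) (p (nat_lit 0x109088988079a) (nat_lit 0) (p (nat_lit 0x88880907871a) (nat_lit 0) (p (nat_lit 0x8000080000000080887068a) (nat_lit 0) (p (nat_lit 0x10888068602) (nat_lit 0) (p (nat_lit 0x8807860582) (nat_lit 0) (p (nat_lit 0x10607058502) (nat_lit 0) (p (nat_lit 0x8586850482) (nat_lit 0) (p (nat_lit 0x160004) (nat_lit 0) (p (nat_lit 0x68612) (nat_lit 0) (p (nat_lit 0x50592) (nat_lit 0) (p (nat_lit 0x40512) (nat_lit 0) (p (nat_lit 0x50312) (nat_lit 0) (p (nat_lit 0x38292) (nat_lit 0) (p (nat_lit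 0x28212) (nat_lit 0) (p (nat_lit 0x38112) (nat_lit 0) (p (nat_lit 0x20092) (nat_lit 0) (p (nat_lit 0x10012) (nat_lit 0) pn))))))))))))))))))))))))))))) :=
  Cl.node (nat_lit 0xb0004) (nat_lit 2) (by decide +kernel) (ClAll.succ (ClAll.succ ClAll.zero n80) s77)

def n106 : Cl (O (nat_lit 6)) (R (nat_lit 14353))
    (p (nat_lit 0x380c2) (nat_lit 0) (p (nat_lit 0x444aa) (nat_lit 7) (p (nat_lit 0x109) (nat_lit 1) (p (nat_lit 0x101) (nat_lit 0) (p (nat_lit 0x81) (nat_lit 1) (p (nat_lit 0xc1) (nat_lit 1) (p (nat_lit 0x119) (nat_lit 1) (p (nat_lit 0xd1) (nat_lit 0) (p (nat_lit 0x89) (nat_lit 0) (p (nat_lit 0x41) (nat_lit 0) (p (nat_lit 0x10a0b0a89089a) (nat_lit 0) (p (nat_lit 0x898a8a08881a) (nat_lit 0) (p (nat_lit 0x109088988079a) (nat_lit 0) (p (nat_lit 0x88880907871a) (nat_lit 0) (p (nat_lit 0x8000080000000080887068a) (nat_lit 0) (p (nat_lit 0x10888068602) (nat_lit 0) (p (nat_lit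 0x8807860582) (nat_lit 0) (p (nat_lit 0x10607058502) (nat_lit 0) (p (nat_lit 0x8586850482) (nat_lit 0) (p (nat_lit 0x160004) (nat_lit 0) (p (nat_lit 0x68612) (nat_lit 0) (p (nat_lit 0x50592) (nat_lit 0) (p (nat_lit 0x40512) (nat_lit 0) (p (nat_lit 0x50312) (nat_lit 0) (p (nat_lit 0x38292) (nat_lit 0) (p (nat_lit 0x28212) (nat_lit 0) (p (nat_lit 0x38112) (nat_lit 0) (p (nat_lit 0x20092) (nat_lit 0) (p (nat_lit 0x10012) (nat_lit 0) pn))))))))))))))))))))))))))))) :=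
  Cl.node (nat_lit 0x20000c) (nat_lit 2) (by decide +kernel) (ClAll.succ (ClAll.succ ClAll.zero n81) s146)

def n107 : Cl (O (nat_lit 6)) (R (nat_lit 14353))
    (p (nat_lit 0x380c2) (nat_lit 1) (p (nat_lit 0x444aa) (nat_lit 7) (p (nat_lit 0x109) (nat_lit 1) (p (nat_lit 0x101) (nat_lit 0) (p (nat_lit 0x81) (nat_lit 1) (p (nat_lit 0xc1) (nat_lit 1) (p (nat_lit 0x119) (nat_lit 1) (p (nat_lit 0xd1) (nat_lit 0) (p (nat_lit 0x89) (nat_lit 0) (p (nat_lit 0x41) (nat_lit 0) (p (nat_lit 0x10a0b0a89089a) (nat_lit 0) (p (nat_lit 0x898a8a08881a) (nat_lit 0) (p (nat_lit 0x109088988079a) (nat_lit 0) (p (nat_lit 0x88880907871a) (nat_lit 0) (p (nat_lit 0x8000080000000080887068a) (nat_lit 0) (p (nat_lit 0x10888068602) (nat_lit 0) (p (nat_lit 0x8807860582) (nat_lit 0) (p (nat_lit 0x10607058502) (nat_lit 0) (p (nat_lit 0x8586850482) (nat_lit 0) (p (nat_lit 0x160004) (nat_lit 0) (p (nat_lit 0x68612)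 (nat_lit 0) (p (nat_lit 0x50592) (nat_lit 0) (p (nat_lit 0x40512) (nat_lit 0) (p (nat_lit 0x50312) (nat_lit 0) (p (nat_lit 0x38292) (nat_lit 0) (p (nat_lit 0x28212) (nat_lit 0) (p (nat_lit 0x38112) (nat_lit 0) (p (nat_lit 0x20092) (nat_lit 0) (p (nat_lit 0x10012) (nat_lit 0) pn))))))))))))))))))))))))))))) :=
  Cl.node (nat_lit 0x20000c) (nat_lit 2) (by decide +kernel) (ClAll.succ (ClAll.succ ClAll.zero n82) s163)

def n108 : Cl (O (nat_lit 6)) (R (nat_lit 14353))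
    (p (nat_lit 0x380c2) (nat_lit 0) (p (nat_lit 0x444aa) (nat_lit 8) (p (nat_lit 0x109) (nat_lit 1) (p (nat_lit 0x101) (nat_lit 0) (p (nat_lit 0x81) (nat_lit 1) (p (nat_lit 0xc1) (nat_lit 1) (p (nat_lit 0x119) (nat_lit 1) (p (nat_lit 0xd1) (nat_lit 0) (p (nat_lit 0x89) (nat_lit 0) (p (nat_lit 0x41) (nat_lit 0) (p (nat_lit 0x10a0b0a89089a) (nat_lit 0) (p (nat_lit 0x898a8a08881a) (nat_lit 0) (p (nat_lit 0x109088988079a) (nat_lit 0) (p (nat_lit 0x88880907871a) (nat_lit 0) (p (nat_lit 0x8000080000000080887068a) (nat_lit 0) (p (nat_lit 0x10888068602) (nat_lit 0) (p (nat_lit 0x8807860582) (nat_lit 0) (p (nat_lit 0x10607058502) (nat_lit 0) (p (nat_lit 0x8586850482) (nat_lit 0) (p (nat_lit 0x160004) (nat_lit 0) (p (nat_lit 0x68612) (nat_lit 0) (p (nat_lit 0x50592) (nat_lit 0) (p (nat_lit 0x40512) (nat_lit 0) (p (nat_lit 0x50312) (nat_lit 0) (p (nat_lit 0x38292) (nat_lit 0) (p (nat_lit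 0x28212) (nat_lit 0) (p (nat_lit 0x38112) (nat_lit 0) (p (nat_lit 0x20092) (nat_lit 0) (p (nat_lit 0x10012) (nat_lit 0) pn))))))))))))))))))))))))))))) :=
  Cl.node (nat_lit 0xb0004) (nat_lit 2) (by decide +kernel) (ClAll.succ (ClAll.succ ClAll.zero n83) s167)

def n109 : Cl (O (nat_lit 6)) (R (nat_lit 14353))
    (p (nat_lit 0x41) (nat_lit 0) (p (nat_lit 0x200014) (nat_lit 0) (p (nat_lit 0x20000c) (nat_lit 0) (p (nat_lit 0xc1) (nat_lit 1) (p (nat_lit 0x109) (nat_lit 1) (p (nat_lit 0x101) (nat_lit 0) (p (nat_lit 0x111) (nat_lit 0) (p (nat_lit 0xd1) (nat_lit 1) (p (nat_lit 0x89) (nat_lit 0) (p (nat_lit 0x41) (nat_lit 0) (p (nat_lit 0x10a0b0a89089a) (nat_lit 0) (p (nat_lit 0x898a8a08881a) (nat_lit 0) (p (nat_lit 0x109088988079a) (nat_lit 0) (p (nat_lit 0x88880907871a) (nat_lit 0) (p (nat_lit 0x8000080000000080887068a) (nat_lit 0) (p (nat_lit 0x10888068602) (nat_lit 0) (p (nat_lit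 0x8807860582) (nat_lit 0) (p (nat_lit 0x10607058502) (nat_lit 0) (p (nat_lit 0x8586850482) (nat_lit 0) (p (nat_lit 0x160004) (nat_lit 0) (p (nat_lit 0x68612) (nat_lit 0) (p (nat_lit 0x50592) (nat_lit 0) (p (nat_lit 0x40512) (nat_lit 0) (p (nat_lit 0x50312) (nat_lit 0) (p (nat_lit 0x38292) (nat_lit 0) (p (nat_lit 0x28212) (nat_lit 0) (p (nat_lit 0x38112) (nat_lit 0) (p (nat_lit 0x20092) (nat_lit 0) (p (nat_lit 0x10012) (nat_lit 0) pn))))))))))))))))))))))))))))) :=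
  Cl.node (nat_lit 0x3cc2a) (nat_lit 12) (by decide +kernel) (ClAll.succ (ClAll.succ (ClAll.succ (ClAll.succ (ClAll.succ (ClAll.succ (ClAll.succ (ClAll.succ (ClAll.succ (ClAll.succ (ClAll.succ (ClAll.succ ClAll.zero s175) s176) s177) s178) s179) s180) s181) s182) s183) s184) s185) s186)

def n110 : Cl (O (nat_lit 6)) (R (nat_lit 14353))
    (p (nat_lit 0x109) (nat_lit 1) (p (nat_lit 0x200014) (nat_lit 0) (p (nat_lit 0x20000c) (nat_lit 0) (p (nat_lit 0x119) (nat_lit 0) (p (nat_lit 0x81) (nat_lit 0) (p (nat_lit 0x101) (nat_lit 1) (p (nat_lit 0x111) (nat_lit 0) (p (nat_lit 0xd1) (nat_lit 1) (p (nat_lit 0x89) (nat_lit 0) (p (nat_lit 0x41) (nat_lit 0) (p (nat_lit 0x10a0b0a89089a) (nat_lit 0) (p (nat_lit 0x898a8a08881a) (nat_lit 0) (p (nat_lit 0x109088988079a) (nat_lit 0) (p (nat_lit 0x88880907871a) (nat_lit 0) (p (nat_lit 0x8000080000000080887068a) (nat_lit 0) (p (nat_lit 0x10888068602)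 (nat_lit 0) (p (nat_lit 0x8807860582) (nat_lit 0) (p (nat_lit 0x10607058502) (nat_lit 0) (p (nat_lit 0x8586850482) (nat_lit 0) (p (nat_lit 0x160004) (nat_lit 0) (p (nat_lit 0x68612) (nat_lit 0) (p (nat_lit 0x50592) (nat_lit 0) (p (nat_lit 0x40512) (nat_lit 0) (p (nat_lit 0x50312) (nat_lit 0) (p (nat_lit 0x38292) (nat_lit 0) (p (nat_lit 0x28212) (nat_lit 0) (p (nat_lit 0x38112) (nat_lit 0) (p (nat_lit 0x20092) (nat_lit 0) (p (nat_lit 0x10012) (nat_lit 0) pn))))))))))))))))))))))))))))) :=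
  Cl.node (nat_lit 0x3cc2a) (nat_lit 12) (by decide +kernel) (ClAll.succ (ClAll.succ (ClAll.succ (ClAll.succ (ClAll.succ (ClAll.succ (ClAll.succ (ClAll.succ (ClAll.succ (ClAll.succ (ClAll.succ (ClAll.succ ClAll.zero s191) s192) s193) s194) s195) s196) s197) s198) s199) s200) s201) s202)

def n111 : Cl (O (nat_lit 6)) (R (nat_lit 14353))
    (p (nat_lit 0x380c2) (nat_lit 1) (p (nat_lit 0x444aa) (nat_lit 7) (p (nat_lit 0xd1) (nat_lit 1) (p (nat_lit 0x111) (nat_lit 1) (p (nat_lit 0x109) (nat_lit 0) (p (nat_lit 0x101) (nat_lit 0) (p (nat_lit 0x119) (nat_lit 0) (p (nat_lit 0xc9) (nat_lit 0) (p (nat_lit 0x89) (nat_lit 1) (p (nat_lit 0x41) (nat_lit 0) (p (nat_lit 0x10a0b0a89089a) (nat_lit 0) (p (nat_lit 0x898a8a08881a) (nat_lit 0) (p (nat_lit 0x109088988079a) (nat_lit 0) (p (nat_lit 0x88880907871a) (nat_lit 0) (p (nat_lit 0x8000080000000080887068a) (nat_lit 0) (p (nat_lit 0x10888068602)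 (nat_lit 0) (p (nat_lit 0x8807860582) (nat_lit 0) (p (nat_lit 0x10607058502) (nat_lit 0) (p (nat_lit 0x8586850482) (nat_lit 0) (p (nat_lit 0x160004) (nat_lit 0) (p (nat_lit 0x68612) (nat_lit 0) (p (nat_lit 0x50592) (nat_lit 0) (p (nat_lit 0x40512) (nat_lit 0) (p (nat_lit 0x50312) (nat_lit 0) (p (nat_lit 0x38292) (nat_lit 0) (p (nat_lit 0x28212) (nat_lit 0) (p (nat_lit 0x38112) (nat_lit 0) (p (nat_lit 0x20092) (nat_lit 0) (p (nat_lit 0x10012) (nat_lit 0) pn))))))))))))))))))))))))))))) :=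
  Cl.node (nat_lit 0x20000c) (nat_lit 2) (by decide +kernel) (ClAll.succ (ClAll.succ ClAll.zero n84) s290)

def n112 : Cl (O (nat_lit 6)) (R (nat_lit 14353))
    (p (nat_lit 0x380c2) (nat_lit 0) (p (nat_lit 0x444aa) (nat_lit 8) (p (nat_lit 0xd1) (nat_lit 1) (p (nat_lit 0x111) (nat_lit 1) (p (nat_lit 0x109) (nat_lit 0) (p (nat_lit 0x101) (nat_lit 0) (p (nat_lit 0x119) (nat_lit 0) (p (nat_lit 0xc9) (nat_lit 0) (p (nat_lit 0x89) (nat_lit 1) (p (nat_lit 0x41) (nat_lit 0) (p (nat_lit 0x10a0b0a89089a) (nat_lit 0) (p (nat_lit 0x898a8a08881a) (nat_lit 0) (p (nat_lit 0x109088988079a) (nat_lit 0) (p (nat_lit 0x88880907871a) (nat_lit 0) (p (nat_lit 0x8000080000000080887068a) (nat_lit 0) (p (nat_lit 0x10888068602) (nat_lit 0) (p (nat_lit 0x8807860582) (nat_lit 0) (p (nat_lit 0x10607058502) (nat_lit 0) (p (nat_lit 0x8586850482) (nat_lit 0) (p (nat_lit 0x160004) (nat_lit 0) (p (nat_lit 0x68612)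 (nat_lit 0) (p (nat_lit 0x50592) (nat_lit 0) (p (nat_lit 0x40512) (nat_lit 0) (p (nat_lit 0x50312) (nat_lit 0) (p (nat_lit 0x38292) (nat_lit 0) (p (nat_lit 0x28212) (nat_lit 0) (p (nat_lit 0x38112) (nat_lit 0) (p (nat_lit 0x20092) (nat_lit 0) (p (nat_lit 0x10012) (nat_lit 0) pn))))))))))))))))))))))))))))) :=
  Cl.node (nat_lit 0xb0004) (nat_lit 2) (by decide +kernel) (ClAll.succ (ClAll.succ ClAll.zero n85) s293)

def n113 : Cl (O (nat_lit 6)) (R (nat_lit 14353))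
    (p (nat_lit 0x20000c) (nat_lit 0) (p (nat_lit 0x380c2) (nat_lit 0) (p (nat_lit 0x444aa) (nat_lit 7) (p (nat_lit 0xd1) (nat_lit 1) (p (nat_lit 0x109) (nat_lit 1) (p (nat_lit 0x101) (nat_lit 0) (p (nat_lit 0x119) (nat_lit 0) (p (nat_lit 0xc9) (nat_lit 0) (p (nat_lit 0x89) (nat_lit 1) (p (nat_lit 0x41) (nat_lit 0) (p (nat_lit 0x10a0b0a89089a) (nat_lit 0) (p (nat_lit 0x898a8a08881a) (nat_lit 0) (p (nat_lit 0x109088988079a) (nat_lit 0) (p (nat_lit 0x88880907871a) (nat_lit 0) (p (nat_lit 0x8000080000000080887068a) (nat_lit 0) (p (nat_lit 0x10888068602) (nat_lit 0) (p (nat_lit 0x8807860582) (nat_lit 0) (p (nat_lit 0x10607058502) (nat_lit 0) (p (nat_lit 0x8586850482) (nat_lit 0) (p (nat_lit 0x160004) (nat_lit 0) (p (nat_lit 0x68612) (nat_lit 0) (p (nat_lit 0x50592) (nat_lit 0) (p (nat_lit 0x40512) (nat_lit 0) (p (nat_lit 0x50312) (nat_lit 0) (p (nat_lit 0x38292) (nat_lit 0) (p (nat_lit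 0x28212) (nat_lit 0) (p (nat_lit 0x38112) (nat_lit 0) (p (nat_lit 0x20092) (nat_lit 0) (p (nat_lit 0x10012) (nat_lit 0) pn))))))))))))))))))))))))))))) :=
  Cl.node (nat_lit 0x10000c) (nat_lit 2) (by decide +kernel) (ClAll.succ (ClAll.succ ClAll.zero n86) s312)

def n114 : Cl (O (nat_lit 6)) (R (nat_lit 14353))
    (p (nat_lit 0xb0004) (nat_lit 0) (p (nat_lit 0x380c2) (nat_lit 1) (p (nat_lit 0x444aa) (nat_lit 7) (p (nat_lit 0xd1) (nat_lit 1) (p (nat_lit 0x109) (nat_lit 1) (p (nat_lit 0x101) (nat_lit 0) (p (nat_lit 0x119) (nat_lit 0) (p (nat_lit 0xc9) (nat_lit 0) (p (nat_lit 0x89) (nat_lit 1) (p (nat_lit 0x41) (nat_lit 0) (p (nat_lit 0x10a0b0a89089a) (nat_lit 0) (p (nat_lit 0x898a8a08881a) (nat_lit 0) (p (nat_lit 0x109088988079a) (nat_lit 0) (p (nat_lit 0x88880907871a) (nat_lit 0) (p (nat_lit 0x8000080000000080887068a) (nat_lit 0) (p (nat_lit 0x10888068602) (nat_lit 0) (p (nat_lit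 0x8807860582) (nat_lit 0) (p (nat_lit 0x10607058502) (nat_lit 0) (p (nat_lit 0x8586850482) (nat_lit 0) (p (nat_lit 0x160004) (nat_lit 0) (p (nat_lit 0x68612) (nat_lit 0) (p (nat_lit 0x50592) (nat_lit 0) (p (nat_lit 0x40512) (nat_lit 0) (p (nat_lit 0x50312) (nat_lit 0) (p (nat_lit 0x38292) (nat_lit 0) (p (nat_lit 0x28212) (nat_lit 0) (p (nat_lit 0x38112) (nat_lit 0) (p (nat_lit 0x20092) (nat_lit 0) (p (nat_lit 0x10012) (nat_lit 0) pn))))))))))))))))))))))))))))) :=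
  Cl.node (nat_lit 0x20000c) (nat_lit 2) (by decide +kernel) (ClAll.succ (ClAll.succ ClAll.zero n87) s317)

def n115 : Cl (O (nat_lit 6)) (R (nat_lit 14353))
    (p (nat_lit 0x20000c) (nat_lit 0) (p (nat_lit 0x380c2) (nat_lit 0) (p (nat_lit 0x444aa) (nat_lit 7) (p (nat_lit 0x111) (nat_lit 1) (p (nat_lit 0xd1) (nat_lit 1) (p (nat_lit 0xc1) (nat_lit 0) (p (nat_lit 0x119) (nat_lit 1) (p (nat_lit 0xc9) (nat_lit 0) (p (nat_lit 0x89) (nat_lit 1) (p (nat_lit 0x41) (nat_lit 0) (p (nat_lit 0x10a0b0a89089a) (nat_lit 0) (p (nat_lit 0x898a8a08881a) (nat_lit 0) (p (nat_lit 0x109088988079a) (nat_lit 0) (p (nat_lit 0x88880907871a) (nat_lit 0) (p (nat_lit 0x8000080000000080887068a) (nat_lit 0) (p (nat_lit 0x10888068602) (nat_lit 0) (p (nat_lit 0x8807860582) (nat_lit 0) (p (nat_lit 0x10607058502) (nat_lit 0) (p (nat_lit 0x8586850482) (nat_lit 0) (p (nat_lit 0x160004) (nat_lit 0) (p (nat_lit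 0x68612) (nat_lit 0) (p (nat_lit 0x50592) (nat_lit 0) (p (nat_lit 0x40512) (nat_lit 0) (p (nat_lit 0x50312) (nat_lit 0) (p (nat_lit 0x38292) (nat_lit 0) (p (nat_lit 0x28212) (nat_lit 0) (p (nat_lit 0x38112) (nat_lit 0) (p (nat_lit 0x20092) (nat_lit 0) (p (nat_lit 0x10012) (nat_lit 0) pn))))))))))))))))))))))))))))) :=
  Cl.node (nat_lit 0xb0004) (nat_lit 2) (by decide +kernel) (ClAll.succ (ClAll.succ ClAll.zero s349) s350)

def n116 : Cl (O (nat_lit 6)) (R (nat_lit 14353))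
    (p (nat_lit 0x20000c) (nat_lit 0) (p (nat_lit 0x380c2) (nat_lit 1) (p (nat_lit 0x444aa) (nat_lit 7) (p (nat_lit 0x111) (nat_lit 1) (p (nat_lit 0xd1) (nat_lit 1) (p (nat_lit 0xc1) (nat_lit 0) (p (nat_lit 0x119) (nat_lit 1) (p (nat_lit 0xc9) (nat_lit 0) (p (nat_lit 0x89) (nat_lit 1) (p (nat_lit 0x41) (nat_lit 0) (p (nat_lit 0x10a0b0a89089a) (nat_lit 0) (p (nat_lit 0x898a8a08881a) (nat_lit 0) (p (nat_lit 0x109088988079a) (nat_lit 0) (p (nat_lit 0x88880907871a) (nat_lit 0) (p (nat_lit 0x8000080000000080887068a) (nat_lit 0) (p (nat_lit 0x10888068602) (nat_lit 0) (p (nat_lit 0x8807860582) (nat_lit 0) (p (nat_lit 0x10607058502) (nat_lit 0) (p (nat_lit 0x8586850482) (nat_lit 0) (p (nat_lit 0x160004) (nat_lit 0) (p (nat_lit 0x68612) (nat_lit 0) (p (nat_lit 0x50592) (nat_lit 0) (p (nat_lit 0x40512) (nat_lit 0) (p (nat_lit 0x50312) (nat_lit 0) (p (nat_lit 0x38292) (nat_lit 0) (p (nat_lit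 0x28212) (nat_lit 0) (p (nat_lit 0x38112) (nat_lit 0) (p (nat_lit 0x20092) (nat_lit 0) (p (nat_lit 0x10012) (nat_lit 0) pn))))))))))))))))))))))))))))) :=
  Cl.node (nat_lit 0xb0004) (nat_lit 2) (by decide +kernel) (ClAll.succ (ClAll.succ ClAll.zero n88) s355)

def n117 : Cl (O (nat_lit 6)) (R (nat_lit 14353))
    (p (nat_lit 0x20000c) (nat_lit 0) (p (nat_lit 0x380c2) (nat_lit 0) (p (nat_lit 0x444aa) (nat_lit 7) (p (nat_lit 0x111) (nat_lit 1) (p (nat_lit 0x101) (nat_lit 0) (p (nat_lit 0xc1) (nat_lit 1) (p (nat_lit 0x119) (nat_lit 1) (p (nat_lit 0xc9) (nat_lit 0) (p (nat_lit 0x89) (nat_lit 1) (p (nat_lit 0x41) (nat_lit 0) (p (nat_lit 0x10a0b0a89089a) (nat_lit 0) (p (nat_lit 0x898a8a08881a) (nat_lit 0) (p (nat_lit 0x109088988079a) (nat_lit 0) (p (nat_lit 0x88880907871a) (nat_lit 0) (p (nat_lit 0x8000080000000080887068a) (nat_lit 0) (p (nat_lit 0x10888068602) (nat_lit 0) (p (nat_lit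 0x8807860582) (nat_lit 0) (p (nat_lit 0x10607058502) (nat_lit 0) (p (nat_lit 0x8586850482) (nat_lit 0) (p (nat_lit 0x160004) (nat_lit 0) (p (nat_lit 0x68612) (nat_lit 0) (p (nat_lit 0x50592) (nat_lit 0) (p (nat_lit 0x40512) (nat_lit 0) (p (nat_lit 0x50312) (nat_lit 0) (p (nat_lit 0x38292) (nat_lit 0) (p (nat_lit 0x28212) (nat_lit 0) (p (nat_lit 0x38112) (nat_lit 0) (p (nat_lit 0x20092) (nat_lit 0) (p (nat_lit 0x10012) (nat_lit 0) pn))))))))))))))))))))))))))))) :=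
  Cl.node (nat_lit 0x10000c) (nat_lit 2) (by decide +kernel) (ClAll.succ (ClAll.succ ClAll.zero n89) s398)

def n118 : Cl (O (nat_lit 6)) (R (nat_lit 14353))
    (p (nat_lit 0x20000c) (nat_lit 0) (p (nat_lit 0x380c2) (nat_lit 1) (p (nat_lit 0x444aa) (nat_lit 7) (p (nat_lit 0x111) (nat_lit 1) (p (nat_lit 0x101) (nat_lit 0) (p (nat_lit 0xc1) (nat_lit 1) (p (nat_lit 0x119) (nat_lit 1) (p (nat_lit 0xc9) (nat_lit 0) (p (nat_lit 0x89) (nat_lit 1) (p (nat_lit 0x41) (nat_lit 0) (p (nat_lit 0x10a0b0a89089a) (nat_lit 0) (p (nat_lit 0x898a8a08881a) (nat_lit 0) (p (nat_lit 0x109088988079a) (nat_lit 0) (p (nat_lit 0x88880907871a) (nat_lit 0) (p (nat_lit 0x8000080000000080887068a) (nat_lit 0) (p (nat_lit 0x10888068602) (nat_lit 0) (p (nat_lit 0x8807860582) (nat_lit 0) (p (nat_lit 0x10607058502) (nat_lit 0) (p (nat_lit 0x8586850482) (nat_lit 0) (p (nat_lit 0x160004) (nat_lit 0) (p (nat_lit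 0x68612) (nat_lit 0) (p (nat_lit 0x50592) (nat_lit 0) (p (nat_lit 0x40512) (nat_lit 0) (p (nat_lit 0x50312) (nat_lit 0) (p (nat_lit 0x38292) (nat_lit 0) (p (nat_lit 0x28212) (nat_lit 0) (p (nat_lit 0x38112) (nat_lit 0) (p (nat_lit 0x20092) (nat_lit 0) (p (nat_lit 0x10012) (nat_lit 0) pn))))))))))))))))))))))))))))) :=
  Cl.node (nat_lit 0xb0004) (nat_lit 2) (by decide +kernel) (ClAll.succ (ClAll.succ ClAll.zero n90) s405)

def n119 : Cl (O (nat_lit 6)) (R (nat_lit 14353))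
    (p (nat_lit 0x380c2) (nat_lit 0) (p (nat_lit 0x3c4aa) (nat_lit 7) (p (nat_lit 0xd1) (nat_lit 1) (p (nat_lit 0x111) (nat_lit 1) (p (nat_lit 0x109) (nat_lit 0) (p (nat_lit 0x101) (nat_lit 0) (p (nat_lit 0x119) (nat_lit 0) (p (nat_lit 0xc1) (nat_lit 0) (p (nat_lit 0x81) (nat_lit 1) (p (nat_lit 0x41) (nat_lit 1) (p (nat_lit 0x10a0b0a89089a) (nat_lit 0) (p (nat_lit 0x898a8a08881a) (nat_lit 0) (p (nat_lit 0x109088988079a) (nat_lit 0) (p (nat_lit 0x88880907871a) (nat_lit 0) (p (nat_lit 0x8000080000000080887068a) (nat_lit 0) (p (nat_lit 0x10888068602) (nat_lit 0) (p (nat_lit 0x8807860582) (nat_lit 0) (p (nat_lit 0x10607058502) (nat_lit 0) (p (nat_lit 0x8586850482) (nat_lit 0) (p (nat_lit 0x160004) (nat_lit 0) (p (nat_lit 0x68612) (nat_lit 0) (p (nat_lit 0x50592) (nat_lit 0) (p (nat_lit 0x40512) (nat_lit 0) (p (nat_lit 0x50312) (nat_lit 0) (p (nat_lit 0x38292) (nat_lit 0) (p (nat_lit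 0x28212) (nat_lit 0) (p (nat_lit 0x38112) (nat_lit 0) (p (nat_lit 0x20092) (nat_lit 0) (p (nat_lit 0x10012) (nat_lit 0) pn))))))))))))))))))))))))))))) :=
  Cl.node (nat_lit 0x20000c) (nat_lit 2) (by decide +kernel) (ClAll.succ (ClAll.succ ClAll.zero n91) s597)

def n120 : Cl (O (nat_lit 6)) (R (nat_lit 14353))
    (p (nat_lit 0x380c2) (nat_lit 1) (p (nat_lit 0x3c4aa) (nat_lit 7) (p (nat_lit 0xd1) (nat_lit 1) (p (nat_lit 0x111) (nat_lit 1) (p (nat_lit 0x109) (nat_lit 0) (p (nat_lit 0x101) (nat_lit 0) (p (nat_lit 0x119) (nat_lit 0) (p (nat_lit 0xc1) (nat_lit 0) (p (nat_lit 0x81) (nat_lit 1) (p (nat_lit 0x41) (nat_lit 1) (p (nat_lit 0x10a0b0a89089a) (nat_lit 0) (p (nat_lit 0x898a8a08881a) (nat_lit 0) (p (nat_lit 0x109088988079a) (nat_lit 0) (p (nat_lit 0x88880907871a) (nat_lit 0) (p (nat_lit 0x8000080000000080887068a) (nat_lit 0) (p (nat_lit 0x10888068602) (nat_lit 0) (p (nat_lit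 0x8807860582) (nat_lit 0) (p (nat_lit 0x10607058502) (nat_lit 0) (p (nat_lit 0x8586850482) (nat_lit 0) (p (nat_lit 0x160004) (nat_lit 0) (p (nat_lit 0x68612) (nat_lit 0) (p (nat_lit 0x50592) (nat_lit 0) (p (nat_lit 0x40512) (nat_lit 0) (p (nat_lit 0x50312) (nat_lit 0) (p (nat_lit 0x38292) (nat_lit 0) (p (nat_lit 0x28212) (nat_lit 0) (p (nat_lit 0x38112) (nat_lit 0) (p (nat_lit 0x20092) (nat_lit 0) (p (nat_lit 0x10012) (nat_lit 0) pn))))))))))))))))))))))))))))) :=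
  Cl.node (nat_lit 0x20000c) (nat_lit 2) (by decide +kernel) (ClAll.succ (ClAll.succ ClAll.zero n92) s609)

def n121 : Cl (O (nat_lit 6)) (R (nat_lit 14353))
    (p (nat_lit 0x380c2) (nat_lit 0) (p (nat_lit 0x3c4aa) (nat_lit 8) (p (nat_lit 0xd1) (nat_lit 1) (p (nat_lit 0x111) (nat_lit 1) (p (nat_lit 0x109) (nat_lit 0) (p (nat_lit 0x101) (nat_lit 0) (p (nat_lit 0x119) (nat_lit 0) (p (nat_lit 0xc1) (nat_lit 0) (p (nat_lit 0x81) (nat_lit 1) (p (nat_lit 0x41) (nat_lit 1) (p (nat_lit 0x10a0b0a89089a) (nat_lit 0) (p (nat_lit 0x898a8a08881a) (nat_lit 0) (p (nat_lit 0x109088988079a) (nat_lit 0) (p (nat_lit 0x88880907871a) (nat_lit 0) (p (nat_lit 0x8000080000000080887068a) (nat_lit 0) (p (nat_lit 0x10888068602) (nat_lit 0) (p (nat_lit 0x8807860582) (nat_lit 0) (p (nat_lit 0x10607058502) (nat_lit 0) (p (nat_lit 0x8586850482) (nat_lit 0) (p (nat_lit 0x160004) (nat_lit 0) (p (nat_lit 0x68612)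 (nat_lit 0) (p (nat_lit 0x50592) (nat_lit 0) (p (nat_lit 0x40512) (nat_lit 0) (p (nat_lit 0x50312) (nat_lit 0) (p (nat_lit 0x38292) (nat_lit 0) (p (nat_lit 0x28212) (nat_lit 0) (p (nat_lit 0x38112) (nat_lit 0) (p (nat_lit 0x20092) (nat_lit 0) (p (nat_lit 0x10012) (nat_lit 0) pn))))))))))))))))))))))))))))) :=
  Cl.node (nat_lit 0xb0004) (nat_lit 2) (by decide +kernel) (ClAll.succ (ClAll.succ ClAll.zero n93) s616)

def n122 : Cl (O (nat_lit 6)) (R (nat_lit 14353))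
    (p (nat_lit 0x380c2) (nat_lit 1) (p (nat_lit 0x3c4aa) (nat_lit 7) (p (nat_lit 0xd1) (nat_lit 1) (p (nat_lit 0xc9) (nat_lit 0) (p (nat_lit 0x109) (nat_lit 1) (p (nat_lit 0x101) (nat_lit 0) (p (nat_lit 0x119) (nat_lit 0) (p (nat_lit 0xc1) (nat_lit 0) (p (nat_lit 0x81) (nat_lit 1) (p (nat_lit 0x41) (nat_lit 1) (p (nat_lit 0x10a0b0a89089a) (nat_lit 0) (p (nat_lit 0x898a8a08881a) (nat_lit 0) (p (nat_lit 0x109088988079a) (nat_lit 0) (p (nat_lit 0x88880907871a) (nat_lit 0) (p (nat_lit 0x8000080000000080887068a) (nat_lit 0) (p (nat_lit 0x10888068602) (nat_lit 0) (p (nat_lit 0x8807860582) (nat_lit 0) (p (nat_lit 0x10607058502) (nat_lit 0) (p (nat_lit 0x8586850482) (nat_lit 0) (p (nat_lit 0x160004) (nat_lit 0) (p (nat_lit 0x68612) (nat_lit 0) (p (nat_lit 0x50592) (nat_lit 0) (p (nat_lit 0x40512) (nat_lit 0) (p (nat_lit 0x50312) (nat_lit 0) (p (nat_lit 0x38292) (nat_lit 0) (p (nat_lit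 0x28212) (nat_lit 0) (p (nat_lit 0x38112) (nat_lit 0) (p (nat_lit 0x20092) (nat_lit 0) (p (nat_lit 0x10012) (nat_lit 0) pn))))))))))))))))))))))))))))) :=
  Cl.node (nat_lit 0x20000c) (nat_lit 2) (by decide +kernel) (ClAll.succ (ClAll.succ ClAll.zero n94) s635)

def n123 : Cl (O (nat_lit 6)) (R (nat_lit 14353))
    (p (nat_lit 0x20000c) (nat_lit 0) (p (nat_lit 0x380c2) (nat_lit 0) (p (nat_lit 0x3c4aa) (nat_lit 7) (p (nat_lit 0xd1) (nat_lit 1) (p (nat_lit 0xc9) (nat_lit 0) (p (nat_lit 0x101) (nat_lit 1) (p (nat_lit 0x119) (nat_lit 0) (p (nat_lit 0xc1) (nat_lit 0) (p (nat_lit 0x81) (nat_lit 1) (p (nat_lit 0x41) (nat_lit 1) (p (nat_lit 0x10a0b0a89089a) (nat_lit 0) (p (nat_lit 0x898a8a08881a) (nat_lit 0) (p (nat_lit 0x109088988079a) (nat_lit 0) (p (nat_lit 0x88880907871a) (nat_lit 0) (p (nat_lit 0x8000080000000080887068a) (nat_lit 0) (p (nat_lit 0x10888068602) (nat_lit 0) (p (nat_lit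 0x8807860582) (nat_lit 0) (p (nat_lit 0x10607058502) (nat_lit 0) (p (nat_lit 0x8586850482) (nat_lit 0) (p (nat_lit 0x160004) (nat_lit 0) (p (nat_lit 0x68612) (nat_lit 0) (p (nat_lit 0x50592) (nat_lit 0) (p (nat_lit 0x40512) (nat_lit 0) (p (nat_lit 0x50312) (nat_lit 0) (p (nat_lit 0x38292) (nat_lit 0) (p (nat_lit 0x28212) (nat_lit 0) (p (nat_lit 0x38112) (nat_lit 0) (p (nat_lit 0x20092) (nat_lit 0) (p (nat_lit 0x10012) (nat_lit 0) pn))))))))))))))))))))))))))))) :=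
  Cl.node (nat_lit 0x10000c) (nat_lit 2) (by decide +kernel) (ClAll.succ (ClAll.succ ClAll.zero n95) s665)

def n124 : Cl (O (nat_lit 6)) (R (nat_lit 14353))
    (p (nat_lit 0x20000c) (nat_lit 0) (p (nat_lit 0x380c2) (nat_lit 1) (p (nat_lit 0x3c4aa) (nat_lit 7) (p (nat_lit 0xd1) (nat_lit 1) (p (nat_lit 0xc9) (nat_lit 0) (p (nat_lit 0x101) (nat_lit 1) (p (nat_lit 0x119) (nat_lit 0) (p (nat_lit 0xc1) (nat_lit 0) (p (nat_lit 0x81) (nat_lit 1) (p (nat_lit 0x41) (nat_lit 1) (p (nat_lit 0x10a0b0a89089a) (nat_lit 0) (p (nat_lit 0x898a8a08881a) (nat_lit 0) (p (nat_lit 0x109088988079a) (nat_lit 0) (p (nat_lit 0x88880907871a) (nat_lit 0) (p (nat_lit 0x8000080000000080887068a) (nat_lit 0) (p (nat_lit 0x10888068602) (nat_lit 0) (p (nat_lit 0x8807860582) (nat_lit 0) (p (nat_lit 0x10607058502) (nat_lit 0) (p (nat_lit 0x8586850482) (nat_lit 0) (p (nat_lit 0x160004) (nat_lit 0) (p (nat_lit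 0x68612) (nat_lit 0) (p (nat_lit 0x50592) (nat_lit 0) (p (nat_lit 0x40512) (nat_lit 0) (p (nat_lit 0x50312) (nat_lit 0) (p (nat_lit 0x38292) (nat_lit 0) (p (nat_lit 0x28212) (nat_lit 0) (p (nat_lit 0x38112) (nat_lit 0) (p (nat_lit 0x20092) (nat_lit 0) (p (nat_lit 0x10012) (nat_lit 0) pn))))))))))))))))))))))))))))) :=
  Cl.node (nat_lit 0x10000c) (nat_lit 2) (by decide +kernel) (ClAll.succ (ClAll.succ ClAll.zero n96) s671)

def n125 : Cl (O (nat_lit 6)) (R (nat_lit 14353))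
    (p (nat_lit 0x20000c) (nat_lit 0) (p (nat_lit 0x380c2) (nat_lit 0) (p (nat_lit 0x3c4aa) (nat_lit 7) (p (nat_lit 0x111) (nat_lit 1) (p (nat_lit 0xd1) (nat_lit 1) (p (nat_lit 0xc9) (nat_lit 0) (p (nat_lit 0x119) (nat_lit 1) (p (nat_lit 0xc1) (nat_lit 0) (p (nat_lit 0x81) (nat_lit 1) (p (nat_lit 0x41) (nat_lit 1) (p (nat_lit 0x10a0b0a89089a) (nat_lit 0) (p (nat_lit 0x898a8a08881a) (nat_lit 0) (p (nat_lit 0x109088988079a) (nat_lit 0) (p (nat_lit 0x88880907871a) (nat_lit 0) (p (nat_lit 0x8000080000000080887068a) (nat_lit 0) (p (nat_lit 0x10888068602) (nat_lit 0) (p (nat_lit 0x8807860582) (nat_lit 0) (p (nat_lit 0x10607058502) (nat_lit 0) (p (nat_lit 0x8586850482) (nat_lit 0) (p (nat_lit 0x160004) (nat_lit 0) (p (nat_lit 0x68612) (nat_lit 0) (p (nat_lit 0x50592) (nat_lit 0) (p (nat_lit 0x40512) (nat_lit 0) (p (nat_lit 0x50312) (nat_lit 0) (p (nat_lit 0x38292) (nat_lit 0) (p (nat_lit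 0x28212) (nat_lit 0) (p (nat_lit 0x38112) (nat_lit 0) (p (nat_lit 0x20092) (nat_lit 0) (p (nat_lit 0x10012) (nat_lit 0) pn))))))))))))))))))))))))))))) :=
  Cl.node (nat_lit 0xb0004) (nat_lit 2) (by decide +kernel) (ClAll.succ (ClAll.succ ClAll.zero n97) s691)

def n126 : Cl (O (nat_lit 6)) (R (nat_lit 14353))
    (p (nat_lit 0x20000c) (nat_lit 0) (p (nat_lit 0x380c2) (nat_lit 1) (p (nat_lit 0x3c4aa) (nat_lit 7) (p (nat_lit 0x111) (nat_lit 1) (p (nat_lit 0xd1) (nat_lit 1) (p (nat_lit 0xc9) (nat_lit 0) (p (nat_lit 0x119) (nat_lit 1) (p (nat_lit 0xc1) (nat_lit 0) (p (nat_lit 0x81) (nat_lit 1) (p (nat_lit 0x41) (nat_lit 1) (p (nat_lit 0x10a0b0a89089a) (nat_lit 0) (p (nat_lit 0x898a8a08881a) (nat_lit 0) (p (nat_lit 0x109088988079a) (nat_lit 0) (p (nat_lit 0x88880907871a) (nat_lit 0) (p (nat_lit 0x8000080000000080887068a) (nat_lit 0) (p (nat_lit 0x10888068602) (nat_lit 0) (p (nat_lit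 0x8807860582) (nat_lit 0) (p (nat_lit 0x10607058502) (nat_lit 0) (p (nat_lit 0x8586850482) (nat_lit 0) (p (nat_lit 0x160004) (nat_lit 0) (p (nat_lit 0x68612) (nat_lit 0) (p (nat_lit 0x50592) (nat_lit 0) (p (nat_lit 0x40512) (nat_lit 0) (p (nat_lit 0x50312) (nat_lit 0) (p (nat_lit 0x38292) (nat_lit 0) (p (nat_lit 0x28212) (nat_lit 0) (p (nat_lit 0x38112) (nat_lit 0) (p (nat_lit 0x20092) (nat_lit 0) (p (nat_lit 0x10012) (nat_lit 0) pn))))))))))))))))))))))))))))) :=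
  Cl.node (nat_lit 0x101) (nat_lit 2) (by decide +kernel) (ClAll.succ (ClAll.succ ClAll.zero n98) s696)

def n127 : Cl (O (nat_lit 6)) (R (nat_lit 14353))
    (p (nat_lit 0x444aa) (nat_lit 7) (p (nat_lit 0x81) (nat_lit 1) (p (nat_lit 0xc9) (nat_lit 1) (p (nat_lit 0x109) (nat_lit 1) (p (nat_lit 0x101) (nat_lit 0) (p (nat_lit 0x119) (nat_lit 0) (p (nat_lit 0xd1) (nat_lit 0) (p (nat_lit 0x89) (nat_lit 0) (p (nat_lit 0x41) (nat_lit 0) (p (nat_lit 0x10a0b0a89089a) (nat_lit 0) (p (nat_lit 0x898a8a08881a) (nat_lit 0) (p (nat_lit 0x109088988079a) (nat_lit 0) (p (nat_lit 0x88880907871a) (nat_lit 0) (p (nat_lit 0x8000080000000080887068a) (nat_lit 0) (p (nat_lit 0x10888068602) (nat_lit 0) (p (nat_lit 0x8807860582) (nat_lit 0) (p (nat_lit 0x10607058502) (nat_lit 0) (p (nat_lit 0x8586850482) (nat_lit 0) (p (nat_lit 0x160004) (nat_lit 0) (p (nat_lit 0x68612) (nat_lit 0) (p (nat_lit 0x50592)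 (nat_lit 0) (p (nat_lit 0x40512) (nat_lit 0) (p (nat_lit 0x50312) (nat_lit 0) (p (nat_lit 0x38292) (nat_lit 0) (p (nat_lit 0x28212) (nat_lit 0) (p (nat_lit 0x38112) (nat_lit 0) (p (nat_lit 0x20092) (nat_lit 0) (p (nat_lit 0x10012) (nat_lit 0) pn)))))))))))))))))))))))))))) :=
  Cl.node (nat_lit 0x380c2) (nat_lit 2) (by decide +kernel) (ClAll.succ (ClAll.succ ClAll.zero n99) n100)

def n128 : Cl (O (nat_lit 6)) (R (nat_lit 14353))
    (p (nat_lit 0x444aa) (nat_lit 8) (p (nat_lit 0x81) (nat_lit 1) (p (nat_lit 0xc9) (nat_lit 1) (p (nat_lit 0x109) (nat_lit 1) (p (nat_lit 0x101) (nat_lit 0) (p (nat_lit 0x119) (nat_lit 0) (p (nat_lit 0xd1) (nat_lit 0) (p (nat_lit 0x89) (nat_lit 0) (p (nat_lit 0x41) (nat_lit 0) (p (nat_lit 0x10a0b0a89089a) (nat_lit 0) (p (nat_lit 0x898a8a08881a) (nat_lit 0) (p (nat_lit 0x109088988079a) (nat_lit 0) (p (nat_lit 0x88880907871a) (nat_lit 0) (p (nat_lit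 0x8000080000000080887068a) (nat_lit 0) (p (nat_lit 0x10888068602) (nat_lit 0) (p (nat_lit 0x8807860582) (nat_lit 0) (p (nat_lit 0x10607058502) (nat_lit 0) (p (nat_lit 0x8586850482) (nat_lit 0) (p (nat_lit 0x160004) (nat_lit 0) (p (nat_lit 0x68612) (nat_lit 0) (p (nat_lit 0x50592) (nat_lit 0) (p (nat_lit 0x40512) (nat_lit 0) (p (nat_lit 0x50312) (nat_lit 0) (p (nat_lit 0x38292) (nat_lit 0) (p (nat_lit 0x28212) (nat_lit 0) (p (nat_lit 0x38112) (nat_lit 0) (p (nat_lit 0x20092) (nat_lit 0) (p (nat_lit 0x10012) (nat_lit 0) pn)))))))))))))))))))))))))))) :=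
  Cl.node (nat_lit 0x380c2) (nat_lit 2) (by decide +kernel) (ClAll.succ (ClAll.succ ClAll.zero n101) s23)

def n129 : Cl (O (nat_lit 6)) (R (nat_lit 14353))
    (p (nat_lit 0x444aa) (nat_lit 7) (p (nat_lit 0x111) (nat_lit 0) (p (nat_lit 0xc9) (nat_lit 1) (p (nat_lit 0x81) (nat_lit 0) (p (nat_lit 0x101) (nat_lit 1) (p (nat_lit 0x119) (nat_lit 0) (p (nat_lit 0xd1) (nat_lit 0) (p (nat_lit 0x89) (nat_lit 0) (p (nat_lit 0x41) (nat_lit 0) (p (nat_lit 0x10a0b0a89089a) (nat_lit 0) (p (nat_lit 0x898a8a08881a) (nat_lit 0) (p (nat_lit 0x109088988079a) (nat_lit 0) (p (nat_lit 0x88880907871a) (nat_lit 0) (p (nat_lit 0x8000080000000080887068a) (nat_lit 0) (p (nat_lit 0x10888068602) (nat_lit 0) (p (nat_lit 0x8807860582) (nat_lit 0) (p (nat_lit 0x10607058502) (nat_lit 0) (p (nat_lit 0x8586850482) (nat_lit 0) (p (nat_lit 0x160004) (nat_lit 0) (p (nat_lit 0x68612) (nat_lit 0) (p (nat_lit 0x50592)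 (nat_lit 0) (p (nat_lit 0x40512) (nat_lit 0) (p (nat_lit 0x50312) (nat_lit 0) (p (nat_lit 0x38292) (nat_lit 0) (p (nat_lit 0x28212) (nat_lit 0) (p (nat_lit 0x38112) (nat_lit 0) (p (nat_lit 0x20092) (nat_lit 0) (p (nat_lit 0x10012) (nat_lit 0) pn)))))))))))))))))))))))))))) :=
  Cl.node (nat_lit 0x380c2) (nat_lit 2) (by decide +kernel) (ClAll.succ (ClAll.succ ClAll.zero n102) n103)

def n130 : Cl (O (nat_lit 6)) (R (nat_lit 14353))
    (p (nat_lit 0x444aa) (nat_lit 8) (p (nat_lit 0x111) (nat_lit 0) (p (nat_lit 0xc9) (nat_lit 1) (p (nat_lit 0x81) (nat_lit 0) (p (nat_lit 0x101) (nat_lit 1) (p (nat_lit 0x119) (nat_lit 0) (p (nat_lit 0xd1) (nat_lit 0) (p (nat_lit 0x89) (nat_lit 0) (p (nat_lit 0x41) (nat_lit 0) (p (nat_lit 0x10a0b0a89089a) (nat_lit 0) (p (nat_lit 0x898a8a08881a) (nat_lit 0) (p (nat_lit 0x109088988079a) (nat_lit 0) (p (nat_lit 0x88880907871a) (nat_lit 0) (p (nat_lit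 0x8000080000000080887068a) (nat_lit 0) (p (nat_lit 0x10888068602) (nat_lit 0) (p (nat_lit 0x8807860582) (nat_lit 0) (p (nat_lit 0x10607058502) (nat_lit 0) (p (nat_lit 0x8586850482) (nat_lit 0) (p (nat_lit 0x160004) (nat_lit 0) (p (nat_lit 0x68612) (nat_lit 0) (p (nat_lit 0x50592) (nat_lit 0) (p (nat_lit 0x40512) (nat_lit 0) (p (nat_lit 0x50312) (nat_lit 0) (p (nat_lit 0x38292) (nat_lit 0) (p (nat_lit 0x28212) (nat_lit 0) (p (nat_lit 0x38112) (nat_lit 0) (p (nat_lit 0x20092) (nat_lit 0) (p (nat_lit 0x10012) (nat_lit 0) pn)))))))))))))))))))))))))))) :=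
  Cl.node (nat_lit 0x380c2) (nat_lit 2) (by decide +kernel) (ClAll.succ (ClAll.succ ClAll.zero s46) s47)

def n131 : Cl (O (nat_lit 6)) (R (nat_lit 14353))
    (p (nat_lit 0x444aa) (nat_lit 7) (p (nat_lit 0xc9) (nat_lit 1) (p (nat_lit 0xc1) (nat_lit 0) (p (nat_lit 0x81) (nat_lit 1) (p (nat_lit 0x101) (nat_lit 1) (p (nat_lit 0x119) (nat_lit 0) (p (nat_lit 0xd1) (nat_lit 0) (p (nat_lit 0x89) (nat_lit 0) (p (nat_lit 0x41) (nat_lit 0) (p (nat_lit 0x10a0b0a89089a) (nat_lit 0) (p (nat_lit 0x898a8a08881a) (nat_lit 0) (p (nat_lit 0x109088988079a) (nat_lit 0) (p (nat_lit 0x88880907871a) (nat_lit 0) (p (nat_lit 0x8000080000000080887068a) (nat_lit 0) (p (nat_lit 0x10888068602) (nat_lit 0) (p (nat_lit 0x8807860582) (nat_lit 0) (p (nat_lit 0x10607058502) (nat_lit 0) (p (nat_lit 0x8586850482) (nat_lit 0) (p (nat_lit 0x160004) (nat_lit 0) (p (nat_lit 0x68612) (nat_lit 0) (p (nat_lit 0x50592)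 (nat_lit 0) (p (nat_lit 0x40512) (nat_lit 0) (p (nat_lit 0x50312) (nat_lit 0) (p (nat_lit 0x38292) (nat_lit 0) (p (nat_lit 0x28212) (nat_lit 0) (p (nat_lit 0x38112) (nat_lit 0) (p (nat_lit 0x20092) (nat_lit 0) (p (nat_lit 0x10012) (nat_lit 0) pn)))))))))))))))))))))))))))) :=
  Cl.node (nat_lit 0x380c2) (nat_lit 2) (by decide +kernel) (ClAll.succ (ClAll.succ ClAll.zero n104) n105)

def n132 : Cl (O (nat_lit 6)) (R (nat_lit 14353))
    (p (nat_lit 0x444aa) (nat_lit 7) (p (nat_lit 0x109) (nat_lit 1) (p (nat_lit 0x101) (nat_lit 0) (p (nat_lit 0x81) (nat_lit 1) (p (nat_lit 0xc1) (nat_lit 1) (p (nat_lit 0x119) (nat_lit 1) (p (nat_lit 0xd1) (nat_lit 0) (p (nat_lit 0x89) (nat_lit 0) (p (nat_lit 0x41) (nat_lit 0) (p (nat_lit 0x10a0b0a89089a) (nat_lit 0) (p (nat_lit 0x898a8a08881a) (nat_lit 0) (p (nat_lit 0x109088988079a) (nat_lit 0) (p (nat_lit 0x88880907871a) (nat_lit 0) (p (nat_lit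 0x8000080000000080887068a) (nat_lit 0) (p (nat_lit 0x10888068602) (nat_lit 0) (p (nat_lit 0x8807860582) (nat_lit 0) (p (nat_lit 0x10607058502) (nat_lit 0) (p (nat_lit 0x8586850482) (nat_lit 0) (p (nat_lit 0x160004) (nat_lit 0) (p (nat_lit 0x68612) (nat_lit 0) (p (nat_lit 0x50592) (nat_lit 0) (p (nat_lit 0x40512) (nat_lit 0) (p (nat_lit 0x50312) (nat_lit 0) (p (nat_lit 0x38292) (nat_lit 0) (p (nat_lit 0x28212) (nat_lit 0) (p (nat_lit 0x38112) (nat_lit 0) (p (nat_lit 0x20092) (nat_lit 0) (p (nat_lit 0x10012) (nat_lit 0) pn)))))))))))))))))))))))))))) :=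
  Cl.node (nat_lit 0x380c2) (nat_lit 2) (by decide +kernel) (ClAll.succ (ClAll.succ ClAll.zero n106) n107)

def n133 : Cl (O (nat_lit 6)) (R (nat_lit 14353))
    (p (nat_lit 0x444aa) (nat_lit 8) (p (nat_lit 0x109) (nat_lit 1) (p (nat_lit 0x101) (nat_lit 0) (p (nat_lit 0x81) (nat_lit 1) (p (nat_lit 0xc1) (nat_lit 1) (p (nat_lit 0x119) (nat_lit 1) (p (nat_lit 0xd1) (nat_lit 0) (p (nat_lit 0x89) (nat_lit 0) (p (nat_lit 0x41) (nat_lit 0) (p (nat_lit 0x10a0b0a89089a) (nat_lit 0) (p (nat_lit 0x898a8a08881a) (nat_lit 0) (p (nat_lit 0x109088988079a) (nat_lit 0) (p (nat_lit 0x88880907871a) (nat_lit 0) (p (nat_lit 0x8000080000000080887068a) (nat_lit 0) (p (nat_lit 0x10888068602) (nat_lit 0) (p (nat_lit 0x8807860582) (nat_lit 0) (p (nat_lit 0x10607058502) (nat_lit 0) (p (nat_lit 0x8586850482) (nat_lit 0) (p (nat_lit 0x160004) (nat_lit 0) (p (nat_lit 0x68612) (nat_lit 0) (p (nat_lit 0x50592)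 (nat_lit 0) (p (nat_lit 0x40512) (nat_lit 0) (p (nat_lit 0x50312) (nat_lit 0) (p (nat_lit 0x38292) (nat_lit 0) (p (nat_lit 0x28212) (nat_lit 0) (p (nat_lit 0x38112) (nat_lit 0) (p (nat_lit 0x20092) (nat_lit 0) (p (nat_lit 0x10012) (nat_lit 0) pn)))))))))))))))))))))))))))) :=
  Cl.node (nat_lit 0x380c2) (nat_lit 2) (by decide +kernel) (ClAll.succ (ClAll.succ ClAll.zero n108) s168)

def n134 : Cl (O (nat_lit 6)) (R (nat_lit 14353))
    (p (nat_lit 0x200014) (nat_lit 0) (p (nat_lit 0x20000c) (nat_lit 0) (p (nat_lit 0xc1) (nat_lit 1) (p (nat_lit 0x109) (nat_lit 1) (p (nat_lit 0x101) (nat_lit 0) (p (nat_lit 0x111) (nat_lit 0) (p (nat_lit 0xd1) (nat_lit 1) (p (nat_lit 0x89) (nat_lit 0) (p (nat_lit 0x41) (nat_lit 0) (p (nat_lit 0x10a0b0a89089a) (nat_lit 0) (p (nat_lit 0x898a8a08881a) (nat_lit 0) (p (nat_lit 0x109088988079a) (nat_lit 0) (p (nat_lit 0x88880907871a) (nat_lit 0) (p (nat_lit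 0x8000080000000080887068a) (nat_lit 0) (p (nat_lit 0x10888068602) (nat_lit 0) (p (nat_lit 0x8807860582) (nat_lit 0) (p (nat_lit 0x10607058502) (nat_lit 0) (p (nat_lit 0x8586850482) (nat_lit 0) (p (nat_lit 0x160004) (nat_lit 0) (p (nat_lit 0x68612) (nat_lit 0) (p (nat_lit 0x50592) (nat_lit 0) (p (nat_lit 0x40512) (nat_lit 0) (p (nat_lit 0x50312) (nat_lit 0) (p (nat_lit 0x38292) (nat_lit 0) (p (nat_lit 0x28212) (nat_lit 0) (p (nat_lit 0x38112) (nat_lit 0) (p (nat_lit 0x20092) (nat_lit 0) (p (nat_lit 0x10012) (nat_lit 0) pn)))))))))))))))))))))))))))) :=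
  Cl.node (nat_lit 0x41) (nat_lit 2) (by decide +kernel) (ClAll.succ (ClAll.succ ClAll.zero n109) s187)

def n135 : Cl (O (nat_lit 6)) (R (nat_lit 14353))
    (p (nat_lit 0x200014) (nat_lit 0) (p (nat_lit 0x20000c) (nat_lit 0) (p (nat_lit 0x119) (nat_lit 0) (p (nat_lit 0x81) (nat_lit 0) (p (nat_lit 0x101) (nat_lit 1) (p (nat_lit 0x111) (nat_lit 0) (p (nat_lit 0xd1) (nat_lit 1) (p (nat_lit 0x89) (nat_lit 0) (p (nat_lit 0x41) (nat_lit 0) (p (nat_lit 0x10a0b0a89089a) (nat_lit 0) (p (nat_lit 0x898a8a08881a) (nat_lit 0) (p (nat_lit 0x109088988079a) (nat_lit 0) (p (nat_lit 0x88880907871a) (nat_lit 0) (p (nat_lit 0x8000080000000080887068a) (nat_lit 0) (p (nat_lit 0x10888068602) (nat_lit 0) (p (nat_lit 0x8807860582) (nat_lit 0) (p (nat_lit 0x10607058502) (nat_lit 0) (p (nat_lit 0x8586850482) (nat_lit 0) (p (nat_lit 0x160004) (nat_lit 0) (p (nat_lit 0x68612) (nat_lit 0) (p (nat_lit 0x50592)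 (nat_lit 0) (p (nat_lit 0x40512) (nat_lit 0) (p (nat_lit 0x50312) (nat_lit 0) (p (nat_lit 0x38292) (nat_lit 0) (p (nat_lit 0x28212) (nat_lit 0) (p (nat_lit 0x38112) (nat_lit 0) (p (nat_lit 0x20092) (nat_lit 0) (p (nat_lit 0x10012) (nat_lit 0) pn)))))))))))))))))))))))))))) :=
  Cl.node (nat_lit 0x109) (nat_lit 2) (by decide +kernel) (ClAll.succ (ClAll.succ ClAll.zero s190) n110)

def n136 : Cl (O (nat_lit 6)) (R (nat_lit 14353))
    (p (nat_lit 0x444aa) (nat_lit 7) (p (nat_lit 0x119) (nat_lit 0) (p (nat_lit 0xc1) (nat_lit 0) (p (nat_lit 0x81) (nat_lit 1) (p (nat_lit 0x101) (nat_lit 1) (p (nat_lit 0x111) (nat_lit 0) (p (nat_lit 0xd1) (nat_lit 1) (p (nat_lit 0x89) (nat_lit 0) (p (nat_lit 0x41) (nat_lit 0) (p (nat_lit 0x10a0b0a89089a) (nat_lit 0) (p (nat_lit 0x898a8a08881a) (nat_lit 0) (p (nat_lit 0x109088988079a) (nat_lit 0) (p (nat_lit 0x88880907871a) (nat_lit 0) (p (nat_lit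 0x8000080000000080887068a) (nat_lit 0) (p (nat_lit 0x10888068602) (nat_lit 0) (p (nat_lit 0x8807860582) (nat_lit 0) (p (nat_lit 0x10607058502) (nat_lit 0) (p (nat_lit 0x8586850482) (nat_lit 0) (p (nat_lit 0x160004) (nat_lit 0) (p (nat_lit 0x68612) (nat_lit 0) (p (nat_lit 0x50592) (nat_lit 0) (p (nat_lit 0x40512) (nat_lit 0) (p (nat_lit 0x50312) (nat_lit 0) (p (nat_lit 0x38292) (nat_lit 0) (p (nat_lit 0x28212) (nat_lit 0) (p (nat_lit 0x38112) (nat_lit 0) (p (nat_lit 0x20092) (nat_lit 0) (p (nat_lit 0x10012) (nat_lit 0) pn)))))))))))))))))))))))))))) :=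
  Cl.node (nat_lit 0x380c2) (nat_lit 2) (by decide +kernel) (ClAll.succ (ClAll.succ ClAll.zero s213) s214)

def n137 : Cl (O (nat_lit 6)) (R (nat_lit 14353))
    (p (nat_lit 0x444aa) (nat_lit 7) (p (nat_lit 0xd1) (nat_lit 1) (p (nat_lit 0x111) (nat_lit 1) (p (nat_lit 0x109) (nat_lit 0) (p (nat_lit 0x101) (nat_lit 0) (p (nat_lit 0x119) (nat_lit 0) (p (nat_lit 0xc9) (nat_lit 0) (p (nat_lit 0x89) (nat_lit 1) (p (nat_lit 0x41) (nat_lit 0) (p (nat_lit 0x10a0b0a89089a) (nat_lit 0) (p (nat_lit 0x898a8a08881a) (nat_lit 0) (p (nat_lit 0x109088988079a) (nat_lit 0) (p (nat_lit 0x88880907871a) (nat_lit 0) (p (nat_lit 0x8000080000000080887068a) (nat_lit 0) (p (nat_lit 0x10888068602) (nat_lit 0) (p (nat_lit 0x8807860582) (nat_lit 0) (p (nat_lit 0x10607058502) (nat_lit 0) (p (nat_lit 0x8586850482) (nat_lit 0) (p (nat_lit 0x160004) (nat_lit 0) (p (nat_lit 0x68612) (nat_lit 0) (p (nat_lit 0x50592)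 (nat_lit 0) (p (nat_lit 0x40512) (nat_lit 0) (p (nat_lit 0x50312) (nat_lit 0) (p (nat_lit 0x38292) (nat_lit 0) (p (nat_lit 0x28212) (nat_lit 0) (p (nat_lit 0x38112) (nat_lit 0) (p (nat_lit 0x20092) (nat_lit 0) (p (nat_lit 0x10012) (nat_lit 0) pn)))))))))))))))))))))))))))) :=
  Cl.node (nat_lit 0x380c2) (nat_lit 2) (by decide +kernel) (ClAll.succ (ClAll.succ ClAll.zero s267) n111)

def n138 : Cl (O (nat_lit 6)) (R (nat_lit 14353))
    (p (nat_lit 0x444aa) (nat_lit 8) (p (nat_lit 0xd1) (nat_lit 1) (p (nat_lit 0x111) (nat_lit 1) (p (nat_lit 0x109) (nat_lit 0) (p (nat_lit 0x101) (nat_lit 0) (p (nat_lit 0x119) (nat_lit 0) (p (nat_lit 0xc9) (nat_lit 0) (p (nat_lit 0x89) (nat_lit 1) (p (nat_lit 0x41) (nat_lit 0) (p (nat_lit 0x10a0b0a89089a) (nat_lit 0) (p (nat_lit 0x898a8a08881a) (nat_lit 0) (p (nat_lit 0x109088988079a) (nat_lit 0) (p (nat_lit 0x88880907871a) (nat_lit 0) (p (nat_lit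 0x8000080000000080887068a) (nat_lit 0) (p (nat_lit 0x10888068602) (nat_lit 0) (p (nat_lit 0x8807860582) (nat_lit 0) (p (nat_lit 0x10607058502) (nat_lit 0) (p (nat_lit 0x8586850482) (nat_lit 0) (p (nat_lit 0x160004) (nat_lit 0) (p (nat_lit 0x68612) (nat_lit 0) (p (nat_lit 0x50592) (nat_lit 0) (p (nat_lit 0x40512) (nat_lit 0) (p (nat_lit 0x50312) (nat_lit 0) (p (nat_lit 0x38292) (nat_lit 0) (p (nat_lit 0x28212) (nat_lit 0) (p (nat_lit 0x38112) (nat_lit 0) (p (nat_lit 0x20092) (nat_lit 0) (p (nat_lit 0x10012) (nat_lit 0) pn)))))))))))))))))))))))))))) :=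
  Cl.node (nat_lit 0x380c2) (nat_lit 2) (by decide +kernel) (ClAll.succ (ClAll.succ ClAll.zero n112) s294)

def n139 : Cl (O (nat_lit 6)) (R (nat_lit 14353))
    (p (nat_lit 0x380c2) (nat_lit 0) (p (nat_lit 0x444aa) (nat_lit 7) (p (nat_lit 0xd1) (nat_lit 1) (p (nat_lit 0x109) (nat_lit 1) (p (nat_lit 0x101) (nat_lit 0) (p (nat_lit 0x119) (nat_lit 0) (p (nat_lit 0xc9) (nat_lit 0) (p (nat_lit 0x89) (nat_lit 1) (p (nat_lit 0x41) (nat_lit 0) (p (nat_lit 0x10a0b0a89089a) (nat_lit 0) (p (nat_lit 0x898a8a08881a) (nat_lit 0) (p (nat_lit 0x109088988079a) (nat_lit 0) (p (nat_lit 0x88880907871a) (nat_lit 0) (p (nat_lit 0x8000080000000080887068a) (nat_lit 0) (p (nat_lit 0x10888068602) (nat_lit 0) (p (nat_lit 0x8807860582) (nat_lit 0) (p (nat_lit 0x10607058502) (nat_lit 0) (p (nat_lit 0x8586850482) (nat_lit 0) (p (nat_lit 0x160004) (nat_lit 0) (p (nat_lit 0x68612) (nat_lit 0) (p (nat_lit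 0x50592) (nat_lit 0) (p (nat_lit 0x40512) (nat_lit 0) (p (nat_lit 0x50312) (nat_lit 0) (p (nat_lit 0x38292) (nat_lit 0) (p (nat_lit 0x28212) (nat_lit 0) (p (nat_lit 0x38112) (nat_lit 0) (p (nat_lit 0x20092) (nat_lit 0) (p (nat_lit 0x10012) (nat_lit 0) pn)))))))))))))))))))))))))))) :=
  Cl.node (nat_lit 0x20000c) (nat_lit 2) (by decide +kernel) (ClAll.succ (ClAll.succ ClAll.zero n113) s313)

def n140 : Cl (O (nat_lit 6)) (R (nat_lit 14353))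
    (p (nat_lit 0x380c2) (nat_lit 1) (p (nat_lit 0x444aa) (nat_lit 7) (p (nat_lit 0xd1) (nat_lit 1) (p (nat_lit 0x109) (nat_lit 1) (p (nat_lit 0x101) (nat_lit 0) (p (nat_lit 0x119) (nat_lit 0) (p (nat_lit 0xc9) (nat_lit 0) (p (nat_lit 0x89) (nat_lit 1) (p (nat_lit 0x41) (nat_lit 0) (p (nat_lit 0x10a0b0a89089a) (nat_lit 0) (p (nat_lit 0x898a8a08881a) (nat_lit 0) (p (nat_lit 0x109088988079a) (nat_lit 0) (p (nat_lit 0x88880907871a) (nat_lit 0) (p (nat_lit 0x8000080000000080887068a) (nat_lit 0) (p (nat_lit 0x10888068602) (nat_lit 0) (p (nat_lit 0x8807860582) (nat_lit 0) (p (nat_lit 0x10607058502) (nat_lit 0) (p (nat_lit 0x8586850482) (nat_lit 0) (p (nat_lit 0x160004) (nat_lit 0) (p (nat_lit 0x68612) (nat_lit 0) (p (nat_lit 0x50592) (nat_lit 0) (p (nat_lit 0x40512) (nat_lit 0) (p (nat_lit 0x50312) (nat_lit 0) (p (nat_lit 0x38292) (nat_lit 0) (p (nat_lit 0x28212) (nat_lit 0) (p (nat_lit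 0x38112) (nat_lit 0) (p (nat_lit 0x20092) (nat_lit 0) (p (nat_lit 0x10012) (nat_lit 0) pn)))))))))))))))))))))))))))) :=
  Cl.node (nat_lit 0xb0004) (nat_lit 2) (by decide +kernel) (ClAll.succ (ClAll.succ ClAll.zero n114) s318)

def n141 : Cl (O (nat_lit 6)) (R (nat_lit 14353))
    (p (nat_lit 0x380c2) (nat_lit 0) (p (nat_lit 0x444aa) (nat_lit 7) (p (nat_lit 0x111) (nat_lit 1) (p (nat_lit 0xd1) (nat_lit 1) (p (nat_lit 0xc1) (nat_lit 0) (p (nat_lit 0x119) (nat_lit 1) (p (nat_lit 0xc9) (nat_lit 0) (p (nat_lit 0x89) (nat_lit 1) (p (nat_lit 0x41) (nat_lit 0) (p (nat_lit 0x10a0b0a89089a) (nat_lit 0) (p (nat_lit 0x898a8a08881a) (nat_lit 0) (p (nat_lit 0x109088988079a) (nat_lit 0) (p (nat_lit 0x88880907871a) (nat_lit 0) (p (nat_lit 0x8000080000000080887068a) (nat_lit 0) (p (nat_lit 0x10888068602) (nat_lit 0) (p (nat_lit 0x8807860582) (nat_lit 0) (p (nat_lit 0x10607058502) (nat_lit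 0) (p (nat_lit 0x8586850482) (nat_lit 0) (p (nat_lit 0x160004) (nat_lit 0) (p (nat_lit 0x68612) (nat_lit 0) (p (nat_lit 0x50592) (nat_lit 0) (p (nat_lit 0x40512) (nat_lit 0) (p (nat_lit 0x50312) (nat_lit 0) (p (nat_lit 0x38292) (nat_lit 0) (p (nat_lit 0x28212) (nat_lit 0) (p (nat_lit 0x38112) (nat_lit 0) (p (nat_lit 0x20092) (nat_lit 0) (p (nat_lit 0x10012) (nat_lit 0) pn)))))))))))))))))))))))))))) :=
  Cl.node (nat_lit 0x20000c) (nat_lit 2) (by decide +kernel) (ClAll.succ (ClAll.succ ClAll.zero n115) s351)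

def n142 : Cl (O (nat_lit 6)) (R (nat_lit 14353))
    (p (nat_lit 0x380c2) (nat_lit 1) (p (nat_lit 0x444aa) (nat_lit 7) (p (nat_lit 0x111) (nat_lit 1) (p (nat_lit 0xd1) (nat_lit 1) (p (nat_lit 0xc1) (nat_lit 0) (p (nat_lit 0x119) (nat_lit 1) (p (nat_lit 0xc9) (nat_lit 0) (p (nat_lit 0x89) (nat_lit 1) (p (nat_lit 0x41) (nat_lit 0) (p (nat_lit 0x10a0b0a89089a) (nat_lit 0) (p (nat_lit 0x898a8a08881a) (nat_lit 0) (p (nat_lit 0x109088988079a) (nat_lit 0) (p (nat_lit 0x88880907871a) (nat_lit 0) (p (nat_lit 0x8000080000000080887068a) (nat_lit 0) (p (nat_lit 0x10888068602) (nat_lit 0) (p (nat_lit 0x8807860582) (nat_lit 0) (p (nat_lit 0x10607058502) (nat_lit 0) (p (nat_lit 0x8586850482) (nat_lit 0) (p (nat_lit 0x160004) (nat_lit 0) (p (nat_lit 0x68612) (nat_lit 0) (p (nat_lit 0x50592) (nat_lit 0) (p (nat_lit 0x40512) (nat_lit 0) (p (nat_lit 0x50312) (nat_lit 0) (p (nat_lit 0x38292)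 (nat_lit 0) (p (nat_lit 0x28212) (nat_lit 0) (p (nat_lit 0x38112) (nat_lit 0) (p (nat_lit 0x20092) (nat_lit 0) (p (nat_lit 0x10012) (nat_lit 0) pn)))))))))))))))))))))))))))) :=
  Cl.node (nat_lit 0x20000c) (nat_lit 2) (by decide +kernel) (ClAll.succ (ClAll.succ ClAll.zero n116) s356)

def n143 : Cl (O (nat_lit 6)) (R (nat_lit 14353))
    (p (nat_lit 0x380c2) (nat_lit 0) (p (nat_lit 0x444aa) (nat_lit 8) (p (nat_lit 0x111) (nat_lit 1) (p (nat_lit 0xd1) (nat_lit 1) (p (nat_lit 0xc1) (nat_lit 0) (p (nat_lit 0x119) (nat_lit 1) (p (nat_lit 0xc9) (nat_lit 0) (p (nat_lit 0x89) (nat_lit 1) (p (nat_lit 0x41) (nat_lit 0) (p (nat_lit 0x10a0b0a89089a) (nat_lit 0) (p (nat_lit 0x898a8a08881a) (nat_lit 0) (p (nat_lit 0x109088988079a) (nat_lit 0) (p (nat_lit 0x88880907871a) (nat_lit 0) (p (nat_lit 0x8000080000000080887068a) (nat_lit 0) (p (nat_lit 0x10888068602) (nat_lit 0) (p (nat_lit 0x8807860582)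 (nat_lit 0) (p (nat_lit 0x10607058502) (nat_lit 0) (p (nat_lit 0x8586850482) (nat_lit 0) (p (nat_lit 0x160004) (nat_lit 0) (p (nat_lit 0x68612) (nat_lit 0) (p (nat_lit 0x50592) (nat_lit 0) (p (nat_lit 0x40512) (nat_lit 0) (p (nat_lit 0x50312) (nat_lit 0) (p (nat_lit 0x38292) (nat_lit 0) (p (nat_lit 0x28212) (nat_lit 0) (p (nat_lit 0x38112) (nat_lit 0) (p (nat_lit 0x20092) (nat_lit 0) (p (nat_lit 0x10012) (nat_lit 0) pn)))))))))))))))))))))))))))) :=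
  Cl.node (nat_lit 0xb0004) (nat_lit 2) (by decide +kernel) (ClAll.succ (ClAll.succ ClAll.zero s357) s358)

def n144 : Cl (O (nat_lit 6)) (R (nat_lit 14353))
    (p (nat_lit 0x380c2) (nat_lit 0) (p (nat_lit 0x444aa) (nat_lit 7) (p (nat_lit 0x111) (nat_lit 1) (p (nat_lit 0x101) (nat_lit 0) (p (nat_lit 0xc1) (nat_lit 1) (p (nat_lit 0x119) (nat_lit 1) (p (nat_lit 0xc9) (nat_lit 0) (p (nat_lit 0x89) (nat_lit 1) (p (nat_lit 0x41) (nat_lit 0) (p (nat_lit 0x10a0b0a89089a) (nat_lit 0) (p (nat_lit 0x898a8a08881a) (nat_lit 0) (p (nat_lit 0x109088988079a) (nat_lit 0) (p (nat_lit 0x88880907871a) (nat_lit 0) (p (nat_lit 0x8000080000000080887068a) (nat_lit 0) (p (nat_lit 0x10888068602) (nat_lit 0) (p (nat_lit 0x8807860582) (nat_lit 0) (p (nat_lit 0x10607058502) (nat_lit 0) (p (nat_lit 0x8586850482) (nat_lit 0) (p (nat_lit 0x160004) (nat_lit 0) (p (nat_lit 0x68612) (nat_lit 0) (p (nat_lit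 0x50592) (nat_lit 0) (p (nat_lit 0x40512) (nat_lit 0) (p (nat_lit 0x50312) (nat_lit 0) (p (nat_lit 0x38292) (nat_lit 0) (p (nat_lit 0x28212) (nat_lit 0) (p (nat_lit 0x38112) (nat_lit 0) (p (nat_lit 0x20092) (nat_lit 0) (p (nat_lit 0x10012) (nat_lit 0) pn)))))))))))))))))))))))))))) :=
  Cl.node (nat_lit 0x20000c) (nat_lit 2) (by decide +kernel) (ClAll.succ (ClAll.succ ClAll.zero n117) s399)

def n145 : Cl (O (nat_lit 6)) (R (nat_lit 14353))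
    (p (nat_lit 0x380c2) (nat_lit 1) (p (nat_lit 0x444aa) (nat_lit 7) (p (nat_lit 0x111) (nat_lit 1) (p (nat_lit 0x101) (nat_lit 0) (p (nat_lit 0xc1) (nat_lit 1) (p (nat_lit 0x119) (nat_lit 1) (p (nat_lit 0xc9) (nat_lit 0) (p (nat_lit 0x89) (nat_lit 1) (p (nat_lit 0x41) (nat_lit 0) (p (nat_lit 0x10a0b0a89089a) (nat_lit 0) (p (nat_lit 0x898a8a08881a) (nat_lit 0) (p (nat_lit 0x109088988079a) (nat_lit 0) (p (nat_lit 0x88880907871a) (nat_lit 0) (p (nat_lit 0x8000080000000080887068a) (nat_lit 0) (p (nat_lit 0x10888068602) (nat_lit 0) (p (nat_lit 0x8807860582) (nat_lit 0) (p (nat_lit 0x10607058502) (nat_lit 0) (p (nat_lit 0x8586850482) (nat_lit 0) (p (nat_lit 0x160004) (nat_lit 0) (p (nat_lit 0x68612) (nat_lit 0) (p (nat_lit 0x50592) (nat_lit 0) (p (nat_lit 0x40512) (nat_lit 0) (p (nat_lit 0x50312) (nat_lit 0) (p (nat_lit 0x38292) (nat_lit 0) (p (nat_lit 0x28212) (nat_lit 0) (p (nat_lit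 0x38112) (nat_lit 0) (p (nat_lit 0x20092) (nat_lit 0) (p (nat_lit 0x10012) (nat_lit 0) pn)))))))))))))))))))))))))))) :=
  Cl.node (nat_lit 0x20000c) (nat_lit 2) (by decide +kernel) (ClAll.succ (ClAll.succ ClAll.zero n118) s406)

def n146 : Cl (O (nat_lit 6)) (R (nat_lit 14353))
    (p (nat_lit 0x380c2) (nat_lit 0) (p (nat_lit 0x444aa) (nat_lit 8) (p (nat_lit 0x111) (nat_lit 1) (p (nat_lit 0x101) (nat_lit 0) (p (nat_lit 0xc1) (nat_lit 1) (p (nat_lit 0x119) (nat_lit 1) (p (nat_lit 0xc9) (nat_lit 0) (p (nat_lit 0x89) (nat_lit 1) (p (nat_lit 0x41) (nat_lit 0) (p (nat_lit 0x10a0b0a89089a) (nat_lit 0) (p (nat_lit 0x898a8a08881a) (nat_lit 0) (p (nat_lit 0x109088988079a) (nat_lit 0) (p (nat_lit 0x88880907871a) (nat_lit 0) (p (nat_lit 0x8000080000000080887068a) (nat_lit 0) (p (nat_lit 0x10888068602) (nat_lit 0) (p (nat_lit 0x8807860582) (nat_lit 0) (p (nat_lit 0x10607058502) (nat_lit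 0) (p (nat_lit 0x8586850482) (nat_lit 0) (p (nat_lit 0x160004) (nat_lit 0) (p (nat_lit 0x68612) (nat_lit 0) (p (nat_lit 0x50592) (nat_lit 0) (p (nat_lit 0x40512) (nat_lit 0) (p (nat_lit 0x50312) (nat_lit 0) (p (nat_lit 0x38292) (nat_lit 0) (p (nat_lit 0x28212) (nat_lit 0) (p (nat_lit 0x38112) (nat_lit 0) (p (nat_lit 0x20092) (nat_lit 0) (p (nat_lit 0x10012) (nat_lit 0) pn)))))))))))))))))))))))))))) :=
  Cl.node (nat_lit 0xb0004) (nat_lit 2) (by decide +kernel) (ClAll.succ (ClAll.succ ClAll.zero s407) s408)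

def n147 : Cl (O (nat_lit 6)) (R (nat_lit 14353))
    (p (nat_lit 0x3c4aa) (nat_lit 7) (p (nat_lit 0x109) (nat_lit 1) (p (nat_lit 0x89) (nat_lit 1) (p (nat_lit 0x101) (nat_lit 0) (p (nat_lit 0xc1) (nat_lit 1) (p (nat_lit 0x119) (nat_lit 1) (p (nat_lit 0xd1) (nat_lit 0) (p (nat_lit 0x81) (nat_lit 0) (p (nat_lit 0x41) (nat_lit 1) (p (nat_lit 0x10a0b0a89089a) (nat_lit 0) (p (nat_lit 0x898a8a08881a) (nat_lit 0) (p (nat_lit 0x109088988079a) (nat_lit 0) (p (nat_lit 0x88880907871a) (nat_lit 0) (p (nat_lit 0x8000080000000080887068a) (nat_lit 0) (p (nat_lit 0x10888068602) (nat_lit 0) (p (nat_lit 0x8807860582) (nat_lit 0) (p (nat_lit 0x10607058502) (nat_lit 0) (p (nat_lit 0x8586850482) (nat_lit 0) (p (nat_lit 0x160004) (nat_lit 0) (p (nat_lit 0x68612) (nat_lit 0) (p (nat_lit 0x50592) (nat_lit 0) (p (nat_lit 0x40512) (nat_lit 0) (p (nat_lit 0x50312) (nat_lit 0) (p (nat_lit 0x38292) (nat_lit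 0) (p (nat_lit 0x28212) (nat_lit 0) (p (nat_lit 0x38112) (nat_lit 0) (p (nat_lit 0x20092) (nat_lit 0) (p (nat_lit 0x10012) (nat_lit 0) pn)))))))))))))))))))))))))))) :=
  Cl.node (nat_lit 0x380c2) (nat_lit 2) (by decide +kernel) (ClAll.succ (ClAll.succ ClAll.zero s506) s507)

def n148 : Cl (O (nat_lit 6)) (R (nat_lit 14353))
    (p (nat_lit 0x3c4aa) (nat_lit 10) (p (nat_lit 0x109) (nat_lit 1) (p (nat_lit 0x89) (nat_lit 1) (p (nat_lit 0x101) (nat_lit 0) (p (nat_lit 0xc1) (nat_lit 1) (p (nat_lit 0x119) (nat_lit 1) (p (nat_lit 0xd1) (nat_lit 0) (p (nat_lit 0x81) (nat_lit 0) (p (nat_lit 0x41) (nat_lit 1) (p (nat_lit 0x10a0b0a89089a) (nat_lit 0) (p (nat_lit 0x898a8a08881a) (nat_lit 0) (p (nat_lit 0x109088988079a) (nat_lit 0) (p (nat_lit 0x88880907871a) (nat_lit 0) (p (nat_lit 0x8000080000000080887068a) (nat_lit 0) (p (nat_lit 0x10888068602) (nat_lit 0) (p (nat_lit 0x8807860582) (nat_lit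 0) (p (nat_lit 0x10607058502) (nat_lit 0) (p (nat_lit 0x8586850482) (nat_lit 0) (p (nat_lit 0x160004) (nat_lit 0) (p (nat_lit 0x68612) (nat_lit 0) (p (nat_lit 0x50592) (nat_lit 0) (p (nat_lit 0x40512) (nat_lit 0) (p (nat_lit 0x50312) (nat_lit 0) (p (nat_lit 0x38292) (nat_lit 0) (p (nat_lit 0x28212) (nat_lit 0) (p (nat_lit 0x38112) (nat_lit 0) (p (nat_lit 0x20092) (nat_lit 0) (p (nat_lit 0x10012) (nat_lit 0) pn)))))))))))))))))))))))))))) :=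
  Cl.node (nat_lit 0x380c2) (nat_lit 2) (by decide +kernel) (ClAll.succ (ClAll.succ ClAll.zero s510) s511)

def n149 : Cl (O (nat_lit 6)) (R (nat_lit 14353))
    (p (nat_lit 0x3c4aa) (nat_lit 7) (p (nat_lit 0xd1) (nat_lit 1) (p (nat_lit 0x111) (nat_lit 1) (p (nat_lit 0x109) (nat_lit 0) (p (nat_lit 0x101) (nat_lit 0) (p (nat_lit 0x119) (nat_lit 0) (p (nat_lit 0xc1) (nat_lit 0) (p (nat_lit 0x81) (nat_lit 1) (p (nat_lit 0x41) (nat_lit 1) (p (nat_lit 0x10a0b0a89089a) (nat_lit 0) (p (nat_lit 0x898a8a08881a) (nat_lit 0) (p (nat_lit 0x109088988079a) (nat_lit 0) (p (nat_lit 0x88880907871a) (nat_lit 0) (p (nat_lit 0x8000080000000080887068a) (nat_lit 0) (p (nat_lit 0x10888068602) (nat_lit 0) (p (nat_lit 0x8807860582) (nat_lit 0) (p (nat_lit 0x10607058502) (nat_lit 0) (p (nat_lit 0x8586850482) (nat_lit 0) (p (nat_lit 0x160004) (nat_lit 0) (p (nat_lit 0x68612) (nat_lit 0) (p (nat_lit 0x50592)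 (nat_lit 0) (p (nat_lit 0x40512) (nat_lit 0) (p (nat_lit 0x50312) (nat_lit 0) (p (nat_lit 0x38292) (nat_lit 0) (p (nat_lit 0x28212) (nat_lit 0) (p (nat_lit 0x38112) (nat_lit 0) (p (nat_lit 0x20092) (nat_lit 0) (p (nat_lit 0x10012) (nat_lit 0) pn)))))))))))))))))))))))))))) :=
  Cl.node (nat_lit 0x380c2) (nat_lit 2) (by decide +kernel) (ClAll.succ (ClAll.succ ClAll.zero n119) n120)

def n150 : Cl (O (nat_lit 6)) (R (nat_lit 14353))
    (p (nat_lit 0x3c4aa) (nat_lit 8) (p (nat_lit 0xd1) (nat_lit 1) (p (nat_lit 0x111) (nat_lit 1) (p (nat_lit 0x109) (nat_lit 0) (p (nat_lit 0x101) (nat_lit 0) (p (nat_lit 0x119) (nat_lit 0) (p (nat_lit 0xc1) (nat_lit 0) (p (nat_lit 0x81) (nat_lit 1) (p (nat_lit 0x41) (nat_lit 1) (p (nat_lit 0x10a0b0a89089a) (nat_lit 0) (p (nat_lit 0x898a8a08881a) (nat_lit 0) (p (nat_lit 0x109088988079a) (nat_lit 0) (p (nat_lit 0x88880907871a) (nat_lit 0) (p (nat_lit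 0x8000080000000080887068a) (nat_lit 0) (p (nat_lit 0x10888068602) (nat_lit 0) (p (nat_lit 0x8807860582) (nat_lit 0) (p (nat_lit 0x10607058502) (nat_lit 0) (p (nat_lit 0x8586850482) (nat_lit 0) (p (nat_lit 0x160004) (nat_lit 0) (p (nat_lit 0x68612) (nat_lit 0) (p (nat_lit 0x50592) (nat_lit 0) (p (nat_lit 0x40512) (nat_lit 0) (p (nat_lit 0x50312) (nat_lit 0) (p (nat_lit 0x38292) (nat_lit 0) (p (nat_lit 0x28212) (nat_lit 0) (p (nat_lit 0x38112) (nat_lit 0) (p (nat_lit 0x20092) (nat_lit 0) (p (nat_lit 0x10012) (nat_lit 0) pn)))))))))))))))))))))))))))) :=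
  Cl.node (nat_lit 0x380c2) (nat_lit 2) (by decide +kernel) (ClAll.succ (ClAll.succ ClAll.zero n121) s617)

def n151 : Cl (O (nat_lit 6)) (R (nat_lit 14353))
    (p (nat_lit 0x3c4aa) (nat_lit 7) (p (nat_lit 0xd1) (nat_lit 1) (p (nat_lit 0xc9) (nat_lit 0) (p (nat_lit 0x109) (nat_lit 1) (p (nat_lit 0x101) (nat_lit 0) (p (nat_lit 0x119) (nat_lit 0) (p (nat_lit 0xc1) (nat_lit 0) (p (nat_lit 0x81) (nat_lit 1) (p (nat_lit 0x41) (nat_lit 1) (p (nat_lit 0x10a0b0a89089a) (nat_lit 0) (p (nat_lit 0x898a8a08881a) (nat_lit 0) (p (nat_lit 0x109088988079a) (nat_lit 0) (p (nat_lit 0x88880907871a) (nat_lit 0) (p (nat_lit 0x8000080000000080887068a) (nat_lit 0) (p (nat_lit 0x10888068602) (nat_lit 0) (p (nat_lit 0x8807860582) (nat_lit 0) (p (nat_lit 0x10607058502) (nat_lit 0) (p (nat_lit 0x8586850482) (nat_lit 0) (p (nat_lit 0x160004) (nat_lit 0) (p (nat_lit 0x68612) (nat_lit 0) (p (nat_lit 0x50592)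 (nat_lit 0) (p (nat_lit 0x40512) (nat_lit 0) (p (nat_lit 0x50312) (nat_lit 0) (p (nat_lit 0x38292) (nat_lit 0) (p (nat_lit 0x28212) (nat_lit 0) (p (nat_lit 0x38112) (nat_lit 0) (p (nat_lit 0x20092) (nat_lit 0) (p (nat_lit 0x10012) (nat_lit 0) pn)))))))))))))))))))))))))))) :=
  Cl.node (nat_lit 0x380c2) (nat_lit 2) (by decide +kernel) (ClAll.succ (ClAll.succ ClAll.zero s629) n122)

def n152 : Cl (O (nat_lit 6)) (R (nat_lit 14353))
    (p (nat_lit 0x380c2) (nat_lit 0) (p (nat_lit 0x3c4aa) (nat_lit 7) (p (nat_lit 0xd1) (nat_lit 1) (p (nat_lit 0xc9) (nat_lit 0) (p (nat_lit 0x101) (nat_lit 1) (p (nat_lit 0x119) (nat_lit 0) (p (nat_lit 0xc1) (nat_lit 0) (p (nat_lit 0x81) (nat_lit 1) (p (nat_lit 0x41) (nat_lit 1) (p (nat_lit 0x10a0b0a89089a) (nat_lit 0) (p (nat_lit 0x898a8a08881a) (nat_lit 0) (p (nat_lit 0x109088988079a) (nat_lit 0) (p (nat_lit 0x88880907871a) (nat_lit 0) (p (nat_lit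 0x8000080000000080887068a) (nat_lit 0) (p (nat_lit 0x10888068602) (nat_lit 0) (p (nat_lit 0x8807860582) (nat_lit 0) (p (nat_lit 0x10607058502) (nat_lit 0) (p (nat_lit 0x8586850482) (nat_lit 0) (p (nat_lit 0x160004) (nat_lit 0) (p (nat_lit 0x68612) (nat_lit 0) (p (nat_lit 0x50592) (nat_lit 0) (p (nat_lit 0x40512) (nat_lit 0) (p (nat_lit 0x50312) (nat_lit 0) (p (nat_lit 0x38292) (nat_lit 0) (p (nat_lit 0x28212) (nat_lit 0) (p (nat_lit 0x38112) (nat_lit 0) (p (nat_lit 0x20092) (nat_lit 0) (p (nat_lit 0x10012) (nat_lit 0) pn)))))))))))))))))))))))))))) :=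
  Cl.node (nat_lit 0x20000c) (nat_lit 2) (by decide +kernel) (ClAll.succ (ClAll.succ ClAll.zero n123) s666)

def n153 : Cl (O (nat_lit 6)) (R (nat_lit 14353))
    (p (nat_lit 0x380c2) (nat_lit 1) (p (nat_lit 0x3c4aa) (nat_lit 7) (p (nat_lit 0xd1) (nat_lit 1) (p (nat_lit 0xc9) (nat_lit 0) (p (nat_lit 0x101) (nat_lit 1) (p (nat_lit 0x119) (nat_lit 0) (p (nat_lit 0xc1) (nat_lit 0) (p (nat_lit 0x81) (nat_lit 1) (p (nat_lit 0x41) (nat_lit 1) (p (nat_lit 0x10a0b0a89089a) (nat_lit 0) (p (nat_lit 0x898a8a08881a) (nat_lit 0) (p (nat_lit 0x109088988079a) (nat_lit 0) (p (nat_lit 0x88880907871a) (nat_lit 0) (p (nat_lit 0x8000080000000080887068a) (nat_lit 0) (p (nat_lit 0x10888068602) (nat_lit 0) (p (nat_lit 0x8807860582) (nat_lit 0) (p (nat_lit 0x10607058502) (nat_lit 0) (p (nat_lit 0x8586850482) (nat_lit 0) (p (nat_lit 0x160004) (nat_lit 0) (p (nat_lit 0x68612) (nat_lit 0) (p (nat_lit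 0x50592) (nat_lit 0) (p (nat_lit 0x40512) (nat_lit 0) (p (nat_lit 0x50312) (nat_lit 0) (p (nat_lit 0x38292) (nat_lit 0) (p (nat_lit 0x28212) (nat_lit 0) (p (nat_lit 0x38112) (nat_lit 0) (p (nat_lit 0x20092) (nat_lit 0) (p (nat_lit 0x10012) (nat_lit 0) pn)))))))))))))))))))))))))))) :=
  Cl.node (nat_lit 0x20000c) (nat_lit 2) (by decide +kernel) (ClAll.succ (ClAll.succ ClAll.zero n124) s672)

def n154 : Cl (O (nat_lit 6)) (R (nat_lit 14353))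
    (p (nat_lit 0x380c2) (nat_lit 0) (p (nat_lit 0x3c4aa) (nat_lit 7) (p (nat_lit 0x111) (nat_lit 1) (p (nat_lit 0xd1) (nat_lit 1) (p (nat_lit 0xc9) (nat_lit 0) (p (nat_lit 0x119) (nat_lit 1) (p (nat_lit 0xc1) (nat_lit 0) (p (nat_lit 0x81) (nat_lit 1) (p (nat_lit 0x41) (nat_lit 1) (p (nat_lit 0x10a0b0a89089a) (nat_lit 0) (p (nat_lit 0x898a8a08881a) (nat_lit 0) (p (nat_lit 0x109088988079a) (nat_lit 0) (p (nat_lit 0x88880907871a) (nat_lit 0) (p (nat_lit 0x8000080000000080887068a) (nat_lit 0) (p (nat_lit 0x10888068602) (nat_lit 0) (p (nat_lit 0x8807860582) (nat_lit 0) (p (nat_lit 0x10607058502) (nat_lit 0) (p (nat_lit 0x8586850482) (nat_lit 0) (p (nat_lit 0x160004) (nat_lit 0) (p (nat_lit 0x68612) (nat_lit 0) (p (nat_lit 0x50592) (nat_lit 0) (p (nat_lit 0x40512) (nat_lit 0) (p (nat_lit 0x50312) (nat_lit 0) (p (nat_lit 0x38292) (nat_lit 0) (p (nat_lit 0x28212) (nat_lit 0) (p (nat_lit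 0x38112) (nat_lit 0) (p (nat_lit 0x20092) (nat_lit 0) (p (nat_lit 0x10012) (nat_lit 0) pn)))))))))))))))))))))))))))) :=
  Cl.node (nat_lit 0x20000c) (nat_lit 2) (by decide +kernel) (ClAll.succ (ClAll.succ ClAll.zero n125) s692)

def n155 : Cl (O (nat_lit 6)) (R (nat_lit 14353))
    (p (nat_lit 0x380c2) (nat_lit 1) (p (nat_lit 0x3c4aa) (nat_lit 7) (p (nat_lit 0x111) (nat_lit 1) (p (nat_lit 0xd1) (nat_lit 1) (p (nat_lit 0xc9) (nat_lit 0) (p (nat_lit 0x119) (nat_lit 1) (p (nat_lit 0xc1) (nat_lit 0) (p (nat_lit 0x81) (nat_lit 1) (p (nat_lit 0x41) (nat_lit 1) (p (nat_lit 0x10a0b0a89089a) (nat_lit 0) (p (nat_lit 0x898a8a08881a) (nat_lit 0) (p (nat_lit 0x109088988079a) (nat_lit 0) (p (nat_lit 0x88880907871a) (nat_lit 0) (p (nat_lit 0x8000080000000080887068a) (nat_lit 0) (p (nat_lit 0x10888068602) (nat_lit 0) (p (nat_lit 0x8807860582) (nat_lit 0) (p (nat_lit 0x10607058502) (nat_lit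 0) (p (nat_lit 0x8586850482) (nat_lit 0) (p (nat_lit 0x160004) (nat_lit 0) (p (nat_lit 0x68612) (nat_lit 0) (p (nat_lit 0x50592) (nat_lit 0) (p (nat_lit 0x40512) (nat_lit 0) (p (nat_lit 0x50312) (nat_lit 0) (p (nat_lit 0x38292) (nat_lit 0) (p (nat_lit 0x28212) (nat_lit 0) (p (nat_lit 0x38112) (nat_lit 0) (p (nat_lit 0x20092) (nat_lit 0) (p (nat_lit 0x10012) (nat_lit 0) pn)))))))))))))))))))))))))))) :=
  Cl.node (nat_lit 0x20000c) (nat_lit 2) (by decide +kernel) (ClAll.succ (ClAll.succ ClAll.zero n126) s697)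

def n156 : Cl (O (nat_lit 6)) (R (nat_lit 14353))
    (p (nat_lit 0x81) (nat_lit 1) (p (nat_lit 0xc9) (nat_lit 1) (p (nat_lit 0x109) (nat_lit 1) (p (nat_lit 0x101) (nat_lit 0) (p (nat_lit 0x119) (nat_lit 0) (p (nat_lit 0xd1) (nat_lit 0) (p (nat_lit 0x89) (nat_lit 0) (p (nat_lit 0x41) (nat_lit 0) (p (nat_lit 0x10a0b0a89089a) (nat_lit 0) (p (nat_lit 0x898a8a08881a) (nat_lit 0) (p (nat_lit 0x109088988079a) (nat_lit 0) (p (nat_lit 0x88880907871a) (nat_lit 0) (p (nat_lit 0x8000080000000080887068a) (nat_lit 0) (p (nat_lit 0x10888068602) (nat_lit 0) (p (nat_lit 0x8807860582) (nat_lit 0) (p (nat_lit 0x10607058502) (nat_lit 0) (p (nat_lit 0x8586850482) (nat_lit 0) (p (nat_lit 0x160004) (nat_lit 0) (p (nat_lit 0x68612) (nat_lit 0) (p (nat_lit 0x50592) (nat_lit 0) (p (nat_lit 0x40512) (nat_lit 0) (p (nat_lit 0x50312) (nat_lit 0) (p (nat_lit 0x38292) (nat_lit 0) (p (nat_lit 0x28212) (nat_lit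 0) (p (nat_lit 0x38112) (nat_lit 0) (p (nat_lit 0x20092) (nat_lit 0) (p (nat_lit 0x10012) (nat_lit 0) pn))))))))))))))))))))))))))) :=
  Cl.node (nat_lit 0x444aa) (nat_lit 12) (by decide +kernel) (ClAll.succ (ClAll.succ (ClAll.succ (ClAll.succ (ClAll.succ (ClAll.succ (ClAll.succ (ClAll.succ (ClAll.succ (ClAll.succ (ClAll.succ (ClAll.succ ClAll.zero s3) s4) s5) s6) s7) s8) s9) n127) n128) s24) s25) s26)

def n157 : Cl (O (nat_lit 6)) (R (nat_lit 14353))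
    (p (nat_lit 0x111) (nat_lit 0) (p (nat_lit 0xc9) (nat_lit 1) (p (nat_lit 0x81) (nat_lit 0) (p (nat_lit 0x101) (nat_lit 1) (p (nat_lit 0x119) (nat_lit 0) (p (nat_lit 0xd1) (nat_lit 0) (p (nat_lit 0x89) (nat_lit 0) (p (nat_lit 0x41) (nat_lit 0) (p (nat_lit 0x10a0b0a89089a) (nat_lit 0) (p (nat_lit 0x898a8a08881a) (nat_lit 0) (p (nat_lit 0x109088988079a) (nat_lit 0) (p (nat_lit 0x88880907871a) (nat_lit 0) (p (nat_lit 0x8000080000000080887068a) (nat_lit 0) (p (nat_lit 0x10888068602) (nat_lit 0) (p (nat_lit 0x8807860582) (nat_lit 0) (p (nat_lit 0x10607058502) (nat_lit 0) (p (nat_lit 0x8586850482) (nat_lit 0) (p (nat_lit 0x160004) (nat_lit 0) (p (nat_lit 0x68612) (nat_lit 0) (p (nat_lit 0x50592) (nat_lit 0) (p (nat_lit 0x40512) (nat_lit 0) (p (nat_lit 0x50312) (nat_lit 0) (p (nat_lit 0x38292) (nat_lit 0) (p (nat_lit 0x28212) (nat_lit 0) (p (nat_lit 0x38112) (nat_lit 0) (p (nat_lit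 0x20092) (nat_lit 0) (p (nat_lit 0x10012) (nat_lit 0) pn))))))))))))))))))))))))))) :=
  Cl.node (nat_lit 0x444aa) (nat_lit 12) (by decide +kernel) (ClAll.succ (ClAll.succ (ClAll.succ (ClAll.succ (ClAll.succ (ClAll.succ (ClAll.succ (ClAll.succ (ClAll.succ (ClAll.succ (ClAll.succ (ClAll.succ ClAll.zero s29) s30) s31) s32) s33) s34) s35) n129) n130) s48) s49) s50)

def n158 : Cl (O (nat_lit 6)) (R (nat_lit 14353))
    (p (nat_lit 0xc9) (nat_lit 0) (p (nat_lit 0xc1) (nat_lit 0) (p (nat_lit 0x81) (nat_lit 1) (p (nat_lit 0x101) (nat_lit 1) (p (nat_lit 0x119) (nat_lit 0) (p (nat_lit 0xd1) (nat_lit 0) (p (nat_lit 0x89) (nat_lit 0) (p (nat_lit 0x41) (nat_lit 0) (p (nat_lit 0x10a0b0a89089a) (nat_lit 0) (p (nat_lit 0x898a8a08881a) (nat_lit 0) (p (nat_lit 0x109088988079a) (nat_lit 0) (p (nat_lit 0x88880907871a) (nat_lit 0) (p (nat_lit 0x8000080000000080887068a) (nat_lit 0) (p (nat_lit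 0x10888068602) (nat_lit 0) (p (nat_lit 0x8807860582) (nat_lit 0) (p (nat_lit 0x10607058502) (nat_lit 0) (p (nat_lit 0x8586850482) (nat_lit 0) (p (nat_lit 0x160004) (nat_lit 0) (p (nat_lit 0x68612) (nat_lit 0) (p (nat_lit 0x50592) (nat_lit 0) (p (nat_lit 0x40512) (nat_lit 0) (p (nat_lit 0x50312) (nat_lit 0) (p (nat_lit 0x38292) (nat_lit 0) (p (nat_lit 0x28212) (nat_lit 0) (p (nat_lit 0x38112) (nat_lit 0) (p (nat_lit 0x20092) (nat_lit 0) (p (nat_lit 0x10012) (nat_lit 0) pn))))))))))))))))))))))))))) :=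
  Cl.node (nat_lit 0x4c42a) (nat_lit 12) (by decide +kernel) (ClAll.succ (ClAll.succ (ClAll.succ (ClAll.succ (ClAll.succ (ClAll.succ (ClAll.succ (ClAll.succ (ClAll.succ (ClAll.succ (ClAll.succ (ClAll.succ ClAll.zero s52) s53) s54) s55) s56) s57) s58) s59) s60) s61) s62) s63)

def n159 : Cl (O (nat_lit 6)) (R (nat_lit 14353))
    (p (nat_lit 0xc9) (nat_lit 1) (p (nat_lit 0xc1) (nat_lit 0) (p (nat_lit 0x81) (nat_lit 1) (p (nat_lit 0x101) (nat_lit 1) (p (nat_lit 0x119) (nat_lit 0) (p (nat_lit 0xd1) (nat_lit 0) (p (nat_lit 0x89) (nat_lit 0) (p (nat_lit 0x41) (nat_lit 0) (p (nat_lit 0x10a0b0a89089a) (nat_lit 0) (p (nat_lit 0x898a8a08881a) (nat_lit 0) (p (nat_lit 0x109088988079a) (nat_lit 0) (p (nat_lit 0x88880907871a) (nat_lit 0) (p (nat_lit 0x8000080000000080887068a) (nat_lit 0) (p (nat_lit 0x10888068602) (nat_lit 0) (p (nat_lit 0x8807860582) (nat_lit 0) (p (nat_lit 0x10607058502)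 (nat_lit 0) (p (nat_lit 0x8586850482) (nat_lit 0) (p (nat_lit 0x160004) (nat_lit 0) (p (nat_lit 0x68612) (nat_lit 0) (p (nat_lit 0x50592) (nat_lit 0) (p (nat_lit 0x40512) (nat_lit 0) (p (nat_lit 0x50312) (nat_lit 0) (p (nat_lit 0x38292) (nat_lit 0) (p (nat_lit 0x28212) (nat_lit 0) (p (nat_lit 0x38112) (nat_lit 0) (p (nat_lit 0x20092) (nat_lit 0) (p (nat_lit 0x10012) (nat_lit 0) pn))))))))))))))))))))))))))) :=
  Cl.node (nat_lit 0x444aa) (nat_lit 12) (by decide +kernel) (ClAll.succ (ClAll.succ (ClAll.succ (ClAll.succ (ClAll.succ (ClAll.succ (ClAll.succ (ClAll.succ (ClAll.succ (ClAll.succ (ClAll.succ (ClAll.succ ClAll.zero s64) s65) s66) s67) s68) s69) s70) n131) s78) s79) s80) s81)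

def n160 : Cl (O (nat_lit 6)) (R (nat_lit 14353))
    (p (nat_lit 0x3cc2a) (nat_lit 11) (p (nat_lit 0x109) (nat_lit 1) (p (nat_lit 0xc9) (nat_lit 1) (p (nat_lit 0xc1) (nat_lit 0) (p (nat_lit 0x119) (nat_lit 1) (p (nat_lit 0xd1) (nat_lit 0) (p (nat_lit 0x89) (nat_lit 0) (p (nat_lit 0x41) (nat_lit 0) (p (nat_lit 0x10a0b0a89089a) (nat_lit 0) (p (nat_lit 0x898a8a08881a) (nat_lit 0) (p (nat_lit 0x109088988079a) (nat_lit 0) (p (nat_lit 0x88880907871a) (nat_lit 0) (p (nat_lit 0x8000080000000080887068a) (nat_lit 0) (p (nat_lit 0x10888068602) (nat_lit 0) (p (nat_lit 0x8807860582) (nat_lit 0) (p (nat_lit 0x10607058502) (nat_lit 0) (p (nat_lit 0x8586850482) (nat_lit 0) (p (nat_lit 0x160004) (nat_lit 0) (p (nat_lit 0x68612) (nat_lit 0) (p (nat_lit 0x50592) (nat_lit 0) (p (nat_lit 0x40512) (nat_lit 0) (p (nat_lit 0x50312) (nat_lit 0) (p (nat_lit 0x38292) (nat_lit 0) (p (nat_lit 0x28212)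 (nat_lit 0) (p (nat_lit 0x38112) (nat_lit 0) (p (nat_lit 0x20092) (nat_lit 0) (p (nat_lit 0x10012) (nat_lit 0) pn))))))))))))))))))))))))))) :=
  Cl.node (nat_lit 0x380c2) (nat_lit 2) (by decide +kernel) (ClAll.succ (ClAll.succ ClAll.zero s96) s97)

def n161 : Cl (O (nat_lit 6)) (R (nat_lit 14353))
    (p (nat_lit 0x109) (nat_lit 0) (p (nat_lit 0x101) (nat_lit 0) (p (nat_lit 0x81) (nat_lit 1) (p (nat_lit 0xc1) (nat_lit 1) (p (nat_lit 0x119) (nat_lit 1) (p (nat_lit 0xd1) (nat_lit 0) (p (nat_lit 0x89) (nat_lit 0) (p (nat_lit 0x41) (nat_lit 0) (p (nat_lit 0x10a0b0a89089a) (nat_lit 0) (p (nat_lit 0x898a8a08881a) (nat_lit 0) (p (nat_lit 0x109088988079a) (nat_lit 0) (p (nat_lit 0x88880907871a) (nat_lit 0) (p (nat_lit 0x8000080000000080887068a) (nat_lit 0) (p (nat_lit 0x10888068602) (nat_lit 0) (p (nat_lit 0x8807860582) (nat_lit 0) (p (nat_lit 0x10607058502) (nat_lit 0) (p (nat_lit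 0x8586850482) (nat_lit 0) (p (nat_lit 0x160004) (nat_lit 0) (p (nat_lit 0x68612) (nat_lit 0) (p (nat_lit 0x50592) (nat_lit 0) (p (nat_lit 0x40512) (nat_lit 0) (p (nat_lit 0x50312) (nat_lit 0) (p (nat_lit 0x38292) (nat_lit 0) (p (nat_lit 0x28212) (nat_lit 0) (p (nat_lit 0x38112) (nat_lit 0) (p (nat_lit 0x20092) (nat_lit 0) (p (nat_lit 0x10012) (nat_lit 0) pn))))))))))))))))))))))))))) :=
  Cl.node (nat_lit 0x44c2a) (nat_lit 12) (by decide +kernel) (ClAll.succ (ClAll.succ (ClAll.succ (ClAll.succ (ClAll.succ (ClAll.succ (ClAll.succ (ClAll.succ (ClAll.succ (ClAll.succ (ClAll.succ (ClAll.succ ClAll.zero s111) s112) s113) s114) s115) s116) s117) s118) s119) s120) s121) s122)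

def n162 : Cl (O (nat_lit 6)) (R (nat_lit 14353))
    (p (nat_lit 0x109) (nat_lit 1) (p (nat_lit 0x101) (nat_lit 0) (p (nat_lit 0x81) (nat_lit 1) (p (nat_lit 0xc1) (nat_lit 1) (p (nat_lit 0x119) (nat_lit 1) (p (nat_lit 0xd1) (nat_lit 0) (p (nat_lit 0x89) (nat_lit 0) (p (nat_lit 0x41) (nat_lit 0) (p (nat_lit 0x10a0b0a89089a) (nat_lit 0) (p (nat_lit 0x898a8a08881a) (nat_lit 0) (p (nat_lit 0x109088988079a) (nat_lit 0) (p (nat_lit 0x88880907871a) (nat_lit 0) (p (nat_lit 0x8000080000000080887068a) (nat_lit 0) (p (nat_lit 0x10888068602) (nat_lit 0) (p (nat_lit 0x8807860582) (nat_lit 0) (p (nat_lit 0x10607058502) (nat_lit 0) (p (nat_lit 0x8586850482) (nat_lit 0) (p (nat_lit 0x160004) (nat_lit 0) (p (nat_lit 0x68612) (nat_lit 0) (p (nat_lit 0x50592) (nat_lit 0) (p (nat_lit 0x40512) (nat_lit 0) (p (nat_lit 0x50312) (nat_lit 0) (p (nat_lit 0x38292) (nat_lit 0) (p (nat_lit 0x28212) (nat_lit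 0) (p (nat_lit 0x38112) (nat_lit 0) (p (nat_lit 0x20092) (nat_lit 0) (p (nat_lit 0x10012) (nat_lit 0) pn))))))))))))))))))))))))))) :=
  Cl.node (nat_lit 0x444aa) (nat_lit 12) (by decide +kernel) (ClAll.succ (ClAll.succ (ClAll.succ (ClAll.succ (ClAll.succ (ClAll.succ (ClAll.succ (ClAll.succ (ClAll.succ (ClAll.succ (ClAll.succ (ClAll.succ ClAll.zero s123) s124) s125) s126) s127) s128) s129) n132) n133) s169) s170) s171)

def n163 : Cl (O (nat_lit 6)) (R (nat_lit 14353))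
    (p (nat_lit 0x20000c) (nat_lit 0) (p (nat_lit 0xc1) (nat_lit 1) (p (nat_lit 0x109) (nat_lit 1) (p (nat_lit 0x101) (nat_lit 0) (p (nat_lit 0x111) (nat_lit 0) (p (nat_lit 0xd1) (nat_lit 1) (p (nat_lit 0x89) (nat_lit 0) (p (nat_lit 0x41) (nat_lit 0) (p (nat_lit 0x10a0b0a89089a) (nat_lit 0) (p (nat_lit 0x898a8a08881a) (nat_lit 0) (p (nat_lit 0x109088988079a) (nat_lit 0) (p (nat_lit 0x88880907871a) (nat_lit 0) (p (nat_lit 0x8000080000000080887068a) (nat_lit 0) (p (nat_lit 0x10888068602) (nat_lit 0) (p (nat_lit 0x8807860582) (nat_lit 0) (p (nat_lit 0x10607058502) (nat_lit 0) (p (nat_lit 0x8586850482) (nat_lit 0) (p (nat_lit 0x160004) (nat_lit 0) (p (nat_lit 0x68612) (nat_lit 0) (p (nat_lit 0x50592) (nat_lit 0) (p (nat_lit 0x40512) (nat_lit 0) (p (nat_lit 0x50312) (nat_lit 0) (p (nat_lit 0x38292) (nat_lit 0) (p (nat_lit 0x28212) (nat_lit 0) (p (nat_lit 0x38112) (nat_lit 0) (p (nat_lit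 0x20092) (nat_lit 0) (p (nat_lit 0x10012) (nat_lit 0) pn))))))))))))))))))))))))))) :=
  Cl.node (nat_lit 0x200014) (nat_lit 2) (by decide +kernel) (ClAll.succ (ClAll.succ ClAll.zero n134) s188)

def n164 : Cl (O (nat_lit 6)) (R (nat_lit 14353))
    (p (nat_lit 0x20000c) (nat_lit 0) (p (nat_lit 0x119) (nat_lit 0) (p (nat_lit 0x81) (nat_lit 0) (p (nat_lit 0x101) (nat_lit 1) (p (nat_lit 0x111) (nat_lit 0) (p (nat_lit 0xd1) (nat_lit 1) (p (nat_lit 0x89) (nat_lit 0) (p (nat_lit 0x41) (nat_lit 0) (p (nat_lit 0x10a0b0a89089a) (nat_lit 0) (p (nat_lit 0x898a8a08881a) (nat_lit 0) (p (nat_lit 0x109088988079a) (nat_lit 0) (p (nat_lit 0x88880907871a) (nat_lit 0) (p (nat_lit 0x8000080000000080887068a) (nat_lit 0) (p (nat_lit 0x10888068602) (nat_lit 0) (p (nat_lit 0x8807860582) (nat_lit 0) (p (nat_lit 0x10607058502) (nat_lit 0) (p (nat_lit 0x8586850482) (nat_lit 0) (p (nat_lit 0x160004) (nat_lit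 0) (p (nat_lit 0x68612) (nat_lit 0) (p (nat_lit 0x50592) (nat_lit 0) (p (nat_lit 0x40512) (nat_lit 0) (p (nat_lit 0x50312) (nat_lit 0) (p (nat_lit 0x38292) (nat_lit 0) (p (nat_lit 0x28212) (nat_lit 0) (p (nat_lit 0x38112) (nat_lit 0) (p (nat_lit 0x20092) (nat_lit 0) (p (nat_lit 0x10012) (nat_lit 0) pn))))))))))))))))))))))))))) :=
  Cl.node (nat_lit 0x200014) (nat_lit 2) (by decide +kernel) (ClAll.succ (ClAll.succ ClAll.zero n135) s203)

def n165 : Cl (O (nat_lit 6)) (R (nat_lit 14353))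
    (p (nat_lit 0x119) (nat_lit 0) (p (nat_lit 0xc1) (nat_lit 0) (p (nat_lit 0x81) (nat_lit 1) (p (nat_lit 0x101) (nat_lit 1) (p (nat_lit 0x111) (nat_lit 0) (p (nat_lit 0xd1) (nat_lit 1) (p (nat_lit 0x89) (nat_lit 0) (p (nat_lit 0x41) (nat_lit 0) (p (nat_lit 0x10a0b0a89089a) (nat_lit 0) (p (nat_lit 0x898a8a08881a) (nat_lit 0) (p (nat_lit 0x109088988079a) (nat_lit 0) (p (nat_lit 0x88880907871a) (nat_lit 0) (p (nat_lit 0x8000080000000080887068a) (nat_lit 0) (p (nat_lit 0x10888068602) (nat_lit 0) (p (nat_lit 0x8807860582) (nat_lit 0) (p (nat_lit 0x10607058502) (nat_lit 0) (p (nat_lit 0x8586850482) (nat_lit 0) (p (nat_lit 0x160004) (nat_lit 0) (p (nat_lit 0x68612) (nat_lit 0) (p (nat_lit 0x50592) (nat_lit 0) (p (nat_lit 0x40512) (nat_lit 0) (p (nat_lit 0x50312) (nat_lit 0) (p (nat_lit 0x38292) (nat_lit 0) (p (nat_lit 0x28212) (nat_lit 0) (p (nat_lit 0x38112) (nat_lit 0) (p (nat_lit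 0x20092) (nat_lit 0) (p (nat_lit 0x10012) (nat_lit 0) pn))))))))))))))))))))))))))) :=
  Cl.node (nat_lit 0x444aa) (nat_lit 12) (by decide +kernel) (ClAll.succ (ClAll.succ (ClAll.succ (ClAll.succ (ClAll.succ (ClAll.succ (ClAll.succ (ClAll.succ (ClAll.succ (ClAll.succ (ClAll.succ (ClAll.succ ClAll.zero s206) s207) s208) s209) s210) s211) s212) n136) s215) s216) s217) s218)

def n166 : Cl (O (nat_lit 6)) (R (nat_lit 14353))
    (p (nat_lit 0x119) (nat_lit 1) (p (nat_lit 0xc1) (nat_lit 0) (p (nat_lit 0x81) (nat_lit 1) (p (nat_lit 0x101) (nat_lit 1) (p (nat_lit 0x111) (nat_lit 0) (p (nat_lit 0xd1) (nat_lit 1) (p (nat_lit 0x89) (nat_lit 0) (p (nat_lit 0x41) (nat_lit 0) (p (nat_lit 0x10a0b0a89089a) (nat_lit 0) (p (nat_lit 0x898a8a08881a) (nat_lit 0) (p (nat_lit 0x109088988079a) (nat_lit 0) (p (nat_lit 0x88880907871a) (nat_lit 0) (p (nat_lit 0x8000080000000080887068a) (nat_lit 0) (p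 (nat_lit 0x10888068602) (nat_lit 0) (p (nat_lit 0x8807860582) (nat_lit 0) (p (nat_lit 0x10607058502) (nat_lit 0) (p (nat_lit 0x8586850482) (nat_lit 0) (p (nat_lit 0x160004) (nat_lit 0) (p (nat_lit 0x68612) (nat_lit 0) (p (nat_lit 0x50592) (nat_lit 0) (p (nat_lit 0x40512) (nat_lit 0) (p (nat_lit 0x50312) (nat_lit 0) (p (nat_lit 0x38292) (nat_lit 0) (p (nat_lit 0x28212) (nat_lit 0) (p (nat_lit 0x38112) (nat_lit 0) (p (nat_lit 0x20092) (nat_lit 0) (p (nat_lit 0x10012) (nat_lit 0) pn))))))))))))))))))))))))))) :=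
  Cl.node (nat_lit 0x3cc2a) (nat_lit 12) (by decide +kernel) (ClAll.succ (ClAll.succ (ClAll.succ (ClAll.succ (ClAll.succ (ClAll.succ (ClAll.succ (ClAll.succ (ClAll.succ (ClAll.succ (ClAll.succ (ClAll.succ ClAll.zero s219) s220) s221) s222) s223) s224) s225) s226) s227) s228) s229) s230)

def n167 : Cl (O (nat_lit 6)) (R (nat_lit 14353))
    (p (nat_lit 0xd1) (nat_lit 1) (p (nat_lit 0x111) (nat_lit 1) (p (nat_lit 0x109) (nat_lit 0) (p (nat_lit 0x101) (nat_lit 0) (p (nat_lit 0x119) (nat_lit 0) (p (nat_lit 0xc9) (nat_lit 0) (p (nat_lit 0x89) (nat_lit 1) (p (nat_lit 0x41) (nat_lit 0) (p (nat_lit 0x10a0b0a89089a) (nat_lit 0) (p (nat_lit 0x898a8a08881a) (nat_lit 0) (p (nat_lit 0x109088988079a) (nat_lit 0) (p (nat_lit 0x88880907871a) (nat_lit 0) (p (nat_lit 0x8000080000000080887068a) (nat_lit 0) (p (nat_lit 0x10888068602) (nat_lit 0) (p (nat_lit 0x8807860582) (nat_lit 0) (p (nat_lit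 0x10607058502) (nat_lit 0) (p (nat_lit 0x8586850482) (nat_lit 0) (p (nat_lit 0x160004) (nat_lit 0) (p (nat_lit 0x68612) (nat_lit 0) (p (nat_lit 0x50592) (nat_lit 0) (p (nat_lit 0x40512) (nat_lit 0) (p (nat_lit 0x50312) (nat_lit 0) (p (nat_lit 0x38292) (nat_lit 0) (p (nat_lit 0x28212) (nat_lit 0) (p (nat_lit 0x38112) (nat_lit 0) (p (nat_lit 0x20092) (nat_lit 0) (p (nat_lit 0x10012) (nat_lit 0) pn))))))))))))))))))))))))))) :=
  Cl.node (nat_lit 0x444aa) (nat_lit 12) (by decide +kernel) (ClAll.succ (ClAll.succ (ClAll.succ (ClAll.succ (ClAll.succ (ClAll.succ (ClAll.succ (ClAll.succ (ClAll.succ (ClAll.succ (ClAll.succ (ClAll.succ ClAll.zero s260) s261) s262) s263) s264) s265) s266) n137) n138) s295) s296) s297)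

def n168 : Cl (O (nat_lit 6)) (R (nat_lit 14353))
    (p (nat_lit 0x20000c) (nat_lit 0) (p (nat_lit 0xd1) (nat_lit 0) (p (nat_lit 0x109) (nat_lit 1) (p (nat_lit 0x101) (nat_lit 0) (p (nat_lit 0x119) (nat_lit 0) (p (nat_lit 0xc9) (nat_lit 0) (p (nat_lit 0x89) (nat_lit 1) (p (nat_lit 0x41) (nat_lit 0) (p (nat_lit 0x10a0b0a89089a) (nat_lit 0) (p (nat_lit 0x898a8a08881a) (nat_lit 0) (p (nat_lit 0x109088988079a) (nat_lit 0) (p (nat_lit 0x88880907871a) (nat_lit 0) (p (nat_lit 0x8000080000000080887068a) (nat_lit 0) (p (nat_lit 0x10888068602) (nat_lit 0) (p (nat_lit 0x8807860582) (nat_lit 0) (p (nat_lit 0x10607058502) (nat_lit 0) (p (nat_lit 0x8586850482) (nat_lit 0) (p (nat_lit 0x160004) (nat_lit 0) (p (nat_lit 0x68612) (nat_lit 0) (p (nat_lit 0x50592) (nat_lit 0) (p (nat_lit 0x40512) (nat_lit 0) (p (nat_lit 0x50312) (nat_lit 0) (p (nat_lit 0x38292) (nat_lit 0) (p (nat_lit 0x28212)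 (nat_lit 0) (p (nat_lit 0x38112) (nat_lit 0) (p (nat_lit 0x20092) (nat_lit 0) (p (nat_lit 0x10012) (nat_lit 0) pn))))))))))))))))))))))))))) :=
  Cl.node (nat_lit 0x200014) (nat_lit 2) (by decide +kernel) (ClAll.succ (ClAll.succ ClAll.zero s298) s299)

def n169 : Cl (O (nat_lit 6)) (R (nat_lit 14353))
    (p (nat_lit 0x444aa) (nat_lit 7) (p (nat_lit 0xd1) (nat_lit 1) (p (nat_lit 0x109) (nat_lit 1) (p (nat_lit 0x101) (nat_lit 0) (p (nat_lit 0x119) (nat_lit 0) (p (nat_lit 0xc9) (nat_lit 0) (p (nat_lit 0x89) (nat_lit 1) (p (nat_lit 0x41) (nat_lit 0) (p (nat_lit 0x10a0b0a89089a) (nat_lit 0) (p (nat_lit 0x898a8a08881a) (nat_lit 0) (p (nat_lit 0x109088988079a) (nat_lit 0) (p (nat_lit 0x88880907871a) (nat_lit 0) (p (nat_lit 0x8000080000000080887068a) (nat_lit 0) (p (nat_lit 0x10888068602) (nat_lit 0) (p (nat_lit 0x8807860582) (nat_lit 0) (p (nat_lit 0x10607058502) (nat_lit 0) (p (nat_lit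 0x8586850482) (nat_lit 0) (p (nat_lit 0x160004) (nat_lit 0) (p (nat_lit 0x68612) (nat_lit 0) (p (nat_lit 0x50592) (nat_lit 0) (p (nat_lit 0x40512) (nat_lit 0) (p (nat_lit 0x50312) (nat_lit 0) (p (nat_lit 0x38292) (nat_lit 0) (p (nat_lit 0x28212) (nat_lit 0) (p (nat_lit 0x38112) (nat_lit 0) (p (nat_lit 0x20092) (nat_lit 0) (p (nat_lit 0x10012) (nat_lit 0) pn))))))))))))))))))))))))))) :=
  Cl.node (nat_lit 0x380c2) (nat_lit 2) (by decide +kernel) (ClAll.succ (ClAll.succ ClAll.zero n139) n140)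

def n170 : Cl (O (nat_lit 6)) (R (nat_lit 14353))
    (p (nat_lit 0x20000c) (nat_lit 0) (p (nat_lit 0xd1) (nat_lit 0) (p (nat_lit 0xc1) (nat_lit 0) (p (nat_lit 0x101) (nat_lit 1) (p (nat_lit 0x119) (nat_lit 0) (p (nat_lit 0xc9) (nat_lit 0) (p (nat_lit 0x89) (nat_lit 1) (p (nat_lit 0x41) (nat_lit 0) (p (nat_lit 0x10a0b0a89089a) (nat_lit 0) (p (nat_lit 0x898a8a08881a) (nat_lit 0) (p (nat_lit 0x109088988079a) (nat_lit 0) (p (nat_lit 0x88880907871a) (nat_lit 0) (p (nat_lit 0x8000080000000080887068a) (nat_lit 0) (p (nat_lit 0x10888068602) (nat_lit 0) (p (nat_lit 0x8807860582) (nat_lit 0) (p (nat_lit 0x10607058502) (nat_lit 0) (p (nat_lit 0x8586850482) (nat_lit 0) (p (nat_lit 0x160004) (nat_lit 0) (p (nat_lit 0x68612) (nat_lit 0) (p (nat_lit 0x50592) (nat_lit 0) (p (nat_lit 0x40512) (nat_lit 0) (p (nat_lit 0x50312) (nat_lit 0) (p (nat_lit 0x38292) (nat_lit 0) (p (nat_lit 0x28212)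 (nat_lit 0) (p (nat_lit 0x38112) (nat_lit 0) (p (nat_lit 0x20092) (nat_lit 0) (p (nat_lit 0x10012) (nat_lit 0) pn))))))))))))))))))))))))))) :=
  Cl.node (nat_lit 0x200014) (nat_lit 2) (by decide +kernel) (ClAll.succ (ClAll.succ ClAll.zero s323) s324)

def n171 : Cl (O (nat_lit 6)) (R (nat_lit 14353))
    (p (nat_lit 0x444aa) (nat_lit 7) (p (nat_lit 0xd1) (nat_lit 1) (p (nat_lit 0xc1) (nat_lit 0) (p (nat_lit 0x101) (nat_lit 1) (p (nat_lit 0x119) (nat_lit 0) (p (nat_lit 0xc9) (nat_lit 0) (p (nat_lit 0x89) (nat_lit 1) (p (nat_lit 0x41) (nat_lit 0) (p (nat_lit 0x10a0b0a89089a) (nat_lit 0) (p (nat_lit 0x898a8a08881a) (nat_lit 0) (p (nat_lit 0x109088988079a) (nat_lit 0) (p (nat_lit 0x88880907871a) (nat_lit 0) (p (nat_lit 0x8000080000000080887068a) (nat_lit 0) (p (nat_lit 0x10888068602) (nat_lit 0) (p (nat_lit 0x8807860582) (nat_lit 0) (p (nat_lit 0x10607058502) (nat_lit 0) (p (nat_lit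 0x8586850482) (nat_lit 0) (p (nat_lit 0x160004) (nat_lit 0) (p (nat_lit 0x68612) (nat_lit 0) (p (nat_lit 0x50592) (nat_lit 0) (p (nat_lit 0x40512) (nat_lit 0) (p (nat_lit 0x50312) (nat_lit 0) (p (nat_lit 0x38292) (nat_lit 0) (p (nat_lit 0x28212) (nat_lit 0) (p (nat_lit 0x38112) (nat_lit 0) (p (nat_lit 0x20092) (nat_lit 0) (p (nat_lit 0x10012) (nat_lit 0) pn))))))))))))))))))))))))))) :=
  Cl.node (nat_lit 0x380c2) (nat_lit 2) (by decide +kernel) (ClAll.succ (ClAll.succ ClAll.zero s333) s334)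

def n172 : Cl (O (nat_lit 6)) (R (nat_lit 14353))
    (p (nat_lit 0x444aa) (nat_lit 7) (p (nat_lit 0x111) (nat_lit 1) (p (nat_lit 0xd1) (nat_lit 1) (p (nat_lit 0xc1) (nat_lit 0) (p (nat_lit 0x119) (nat_lit 1) (p (nat_lit 0xc9) (nat_lit 0) (p (nat_lit 0x89) (nat_lit 1) (p (nat_lit 0x41) (nat_lit 0) (p (nat_lit 0x10a0b0a89089a) (nat_lit 0) (p (nat_lit 0x898a8a08881a) (nat_lit 0) (p (nat_lit 0x109088988079a) (nat_lit 0) (p (nat_lit 0x88880907871a) (nat_lit 0) (p (nat_lit 0x8000080000000080887068a) (nat_lit 0) (p (nat_lit 0x10888068602) (nat_lit 0) (p (nat_lit 0x8807860582) (nat_lit 0) (p (nat_lit 0x10607058502) (nat_lit 0) (p (nat_lit 0x8586850482) (nat_lit 0) (p (nat_lit 0x160004) (nat_lit 0) (p (nat_lit 0x68612) (nat_lit 0) (p (nat_lit 0x50592) (nat_lit 0) (p (nat_lit 0x40512) (nat_lit 0) (p (nat_lit 0x50312) (nat_lit 0) (p (nat_lit 0x38292) (nat_lit 0) (p (nat_lit 0x28212)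 (nat_lit 0) (p (nat_lit 0x38112) (nat_lit 0) (p (nat_lit 0x20092) (nat_lit 0) (p (nat_lit 0x10012) (nat_lit 0) pn))))))))))))))))))))))))))) :=
  Cl.node (nat_lit 0x380c2) (nat_lit 2) (by decide +kernel) (ClAll.succ (ClAll.succ ClAll.zero n141) n142)

def n173 : Cl (O (nat_lit 6)) (R (nat_lit 14353))
    (p (nat_lit 0x444aa) (nat_lit 8) (p (nat_lit 0x111) (nat_lit 1) (p (nat_lit 0xd1) (nat_lit 1) (p (nat_lit 0xc1) (nat_lit 0) (p (nat_lit 0x119) (nat_lit 1) (p (nat_lit 0xc9) (nat_lit 0) (p (nat_lit 0x89) (nat_lit 1) (p (nat_lit 0x41) (nat_lit 0) (p (nat_lit 0x10a0b0a89089a) (nat_lit 0) (p (nat_lit 0x898a8a08881a) (nat_lit 0) (p (nat_lit 0x109088988079a) (nat_lit 0) (p (nat_lit 0x88880907871a) (nat_lit 0) (p (nat_lit 0x8000080000000080887068a) (nat_lit 0) (p (nat_lit 0x10888068602) (nat_lit 0) (p (nat_lit 0x8807860582) (nat_lit 0) (p (nat_lit 0x10607058502) (nat_lit 0) (p (nat_lit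 0x8586850482) (nat_lit 0) (p (nat_lit 0x160004) (nat_lit 0) (p (nat_lit 0x68612) (nat_lit 0) (p (nat_lit 0x50592) (nat_lit 0) (p (nat_lit 0x40512) (nat_lit 0) (p (nat_lit 0x50312) (nat_lit 0) (p (nat_lit 0x38292) (nat_lit 0) (p (nat_lit 0x28212) (nat_lit 0) (p (nat_lit 0x38112) (nat_lit 0) (p (nat_lit 0x20092) (nat_lit 0) (p (nat_lit 0x10012) (nat_lit 0) pn))))))))))))))))))))))))))) :=
  Cl.node (nat_lit 0x380c2) (nat_lit 2) (by decide +kernel) (ClAll.succ (ClAll.succ ClAll.zero n143) s359)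

def n174 : Cl (O (nat_lit 6)) (R (nat_lit 14353))
    (p (nat_lit 0x444aa) (nat_lit 7) (p (nat_lit 0x111) (nat_lit 1) (p (nat_lit 0x101) (nat_lit 0) (p (nat_lit 0xc1) (nat_lit 1) (p (nat_lit 0x119) (nat_lit 1) (p (nat_lit 0xc9) (nat_lit 0) (p (nat_lit 0x89) (nat_lit 1) (p (nat_lit 0x41) (nat_lit 0) (p (nat_lit 0x10a0b0a89089a) (nat_lit 0) (p (nat_lit 0x898a8a08881a) (nat_lit 0) (p (nat_lit 0x109088988079a) (nat_lit 0) (p (nat_lit 0x88880907871a) (nat_lit 0) (p (nat_lit 0x8000080000000080887068a) (nat_lit 0) (p (nat_lit 0x10888068602) (nat_lit 0) (p (nat_lit 0x8807860582) (nat_lit 0) (p (nat_lit 0x10607058502) (nat_lit 0) (p (nat_lit 0x8586850482) (nat_lit 0) (p (nat_lit 0x160004) (nat_lit 0) (p (nat_lit 0x68612) (nat_lit 0) (p (nat_lit 0x50592) (nat_lit 0) (p (nat_lit 0x40512) (nat_lit 0) (p (nat_lit 0x50312) (nat_lit 0) (p (nat_lit 0x38292) (nat_lit 0) (p (nat_lit 0x28212)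 (nat_lit 0) (p (nat_lit 0x38112) (nat_lit 0) (p (nat_lit 0x20092) (nat_lit 0) (p (nat_lit 0x10012) (nat_lit 0) pn))))))))))))))))))))))))))) :=
  Cl.node (nat_lit 0x380c2) (nat_lit 2) (by decide +kernel) (ClAll.succ (ClAll.succ ClAll.zero n144) n145)

def n175 : Cl (O (nat_lit 6)) (R (nat_lit 14353))
    (p (nat_lit 0x444aa) (nat_lit 8) (p (nat_lit 0x111) (nat_lit 1) (p (nat_lit 0x101) (nat_lit 0) (p (nat_lit 0xc1) (nat_lit 1) (p (nat_lit 0x119) (nat_lit 1) (p (nat_lit 0xc9) (nat_lit 0) (p (nat_lit 0x89) (nat_lit 1) (p (nat_lit 0x41) (nat_lit 0) (p (nat_lit 0x10a0b0a89089a) (nat_lit 0) (p (nat_lit 0x898a8a08881a) (nat_lit 0) (p (nat_lit 0x109088988079a) (nat_lit 0) (p (nat_lit 0x88880907871a) (nat_lit 0) (p (nat_lit 0x8000080000000080887068a) (nat_lit 0) (p (nat_lit 0x10888068602) (nat_lit 0) (p (nat_lit 0x8807860582) (nat_lit 0) (p (nat_lit 0x10607058502) (nat_lit 0) (p (nat_lit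 0x8586850482) (nat_lit 0) (p (nat_lit 0x160004) (nat_lit 0) (p (nat_lit 0x68612) (nat_lit 0) (p (nat_lit 0x50592) (nat_lit 0) (p (nat_lit 0x40512) (nat_lit 0) (p (nat_lit 0x50312) (nat_lit 0) (p (nat_lit 0x38292) (nat_lit 0) (p (nat_lit 0x28212) (nat_lit 0) (p (nat_lit 0x38112) (nat_lit 0) (p (nat_lit 0x20092) (nat_lit 0) (p (nat_lit 0x10012) (nat_lit 0) pn))))))))))))))))))))))))))) :=
  Cl.node (nat_lit 0x380c2) (nat_lit 2) (by decide +kernel) (ClAll.succ (ClAll.succ ClAll.zero n146) s409)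

def n176 : Cl (O (nat_lit 6)) (R (nat_lit 14353))
    (p (nat_lit 0x111) (nat_lit 1) (p (nat_lit 0x89) (nat_lit 0) (p (nat_lit 0x109) (nat_lit 1) (p (nat_lit 0x101) (nat_lit 0) (p (nat_lit 0x119) (nat_lit 0) (p (nat_lit 0xd1) (nat_lit 0) (p (nat_lit 0x81) (nat_lit 0) (p (nat_lit 0x41) (nat_lit 1) (p (nat_lit 0x10a0b0a89089a) (nat_lit 0) (p (nat_lit 0x898a8a08881a) (nat_lit 0) (p (nat_lit 0x109088988079a) (nat_lit 0) (p (nat_lit 0x88880907871a) (nat_lit 0) (p (nat_lit 0x8000080000000080887068a) (nat_lit 0) (p (nat_lit 0x10888068602) (nat_lit 0) (p (nat_lit 0x8807860582) (nat_lit 0) (p (nat_lit 0x10607058502) (nat_lit 0) (p (nat_lit 0x8586850482) (nat_lit 0) (p (nat_lit 0x160004) (nat_lit 0) (p (nat_lit 0x68612) (nat_lit 0) (p (nat_lit 0x50592) (nat_lit 0) (p (nat_lit 0x40512) (nat_lit 0) (p (nat_lit 0x50312) (nat_lit 0) (p (nat_lit 0x38292) (nat_lit 0) (p (nat_lit 0x28212) (nat_lit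 0) (p (nat_lit 0x38112) (nat_lit 0) (p (nat_lit 0x20092) (nat_lit 0) (p (nat_lit 0x10012) (nat_lit 0) pn))))))))))))))))))))))))))) :=
  Cl.node (nat_lit 0x3cc2a) (nat_lit 12) (by decide +kernel) (ClAll.succ (ClAll.succ (ClAll.succ (ClAll.succ (ClAll.succ (ClAll.succ (ClAll.succ (ClAll.succ (ClAll.succ (ClAll.succ (ClAll.succ (ClAll.succ ClAll.zero s418) s419) s420) s421) s422) s423) s424) s425) s426) s427) s428) s429)

def n177 : Cl (O (nat_lit 6)) (R (nat_lit 14353))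
    (p (nat_lit 0xc9) (nat_lit 0) (p (nat_lit 0x89) (nat_lit 1) (p (nat_lit 0x109) (nat_lit 1) (p (nat_lit 0x101) (nat_lit 0) (p (nat_lit 0x119) (nat_lit 0) (p (nat_lit 0xd1) (nat_lit 0) (p (nat_lit 0x81) (nat_lit 0) (p (nat_lit 0x41) (nat_lit 1) (p (nat_lit 0x10a0b0a89089a) (nat_lit 0) (p (nat_lit 0x898a8a08881a) (nat_lit 0) (p (nat_lit 0x109088988079a) (nat_lit 0) (p (nat_lit 0x88880907871a) (nat_lit 0) (p (nat_lit 0x8000080000000080887068a) (nat_lit 0) (p (nat_lit 0x10888068602) (nat_lit 0) (p (nat_lit 0x8807860582) (nat_lit 0) (p (nat_lit 0x10607058502) (nat_lit 0) (p (nat_lit 0x8586850482) (nat_lit 0) (p (nat_lit 0x160004) (nat_lit 0) (p (nat_lit 0x68612) (nat_lit 0) (p (nat_lit 0x50592) (nat_lit 0) (p (nat_lit 0x40512) (nat_lit 0) (p (nat_lit 0x50312) (nat_lit 0) (p (nat_lit 0x38292) (nat_lit 0) (p (nat_lit 0x28212) (nat_lit 0) (p (nat_lit 0x38112) (nat_lit 0) (p (nat_lit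 0x20092) (nat_lit 0) (p (nat_lit 0x10012) (nat_lit 0) pn))))))))))))))))))))))))))) :=
  Cl.node (nat_lit 0x4c42a) (nat_lit 12) (by decide +kernel) (ClAll.succ (ClAll.succ (ClAll.succ (ClAll.succ (ClAll.succ (ClAll.succ (ClAll.succ (ClAll.succ (ClAll.succ (ClAll.succ (ClAll.succ (ClAll.succ ClAll.zero s430) s431) s432) s433) s434) s435) s436) s437) s438) s439) s440) s441)

def n178 : Cl (O (nat_lit 6)) (R (nat_lit 14353))
    (p (nat_lit 0xc9) (nat_lit 0) (p (nat_lit 0x89) (nat_lit 1) (p (nat_lit 0xc1) (nat_lit 0) (p (nat_lit 0x101) (nat_lit 1) (p (nat_lit 0x119) (nat_lit 0) (p (nat_lit 0xd1) (nat_lit 0) (p (nat_lit 0x81) (nat_lit 0) (p (nat_lit 0x41) (nat_lit 1) (p (nat_lit 0x10a0b0a89089a) (nat_lit 0) (p (nat_lit 0x898a8a08881a) (nat_lit 0) (p (nat_lit 0x109088988079a) (nat_lit 0) (p (nat_lit 0x88880907871a) (nat_lit 0) (p (nat_lit 0x8000080000000080887068a) (nat_lit 0) (p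 (nat_lit 0x10888068602) (nat_lit 0) (p (nat_lit 0x8807860582) (nat_lit 0) (p (nat_lit 0x10607058502) (nat_lit 0) (p (nat_lit 0x8586850482) (nat_lit 0) (p (nat_lit 0x160004) (nat_lit 0) (p (nat_lit 0x68612) (nat_lit 0) (p (nat_lit 0x50592) (nat_lit 0) (p (nat_lit 0x40512) (nat_lit 0) (p (nat_lit 0x50312) (nat_lit 0) (p (nat_lit 0x38292) (nat_lit 0) (p (nat_lit 0x28212) (nat_lit 0) (p (nat_lit 0x38112) (nat_lit 0) (p (nat_lit 0x20092) (nat_lit 0) (p (nat_lit 0x10012) (nat_lit 0) pn))))))))))))))))))))))))))) :=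
  Cl.node (nat_lit 0x4c42a) (nat_lit 12) (by decide +kernel) (ClAll.succ (ClAll.succ (ClAll.succ (ClAll.succ (ClAll.succ (ClAll.succ (ClAll.succ (ClAll.succ (ClAll.succ (ClAll.succ (ClAll.succ (ClAll.succ ClAll.zero s444) s445) s446) s447) s448) s449) s450) s451) s452) s453) s454) s455)

def n179 : Cl (O (nat_lit 6)) (R (nat_lit 14353))
    (p (nat_lit 0x3c4aa) (nat_lit 7) (p (nat_lit 0x89) (nat_lit 1) (p (nat_lit 0xc1) (nat_lit 1) (p (nat_lit 0x101) (nat_lit 1) (p (nat_lit 0x119) (nat_lit 0) (p (nat_lit 0xd1) (nat_lit 0) (p (nat_lit 0x81) (nat_lit 0) (p (nat_lit 0x41) (nat_lit 1) (p (nat_lit 0x10a0b0a89089a) (nat_lit 0) (p (nat_lit 0x898a8a08881a) (nat_lit 0) (p (nat_lit 0x109088988079a) (nat_lit 0) (p (nat_lit 0x88880907871a) (nat_lit 0) (p (nat_lit 0x8000080000000080887068a) (nat_lit 0) (p (nat_lit 0x10888068602) (nat_lit 0) (p (nat_lit 0x8807860582) (nat_lit 0) (p (nat_lit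 0x10607058502) (nat_lit 0) (p (nat_lit 0x8586850482) (nat_lit 0) (p (nat_lit 0x160004) (nat_lit 0) (p (nat_lit 0x68612) (nat_lit 0) (p (nat_lit 0x50592) (nat_lit 0) (p (nat_lit 0x40512) (nat_lit 0) (p (nat_lit 0x50312) (nat_lit 0) (p (nat_lit 0x38292) (nat_lit 0) (p (nat_lit 0x28212) (nat_lit 0) (p (nat_lit 0x38112) (nat_lit 0) (p (nat_lit 0x20092) (nat_lit 0) (p (nat_lit 0x10012) (nat_lit 0) pn))))))))))))))))))))))))))) :=
  Cl.node (nat_lit 0x380c2) (nat_lit 2) (by decide +kernel) (ClAll.succ (ClAll.succ ClAll.zero s465) s466)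

def n180 : Cl (O (nat_lit 6)) (R (nat_lit 14353))
    (p (nat_lit 0x109) (nat_lit 0) (p (nat_lit 0x89) (nat_lit 1) (p (nat_lit 0xc9) (nat_lit 1) (p (nat_lit 0xc1) (nat_lit 0) (p (nat_lit 0x119) (nat_lit 1) (p (nat_lit 0xd1) (nat_lit 0) (p (nat_lit 0x81) (nat_lit 0) (p (nat_lit 0x41) (nat_lit 1) (p (nat_lit 0x10a0b0a89089a) (nat_lit 0) (p (nat_lit 0x898a8a08881a) (nat_lit 0) (p (nat_lit 0x109088988079a) (nat_lit 0) (p (nat_lit 0x88880907871a) (nat_lit 0) (p (nat_lit 0x8000080000000080887068a) (nat_lit 0) (p (nat_lit 0x10888068602) (nat_lit 0) (p (nat_lit 0x8807860582) (nat_lit 0) (p (nat_lit 0x10607058502) (nat_lit 0) (p (nat_lit 0x8586850482) (nat_lit 0) (p (nat_lit 0x160004) (nat_lit 0) (p (nat_lit 0x68612) (nat_lit 0) (p (nat_lit 0x50592) (nat_lit 0) (p (nat_lit 0x40512) (nat_lit 0) (p (nat_lit 0x50312) (nat_lit 0) (p (nat_lit 0x38292) (nat_lit 0) (p (nat_lit 0x28212) (nat_lit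 0) (p (nat_lit 0x38112) (nat_lit 0) (p (nat_lit 0x20092) (nat_lit 0) (p (nat_lit 0x10012) (nat_lit 0) pn))))))))))))))))))))))))))) :=
  Cl.node (nat_lit 0x44c2a) (nat_lit 12) (by decide +kernel) (ClAll.succ (ClAll.succ (ClAll.succ (ClAll.succ (ClAll.succ (ClAll.succ (ClAll.succ (ClAll.succ (ClAll.succ (ClAll.succ (ClAll.succ (ClAll.succ ClAll.zero s473) s474) s475) s476) s477) s478) s479) s480) s481) s482) s483) s484)

def n181 : Cl (O (nat_lit 6)) (R (nat_lit 14353))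
    (p (nat_lit 0x109) (nat_lit 0) (p (nat_lit 0x89) (nat_lit 1) (p (nat_lit 0x101) (nat_lit 0) (p (nat_lit 0xc1) (nat_lit 1) (p (nat_lit 0x119) (nat_lit 1) (p (nat_lit 0xd1) (nat_lit 0) (p (nat_lit 0x81) (nat_lit 0) (p (nat_lit 0x41) (nat_lit 1) (p (nat_lit 0x10a0b0a89089a) (nat_lit 0) (p (nat_lit 0x898a8a08881a) (nat_lit 0) (p (nat_lit 0x109088988079a) (nat_lit 0) (p (nat_lit 0x88880907871a) (nat_lit 0) (p (nat_lit 0x8000080000000080887068a) (nat_lit 0) (p (nat_lit 0x10888068602) (nat_lit 0) (p (nat_lit 0x8807860582) (nat_lit 0) (p (nat_lit 0x10607058502) (nat_lit 0) (p (nat_lit 0x8586850482) (nat_lit 0) (p (nat_lit 0x160004) (nat_lit 0) (p (nat_lit 0x68612) (nat_lit 0) (p (nat_lit 0x50592) (nat_lit 0) (p (nat_lit 0x40512) (nat_lit 0) (p (nat_lit 0x50312) (nat_lit 0) (p (nat_lit 0x38292) (nat_lit 0) (p (nat_lit 0x28212) (nat_lit 0) (p (nat_lit 0x38112) (nat_lit 0) (p (nat_lit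 0x20092) (nat_lit 0) (p (nat_lit 0x10012) (nat_lit 0) pn))))))))))))))))))))))))))) :=
  Cl.node (nat_lit 0x44c2a) (nat_lit 12) (by decide +kernel) (ClAll.succ (ClAll.succ (ClAll.succ (ClAll.succ (ClAll.succ (ClAll.succ (ClAll.succ (ClAll.succ (ClAll.succ (ClAll.succ (ClAll.succ (ClAll.succ ClAll.zero s487) s488) s489) s490) s491) s492) s493) s494) s495) s496) s497) s498)

def n182 : Cl (O (nat_lit 6)) (R (nat_lit 14353))
    (p (nat_lit 0x109) (nat_lit 1) (p (nat_lit 0x89) (nat_lit 1) (p (nat_lit 0x101) (nat_lit 0) (p (nat_lit 0xc1) (nat_lit 1) (p (nat_lit 0x119) (nat_lit 1) (p (nat_lit 0xd1) (nat_lit 0) (p (nat_lit 0x81) (nat_lit 0) (p (nat_lit 0x41) (nat_lit 1) (p (nat_lit 0x10a0b0a89089a) (nat_lit 0) (p (nat_lit 0x898a8a08881a) (nat_lit 0) (p (nat_lit 0x109088988079a) (nat_lit 0) (p (nat_lit 0x88880907871a) (nat_lit 0) (p (nat_lit 0x8000080000000080887068a) (nat_lit 0) (p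 (nat_lit 0x10888068602) (nat_lit 0) (p (nat_lit 0x8807860582) (nat_lit 0) (p (nat_lit 0x10607058502) (nat_lit 0) (p (nat_lit 0x8586850482) (nat_lit 0) (p (nat_lit 0x160004) (nat_lit 0) (p (nat_lit 0x68612) (nat_lit 0) (p (nat_lit 0x50592) (nat_lit 0) (p (nat_lit 0x40512) (nat_lit 0) (p (nat_lit 0x50312) (nat_lit 0) (p (nat_lit 0x38292) (nat_lit 0) (p (nat_lit 0x28212) (nat_lit 0) (p (nat_lit 0x38112) (nat_lit 0) (p (nat_lit 0x20092) (nat_lit 0) (p (nat_lit 0x10012) (nat_lit 0) pn))))))))))))))))))))))))))) :=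
  Cl.node (nat_lit 0x3c4aa) (nat_lit 12) (by decide +kernel) (ClAll.succ (ClAll.succ (ClAll.succ (ClAll.succ (ClAll.succ (ClAll.succ (ClAll.succ (ClAll.succ (ClAll.succ (ClAll.succ (ClAll.succ (ClAll.succ ClAll.zero s499) s500) s501) s502) s503) s504) s505) n147) s508) s509) n148) s512)

def n183 : Cl (O (nat_lit 6)) (R (nat_lit 14353))
    (p (nat_lit 0x3c4aa) (nat_lit 7) (p (nat_lit 0x89) (nat_lit 1) (p (nat_lit 0x101) (nat_lit 1) (p (nat_lit 0xc1) (nat_lit 1) (p (nat_lit 0x119) (nat_lit 1) (p (nat_lit 0xd1) (nat_lit 0) (p (nat_lit 0x81) (nat_lit 0) (p (nat_lit 0x41) (nat_lit 1) (p (nat_lit 0x10a0b0a89089a) (nat_lit 0) (p (nat_lit 0x898a8a08881a) (nat_lit 0) (p (nat_lit 0x109088988079a) (nat_lit 0) (p (nat_lit 0x88880907871a) (nat_lit 0) (p (nat_lit 0x8000080000000080887068a) (nat_lit 0) (p (nat_lit 0x10888068602) (nat_lit 0) (p (nat_lit 0x8807860582) (nat_lit 0) (p (nat_lit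 0x10607058502) (nat_lit 0) (p (nat_lit 0x8586850482) (nat_lit 0) (p (nat_lit 0x160004) (nat_lit 0) (p (nat_lit 0x68612) (nat_lit 0) (p (nat_lit 0x50592) (nat_lit 0) (p (nat_lit 0x40512) (nat_lit 0) (p (nat_lit 0x50312) (nat_lit 0) (p (nat_lit 0x38292) (nat_lit 0) (p (nat_lit 0x28212) (nat_lit 0) (p (nat_lit 0x38112) (nat_lit 0) (p (nat_lit 0x20092) (nat_lit 0) (p (nat_lit 0x10012) (nat_lit 0) pn))))))))))))))))))))))))))) :=
  Cl.node (nat_lit 0x380c2) (nat_lit 2) (by decide +kernel) (ClAll.succ (ClAll.succ ClAll.zero s521) s522)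

def n184 : Cl (O (nat_lit 6)) (R (nat_lit 14353))
    (p (nat_lit 0xc9) (nat_lit 0) (p (nat_lit 0x89) (nat_lit 1) (p (nat_lit 0x109) (nat_lit 1) (p (nat_lit 0x101) (nat_lit 0) (p (nat_lit 0x111) (nat_lit 0) (p (nat_lit 0xd1) (nat_lit 1) (p (nat_lit 0x81) (nat_lit 0) (p (nat_lit 0x41) (nat_lit 1) (p (nat_lit 0x10a0b0a89089a) (nat_lit 0) (p (nat_lit 0x898a8a08881a) (nat_lit 0) (p (nat_lit 0x109088988079a) (nat_lit 0) (p (nat_lit 0x88880907871a) (nat_lit 0) (p (nat_lit 0x8000080000000080887068a) (nat_lit 0) (p (nat_lit 0x10888068602) (nat_lit 0) (p (nat_lit 0x8807860582) (nat_lit 0) (p (nat_lit 0x10607058502) (nat_lit 0) (p (nat_lit 0x8586850482) (nat_lit 0) (p (nat_lit 0x160004) (nat_lit 0) (p (nat_lit 0x68612) (nat_lit 0) (p (nat_lit 0x50592) (nat_lit 0) (p (nat_lit 0x40512) (nat_lit 0) (p (nat_lit 0x50312) (nat_lit 0) (p (nat_lit 0x38292) (nat_lit 0) (p (nat_lit 0x28212) (nat_lit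 0) (p (nat_lit 0x38112) (nat_lit 0) (p (nat_lit 0x20092) (nat_lit 0) (p (nat_lit 0x10012) (nat_lit 0) pn))))))))))))))))))))))))))) :=
  Cl.node (nat_lit 0x119) (nat_lit 2) (by decide +kernel) (ClAll.succ (ClAll.succ ClAll.zero s529) s530)

def n185 : Cl (O (nat_lit 6)) (R (nat_lit 14353))
    (p (nat_lit 0x3cc2a) (nat_lit 0) (p (nat_lit 0xc9) (nat_lit 0) (p (nat_lit 0x89) (nat_lit 1) (p (nat_lit 0x101) (nat_lit 1) (p (nat_lit 0x111) (nat_lit 0) (p (nat_lit 0xd1) (nat_lit 1) (p (nat_lit 0x81) (nat_lit 0) (p (nat_lit 0x41) (nat_lit 1) (p (nat_lit 0x10a0b0a89089a) (nat_lit 0) (p (nat_lit 0x898a8a08881a) (nat_lit 0) (p (nat_lit 0x109088988079a) (nat_lit 0) (p (nat_lit 0x88880907871a) (nat_lit 0) (p (nat_lit 0x8000080000000080887068a) (nat_lit 0) (p (nat_lit 0x10888068602) (nat_lit 0) (p (nat_lit 0x8807860582) (nat_lit 0) (p (nat_lit 0x10607058502) (nat_lit 0) (p (nat_lit 0x8586850482)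 (nat_lit 0) (p (nat_lit 0x160004) (nat_lit 0) (p (nat_lit 0x68612) (nat_lit 0) (p (nat_lit 0x50592) (nat_lit 0) (p (nat_lit 0x40512) (nat_lit 0) (p (nat_lit 0x50312) (nat_lit 0) (p (nat_lit 0x38292) (nat_lit 0) (p (nat_lit 0x28212) (nat_lit 0) (p (nat_lit 0x38112) (nat_lit 0) (p (nat_lit 0x20092) (nat_lit 0) (p (nat_lit 0x10012) (nat_lit 0) pn))))))))))))))))))))))))))) :=
  Cl.node (nat_lit 0x380c2) (nat_lit 2) (by decide +kernel) (ClAll.succ (ClAll.succ ClAll.zero s545) s546)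

def n186 : Cl (O (nat_lit 6)) (R (nat_lit 14353))
    (p (nat_lit 0xd1) (nat_lit 1) (p (nat_lit 0x111) (nat_lit 1) (p (nat_lit 0x109) (nat_lit 0) (p (nat_lit 0x101) (nat_lit 0) (p (nat_lit 0x119) (nat_lit 0) (p (nat_lit 0xc1) (nat_lit 0) (p (nat_lit 0x81) (nat_lit 1) (p (nat_lit 0x41) (nat_lit 1) (p (nat_lit 0x10a0b0a89089a) (nat_lit 0) (p (nat_lit 0x898a8a08881a) (nat_lit 0) (p (nat_lit 0x109088988079a) (nat_lit 0) (p (nat_lit 0x88880907871a) (nat_lit 0) (p (nat_lit 0x8000080000000080887068a) (nat_lit 0) (p (nat_lit 0x10888068602) (nat_lit 0) (p (nat_lit 0x8807860582) (nat_lit 0) (p (nat_lit 0x10607058502) (nat_lit 0) (p (nat_lit 0x8586850482) (nat_lit 0) (p (nat_lit 0x160004) (nat_lit 0) (p (nat_lit 0x68612) (nat_lit 0) (p (nat_lit 0x50592) (nat_lit 0) (p (nat_lit 0x40512) (nat_lit 0) (p (nat_lit 0x50312) (nat_lit 0) (p (nat_lit 0x38292) (nat_lit 0) (p (nat_lit 0x28212) (nat_lit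 0) (p (nat_lit 0x38112) (nat_lit 0) (p (nat_lit 0x20092) (nat_lit 0) (p (nat_lit 0x10012) (nat_lit 0) pn))))))))))))))))))))))))))) :=
  Cl.node (nat_lit 0x3c4aa) (nat_lit 12) (by decide +kernel) (ClAll.succ (ClAll.succ (ClAll.succ (ClAll.succ (ClAll.succ (ClAll.succ (ClAll.succ (ClAll.succ (ClAll.succ (ClAll.succ (ClAll.succ (ClAll.succ ClAll.zero s576) s577) s578) s579) s580) s581) s582) n149) n150) s618) s619) s620)

def n187 : Cl (O (nat_lit 6)) (R (nat_lit 14353))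
    (p (nat_lit 0xd1) (nat_lit 1) (p (nat_lit 0xc9) (nat_lit 0) (p (nat_lit 0x109) (nat_lit 1) (p (nat_lit 0x101) (nat_lit 0) (p (nat_lit 0x119) (nat_lit 0) (p (nat_lit 0xc1) (nat_lit 0) (p (nat_lit 0x81) (nat_lit 1) (p (nat_lit 0x41) (nat_lit 1) (p (nat_lit 0x10a0b0a89089a) (nat_lit 0) (p (nat_lit 0x898a8a08881a) (nat_lit 0) (p (nat_lit 0x109088988079a) (nat_lit 0) (p (nat_lit 0x88880907871a) (nat_lit 0) (p (nat_lit 0x8000080000000080887068a) (nat_lit 0) (p (nat_lit 0x10888068602) (nat_lit 0) (p (nat_lit 0x8807860582) (nat_lit 0) (p (nat_lit 0x10607058502) (nat_lit 0) (p (nat_lit 0x8586850482) (nat_lit 0) (p (nat_lit 0x160004) (nat_lit 0) (p (nat_lit 0x68612) (nat_lit 0) (p (nat_lit 0x50592) (nat_lit 0) (p (nat_lit 0x40512) (nat_lit 0) (p (nat_lit 0x50312) (nat_lit 0) (p (nat_lit 0x38292) (nat_lit 0) (p (nat_lit 0x28212) (nat_lit 0) (p (nat_lit 0x38112) (nat_lit 0) (p (nat_lit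 0x20092) (nat_lit 0) (p (nat_lit 0x10012) (nat_lit 0) pn))))))))))))))))))))))))))) :=
  Cl.node (nat_lit 0x3c4aa) (nat_lit 12) (by decide +kernel) (ClAll.succ (ClAll.succ (ClAll.succ (ClAll.succ (ClAll.succ (ClAll.succ (ClAll.succ (ClAll.succ (ClAll.succ (ClAll.succ (ClAll.succ (ClAll.succ ClAll.zero s622) s623) s624) s625) s626) s627) s628) n151) s636) s637) s638) s639)

def n188 : Cl (O (nat_lit 6)) (R (nat_lit 14353))
    (p (nat_lit 0x44c2a) (nat_lit 0) (p (nat_lit 0xd1) (nat_lit 0) (p (nat_lit 0xc9) (nat_lit 0) (p (nat_lit 0x101) (nat_lit 1) (p (nat_lit 0x119) (nat_lit 0) (p (nat_lit 0xc1) (nat_lit 0) (p (nat_lit 0x81) (nat_lit 1) (p (nat_lit 0x41) (nat_lit 1) (p (nat_lit 0x10a0b0a89089a) (nat_lit 0) (p (nat_lit 0x898a8a08881a) (nat_lit 0) (p (nat_lit 0x109088988079a) (nat_lit 0) (p (nat_lit 0x88880907871a) (nat_lit 0) (p (nat_lit 0x8000080000000080887068a) (nat_lit 0)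 (p (nat_lit 0x10888068602) (nat_lit 0) (p (nat_lit 0x8807860582) (nat_lit 0) (p (nat_lit 0x10607058502) (nat_lit 0) (p (nat_lit 0x8586850482) (nat_lit 0) (p (nat_lit 0x160004) (nat_lit 0) (p (nat_lit 0x68612) (nat_lit 0) (p (nat_lit 0x50592) (nat_lit 0) (p (nat_lit 0x40512) (nat_lit 0) (p (nat_lit 0x50312) (nat_lit 0) (p (nat_lit 0x38292) (nat_lit 0) (p (nat_lit 0x28212) (nat_lit 0) (p (nat_lit 0x38112) (nat_lit 0) (p (nat_lit 0x20092) (nat_lit 0) (p (nat_lit 0x10012) (nat_lit 0) pn))))))))))))))))))))))))))) :=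
  Cl.node (nat_lit 0x380c2) (nat_lit 2) (by decide +kernel) (ClAll.succ (ClAll.succ ClAll.zero s641) s642)

def n189 : Cl (O (nat_lit 6)) (R (nat_lit 14353))
    (p (nat_lit 0x3c4aa) (nat_lit 7) (p (nat_lit 0xd1) (nat_lit 1) (p (nat_lit 0xc9) (nat_lit 0) (p (nat_lit 0x101) (nat_lit 1) (p (nat_lit 0x119) (nat_lit 0) (p (nat_lit 0xc1) (nat_lit 0) (p (nat_lit 0x81) (nat_lit 1) (p (nat_lit 0x41) (nat_lit 1) (p (nat_lit 0x10a0b0a89089a) (nat_lit 0) (p (nat_lit 0x898a8a08881a) (nat_lit 0) (p (nat_lit 0x109088988079a) (nat_lit 0) (p (nat_lit 0x88880907871a) (nat_lit 0) (p (nat_lit 0x8000080000000080887068a) (nat_lit 0) (p (nat_lit 0x10888068602) (nat_lit 0) (p (nat_lit 0x8807860582) (nat_lit 0) (p (nat_lit 0x10607058502) (nat_lit 0) (p (nat_lit 0x8586850482) (nat_lit 0) (p (nat_lit 0x160004) (nat_lit 0) (p (nat_lit 0x68612) (nat_lit 0) (p (nat_lit 0x50592) (nat_lit 0) (p (nat_lit 0x40512)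 (nat_lit 0) (p (nat_lit 0x50312) (nat_lit 0) (p (nat_lit 0x38292) (nat_lit 0) (p (nat_lit 0x28212) (nat_lit 0) (p (nat_lit 0x38112) (nat_lit 0) (p (nat_lit 0x20092) (nat_lit 0) (p (nat_lit 0x10012) (nat_lit 0) pn))))))))))))))))))))))))))) :=
  Cl.node (nat_lit 0x380c2) (nat_lit 2) (by decide +kernel) (ClAll.succ (ClAll.succ ClAll.zero n152) n153)

def n190 : Cl (O (nat_lit 6)) (R (nat_lit 14353))
    (p (nat_lit 0x3c4aa) (nat_lit 7) (p (nat_lit 0x111) (nat_lit 1) (p (nat_lit 0xd1) (nat_lit 1) (p (nat_lit 0xc9) (nat_lit 0) (p (nat_lit 0x119) (nat_lit 1) (p (nat_lit 0xc1) (nat_lit 0) (p (nat_lit 0x81) (nat_lit 1) (p (nat_lit 0x41) (nat_lit 1) (p (nat_lit 0x10a0b0a89089a) (nat_lit 0) (p (nat_lit 0x898a8a08881a) (nat_lit 0) (p (nat_lit 0x109088988079a) (nat_lit 0) (p (nat_lit 0x88880907871a) (nat_lit 0) (p (nat_lit 0x8000080000000080887068a) (nat_lit 0) (p (nat_lit 0x10888068602)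 (nat_lit 0) (p (nat_lit 0x8807860582) (nat_lit 0) (p (nat_lit 0x10607058502) (nat_lit 0) (p (nat_lit 0x8586850482) (nat_lit 0) (p (nat_lit 0x160004) (nat_lit 0) (p (nat_lit 0x68612) (nat_lit 0) (p (nat_lit 0x50592) (nat_lit 0) (p (nat_lit 0x40512) (nat_lit 0) (p (nat_lit 0x50312) (nat_lit 0) (p (nat_lit 0x38292) (nat_lit 0) (p (nat_lit 0x28212) (nat_lit 0) (p (nat_lit 0x38112) (nat_lit 0) (p (nat_lit 0x20092) (nat_lit 0) (p (nat_lit 0x10012) (nat_lit 0) pn))))))))))))))))))))))))))) :=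
  Cl.node (nat_lit 0x380c2) (nat_lit 2) (by decide +kernel) (ClAll.succ (ClAll.succ ClAll.zero n154) n155)

def n191 : Cl (O (nat_lit 6)) (R (nat_lit 14353))
    (p (nat_lit 0x3c4aa) (nat_lit 7) (p (nat_lit 0x111) (nat_lit 1) (p (nat_lit 0x109) (nat_lit 0) (p (nat_lit 0xc9) (nat_lit 1) (p (nat_lit 0x119) (nat_lit 1) (p (nat_lit 0xc1) (nat_lit 0) (p (nat_lit 0x81) (nat_lit 1) (p (nat_lit 0x41) (nat_lit 1) (p (nat_lit 0x10a0b0a89089a) (nat_lit 0) (p (nat_lit 0x898a8a08881a) (nat_lit 0) (p (nat_lit 0x109088988079a) (nat_lit 0) (p (nat_lit 0x88880907871a) (nat_lit 0) (p (nat_lit 0x8000080000000080887068a) (nat_lit 0) (p (nat_lit 0x10888068602) (nat_lit 0) (p (nat_lit 0x8807860582) (nat_lit 0) (p (nat_lit 0x10607058502) (nat_lit 0) (p (nat_lit 0x8586850482) (nat_lit 0) (p (nat_lit 0x160004) (nat_lit 0) (p (nat_lit 0x68612) (nat_lit 0) (p (nat_lit 0x50592) (nat_lit 0) (p (nat_lit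 0x40512) (nat_lit 0) (p (nat_lit 0x50312) (nat_lit 0) (p (nat_lit 0x38292) (nat_lit 0) (p (nat_lit 0x28212) (nat_lit 0) (p (nat_lit 0x38112) (nat_lit 0) (p (nat_lit 0x20092) (nat_lit 0) (p (nat_lit 0x10012) (nat_lit 0) pn))))))))))))))))))))))))))) :=
  Cl.node (nat_lit 0x380c2) (nat_lit 2) (by decide +kernel) (ClAll.succ (ClAll.succ ClAll.zero s721) s722)

def n192 : Cl (O (nat_lit 6)) (R (nat_lit 14353))
    (p (nat_lit 0xc9) (nat_lit 1) (p (nat_lit 0x109) (nat_lit 1) (p (nat_lit 0x101) (nat_lit 0) (p (nat_lit 0x119) (nat_lit 0) (p (nat_lit 0xd1) (nat_lit 0) (p (nat_lit 0x89) (nat_lit 0) (p (nat_lit 0x41) (nat_lit 0) (p (nat_lit 0x10a0b0a89089a) (nat_lit 0) (p (nat_lit 0x898a8a08881a) (nat_lit 0) (p (nat_lit 0x109088988079a) (nat_lit 0) (p (nat_lit 0x88880907871a) (nat_lit 0) (p (nat_lit 0x8000080000000080887068a) (nat_lit 0) (p (nat_lit 0x10888068602) (nat_lit 0) (p (nat_lit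 0x8807860582) (nat_lit 0) (p (nat_lit 0x10607058502) (nat_lit 0) (p (nat_lit 0x8586850482) (nat_lit 0) (p (nat_lit 0x160004) (nat_lit 0) (p (nat_lit 0x68612) (nat_lit 0) (p (nat_lit 0x50592) (nat_lit 0) (p (nat_lit 0x40512) (nat_lit 0) (p (nat_lit 0x50312) (nat_lit 0) (p (nat_lit 0x38292) (nat_lit 0) (p (nat_lit 0x28212) (nat_lit 0) (p (nat_lit 0x38112) (nat_lit 0) (p (nat_lit 0x20092) (nat_lit 0) (p (nat_lit 0x10012) (nat_lit 0) pn)))))))))))))))))))))))))) :=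
  Cl.node (nat_lit 0x81) (nat_lit 2) (by decide +kernel) (ClAll.succ (ClAll.succ ClAll.zero s2) n156)

def n193 : Cl (O (nat_lit 6)) (R (nat_lit 14353))
    (p (nat_lit 0xc9) (nat_lit 0) (p (nat_lit 0x81) (nat_lit 0) (p (nat_lit 0x101) (nat_lit 1) (p (nat_lit 0x119) (nat_lit 0) (p (nat_lit 0xd1) (nat_lit 0) (p (nat_lit 0x89) (nat_lit 0) (p (nat_lit 0x41) (nat_lit 0) (p (nat_lit 0x10a0b0a89089a) (nat_lit 0) (p (nat_lit 0x898a8a08881a) (nat_lit 0) (p (nat_lit 0x109088988079a) (nat_lit 0) (p (nat_lit 0x88880907871a) (nat_lit 0) (p (nat_lit 0x8000080000000080887068a) (nat_lit 0) (p (nat_lit 0x10888068602) (nat_lit 0) (p (nat_lit 0x8807860582) (nat_lit 0) (p (nat_lit 0x10607058502) (nat_lit 0) (p (nat_lit 0x8586850482) (nat_lit 0) (p (nat_lit 0x160004) (nat_lit 0) (p (nat_lit 0x68612) (nat_lit 0) (p (nat_lit 0x50592) (nat_lit 0) (p (nat_lit 0x40512) (nat_lit 0) (p (nat_lit 0x50312)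 (nat_lit 0) (p (nat_lit 0x38292) (nat_lit 0) (p (nat_lit 0x28212) (nat_lit 0) (p (nat_lit 0x38112) (nat_lit 0) (p (nat_lit 0x20092) (nat_lit 0) (p (nat_lit 0x10012) (nat_lit 0) pn)))))))))))))))))))))))))) :=
  Cl.node (nat_lit 0x111) (nat_lit 2) (by decide +kernel) (ClAll.succ (ClAll.succ ClAll.zero s27) s28)

def n194 : Cl (O (nat_lit 6)) (R (nat_lit 14353))
    (p (nat_lit 0xc9) (nat_lit 1) (p (nat_lit 0x81) (nat_lit 0) (p (nat_lit 0x101) (nat_lit 1) (p (nat_lit 0x119) (nat_lit 0) (p (nat_lit 0xd1) (nat_lit 0) (p (nat_lit 0x89) (nat_lit 0) (p (nat_lit 0x41) (nat_lit 0) (p (nat_lit 0x10a0b0a89089a) (nat_lit 0) (p (nat_lit 0x898a8a08881a) (nat_lit 0) (p (nat_lit 0x109088988079a) (nat_lit 0) (p (nat_lit 0x88880907871a) (nat_lit 0) (p (nat_lit 0x8000080000000080887068a) (nat_lit 0) (p (nat_lit 0x10888068602) (nat_lit 0) (p (nat_lit 0x8807860582) (nat_lit 0) (p (nat_lit 0x10607058502)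 (nat_lit 0) (p (nat_lit 0x8586850482) (nat_lit 0) (p (nat_lit 0x160004) (nat_lit 0) (p (nat_lit 0x68612) (nat_lit 0) (p (nat_lit 0x50592) (nat_lit 0) (p (nat_lit 0x40512) (nat_lit 0) (p (nat_lit 0x50312) (nat_lit 0) (p (nat_lit 0x38292) (nat_lit 0) (p (nat_lit 0x28212) (nat_lit 0) (p (nat_lit 0x38112) (nat_lit 0) (p (nat_lit 0x20092) (nat_lit 0) (p (nat_lit 0x10012) (nat_lit 0) pn)))))))))))))))))))))))))) :=
  Cl.node (nat_lit 0x111) (nat_lit 2) (by decide +kernel) (ClAll.succ (ClAll.succ ClAll.zero n157) s51)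

def n195 : Cl (O (nat_lit 6)) (R (nat_lit 14353))
    (p (nat_lit 0xc1) (nat_lit 0) (p (nat_lit 0x81) (nat_lit 1) (p (nat_lit 0x101) (nat_lit 1) (p (nat_lit 0x119) (nat_lit 0) (p (nat_lit 0xd1) (nat_lit 0) (p (nat_lit 0x89) (nat_lit 0) (p (nat_lit 0x41) (nat_lit 0) (p (nat_lit 0x10a0b0a89089a) (nat_lit 0) (p (nat_lit 0x898a8a08881a) (nat_lit 0) (p (nat_lit 0x109088988079a) (nat_lit 0) (p (nat_lit 0x88880907871a) (nat_lit 0) (p (nat_lit 0x8000080000000080887068a) (nat_lit 0) (p (nat_lit 0x10888068602) (nat_lit 0) (p (nat_lit 0x8807860582) (nat_lit 0) (p (nat_lit 0x10607058502) (nat_lit 0) (p (nat_lit 0x8586850482) (nat_lit 0) (p (nat_lit 0x160004) (nat_lit 0) (p (nat_lit 0x68612) (nat_lit 0) (p (nat_lit 0x50592) (nat_lit 0) (p (nat_lit 0x40512) (nat_lit 0) (p (nat_lit 0x50312) (nat_lit 0) (p (nat_lit 0x38292) (nat_lit 0) (p (nat_lit 0x28212) (nat_lit 0) (p (nat_lit 0x38112)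 (nat_lit 0) (p (nat_lit 0x20092) (nat_lit 0) (p (nat_lit 0x10012) (nat_lit 0) pn)))))))))))))))))))))))))) :=
  Cl.node (nat_lit 0xc9) (nat_lit 2) (by decide +kernel) (ClAll.succ (ClAll.succ ClAll.zero n158) n159)

def n196 : Cl (O (nat_lit 6)) (R (nat_lit 14353))
    (p (nat_lit 0x109) (nat_lit 1) (p (nat_lit 0xc9) (nat_lit 1) (p (nat_lit 0xc1) (nat_lit 0) (p (nat_lit 0x119) (nat_lit 1) (p (nat_lit 0xd1) (nat_lit 0) (p (nat_lit 0x89) (nat_lit 0) (p (nat_lit 0x41) (nat_lit 0) (p (nat_lit 0x10a0b0a89089a) (nat_lit 0) (p (nat_lit 0x898a8a08881a) (nat_lit 0) (p (nat_lit 0x109088988079a) (nat_lit 0) (p (nat_lit 0x88880907871a) (nat_lit 0) (p (nat_lit 0x8000080000000080887068a) (nat_lit 0) (p (nat_lit 0x10888068602) (nat_lit 0) (p (nat_lit 0x8807860582) (nat_lit 0) (p (nat_lit 0x10607058502) (nat_lit 0) (p (nat_lit 0x8586850482) (nat_lit 0) (p (nat_lit 0x160004) (nat_lit 0) (p (nat_lit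 0x68612) (nat_lit 0) (p (nat_lit 0x50592) (nat_lit 0) (p (nat_lit 0x40512) (nat_lit 0) (p (nat_lit 0x50312) (nat_lit 0) (p (nat_lit 0x38292) (nat_lit 0) (p (nat_lit 0x28212) (nat_lit 0) (p (nat_lit 0x38112) (nat_lit 0) (p (nat_lit 0x20092) (nat_lit 0) (p (nat_lit 0x10012) (nat_lit 0) pn)))))))))))))))))))))))))) :=
  Cl.node (nat_lit 0x3cc2a) (nat_lit 12) (by decide +kernel) (ClAll.succ (ClAll.succ (ClAll.succ (ClAll.succ (ClAll.succ (ClAll.succ (ClAll.succ (ClAll.succ (ClAll.succ (ClAll.succ (ClAll.succ (ClAll.succ ClAll.zero s85) s86) s87) s88) s89) s90) s91) s92) s93) s94) s95) n160)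

def n197 : Cl (O (nat_lit 6)) (R (nat_lit 14353))
    (p (nat_lit 0x109) (nat_lit 1) (p (nat_lit 0x81) (nat_lit 0) (p (nat_lit 0xc1) (nat_lit 1) (p (nat_lit 0x119) (nat_lit 1) (p (nat_lit 0xd1) (nat_lit 0) (p (nat_lit 0x89) (nat_lit 0) (p (nat_lit 0x41) (nat_lit 0) (p (nat_lit 0x10a0b0a89089a) (nat_lit 0) (p (nat_lit 0x898a8a08881a) (nat_lit 0) (p (nat_lit 0x109088988079a) (nat_lit 0) (p (nat_lit 0x88880907871a) (nat_lit 0) (p (nat_lit 0x8000080000000080887068a) (nat_lit 0) (p (nat_lit 0x10888068602) (nat_lit 0) (p (nat_lit 0x8807860582) (nat_lit 0) (p (nat_lit 0x10607058502) (nat_lit 0) (p (nat_lit 0x8586850482) (nat_lit 0) (p (nat_lit 0x160004) (nat_lit 0) (p (nat_lit 0x68612) (nat_lit 0) (p (nat_lit 0x50592) (nat_lit 0) (p (nat_lit 0x40512) (nat_lit 0) (p (nat_lit 0x50312) (nat_lit 0) (p (nat_lit 0x38292) (nat_lit 0) (p (nat_lit 0x28212) (nat_lit 0) (p (nat_lit 0x38112)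 (nat_lit 0) (p (nat_lit 0x20092) (nat_lit 0) (p (nat_lit 0x10012) (nat_lit 0) pn)))))))))))))))))))))))))) :=
  Cl.node (nat_lit 0x3cc2a) (nat_lit 12) (by decide +kernel) (ClAll.succ (ClAll.succ (ClAll.succ (ClAll.succ (ClAll.succ (ClAll.succ (ClAll.succ (ClAll.succ (ClAll.succ (ClAll.succ (ClAll.succ (ClAll.succ ClAll.zero s99) s100) s101) s102) s103) s104) s105) s106) s107) s108) s109) s110)

def n198 : Cl (O (nat_lit 6)) (R (nat_lit 14353))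
    (p (nat_lit 0x101) (nat_lit 0) (p (nat_lit 0x81) (nat_lit 1) (p (nat_lit 0xc1) (nat_lit 1) (p (nat_lit 0x119) (nat_lit 1) (p (nat_lit 0xd1) (nat_lit 0) (p (nat_lit 0x89) (nat_lit 0) (p (nat_lit 0x41) (nat_lit 0) (p (nat_lit 0x10a0b0a89089a) (nat_lit 0) (p (nat_lit 0x898a8a08881a) (nat_lit 0) (p (nat_lit 0x109088988079a) (nat_lit 0) (p (nat_lit 0x88880907871a) (nat_lit 0) (p (nat_lit 0x8000080000000080887068a) (nat_lit 0) (p (nat_lit 0x10888068602) (nat_lit 0) (p (nat_lit 0x8807860582) (nat_lit 0) (p (nat_lit 0x10607058502) (nat_lit 0) (p (nat_lit 0x8586850482) (nat_lit 0) (p (nat_lit 0x160004) (nat_lit 0) (p (nat_lit 0x68612) (nat_lit 0) (p (nat_lit 0x50592) (nat_lit 0) (p (nat_lit 0x40512) (nat_lit 0) (p (nat_lit 0x50312) (nat_lit 0) (p (nat_lit 0x38292) (nat_lit 0) (p (nat_lit 0x28212) (nat_lit 0) (p (nat_lit 0x38112) (nat_lit 0) (p (nat_lit 0x20092) (nat_lit 0) (p (nat_lit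 0x10012) (nat_lit 0) pn)))))))))))))))))))))))))) :=
  Cl.node (nat_lit 0x109) (nat_lit 2) (by decide +kernel) (ClAll.succ (ClAll.succ ClAll.zero n161) n162)

def n199 : Cl (O (nat_lit 6)) (R (nat_lit 14353))
    (p (nat_lit 0xc1) (nat_lit 1) (p (nat_lit 0x109) (nat_lit 1) (p (nat_lit 0x101) (nat_lit 0) (p (nat_lit 0x111) (nat_lit 0) (p (nat_lit 0xd1) (nat_lit 1) (p (nat_lit 0x89) (nat_lit 0) (p (nat_lit 0x41) (nat_lit 0) (p (nat_lit 0x10a0b0a89089a) (nat_lit 0) (p (nat_lit 0x898a8a08881a) (nat_lit 0) (p (nat_lit 0x109088988079a) (nat_lit 0) (p (nat_lit 0x88880907871a) (nat_lit 0) (p (nat_lit 0x8000080000000080887068a) (nat_lit 0) (p (nat_lit 0x10888068602) (nat_lit 0) (p (nat_lit 0x8807860582) (nat_lit 0) (p (nat_lit 0x10607058502) (nat_lit 0) (p (nat_lit 0x8586850482) (nat_lit 0) (p (nat_lit 0x160004) (nat_lit 0) (p (nat_lit 0x68612) (nat_lit 0) (p (nat_lit 0x50592) (nat_lit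 0) (p (nat_lit 0x40512) (nat_lit 0) (p (nat_lit 0x50312) (nat_lit 0) (p (nat_lit 0x38292) (nat_lit 0) (p (nat_lit 0x28212) (nat_lit 0) (p (nat_lit 0x38112) (nat_lit 0) (p (nat_lit 0x20092) (nat_lit 0) (p (nat_lit 0x10012) (nat_lit 0) pn)))))))))))))))))))))))))) :=
  Cl.node (nat_lit 0x20000c) (nat_lit 2) (by decide +kernel) (ClAll.succ (ClAll.succ ClAll.zero n163) s189)

def n200 : Cl (O (nat_lit 6)) (R (nat_lit 14353))
    (p (nat_lit 0x119) (nat_lit 0) (p (nat_lit 0x81) (nat_lit 0) (p (nat_lit 0x101) (nat_lit 1) (p (nat_lit 0x111) (nat_lit 0) (p (nat_lit 0xd1) (nat_lit 1) (p (nat_lit 0x89) (nat_lit 0) (p (nat_lit 0x41) (nat_lit 0) (p (nat_lit 0x10a0b0a89089a) (nat_lit 0) (p (nat_lit 0x898a8a08881a) (nat_lit 0) (p (nat_lit 0x109088988079a) (nat_lit 0) (p (nat_lit 0x88880907871a) (nat_lit 0) (p (nat_lit 0x8000080000000080887068a) (nat_lit 0) (p (nat_lit 0x10888068602) (nat_lit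 0) (p (nat_lit 0x8807860582) (nat_lit 0) (p (nat_lit 0x10607058502) (nat_lit 0) (p (nat_lit 0x8586850482) (nat_lit 0) (p (nat_lit 0x160004) (nat_lit 0) (p (nat_lit 0x68612) (nat_lit 0) (p (nat_lit 0x50592) (nat_lit 0) (p (nat_lit 0x40512) (nat_lit 0) (p (nat_lit 0x50312) (nat_lit 0) (p (nat_lit 0x38292) (nat_lit 0) (p (nat_lit 0x28212) (nat_lit 0) (p (nat_lit 0x38112) (nat_lit 0) (p (nat_lit 0x20092) (nat_lit 0) (p (nat_lit 0x10012) (nat_lit 0) pn)))))))))))))))))))))))))) :=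
  Cl.node (nat_lit 0x20000c) (nat_lit 2) (by decide +kernel) (ClAll.succ (ClAll.succ ClAll.zero n164) s204)

def n201 : Cl (O (nat_lit 6)) (R (nat_lit 14353))
    (p (nat_lit 0xc1) (nat_lit 0) (p (nat_lit 0x81) (nat_lit 1) (p (nat_lit 0x101) (nat_lit 1) (p (nat_lit 0x111) (nat_lit 0) (p (nat_lit 0xd1) (nat_lit 1) (p (nat_lit 0x89) (nat_lit 0) (p (nat_lit 0x41) (nat_lit 0) (p (nat_lit 0x10a0b0a89089a) (nat_lit 0) (p (nat_lit 0x898a8a08881a) (nat_lit 0) (p (nat_lit 0x109088988079a) (nat_lit 0) (p (nat_lit 0x88880907871a) (nat_lit 0) (p (nat_lit 0x8000080000000080887068a) (nat_lit 0) (p (nat_lit 0x10888068602) (nat_lit 0) (p (nat_lit 0x8807860582) (nat_lit 0) (p (nat_lit 0x10607058502) (nat_lit 0) (p (nat_lit 0x8586850482) (nat_lit 0) (p (nat_lit 0x160004) (nat_lit 0) (p (nat_lit 0x68612) (nat_lit 0) (p (nat_lit 0x50592) (nat_lit 0) (p (nat_lit 0x40512) (nat_lit 0) (p (nat_lit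 0x50312) (nat_lit 0) (p (nat_lit 0x38292) (nat_lit 0) (p (nat_lit 0x28212) (nat_lit 0) (p (nat_lit 0x38112) (nat_lit 0) (p (nat_lit 0x20092) (nat_lit 0) (p (nat_lit 0x10012) (nat_lit 0) pn)))))))))))))))))))))))))) :=
  Cl.node (nat_lit 0x119) (nat_lit 2) (by decide +kernel) (ClAll.succ (ClAll.succ ClAll.zero n165) n166)

def n202 : Cl (O (nat_lit 6)) (R (nat_lit 14353))
    (p (nat_lit 0x101) (nat_lit 0) (p (nat_lit 0xc1) (nat_lit 1) (p (nat_lit 0x81) (nat_lit 1) (p (nat_lit 0x111) (nat_lit 1) (p (nat_lit 0xd1) (nat_lit 1) (p (nat_lit 0x89) (nat_lit 0) (p (nat_lit 0x41) (nat_lit 0) (p (nat_lit 0x10a0b0a89089a) (nat_lit 0) (p (nat_lit 0x898a8a08881a) (nat_lit 0) (p (nat_lit 0x109088988079a) (nat_lit 0) (p (nat_lit 0x88880907871a) (nat_lit 0) (p (nat_lit 0x8000080000000080887068a) (nat_lit 0) (p (nat_lit 0x10888068602) (nat_lit 0) (p (nat_lit 0x8807860582) (nat_lit 0) (p (nat_lit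 0x10607058502) (nat_lit 0) (p (nat_lit 0x8586850482) (nat_lit 0) (p (nat_lit 0x160004) (nat_lit 0) (p (nat_lit 0x68612) (nat_lit 0) (p (nat_lit 0x50592) (nat_lit 0) (p (nat_lit 0x40512) (nat_lit 0) (p (nat_lit 0x50312) (nat_lit 0) (p (nat_lit 0x38292) (nat_lit 0) (p (nat_lit 0x28212) (nat_lit 0) (p (nat_lit 0x38112) (nat_lit 0) (p (nat_lit 0x20092) (nat_lit 0) (p (nat_lit 0x10012) (nat_lit 0) pn)))))))))))))))))))))))))) :=
  Cl.node (nat_lit 0x3cc2a) (nat_lit 12) (by decide +kernel) (ClAll.succ (ClAll.succ (ClAll.succ (ClAll.succ (ClAll.succ (ClAll.succ (ClAll.succ (ClAll.succ (ClAll.succ (ClAll.succ (ClAll.succ (ClAll.succ ClAll.zero s234) s235) s236) s237) s238) s239) s240) s241) s242) s243) s244) s245)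

def n203 : Cl (O (nat_lit 6)) (R (nat_lit 14353))
    (p (nat_lit 0x101) (nat_lit 1) (p (nat_lit 0xc1) (nat_lit 1) (p (nat_lit 0x81) (nat_lit 1) (p (nat_lit 0x111) (nat_lit 1) (p (nat_lit 0xd1) (nat_lit 1) (p (nat_lit 0x89) (nat_lit 0) (p (nat_lit 0x41) (nat_lit 0) (p (nat_lit 0x10a0b0a89089a) (nat_lit 0) (p (nat_lit 0x898a8a08881a) (nat_lit 0) (p (nat_lit 0x109088988079a) (nat_lit 0) (p (nat_lit 0x88880907871a) (nat_lit 0) (p (nat_lit 0x8000080000000080887068a) (nat_lit 0) (p (nat_lit 0x10888068602) (nat_lit 0) (p (nat_lit 0x8807860582) (nat_lit 0) (p (nat_lit 0x10607058502) (nat_lit 0) (p (nat_lit 0x8586850482) (nat_lit 0) (p (nat_lit 0x160004) (nat_lit 0) (p (nat_lit 0x68612) (nat_lit 0) (p (nat_lit 0x50592) (nat_lit 0) (p (nat_lit 0x40512) (nat_lit 0) (p (nat_lit 0x50312) (nat_lit 0) (p (nat_lit 0x38292) (nat_lit 0) (p (nat_lit 0x28212) (nat_lit 0) (p (nat_lit 0x38112)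 (nat_lit 0) (p (nat_lit 0x20092) (nat_lit 0) (p (nat_lit 0x10012) (nat_lit 0) pn)))))))))))))))))))))))))) :=
  Cl.node (nat_lit 0x444aa) (nat_lit 12) (by decide +kernel) (ClAll.succ (ClAll.succ (ClAll.succ (ClAll.succ (ClAll.succ (ClAll.succ (ClAll.succ (ClAll.succ (ClAll.succ (ClAll.succ (ClAll.succ (ClAll.succ ClAll.zero s246) s247) s248) s249) s250) s251) s252) s253) s254) s255) s256) s257)

def n204 : Cl (O (nat_lit 6)) (R (nat_lit 14353))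
    (p (nat_lit 0x111) (nat_lit 1) (p (nat_lit 0x109) (nat_lit 0) (p (nat_lit 0x101) (nat_lit 0) (p (nat_lit 0x119) (nat_lit 0) (p (nat_lit 0xc9) (nat_lit 0) (p (nat_lit 0x89) (nat_lit 1) (p (nat_lit 0x41) (nat_lit 0) (p (nat_lit 0x10a0b0a89089a) (nat_lit 0) (p (nat_lit 0x898a8a08881a) (nat_lit 0) (p (nat_lit 0x109088988079a) (nat_lit 0) (p (nat_lit 0x88880907871a) (nat_lit 0) (p (nat_lit 0x8000080000000080887068a) (nat_lit 0) (p (nat_lit 0x10888068602) (nat_lit 0) (p (nat_lit 0x8807860582) (nat_lit 0) (p (nat_lit 0x10607058502) (nat_lit 0) (p (nat_lit 0x8586850482) (nat_lit 0) (p (nat_lit 0x160004) (nat_lit 0) (p (nat_lit 0x68612) (nat_lit 0) (p (nat_lit 0x50592) (nat_lit 0) (p (nat_lit 0x40512) (nat_lit 0) (p (nat_lit 0x50312) (nat_lit 0) (p (nat_lit 0x38292) (nat_lit 0) (p (nat_lit 0x28212) (nat_lit 0) (p (nat_lit 0x38112) (nat_lit 0) (p (nat_lit 0x20092) (nat_lit 0) (p (nat_lit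 0x10012) (nat_lit 0) pn)))))))))))))))))))))))))) :=
  Cl.node (nat_lit 0xd1) (nat_lit 2) (by decide +kernel) (ClAll.succ (ClAll.succ ClAll.zero s259) n167)

def n205 : Cl (O (nat_lit 6)) (R (nat_lit 14353))
    (p (nat_lit 0xd1) (nat_lit 0) (p (nat_lit 0x109) (nat_lit 1) (p (nat_lit 0x101) (nat_lit 0) (p (nat_lit 0x119) (nat_lit 0) (p (nat_lit 0xc9) (nat_lit 0) (p (nat_lit 0x89) (nat_lit 1) (p (nat_lit 0x41) (nat_lit 0) (p (nat_lit 0x10a0b0a89089a) (nat_lit 0) (p (nat_lit 0x898a8a08881a) (nat_lit 0) (p (nat_lit 0x109088988079a) (nat_lit 0) (p (nat_lit 0x88880907871a) (nat_lit 0) (p (nat_lit 0x8000080000000080887068a) (nat_lit 0) (p (nat_lit 0x10888068602) (nat_lit 0) (p (nat_lit 0x8807860582) (nat_lit 0) (p (nat_lit 0x10607058502) (nat_lit 0) (p (nat_lit 0x8586850482) (nat_lit 0) (p (nat_lit 0x160004) (nat_lit 0) (p (nat_lit 0x68612) (nat_lit 0) (p (nat_lit 0x50592) (nat_lit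 0) (p (nat_lit 0x40512) (nat_lit 0) (p (nat_lit 0x50312) (nat_lit 0) (p (nat_lit 0x38292) (nat_lit 0) (p (nat_lit 0x28212) (nat_lit 0) (p (nat_lit 0x38112) (nat_lit 0) (p (nat_lit 0x20092) (nat_lit 0) (p (nat_lit 0x10012) (nat_lit 0) pn)))))))))))))))))))))))))) :=
  Cl.node (nat_lit 0x20000c) (nat_lit 2) (by decide +kernel) (ClAll.succ (ClAll.succ ClAll.zero n168) s300)

def n206 : Cl (O (nat_lit 6)) (R (nat_lit 14353))
    (p (nat_lit 0xd1) (nat_lit 1) (p (nat_lit 0x109) (nat_lit 1) (p (nat_lit 0x101) (nat_lit 0) (p (nat_lit 0x119) (nat_lit 0) (p (nat_lit 0xc9) (nat_lit 0) (p (nat_lit 0x89) (nat_lit 1) (p (nat_lit 0x41) (nat_lit 0) (p (nat_lit 0x10a0b0a89089a) (nat_lit 0) (p (nat_lit 0x898a8a08881a) (nat_lit 0) (p (nat_lit 0x109088988079a) (nat_lit 0) (p (nat_lit 0x88880907871a) (nat_lit 0) (p (nat_lit 0x8000080000000080887068a) (nat_lit 0) (p (nat_lit 0x10888068602) (nat_lit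 0) (p (nat_lit 0x8807860582) (nat_lit 0) (p (nat_lit 0x10607058502) (nat_lit 0) (p (nat_lit 0x8586850482) (nat_lit 0) (p (nat_lit 0x160004) (nat_lit 0) (p (nat_lit 0x68612) (nat_lit 0) (p (nat_lit 0x50592) (nat_lit 0) (p (nat_lit 0x40512) (nat_lit 0) (p (nat_lit 0x50312) (nat_lit 0) (p (nat_lit 0x38292) (nat_lit 0) (p (nat_lit 0x28212) (nat_lit 0) (p (nat_lit 0x38112) (nat_lit 0) (p (nat_lit 0x20092) (nat_lit 0) (p (nat_lit 0x10012) (nat_lit 0) pn)))))))))))))))))))))))))) :=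
  Cl.node (nat_lit 0x444aa) (nat_lit 12) (by decide +kernel) (ClAll.succ (ClAll.succ (ClAll.succ (ClAll.succ (ClAll.succ (ClAll.succ (ClAll.succ (ClAll.succ (ClAll.succ (ClAll.succ (ClAll.succ (ClAll.succ ClAll.zero s301) s302) s303) s304) s305) s306) s307) n169) s319) s320) s321) s322)

def n207 : Cl (O (nat_lit 6)) (R (nat_lit 14353))
    (p (nat_lit 0xd1) (nat_lit 0) (p (nat_lit 0xc1) (nat_lit 0) (p (nat_lit 0x101) (nat_lit 1) (p (nat_lit 0x119) (nat_lit 0) (p (nat_lit 0xc9) (nat_lit 0) (p (nat_lit 0x89) (nat_lit 1) (p (nat_lit 0x41) (nat_lit 0) (p (nat_lit 0x10a0b0a89089a) (nat_lit 0) (p (nat_lit 0x898a8a08881a) (nat_lit 0) (p (nat_lit 0x109088988079a) (nat_lit 0) (p (nat_lit 0x88880907871a) (nat_lit 0) (p (nat_lit 0x8000080000000080887068a) (nat_lit 0) (p (nat_lit 0x10888068602) (nat_lit 0) (p (nat_lit 0x8807860582) (nat_lit 0) (p (nat_lit 0x10607058502) (nat_lit 0) (p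 (nat_lit 0x8586850482) (nat_lit 0) (p (nat_lit 0x160004) (nat_lit 0) (p (nat_lit 0x68612) (nat_lit 0) (p (nat_lit 0x50592) (nat_lit 0) (p (nat_lit 0x40512) (nat_lit 0) (p (nat_lit 0x50312) (nat_lit 0) (p (nat_lit 0x38292) (nat_lit 0) (p (nat_lit 0x28212) (nat_lit 0) (p (nat_lit 0x38112) (nat_lit 0) (p (nat_lit 0x20092) (nat_lit 0) (p (nat_lit 0x10012) (nat_lit 0) pn)))))))))))))))))))))))))) :=
  Cl.node (nat_lit 0x20000c) (nat_lit 2) (by decide +kernel) (ClAll.succ (ClAll.succ ClAll.zero n170) s325)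

def n208 : Cl (O (nat_lit 6)) (R (nat_lit 14353))
    (p (nat_lit 0xd1) (nat_lit 1) (p (nat_lit 0xc1) (nat_lit 0) (p (nat_lit 0x101) (nat_lit 1) (p (nat_lit 0x119) (nat_lit 0) (p (nat_lit 0xc9) (nat_lit 0) (p (nat_lit 0x89) (nat_lit 1) (p (nat_lit 0x41) (nat_lit 0) (p (nat_lit 0x10a0b0a89089a) (nat_lit 0) (p (nat_lit 0x898a8a08881a) (nat_lit 0) (p (nat_lit 0x109088988079a) (nat_lit 0) (p (nat_lit 0x88880907871a) (nat_lit 0) (p (nat_lit 0x8000080000000080887068a) (nat_lit 0) (p (nat_lit 0x10888068602) (nat_lit 0) (p (nat_lit 0x8807860582) (nat_lit 0) (p (nat_lit 0x10607058502) (nat_lit 0) (p (nat_lit 0x8586850482) (nat_lit 0) (p (nat_lit 0x160004) (nat_lit 0) (p (nat_lit 0x68612) (nat_lit 0) (p (nat_lit 0x50592) (nat_lit 0) (p (nat_lit 0x40512) (nat_lit 0) (p (nat_lit 0x50312) (nat_lit 0) (p (nat_lit 0x38292) (nat_lit 0) (p (nat_lit 0x28212) (nat_lit 0) (p (nat_lit 0x38112)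 (nat_lit 0) (p (nat_lit 0x20092) (nat_lit 0) (p (nat_lit 0x10012) (nat_lit 0) pn)))))))))))))))))))))))))) :=
  Cl.node (nat_lit 0x444aa) (nat_lit 12) (by decide +kernel) (ClAll.succ (ClAll.succ (ClAll.succ (ClAll.succ (ClAll.succ (ClAll.succ (ClAll.succ (ClAll.succ (ClAll.succ (ClAll.succ (ClAll.succ (ClAll.succ ClAll.zero s326) s327) s328) s329) s330) s331) s332) n171) s335) s336) s337) s338)

def n209 : Cl (O (nat_lit 6)) (R (nat_lit 14353))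
    (p (nat_lit 0x111) (nat_lit 1) (p (nat_lit 0xd1) (nat_lit 1) (p (nat_lit 0xc1) (nat_lit 0) (p (nat_lit 0x119) (nat_lit 1) (p (nat_lit 0xc9) (nat_lit 0) (p (nat_lit 0x89) (nat_lit 1) (p (nat_lit 0x41) (nat_lit 0) (p (nat_lit 0x10a0b0a89089a) (nat_lit 0) (p (nat_lit 0x898a8a08881a) (nat_lit 0) (p (nat_lit 0x109088988079a) (nat_lit 0) (p (nat_lit 0x88880907871a) (nat_lit 0) (p (nat_lit 0x8000080000000080887068a) (nat_lit 0) (p (nat_lit 0x10888068602) (nat_lit 0) (p (nat_lit 0x8807860582) (nat_lit 0) (p (nat_lit 0x10607058502) (nat_lit 0) (p (nat_lit 0x8586850482) (nat_lit 0) (p (nat_lit 0x160004) (nat_lit 0) (p (nat_lit 0x68612) (nat_lit 0) (p (nat_lit 0x50592) (nat_lit 0) (p (nat_lit 0x40512) (nat_lit 0) (p (nat_lit 0x50312) (nat_lit 0) (p (nat_lit 0x38292) (nat_lit 0) (p (nat_lit 0x28212) (nat_lit 0) (p (nat_lit 0x38112) (nat_lit 0) (p (nat_lit 0x20092) (nat_lit 0) (p (nat_lit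 0x10012) (nat_lit 0) pn)))))))))))))))))))))))))) :=
  Cl.node (nat_lit 0x444aa) (nat_lit 12) (by decide +kernel) (ClAll.succ (ClAll.succ (ClAll.succ (ClAll.succ (ClAll.succ (ClAll.succ (ClAll.succ (ClAll.succ (ClAll.succ (ClAll.succ (ClAll.succ (ClAll.succ ClAll.zero s342) s343) s344) s345) s346) s347) s348) n172) n173) s360) s361) s362)

def n210 : Cl (O (nat_lit 6)) (R (nat_lit 14353))
    (p (nat_lit 0x111) (nat_lit 0) (p (nat_lit 0x101) (nat_lit 0) (p (nat_lit 0xc1) (nat_lit 1) (p (nat_lit 0x119) (nat_lit 1) (p (nat_lit 0xc9) (nat_lit 0) (p (nat_lit 0x89) (nat_lit 1) (p (nat_lit 0x41) (nat_lit 0) (p (nat_lit 0x10a0b0a89089a) (nat_lit 0) (p (nat_lit 0x898a8a08881a) (nat_lit 0) (p (nat_lit 0x109088988079a) (nat_lit 0) (p (nat_lit 0x88880907871a) (nat_lit 0) (p (nat_lit 0x8000080000000080887068a) (nat_lit 0) (p (nat_lit 0x10888068602) (nat_lit 0) (p (nat_lit 0x8807860582)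 (nat_lit 0) (p (nat_lit 0x10607058502) (nat_lit 0) (p (nat_lit 0x8586850482) (nat_lit 0) (p (nat_lit 0x160004) (nat_lit 0) (p (nat_lit 0x68612) (nat_lit 0) (p (nat_lit 0x50592) (nat_lit 0) (p (nat_lit 0x40512) (nat_lit 0) (p (nat_lit 0x50312) (nat_lit 0) (p (nat_lit 0x38292) (nat_lit 0) (p (nat_lit 0x28212) (nat_lit 0) (p (nat_lit 0x38112) (nat_lit 0) (p (nat_lit 0x20092) (nat_lit 0) (p (nat_lit 0x10012) (nat_lit 0) pn)))))))))))))))))))))))))) :=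
  Cl.node (nat_lit 0x44c2a) (nat_lit 12) (by decide +kernel) (ClAll.succ (ClAll.succ (ClAll.succ (ClAll.succ (ClAll.succ (ClAll.succ (ClAll.succ (ClAll.succ (ClAll.succ (ClAll.succ (ClAll.succ (ClAll.succ ClAll.zero s363) s364) s365) s366) s367) s368) s369) s370) s371) s372) s373) s374)

def n211 : Cl (O (nat_lit 6)) (R (nat_lit 14353))
    (p (nat_lit 0x111) (nat_lit 1) (p (nat_lit 0x101) (nat_lit 0) (p (nat_lit 0xc1) (nat_lit 1) (p (nat_lit 0x119) (nat_lit 1) (p (nat_lit 0xc9) (nat_lit 0) (p (nat_lit 0x89) (nat_lit 1) (p (nat_lit 0x41) (nat_lit 0) (p (nat_lit 0x10a0b0a89089a) (nat_lit 0) (p (nat_lit 0x898a8a08881a) (nat_lit 0) (p (nat_lit 0x109088988079a) (nat_lit 0) (p (nat_lit 0x88880907871a) (nat_lit 0) (p (nat_lit 0x8000080000000080887068a) (nat_lit 0) (p (nat_lit 0x10888068602) (nat_lit 0) (p (nat_lit 0x8807860582) (nat_lit 0) (p (nat_lit 0x10607058502) (nat_lit 0) (p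 (nat_lit 0x8586850482) (nat_lit 0) (p (nat_lit 0x160004) (nat_lit 0) (p (nat_lit 0x68612) (nat_lit 0) (p (nat_lit 0x50592) (nat_lit 0) (p (nat_lit 0x40512) (nat_lit 0) (p (nat_lit 0x50312) (nat_lit 0) (p (nat_lit 0x38292) (nat_lit 0) (p (nat_lit 0x28212) (nat_lit 0) (p (nat_lit 0x38112) (nat_lit 0) (p (nat_lit 0x20092) (nat_lit 0) (p (nat_lit 0x10012) (nat_lit 0) pn)))))))))))))))))))))))))) :=
  Cl.node (nat_lit 0x444aa) (nat_lit 12) (by decide +kernel) (ClAll.succ (ClAll.succ (ClAll.succ (ClAll.succ (ClAll.succ (ClAll.succ (ClAll.succ (ClAll.succ (ClAll.succ (ClAll.succ (ClAll.succ (ClAll.succ ClAll.zero s375) s376) s377) s378) s379) s380) s381) n174) n175) s410) s411) s412)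

def n212 : Cl (O (nat_lit 6)) (R (nat_lit 14353))
    (p (nat_lit 0x89) (nat_lit 0) (p (nat_lit 0x109) (nat_lit 1) (p (nat_lit 0x101) (nat_lit 0) (p (nat_lit 0x119) (nat_lit 0) (p (nat_lit 0xd1) (nat_lit 0) (p (nat_lit 0x81) (nat_lit 0) (p (nat_lit 0x41) (nat_lit 1) (p (nat_lit 0x10a0b0a89089a) (nat_lit 0) (p (nat_lit 0x898a8a08881a) (nat_lit 0) (p (nat_lit 0x109088988079a) (nat_lit 0) (p (nat_lit 0x88880907871a) (nat_lit 0) (p (nat_lit 0x8000080000000080887068a) (nat_lit 0) (p (nat_lit 0x10888068602) (nat_lit 0) (p (nat_lit 0x8807860582) (nat_lit 0) (p (nat_lit 0x10607058502) (nat_lit 0) (p (nat_lit 0x8586850482) (nat_lit 0) (p (nat_lit 0x160004) (nat_lit 0) (p (nat_lit 0x68612) (nat_lit 0) (p (nat_lit 0x50592) (nat_lit 0) (p (nat_lit 0x40512) (nat_lit 0) (p (nat_lit 0x50312) (nat_lit 0) (p (nat_lit 0x38292) (nat_lit 0) (p (nat_lit 0x28212) (nat_lit 0) (p (nat_lit 0x38112)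 (nat_lit 0) (p (nat_lit 0x20092) (nat_lit 0) (p (nat_lit 0x10012) (nat_lit 0) pn)))))))))))))))))))))))))) :=
  Cl.node (nat_lit 0x111) (nat_lit 2) (by decide +kernel) (ClAll.succ (ClAll.succ ClAll.zero s417) n176)

def n213 : Cl (O (nat_lit 6)) (R (nat_lit 14353))
    (p (nat_lit 0x89) (nat_lit 1) (p (nat_lit 0x109) (nat_lit 1) (p (nat_lit 0x101) (nat_lit 0) (p (nat_lit 0x119) (nat_lit 0) (p (nat_lit 0xd1) (nat_lit 0) (p (nat_lit 0x81) (nat_lit 0) (p (nat_lit 0x41) (nat_lit 1) (p (nat_lit 0x10a0b0a89089a) (nat_lit 0) (p (nat_lit 0x898a8a08881a) (nat_lit 0) (p (nat_lit 0x109088988079a) (nat_lit 0) (p (nat_lit 0x88880907871a) (nat_lit 0) (p (nat_lit 0x8000080000000080887068a) (nat_lit 0) (p (nat_lit 0x10888068602) (nat_lit 0) (p (nat_lit 0x8807860582) (nat_lit 0) (p (nat_lit 0x10607058502) (nat_lit 0) (p (nat_lit 0x8586850482) (nat_lit 0) (p (nat_lit 0x160004) (nat_lit 0) (p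 (nat_lit 0x68612) (nat_lit 0) (p (nat_lit 0x50592) (nat_lit 0) (p (nat_lit 0x40512) (nat_lit 0) (p (nat_lit 0x50312) (nat_lit 0) (p (nat_lit 0x38292) (nat_lit 0) (p (nat_lit 0x28212) (nat_lit 0) (p (nat_lit 0x38112) (nat_lit 0) (p (nat_lit 0x20092) (nat_lit 0) (p (nat_lit 0x10012) (nat_lit 0) pn)))))))))))))))))))))))))) :=
  Cl.node (nat_lit 0xc9) (nat_lit 2) (by decide +kernel) (ClAll.succ (ClAll.succ ClAll.zero n177) s442)

def n214 : Cl (O (nat_lit 6)) (R (nat_lit 14353))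
    (p (nat_lit 0x89) (nat_lit 1) (p (nat_lit 0xc1) (nat_lit 0) (p (nat_lit 0x101) (nat_lit 1) (p (nat_lit 0x119) (nat_lit 0) (p (nat_lit 0xd1) (nat_lit 0) (p (nat_lit 0x81) (nat_lit 0) (p (nat_lit 0x41) (nat_lit 1) (p (nat_lit 0x10a0b0a89089a) (nat_lit 0) (p (nat_lit 0x898a8a08881a) (nat_lit 0) (p (nat_lit 0x109088988079a) (nat_lit 0) (p (nat_lit 0x88880907871a) (nat_lit 0) (p (nat_lit 0x8000080000000080887068a) (nat_lit 0) (p (nat_lit 0x10888068602) (nat_lit 0) (p (nat_lit 0x8807860582) (nat_lit 0) (p (nat_lit 0x10607058502) (nat_lit 0) (p (nat_lit 0x8586850482) (nat_lit 0) (p (nat_lit 0x160004) (nat_lit 0) (p (nat_lit 0x68612) (nat_lit 0) (p (nat_lit 0x50592) (nat_lit 0) (p (nat_lit 0x40512) (nat_lit 0) (p (nat_lit 0x50312) (nat_lit 0) (p (nat_lit 0x38292) (nat_lit 0) (p (nat_lit 0x28212) (nat_lit 0) (p (nat_lit 0x38112) (nat_lit 0) (p (nat_lit 0x20092) (nat_lit 0) (p (nat_lit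 0x10012) (nat_lit 0) pn)))))))))))))))))))))))))) :=
  Cl.node (nat_lit 0xc9) (nat_lit 2) (by decide +kernel) (ClAll.succ (ClAll.succ ClAll.zero n178) s456)

def n215 : Cl (O (nat_lit 6)) (R (nat_lit 14353))
    (p (nat_lit 0x89) (nat_lit 1) (p (nat_lit 0xc1) (nat_lit 1) (p (nat_lit 0x101) (nat_lit 1) (p (nat_lit 0x119) (nat_lit 0) (p (nat_lit 0xd1) (nat_lit 0) (p (nat_lit 0x81) (nat_lit 0) (p (nat_lit 0x41) (nat_lit 1) (p (nat_lit 0x10a0b0a89089a) (nat_lit 0) (p (nat_lit 0x898a8a08881a) (nat_lit 0) (p (nat_lit 0x109088988079a) (nat_lit 0) (p (nat_lit 0x88880907871a) (nat_lit 0) (p (nat_lit 0x8000080000000080887068a) (nat_lit 0) (p (nat_lit 0x10888068602) (nat_lit 0) (p (nat_lit 0x8807860582) (nat_lit 0) (p (nat_lit 0x10607058502) (nat_lit 0) (p (nat_lit 0x8586850482) (nat_lit 0) (p (nat_lit 0x160004) (nat_lit 0) (p (nat_lit 0x68612) (nat_lit 0) (p (nat_lit 0x50592) (nat_lit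 0) (p (nat_lit 0x40512) (nat_lit 0) (p (nat_lit 0x50312) (nat_lit 0) (p (nat_lit 0x38292) (nat_lit 0) (p (nat_lit 0x28212) (nat_lit 0) (p (nat_lit 0x38112) (nat_lit 0) (p (nat_lit 0x20092) (nat_lit 0) (p (nat_lit 0x10012) (nat_lit 0) pn)))))))))))))))))))))))))) :=
  Cl.node (nat_lit 0x3c4aa) (nat_lit 12) (by decide +kernel) (ClAll.succ (ClAll.succ (ClAll.succ (ClAll.succ (ClAll.succ (ClAll.succ (ClAll.succ (ClAll.succ (ClAll.succ (ClAll.succ (ClAll.succ (ClAll.succ ClAll.zero s458) s459) s460) s461) s462) s463) s464) n179) s467) s468) s469) s470)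

def n216 : Cl (O (nat_lit 6)) (R (nat_lit 14353))
    (p (nat_lit 0x89) (nat_lit 1) (p (nat_lit 0xc9) (nat_lit 1) (p (nat_lit 0xc1) (nat_lit 0) (p (nat_lit 0x119) (nat_lit 1) (p (nat_lit 0xd1) (nat_lit 0) (p (nat_lit 0x81) (nat_lit 0) (p (nat_lit 0x41) (nat_lit 1) (p (nat_lit 0x10a0b0a89089a) (nat_lit 0) (p (nat_lit 0x898a8a08881a) (nat_lit 0) (p (nat_lit 0x109088988079a) (nat_lit 0) (p (nat_lit 0x88880907871a) (nat_lit 0) (p (nat_lit 0x8000080000000080887068a) (nat_lit 0) (p (nat_lit 0x10888068602) (nat_lit 0) (p (nat_lit 0x8807860582) (nat_lit 0) (p (nat_lit 0x10607058502) (nat_lit 0) (p (nat_lit 0x8586850482) (nat_lit 0) (p (nat_lit 0x160004) (nat_lit 0) (p (nat_lit 0x68612) (nat_lit 0) (p (nat_lit 0x50592) (nat_lit 0) (p (nat_lit 0x40512) (nat_lit 0) (p (nat_lit 0x50312) (nat_lit 0) (p (nat_lit 0x38292) (nat_lit 0) (p (nat_lit 0x28212) (nat_lit 0) (p (nat_lit 0x38112) (nat_lit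 0) (p (nat_lit 0x20092) (nat_lit 0) (p (nat_lit 0x10012) (nat_lit 0) pn)))))))))))))))))))))))))) :=
  Cl.node (nat_lit 0x109) (nat_lit 2) (by decide +kernel) (ClAll.succ (ClAll.succ ClAll.zero n180) s485)

def n217 : Cl (O (nat_lit 6)) (R (nat_lit 14353))
    (p (nat_lit 0x89) (nat_lit 1) (p (nat_lit 0x101) (nat_lit 0) (p (nat_lit 0xc1) (nat_lit 1) (p (nat_lit 0x119) (nat_lit 1) (p (nat_lit 0xd1) (nat_lit 0) (p (nat_lit 0x81) (nat_lit 0) (p (nat_lit 0x41) (nat_lit 1) (p (nat_lit 0x10a0b0a89089a) (nat_lit 0) (p (nat_lit 0x898a8a08881a) (nat_lit 0) (p (nat_lit 0x109088988079a) (nat_lit 0) (p (nat_lit 0x88880907871a) (nat_lit 0) (p (nat_lit 0x8000080000000080887068a) (nat_lit 0) (p (nat_lit 0x10888068602) (nat_lit 0) (p (nat_lit 0x8807860582) (nat_lit 0) (p (nat_lit 0x10607058502) (nat_lit 0) (p (nat_lit 0x8586850482) (nat_lit 0) (p (nat_lit 0x160004) (nat_lit 0) (p (nat_lit 0x68612)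 (nat_lit 0) (p (nat_lit 0x50592) (nat_lit 0) (p (nat_lit 0x40512) (nat_lit 0) (p (nat_lit 0x50312) (nat_lit 0) (p (nat_lit 0x38292) (nat_lit 0) (p (nat_lit 0x28212) (nat_lit 0) (p (nat_lit 0x38112) (nat_lit 0) (p (nat_lit 0x20092) (nat_lit 0) (p (nat_lit 0x10012) (nat_lit 0) pn)))))))))))))))))))))))))) :=
  Cl.node (nat_lit 0x109) (nat_lit 2) (by decide +kernel) (ClAll.succ (ClAll.succ ClAll.zero n181) n182)

def n218 : Cl (O (nat_lit 6)) (R (nat_lit 14353))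
    (p (nat_lit 0x89) (nat_lit 1) (p (nat_lit 0x101) (nat_lit 1) (p (nat_lit 0xc1) (nat_lit 1) (p (nat_lit 0x119) (nat_lit 1) (p (nat_lit 0xd1) (nat_lit 0) (p (nat_lit 0x81) (nat_lit 0) (p (nat_lit 0x41) (nat_lit 1) (p (nat_lit 0x10a0b0a89089a) (nat_lit 0) (p (nat_lit 0x898a8a08881a) (nat_lit 0) (p (nat_lit 0x109088988079a) (nat_lit 0) (p (nat_lit 0x88880907871a) (nat_lit 0) (p (nat_lit 0x8000080000000080887068a) (nat_lit 0) (p (nat_lit 0x10888068602) (nat_lit 0) (p (nat_lit 0x8807860582) (nat_lit 0) (p (nat_lit 0x10607058502) (nat_lit 0) (p (nat_lit 0x8586850482) (nat_lit 0) (p (nat_lit 0x160004) (nat_lit 0) (p (nat_lit 0x68612) (nat_lit 0) (p (nat_lit 0x50592) (nat_lit 0) (p (nat_lit 0x40512) (nat_lit 0) (p (nat_lit 0x50312) (nat_lit 0) (p (nat_lit 0x38292) (nat_lit 0) (p (nat_lit 0x28212) (nat_lit 0) (p (nat_lit 0x38112) (nat_lit 0) (p (nat_lit 0x20092) (nat_lit 0) (p (nat_lit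 0x10012) (nat_lit 0) pn)))))))))))))))))))))))))) :=
  Cl.node (nat_lit 0x3c4aa) (nat_lit 12) (by decide +kernel) (ClAll.succ (ClAll.succ (ClAll.succ (ClAll.succ (ClAll.succ (ClAll.succ (ClAll.succ (ClAll.succ (ClAll.succ (ClAll.succ (ClAll.succ (ClAll.succ ClAll.zero s514) s515) s516) s517) s518) s519) s520) n183) s523) s524) s525) s526)

def n219 : Cl (O (nat_lit 6)) (R (nat_lit 14353))
    (p (nat_lit 0x89) (nat_lit 1) (p (nat_lit 0x109) (nat_lit 1) (p (nat_lit 0x101) (nat_lit 0) (p (nat_lit 0x111) (nat_lit 0) (p (nat_lit 0xd1) (nat_lit 1) (p (nat_lit 0x81) (nat_lit 0) (p (nat_lit 0x41) (nat_lit 1) (p (nat_lit 0x10a0b0a89089a) (nat_lit 0) (p (nat_lit 0x898a8a08881a) (nat_lit 0) (p (nat_lit 0x109088988079a) (nat_lit 0) (p (nat_lit 0x88880907871a) (nat_lit 0) (p (nat_lit 0x8000080000000080887068a) (nat_lit 0) (p (nat_lit 0x10888068602) (nat_lit 0) (p (nat_lit 0x8807860582)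 (nat_lit 0) (p (nat_lit 0x10607058502) (nat_lit 0) (p (nat_lit 0x8586850482) (nat_lit 0) (p (nat_lit 0x160004) (nat_lit 0) (p (nat_lit 0x68612) (nat_lit 0) (p (nat_lit 0x50592) (nat_lit 0) (p (nat_lit 0x40512) (nat_lit 0) (p (nat_lit 0x50312) (nat_lit 0) (p (nat_lit 0x38292) (nat_lit 0) (p (nat_lit 0x28212) (nat_lit 0) (p (nat_lit 0x38112) (nat_lit 0) (p (nat_lit 0x20092) (nat_lit 0) (p (nat_lit 0x10012) (nat_lit 0) pn)))))))))))))))))))))))))) :=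
  Cl.node (nat_lit 0xc9) (nat_lit 2) (by decide +kernel) (ClAll.succ (ClAll.succ ClAll.zero n184) s531)

def n220 : Cl (O (nat_lit 6)) (R (nat_lit 14353))
    (p (nat_lit 0x3cc2a) (nat_lit 0) (p (nat_lit 0x89) (nat_lit 0) (p (nat_lit 0x101) (nat_lit 1) (p (nat_lit 0x111) (nat_lit 0) (p (nat_lit 0xd1) (nat_lit 1) (p (nat_lit 0x81) (nat_lit 0) (p (nat_lit 0x41) (nat_lit 1) (p (nat_lit 0x10a0b0a89089a) (nat_lit 0) (p (nat_lit 0x898a8a08881a) (nat_lit 0) (p (nat_lit 0x109088988079a) (nat_lit 0) (p (nat_lit 0x88880907871a) (nat_lit 0) (p (nat_lit 0x8000080000000080887068a) (nat_lit 0) (p (nat_lit 0x10888068602) (nat_lit 0) (p (nat_lit 0x8807860582) (nat_lit 0) (p (nat_lit 0x10607058502) (nat_lit 0) (p (nat_lit 0x8586850482) (nat_lit 0) (p (nat_lit 0x160004) (nat_lit 0) (p (nat_lit 0x68612) (nat_lit 0) (p (nat_lit 0x50592) (nat_lit 0) (p (nat_lit 0x40512) (nat_lit 0) (p (nat_lit 0x50312)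 (nat_lit 0) (p (nat_lit 0x38292) (nat_lit 0) (p (nat_lit 0x28212) (nat_lit 0) (p (nat_lit 0x38112) (nat_lit 0) (p (nat_lit 0x20092) (nat_lit 0) (p (nat_lit 0x10012) (nat_lit 0) pn)))))))))))))))))))))))))) :=
  Cl.node (nat_lit 0x380c2) (nat_lit 2) (by decide +kernel) (ClAll.succ (ClAll.succ ClAll.zero s532) s533)

def n221 : Cl (O (nat_lit 6)) (R (nat_lit 14353))
    (p (nat_lit 0xc9) (nat_lit 0) (p (nat_lit 0x89) (nat_lit 1) (p (nat_lit 0x101) (nat_lit 1) (p (nat_lit 0x111) (nat_lit 0) (p (nat_lit 0xd1) (nat_lit 1) (p (nat_lit 0x81) (nat_lit 0) (p (nat_lit 0x41) (nat_lit 1) (p (nat_lit 0x10a0b0a89089a) (nat_lit 0) (p (nat_lit 0x898a8a08881a) (nat_lit 0) (p (nat_lit 0x109088988079a) (nat_lit 0) (p (nat_lit 0x88880907871a) (nat_lit 0) (p (nat_lit 0x8000080000000080887068a) (nat_lit 0) (p (nat_lit 0x10888068602) (nat_lit 0) (p (nat_lit 0x8807860582) (nat_lit 0) (p (nat_lit 0x10607058502)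 (nat_lit 0) (p (nat_lit 0x8586850482) (nat_lit 0) (p (nat_lit 0x160004) (nat_lit 0) (p (nat_lit 0x68612) (nat_lit 0) (p (nat_lit 0x50592) (nat_lit 0) (p (nat_lit 0x40512) (nat_lit 0) (p (nat_lit 0x50312) (nat_lit 0) (p (nat_lit 0x38292) (nat_lit 0) (p (nat_lit 0x28212) (nat_lit 0) (p (nat_lit 0x38112) (nat_lit 0) (p (nat_lit 0x20092) (nat_lit 0) (p (nat_lit 0x10012) (nat_lit 0) pn)))))))))))))))))))))))))) :=
  Cl.node (nat_lit 0x3cc2a) (nat_lit 12) (by decide +kernel) (ClAll.succ (ClAll.succ (ClAll.succ (ClAll.succ (ClAll.succ (ClAll.succ (ClAll.succ (ClAll.succ (ClAll.succ (ClAll.succ (ClAll.succ (ClAll.succ ClAll.zero n185) s547) s548) s549) s550) s551) s552) s553) s554) s555) s556) s557)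

def n222 : Cl (O (nat_lit 6)) (R (nat_lit 14353))
    (p (nat_lit 0x109) (nat_lit 0) (p (nat_lit 0xc9) (nat_lit 1) (p (nat_lit 0x89) (nat_lit 1) (p (nat_lit 0x111) (nat_lit 1) (p (nat_lit 0xd1) (nat_lit 1) (p (nat_lit 0x81) (nat_lit 0) (p (nat_lit 0x41) (nat_lit 1) (p (nat_lit 0x10a0b0a89089a) (nat_lit 0) (p (nat_lit 0x898a8a08881a) (nat_lit 0) (p (nat_lit 0x109088988079a) (nat_lit 0) (p (nat_lit 0x88880907871a) (nat_lit 0) (p (nat_lit 0x8000080000000080887068a) (nat_lit 0) (p (nat_lit 0x10888068602) (nat_lit 0) (p (nat_lit 0x8807860582) (nat_lit 0) (p (nat_lit 0x10607058502) (nat_lit 0) (p (nat_lit 0x8586850482) (nat_lit 0) (p (nat_lit 0x160004) (nat_lit 0) (p (nat_lit 0x68612) (nat_lit 0) (p (nat_lit 0x50592) (nat_lit 0) (p (nat_lit 0x40512) (nat_lit 0) (p (nat_lit 0x50312) (nat_lit 0) (p (nat_lit 0x38292) (nat_lit 0) (p (nat_lit 0x28212) (nat_lit 0) (p (nat_lit 0x38112)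 (nat_lit 0) (p (nat_lit 0x20092) (nat_lit 0) (p (nat_lit 0x10012) (nat_lit 0) pn)))))))))))))))))))))))))) :=
  Cl.node (nat_lit 0x3cc2a) (nat_lit 12) (by decide +kernel) (ClAll.succ (ClAll.succ (ClAll.succ (ClAll.succ (ClAll.succ (ClAll.succ (ClAll.succ (ClAll.succ (ClAll.succ (ClAll.succ (ClAll.succ (ClAll.succ ClAll.zero s561) s562) s563) s564) s565) s566) s567) s568) s569) s570) s571) s572)

def n223 : Cl (O (nat_lit 6)) (R (nat_lit 14353))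
    (p (nat_lit 0x111) (nat_lit 1) (p (nat_lit 0x109) (nat_lit 0) (p (nat_lit 0x101) (nat_lit 0) (p (nat_lit 0x119) (nat_lit 0) (p (nat_lit 0xc1) (nat_lit 0) (p (nat_lit 0x81) (nat_lit 1) (p (nat_lit 0x41) (nat_lit 1) (p (nat_lit 0x10a0b0a89089a) (nat_lit 0) (p (nat_lit 0x898a8a08881a) (nat_lit 0) (p (nat_lit 0x109088988079a) (nat_lit 0) (p (nat_lit 0x88880907871a) (nat_lit 0) (p (nat_lit 0x8000080000000080887068a) (nat_lit 0) (p (nat_lit 0x10888068602) (nat_lit 0) (p (nat_lit 0x8807860582) (nat_lit 0) (p (nat_lit 0x10607058502) (nat_lit 0) (p (nat_lit 0x8586850482) (nat_lit 0) (p (nat_lit 0x160004) (nat_lit 0) (p (nat_lit 0x68612) (nat_lit 0) (p (nat_lit 0x50592) (nat_lit 0) (p (nat_lit 0x40512) (nat_lit 0) (p (nat_lit 0x50312) (nat_lit 0) (p (nat_lit 0x38292) (nat_lit 0) (p (nat_lit 0x28212) (nat_lit 0) (p (nat_lit 0x38112) (nat_lit 0) (p (nat_lit 0x20092) (nat_lit 0) (p (nat_lit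 0x10012) (nat_lit 0) pn)))))))))))))))))))))))))) :=
  Cl.node (nat_lit 0xd1) (nat_lit 2) (by decide +kernel) (ClAll.succ (ClAll.succ ClAll.zero s575) n186)

def n224 : Cl (O (nat_lit 6)) (R (nat_lit 14353))
    (p (nat_lit 0xc9) (nat_lit 0) (p (nat_lit 0x109) (nat_lit 1) (p (nat_lit 0x101) (nat_lit 0) (p (nat_lit 0x119) (nat_lit 0) (p (nat_lit 0xc1) (nat_lit 0) (p (nat_lit 0x81) (nat_lit 1) (p (nat_lit 0x41) (nat_lit 1) (p (nat_lit 0x10a0b0a89089a) (nat_lit 0) (p (nat_lit 0x898a8a08881a) (nat_lit 0) (p (nat_lit 0x109088988079a) (nat_lit 0) (p (nat_lit 0x88880907871a) (nat_lit 0) (p (nat_lit 0x8000080000000080887068a) (nat_lit 0) (p (nat_lit 0x10888068602) (nat_lit 0) (p (nat_lit 0x8807860582) (nat_lit 0) (p (nat_lit 0x10607058502) (nat_lit 0) (p (nat_lit 0x8586850482) (nat_lit 0) (p (nat_lit 0x160004) (nat_lit 0) (p (nat_lit 0x68612) (nat_lit 0) (p (nat_lit 0x50592) (nat_lit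 0) (p (nat_lit 0x40512) (nat_lit 0) (p (nat_lit 0x50312) (nat_lit 0) (p (nat_lit 0x38292) (nat_lit 0) (p (nat_lit 0x28212) (nat_lit 0) (p (nat_lit 0x38112) (nat_lit 0) (p (nat_lit 0x20092) (nat_lit 0) (p (nat_lit 0x10012) (nat_lit 0) pn)))))))))))))))))))))))))) :=
  Cl.node (nat_lit 0xd1) (nat_lit 2) (by decide +kernel) (ClAll.succ (ClAll.succ ClAll.zero s621) n187)

def n225 : Cl (O (nat_lit 6)) (R (nat_lit 14353))
    (p (nat_lit 0xd1) (nat_lit 0) (p (nat_lit 0xc9) (nat_lit 0) (p (nat_lit 0x101) (nat_lit 1) (p (nat_lit 0x119) (nat_lit 0) (p (nat_lit 0xc1) (nat_lit 0) (p (nat_lit 0x81) (nat_lit 1) (p (nat_lit 0x41) (nat_lit 1) (p (nat_lit 0x10a0b0a89089a) (nat_lit 0) (p (nat_lit 0x898a8a08881a) (nat_lit 0) (p (nat_lit 0x109088988079a) (nat_lit 0) (p (nat_lit 0x88880907871a) (nat_lit 0) (p (nat_lit 0x8000080000000080887068a) (nat_lit 0) (p (nat_lit 0x10888068602) (nat_lit 0)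 (p (nat_lit 0x8807860582) (nat_lit 0) (p (nat_lit 0x10607058502) (nat_lit 0) (p (nat_lit 0x8586850482) (nat_lit 0) (p (nat_lit 0x160004) (nat_lit 0) (p (nat_lit 0x68612) (nat_lit 0) (p (nat_lit 0x50592) (nat_lit 0) (p (nat_lit 0x40512) (nat_lit 0) (p (nat_lit 0x50312) (nat_lit 0) (p (nat_lit 0x38292) (nat_lit 0) (p (nat_lit 0x28212) (nat_lit 0) (p (nat_lit 0x38112) (nat_lit 0) (p (nat_lit 0x20092) (nat_lit 0) (p (nat_lit 0x10012) (nat_lit 0) pn)))))))))))))))))))))))))) :=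
  Cl.node (nat_lit 0x44c2a) (nat_lit 12) (by decide +kernel) (ClAll.succ (ClAll.succ (ClAll.succ (ClAll.succ (ClAll.succ (ClAll.succ (ClAll.succ (ClAll.succ (ClAll.succ (ClAll.succ (ClAll.succ (ClAll.succ ClAll.zero n188) s643) s644) s645) s646) s647) s648) s649) s650) s651) s652) s653)

def n226 : Cl (O (nat_lit 6)) (R (nat_lit 14353))
    (p (nat_lit 0xd1) (nat_lit 1) (p (nat_lit 0xc9) (nat_lit 0) (p (nat_lit 0x101) (nat_lit 1) (p (nat_lit 0x119) (nat_lit 0) (p (nat_lit 0xc1) (nat_lit 0) (p (nat_lit 0x81) (nat_lit 1) (p (nat_lit 0x41) (nat_lit 1) (p (nat_lit 0x10a0b0a89089a) (nat_lit 0) (p (nat_lit 0x898a8a08881a) (nat_lit 0) (p (nat_lit 0x109088988079a) (nat_lit 0) (p (nat_lit 0x88880907871a) (nat_lit 0) (p (nat_lit 0x8000080000000080887068a) (nat_lit 0) (p (nat_lit 0x10888068602) (nat_lit 0) (p (nat_lit 0x8807860582) (nat_lit 0) (p (nat_lit 0x10607058502) (nat_lit 0) (p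 (nat_lit 0x8586850482) (nat_lit 0) (p (nat_lit 0x160004) (nat_lit 0) (p (nat_lit 0x68612) (nat_lit 0) (p (nat_lit 0x50592) (nat_lit 0) (p (nat_lit 0x40512) (nat_lit 0) (p (nat_lit 0x50312) (nat_lit 0) (p (nat_lit 0x38292) (nat_lit 0) (p (nat_lit 0x28212) (nat_lit 0) (p (nat_lit 0x38112) (nat_lit 0) (p (nat_lit 0x20092) (nat_lit 0) (p (nat_lit 0x10012) (nat_lit 0) pn)))))))))))))))))))))))))) :=
  Cl.node (nat_lit 0x3c4aa) (nat_lit 12) (by decide +kernel) (ClAll.succ (ClAll.succ (ClAll.succ (ClAll.succ (ClAll.succ (ClAll.succ (ClAll.succ (ClAll.succ (ClAll.succ (ClAll.succ (ClAll.succ (ClAll.succ ClAll.zero s654) s655) s656) s657) s658) s659) s660) n189) s673) s674) s675) s676)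

def n227 : Cl (O (nat_lit 6)) (R (nat_lit 14353))
    (p (nat_lit 0x111) (nat_lit 1) (p (nat_lit 0xd1) (nat_lit 1) (p (nat_lit 0xc9) (nat_lit 0) (p (nat_lit 0x119) (nat_lit 1) (p (nat_lit 0xc1) (nat_lit 0) (p (nat_lit 0x81) (nat_lit 1) (p (nat_lit 0x41) (nat_lit 1) (p (nat_lit 0x10a0b0a89089a) (nat_lit 0) (p (nat_lit 0x898a8a08881a) (nat_lit 0) (p (nat_lit 0x109088988079a) (nat_lit 0) (p (nat_lit 0x88880907871a) (nat_lit 0) (p (nat_lit 0x8000080000000080887068a) (nat_lit 0) (p (nat_lit 0x10888068602) (nat_lit 0) (p (nat_lit 0x8807860582) (nat_lit 0) (p (nat_lit 0x10607058502) (nat_lit 0) (p (nat_lit 0x8586850482) (nat_lit 0) (p (nat_lit 0x160004) (nat_lit 0) (p (nat_lit 0x68612) (nat_lit 0) (p (nat_lit 0x50592) (nat_lit 0) (p (nat_lit 0x40512) (nat_lit 0) (p (nat_lit 0x50312) (nat_lit 0) (p (nat_lit 0x38292) (nat_lit 0) (p (nat_lit 0x28212) (nat_lit 0) (p (nat_lit 0x38112)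 (nat_lit 0) (p (nat_lit 0x20092) (nat_lit 0) (p (nat_lit 0x10012) (nat_lit 0) pn)))))))))))))))))))))))))) :=
  Cl.node (nat_lit 0x3c4aa) (nat_lit 12) (by decide +kernel) (ClAll.succ (ClAll.succ (ClAll.succ (ClAll.succ (ClAll.succ (ClAll.succ (ClAll.succ (ClAll.succ (ClAll.succ (ClAll.succ (ClAll.succ (ClAll.succ ClAll.zero s680) s681) s682) s683) s684) s685) s686) n190) s698) s699) s700) s701)

def n228 : Cl (O (nat_lit 6)) (R (nat_lit 14353))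
    (p (nat_lit 0x111) (nat_lit 0) (p (nat_lit 0x109) (nat_lit 0) (p (nat_lit 0xc9) (nat_lit 1) (p (nat_lit 0x119) (nat_lit 1) (p (nat_lit 0xc1) (nat_lit 0) (p (nat_lit 0x81) (nat_lit 1) (p (nat_lit 0x41) (nat_lit 1) (p (nat_lit 0x10a0b0a89089a) (nat_lit 0) (p (nat_lit 0x898a8a08881a) (nat_lit 0) (p (nat_lit 0x109088988079a) (nat_lit 0) (p (nat_lit 0x88880907871a) (nat_lit 0) (p (nat_lit 0x8000080000000080887068a) (nat_lit 0) (p (nat_lit 0x10888068602) (nat_lit 0) (p (nat_lit 0x8807860582) (nat_lit 0) (p (nat_lit 0x10607058502) (nat_lit 0) (p (nat_lit 0x8586850482) (nat_lit 0) (p (nat_lit 0x160004) (nat_lit 0) (p (nat_lit 0x68612) (nat_lit 0) (p (nat_lit 0x50592) (nat_lit 0) (p (nat_lit 0x40512) (nat_lit 0) (p (nat_lit 0x50312) (nat_lit 0) (p (nat_lit 0x38292) (nat_lit 0) (p (nat_lit 0x28212) (nat_lit 0) (p (nat_lit 0x38112) (nat_lit 0) (p (nat_lit 0x20092) (nat_lit 0) (p (nat_lit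 0x10012) (nat_lit 0) pn)))))))))))))))))))))))))) :=
  Cl.node (nat_lit 0x44c2a) (nat_lit 12) (by decide +kernel) (ClAll.succ (ClAll.succ (ClAll.succ (ClAll.succ (ClAll.succ (ClAll.succ (ClAll.succ (ClAll.succ (ClAll.succ (ClAll.succ (ClAll.succ (ClAll.succ ClAll.zero s702) s703) s704) s705) s706) s707) s708) s709) s710) s711) s712) s713)

def n229 : Cl (O (nat_lit 6)) (R (nat_lit 14353))
    (p (nat_lit 0x111) (nat_lit 1) (p (nat_lit 0x109) (nat_lit 0) (p (nat_lit 0xc9) (nat_lit 1) (p (nat_lit 0x119) (nat_lit 1) (p (nat_lit 0xc1) (nat_lit 0) (p (nat_lit 0x81) (nat_lit 1) (p (nat_lit 0x41) (nat_lit 1) (p (nat_lit 0x10a0b0a89089a) (nat_lit 0) (p (nat_lit 0x898a8a08881a) (nat_lit 0) (p (nat_lit 0x109088988079a) (nat_lit 0) (p (nat_lit 0x88880907871a) (nat_lit 0) (p (nat_lit 0x8000080000000080887068a) (nat_lit 0) (p (nat_lit 0x10888068602) (nat_lit 0) (p (nat_lit 0x8807860582)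 (nat_lit 0) (p (nat_lit 0x10607058502) (nat_lit 0) (p (nat_lit 0x8586850482) (nat_lit 0) (p (nat_lit 0x160004) (nat_lit 0) (p (nat_lit 0x68612) (nat_lit 0) (p (nat_lit 0x50592) (nat_lit 0) (p (nat_lit 0x40512) (nat_lit 0) (p (nat_lit 0x50312) (nat_lit 0) (p (nat_lit 0x38292) (nat_lit 0) (p (nat_lit 0x28212) (nat_lit 0) (p (nat_lit 0x38112) (nat_lit 0) (p (nat_lit 0x20092) (nat_lit 0) (p (nat_lit 0x10012) (nat_lit 0) pn)))))))))))))))))))))))))) :=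
  Cl.node (nat_lit 0x3c4aa) (nat_lit 12) (by decide +kernel) (ClAll.succ (ClAll.succ (ClAll.succ (ClAll.succ (ClAll.succ (ClAll.succ (ClAll.succ (ClAll.succ (ClAll.succ (ClAll.succ (ClAll.succ (ClAll.succ ClAll.zero s714) s715) s716) s717) s718) s719) s720) n191) s723) s724) s725) s726)

def n230 : Cl (O (nat_lit 6)) (R (nat_lit 14353))
    (p (nat_lit 0x109) (nat_lit 1) (p (nat_lit 0x101) (nat_lit 0) (p (nat_lit 0x119) (nat_lit 0) (p (nat_lit 0xd1) (nat_lit 0) (p (nat_lit 0x89) (nat_lit 0) (p (nat_lit 0x41) (nat_lit 0) (p (nat_lit 0x10a0b0a89089a) (nat_lit 0) (p (nat_lit 0x898a8a08881a) (nat_lit 0) (p (nat_lit 0x109088988079a) (nat_lit 0) (p (nat_lit 0x88880907871a) (nat_lit 0) (p (nat_lit 0x8000080000000080887068a) (nat_lit 0) (p (nat_lit 0x10888068602) (nat_lit 0) (p (nat_lit 0x8807860582) (nat_lit 0) (p (nat_lit 0x10607058502) (nat_lit 0) (p (nat_lit 0x8586850482) (nat_lit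 0) (p (nat_lit 0x160004) (nat_lit 0) (p (nat_lit 0x68612) (nat_lit 0) (p (nat_lit 0x50592) (nat_lit 0) (p (nat_lit 0x40512) (nat_lit 0) (p (nat_lit 0x50312) (nat_lit 0) (p (nat_lit 0x38292) (nat_lit 0) (p (nat_lit 0x28212) (nat_lit 0) (p (nat_lit 0x38112) (nat_lit 0) (p (nat_lit 0x20092) (nat_lit 0) (p (nat_lit 0x10012) (nat_lit 0) pn))))))))))))))))))))))))) :=
  Cl.node (nat_lit 0xc9) (nat_lit 2) (by decide +kernel) (ClAll.succ (ClAll.succ ClAll.zero s1) n192)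

def n231 : Cl (O (nat_lit 6)) (R (nat_lit 14353))
    (p (nat_lit 0x81) (nat_lit 0) (p (nat_lit 0x101) (nat_lit 1) (p (nat_lit 0x119) (nat_lit 0) (p (nat_lit 0xd1) (nat_lit 0) (p (nat_lit 0x89) (nat_lit 0) (p (nat_lit 0x41) (nat_lit 0) (p (nat_lit 0x10a0b0a89089a) (nat_lit 0) (p (nat_lit 0x898a8a08881a) (nat_lit 0) (p (nat_lit 0x109088988079a) (nat_lit 0) (p (nat_lit 0x88880907871a) (nat_lit 0) (p (nat_lit 0x8000080000000080887068a) (nat_lit 0) (p (nat_lit 0x10888068602) (nat_lit 0) (p (nat_lit 0x8807860582) (nat_lit 0) (p (nat_lit 0x10607058502) (nat_lit 0) (p (nat_lit 0x8586850482) (nat_lit 0) (p (nat_lit 0x160004) (nat_lit 0) (p (nat_lit 0x68612) (nat_lit 0) (p (nat_lit 0x50592) (nat_lit 0) (p (nat_lit 0x40512) (nat_lit 0) (p (nat_lit 0x50312) (nat_lit 0) (p (nat_lit 0x38292) (nat_lit 0) (p (nat_lit 0x28212) (nat_lit 0) (p (nat_lit 0x38112) (nat_lit 0) (p (nat_lit 0x20092)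 (nat_lit 0) (p (nat_lit 0x10012) (nat_lit 0) pn))))))))))))))))))))))))) :=
  Cl.node (nat_lit 0xc9) (nat_lit 2) (by decide +kernel) (ClAll.succ (ClAll.succ ClAll.zero n193) n194)

def n232 : Cl (O (nat_lit 6)) (R (nat_lit 14353))
    (p (nat_lit 0x81) (nat_lit 1) (p (nat_lit 0x101) (nat_lit 1) (p (nat_lit 0x119) (nat_lit 0) (p (nat_lit 0xd1) (nat_lit 0) (p (nat_lit 0x89) (nat_lit 0) (p (nat_lit 0x41) (nat_lit 0) (p (nat_lit 0x10a0b0a89089a) (nat_lit 0) (p (nat_lit 0x898a8a08881a) (nat_lit 0) (p (nat_lit 0x109088988079a) (nat_lit 0) (p (nat_lit 0x88880907871a) (nat_lit 0) (p (nat_lit 0x8000080000000080887068a) (nat_lit 0) (p (nat_lit 0x10888068602) (nat_lit 0) (p (nat_lit 0x8807860582) (nat_lit 0) (p (nat_lit 0x10607058502) (nat_lit 0) (p (nat_lit 0x8586850482) (nat_lit 0) (p (nat_lit 0x160004) (nat_lit 0) (p (nat_lit 0x68612) (nat_lit 0) (p (nat_lit 0x50592) (nat_lit 0) (p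 (nat_lit 0x40512) (nat_lit 0) (p (nat_lit 0x50312) (nat_lit 0) (p (nat_lit 0x38292) (nat_lit 0) (p (nat_lit 0x28212) (nat_lit 0) (p (nat_lit 0x38112) (nat_lit 0) (p (nat_lit 0x20092) (nat_lit 0) (p (nat_lit 0x10012) (nat_lit 0) pn))))))))))))))))))))))))) :=
  Cl.node (nat_lit 0xc1) (nat_lit 2) (by decide +kernel) (ClAll.succ (ClAll.succ ClAll.zero n195) s82)

def n233 : Cl (O (nat_lit 6)) (R (nat_lit 14353))
    (p (nat_lit 0xc9) (nat_lit 1) (p (nat_lit 0xc1) (nat_lit 0) (p (nat_lit 0x119) (nat_lit 1) (p (nat_lit 0xd1) (nat_lit 0) (p (nat_lit 0x89) (nat_lit 0) (p (nat_lit 0x41) (nat_lit 0) (p (nat_lit 0x10a0b0a89089a) (nat_lit 0) (p (nat_lit 0x898a8a08881a) (nat_lit 0) (p (nat_lit 0x109088988079a) (nat_lit 0) (p (nat_lit 0x88880907871a) (nat_lit 0) (p (nat_lit 0x8000080000000080887068a) (nat_lit 0) (p (nat_lit 0x10888068602) (nat_lit 0) (p (nat_lit 0x8807860582) (nat_lit 0)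 (p (nat_lit 0x10607058502) (nat_lit 0) (p (nat_lit 0x8586850482) (nat_lit 0) (p (nat_lit 0x160004) (nat_lit 0) (p (nat_lit 0x68612) (nat_lit 0) (p (nat_lit 0x50592) (nat_lit 0) (p (nat_lit 0x40512) (nat_lit 0) (p (nat_lit 0x50312) (nat_lit 0) (p (nat_lit 0x38292) (nat_lit 0) (p (nat_lit 0x28212) (nat_lit 0) (p (nat_lit 0x38112) (nat_lit 0) (p (nat_lit 0x20092) (nat_lit 0) (p (nat_lit 0x10012) (nat_lit 0) pn))))))))))))))))))))))))) :=
  Cl.node (nat_lit 0x109) (nat_lit 2) (by decide +kernel) (ClAll.succ (ClAll.succ ClAll.zero s84) n196)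

def n234 : Cl (O (nat_lit 6)) (R (nat_lit 14353))
    (p (nat_lit 0x81) (nat_lit 0) (p (nat_lit 0xc1) (nat_lit 1) (p (nat_lit 0x119) (nat_lit 1) (p (nat_lit 0xd1) (nat_lit 0) (p (nat_lit 0x89) (nat_lit 0) (p (nat_lit 0x41) (nat_lit 0) (p (nat_lit 0x10a0b0a89089a) (nat_lit 0) (p (nat_lit 0x898a8a08881a) (nat_lit 0) (p (nat_lit 0x109088988079a) (nat_lit 0) (p (nat_lit 0x88880907871a) (nat_lit 0) (p (nat_lit 0x8000080000000080887068a) (nat_lit 0) (p (nat_lit 0x10888068602) (nat_lit 0) (p (nat_lit 0x8807860582) (nat_lit 0) (p (nat_lit 0x10607058502) (nat_lit 0) (p (nat_lit 0x8586850482) (nat_lit 0) (p (nat_lit 0x160004) (nat_lit 0) (p (nat_lit 0x68612) (nat_lit 0) (p (nat_lit 0x50592) (nat_lit 0) (p (nat_lit 0x40512) (nat_lit 0) (p (nat_lit 0x50312) (nat_lit 0) (p (nat_lit 0x38292) (nat_lit 0) (p (nat_lit 0x28212) (nat_lit 0) (p (nat_lit 0x38112) (nat_lit 0) (p (nat_lit 0x20092)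 (nat_lit 0) (p (nat_lit 0x10012) (nat_lit 0) pn))))))))))))))))))))))))) :=
  Cl.node (nat_lit 0x109) (nat_lit 2) (by decide +kernel) (ClAll.succ (ClAll.succ ClAll.zero s98) n197)

def n235 : Cl (O (nat_lit 6)) (R (nat_lit 14353))
    (p (nat_lit 0x81) (nat_lit 1) (p (nat_lit 0xc1) (nat_lit 1) (p (nat_lit 0x119) (nat_lit 1) (p (nat_lit 0xd1) (nat_lit 0) (p (nat_lit 0x89) (nat_lit 0) (p (nat_lit 0x41) (nat_lit 0) (p (nat_lit 0x10a0b0a89089a) (nat_lit 0) (p (nat_lit 0x898a8a08881a) (nat_lit 0) (p (nat_lit 0x109088988079a) (nat_lit 0) (p (nat_lit 0x88880907871a) (nat_lit 0) (p (nat_lit 0x8000080000000080887068a) (nat_lit 0) (p (nat_lit 0x10888068602) (nat_lit 0) (p (nat_lit 0x8807860582) (nat_lit 0) (p (nat_lit 0x10607058502) (nat_lit 0) (p (nat_lit 0x8586850482) (nat_lit 0) (p (nat_lit 0x160004) (nat_lit 0) (p (nat_lit 0x68612) (nat_lit 0) (p (nat_lit 0x50592) (nat_lit 0) (p (nat_lit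 0x40512) (nat_lit 0) (p (nat_lit 0x50312) (nat_lit 0) (p (nat_lit 0x38292) (nat_lit 0) (p (nat_lit 0x28212) (nat_lit 0) (p (nat_lit 0x38112) (nat_lit 0) (p (nat_lit 0x20092) (nat_lit 0) (p (nat_lit 0x10012) (nat_lit 0) pn))))))))))))))))))))))))) :=
  Cl.node (nat_lit 0x101) (nat_lit 2) (by decide +kernel) (ClAll.succ (ClAll.succ ClAll.zero n198) s172)

def n236 : Cl (O (nat_lit 6)) (R (nat_lit 14353))
    (p (nat_lit 0x109) (nat_lit 1) (p (nat_lit 0x101) (nat_lit 0) (p (nat_lit 0x111) (nat_lit 0) (p (nat_lit 0xd1) (nat_lit 1) (p (nat_lit 0x89) (nat_lit 0) (p (nat_lit 0x41) (nat_lit 0) (p (nat_lit 0x10a0b0a89089a) (nat_lit 0) (p (nat_lit 0x898a8a08881a) (nat_lit 0) (p (nat_lit 0x109088988079a) (nat_lit 0) (p (nat_lit 0x88880907871a) (nat_lit 0) (p (nat_lit 0x8000080000000080887068a) (nat_lit 0) (p (nat_lit 0x10888068602) (nat_lit 0) (p (nat_lit 0x8807860582) (nat_lit 0) (p (nat_lit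 0x10607058502) (nat_lit 0) (p (nat_lit 0x8586850482) (nat_lit 0) (p (nat_lit 0x160004) (nat_lit 0) (p (nat_lit 0x68612) (nat_lit 0) (p (nat_lit 0x50592) (nat_lit 0) (p (nat_lit 0x40512) (nat_lit 0) (p (nat_lit 0x50312) (nat_lit 0) (p (nat_lit 0x38292) (nat_lit 0) (p (nat_lit 0x28212) (nat_lit 0) (p (nat_lit 0x38112) (nat_lit 0) (p (nat_lit 0x20092) (nat_lit 0) (p (nat_lit 0x10012) (nat_lit 0) pn))))))))))))))))))))))))) :=
  Cl.node (nat_lit 0xc1) (nat_lit 2) (by decide +kernel) (ClAll.succ (ClAll.succ ClAll.zero s174) n199)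

def n237 : Cl (O (nat_lit 6)) (R (nat_lit 14353))
    (p (nat_lit 0x81) (nat_lit 0) (p (nat_lit 0x101) (nat_lit 1) (p (nat_lit 0x111) (nat_lit 0) (p (nat_lit 0xd1) (nat_lit 1) (p (nat_lit 0x89) (nat_lit 0) (p (nat_lit 0x41) (nat_lit 0) (p (nat_lit 0x10a0b0a89089a) (nat_lit 0) (p (nat_lit 0x898a8a08881a) (nat_lit 0) (p (nat_lit 0x109088988079a) (nat_lit 0) (p (nat_lit 0x88880907871a) (nat_lit 0) (p (nat_lit 0x8000080000000080887068a) (nat_lit 0) (p (nat_lit 0x10888068602) (nat_lit 0) (p (nat_lit 0x8807860582) (nat_lit 0) (p (nat_lit 0x10607058502) (nat_lit 0) (p (nat_lit 0x8586850482) (nat_lit 0) (p (nat_lit 0x160004) (nat_lit 0) (p (nat_lit 0x68612) (nat_lit 0) (p (nat_lit 0x50592) (nat_lit 0) (p (nat_lit 0x40512) (nat_lit 0) (p (nat_lit 0x50312) (nat_lit 0) (p (nat_lit 0x38292) (nat_lit 0) (p (nat_lit 0x28212) (nat_lit 0) (p (nat_lit 0x38112) (nat_lit 0) (p (nat_lit 0x20092)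 (nat_lit 0) (p (nat_lit 0x10012) (nat_lit 0) pn))))))))))))))))))))))))) :=
  Cl.node (nat_lit 0x119) (nat_lit 2) (by decide +kernel) (ClAll.succ (ClAll.succ ClAll.zero n200) s205)

def n238 : Cl (O (nat_lit 6)) (R (nat_lit 14353))
    (p (nat_lit 0x81) (nat_lit 1) (p (nat_lit 0x101) (nat_lit 1) (p (nat_lit 0x111) (nat_lit 0) (p (nat_lit 0xd1) (nat_lit 1) (p (nat_lit 0x89) (nat_lit 0) (p (nat_lit 0x41) (nat_lit 0) (p (nat_lit 0x10a0b0a89089a) (nat_lit 0) (p (nat_lit 0x898a8a08881a) (nat_lit 0) (p (nat_lit 0x109088988079a) (nat_lit 0) (p (nat_lit 0x88880907871a) (nat_lit 0) (p (nat_lit 0x8000080000000080887068a) (nat_lit 0) (p (nat_lit 0x10888068602) (nat_lit 0) (p (nat_lit 0x8807860582) (nat_lit 0) (p (nat_lit 0x10607058502) (nat_lit 0) (p (nat_lit 0x8586850482) (nat_lit 0) (p (nat_lit 0x160004) (nat_lit 0) (p (nat_lit 0x68612) (nat_lit 0) (p (nat_lit 0x50592) (nat_lit 0) (p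 (nat_lit 0x40512) (nat_lit 0) (p (nat_lit 0x50312) (nat_lit 0) (p (nat_lit 0x38292) (nat_lit 0) (p (nat_lit 0x28212) (nat_lit 0) (p (nat_lit 0x38112) (nat_lit 0) (p (nat_lit 0x20092) (nat_lit 0) (p (nat_lit 0x10012) (nat_lit 0) pn))))))))))))))))))))))))) :=
  Cl.node (nat_lit 0xc1) (nat_lit 2) (by decide +kernel) (ClAll.succ (ClAll.succ ClAll.zero n201) s231)

def n239 : Cl (O (nat_lit 6)) (R (nat_lit 14353))
    (p (nat_lit 0xc1) (nat_lit 1) (p (nat_lit 0x81) (nat_lit 1) (p (nat_lit 0x111) (nat_lit 1) (p (nat_lit 0xd1) (nat_lit 1) (p (nat_lit 0x89) (nat_lit 0) (p (nat_lit 0x41) (nat_lit 0) (p (nat_lit 0x10a0b0a89089a) (nat_lit 0) (p (nat_lit 0x898a8a08881a) (nat_lit 0) (p (nat_lit 0x109088988079a) (nat_lit 0) (p (nat_lit 0x88880907871a) (nat_lit 0) (p (nat_lit 0x8000080000000080887068a) (nat_lit 0) (p (nat_lit 0x10888068602) (nat_lit 0) (p (nat_lit 0x8807860582) (nat_lit 0)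 (p (nat_lit 0x10607058502) (nat_lit 0) (p (nat_lit 0x8586850482) (nat_lit 0) (p (nat_lit 0x160004) (nat_lit 0) (p (nat_lit 0x68612) (nat_lit 0) (p (nat_lit 0x50592) (nat_lit 0) (p (nat_lit 0x40512) (nat_lit 0) (p (nat_lit 0x50312) (nat_lit 0) (p (nat_lit 0x38292) (nat_lit 0) (p (nat_lit 0x28212) (nat_lit 0) (p (nat_lit 0x38112) (nat_lit 0) (p (nat_lit 0x20092) (nat_lit 0) (p (nat_lit 0x10012) (nat_lit 0) pn))))))))))))))))))))))))) :=
  Cl.node (nat_lit 0x101) (nat_lit 2) (by decide +kernel) (ClAll.succ (ClAll.succ ClAll.zero n202) n203)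

def n240 : Cl (O (nat_lit 6)) (R (nat_lit 14353))
    (p (nat_lit 0x109) (nat_lit 0) (p (nat_lit 0x101) (nat_lit 0) (p (nat_lit 0x119) (nat_lit 0) (p (nat_lit 0xc9) (nat_lit 0) (p (nat_lit 0x89) (nat_lit 1) (p (nat_lit 0x41) (nat_lit 0) (p (nat_lit 0x10a0b0a89089a) (nat_lit 0) (p (nat_lit 0x898a8a08881a) (nat_lit 0) (p (nat_lit 0x109088988079a) (nat_lit 0) (p (nat_lit 0x88880907871a) (nat_lit 0) (p (nat_lit 0x8000080000000080887068a) (nat_lit 0) (p (nat_lit 0x10888068602) (nat_lit 0) (p (nat_lit 0x8807860582) (nat_lit 0) (p (nat_lit 0x10607058502) (nat_lit 0) (p (nat_lit 0x8586850482) (nat_lit 0) (p (nat_lit 0x160004) (nat_lit 0) (p (nat_lit 0x68612) (nat_lit 0) (p (nat_lit 0x50592) (nat_lit 0) (p (nat_lit 0x40512) (nat_lit 0) (p (nat_lit 0x50312) (nat_lit 0) (p (nat_lit 0x38292) (nat_lit 0) (p (nat_lit 0x28212) (nat_lit 0) (p (nat_lit 0x38112) (nat_lit 0) (p (nat_lit 0x20092)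 (nat_lit 0) (p (nat_lit 0x10012) (nat_lit 0) pn))))))))))))))))))))))))) :=
  Cl.node (nat_lit 0x111) (nat_lit 2) (by decide +kernel) (ClAll.succ (ClAll.succ ClAll.zero s258) n204)

def n241 : Cl (O (nat_lit 6)) (R (nat_lit 14353))
    (p (nat_lit 0x109) (nat_lit 1) (p (nat_lit 0x101) (nat_lit 0) (p (nat_lit 0x119) (nat_lit 0) (p (nat_lit 0xc9) (nat_lit 0) (p (nat_lit 0x89) (nat_lit 1) (p (nat_lit 0x41) (nat_lit 0) (p (nat_lit 0x10a0b0a89089a) (nat_lit 0) (p (nat_lit 0x898a8a08881a) (nat_lit 0) (p (nat_lit 0x109088988079a) (nat_lit 0) (p (nat_lit 0x88880907871a) (nat_lit 0) (p (nat_lit 0x8000080000000080887068a) (nat_lit 0) (p (nat_lit 0x10888068602) (nat_lit 0) (p (nat_lit 0x8807860582) (nat_lit 0) (p (nat_lit 0x10607058502) (nat_lit 0) (p (nat_lit 0x8586850482) (nat_lit 0) (p (nat_lit 0x160004) (nat_lit 0) (p (nat_lit 0x68612) (nat_lit 0) (p (nat_lit 0x50592) (nat_lit 0) (p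 (nat_lit 0x40512) (nat_lit 0) (p (nat_lit 0x50312) (nat_lit 0) (p (nat_lit 0x38292) (nat_lit 0) (p (nat_lit 0x28212) (nat_lit 0) (p (nat_lit 0x38112) (nat_lit 0) (p (nat_lit 0x20092) (nat_lit 0) (p (nat_lit 0x10012) (nat_lit 0) pn))))))))))))))))))))))))) :=
  Cl.node (nat_lit 0xd1) (nat_lit 2) (by decide +kernel) (ClAll.succ (ClAll.succ ClAll.zero n205) n206)

def n242 : Cl (O (nat_lit 6)) (R (nat_lit 14353))
    (p (nat_lit 0xc1) (nat_lit 0) (p (nat_lit 0x101) (nat_lit 1) (p (nat_lit 0x119) (nat_lit 0) (p (nat_lit 0xc9) (nat_lit 0) (p (nat_lit 0x89) (nat_lit 1) (p (nat_lit 0x41) (nat_lit 0) (p (nat_lit 0x10a0b0a89089a) (nat_lit 0) (p (nat_lit 0x898a8a08881a) (nat_lit 0) (p (nat_lit 0x109088988079a) (nat_lit 0) (p (nat_lit 0x88880907871a) (nat_lit 0) (p (nat_lit 0x8000080000000080887068a) (nat_lit 0) (p (nat_lit 0x10888068602) (nat_lit 0) (p (nat_lit 0x8807860582) (nat_lit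 0) (p (nat_lit 0x10607058502) (nat_lit 0) (p (nat_lit 0x8586850482) (nat_lit 0) (p (nat_lit 0x160004) (nat_lit 0) (p (nat_lit 0x68612) (nat_lit 0) (p (nat_lit 0x50592) (nat_lit 0) (p (nat_lit 0x40512) (nat_lit 0) (p (nat_lit 0x50312) (nat_lit 0) (p (nat_lit 0x38292) (nat_lit 0) (p (nat_lit 0x28212) (nat_lit 0) (p (nat_lit 0x38112) (nat_lit 0) (p (nat_lit 0x20092) (nat_lit 0) (p (nat_lit 0x10012) (nat_lit 0) pn))))))))))))))))))))))))) :=
  Cl.node (nat_lit 0xd1) (nat_lit 2) (by decide +kernel) (ClAll.succ (ClAll.succ ClAll.zero n207) n208)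

def n243 : Cl (O (nat_lit 6)) (R (nat_lit 14353))
    (p (nat_lit 0xd1) (nat_lit 1) (p (nat_lit 0xc1) (nat_lit 0) (p (nat_lit 0x119) (nat_lit 1) (p (nat_lit 0xc9) (nat_lit 0) (p (nat_lit 0x89) (nat_lit 1) (p (nat_lit 0x41) (nat_lit 0) (p (nat_lit 0x10a0b0a89089a) (nat_lit 0) (p (nat_lit 0x898a8a08881a) (nat_lit 0) (p (nat_lit 0x109088988079a) (nat_lit 0) (p (nat_lit 0x88880907871a) (nat_lit 0) (p (nat_lit 0x8000080000000080887068a) (nat_lit 0) (p (nat_lit 0x10888068602) (nat_lit 0) (p (nat_lit 0x8807860582) (nat_lit 0) (p (nat_lit 0x10607058502) (nat_lit 0) (p (nat_lit 0x8586850482) (nat_lit 0) (p (nat_lit 0x160004) (nat_lit 0) (p (nat_lit 0x68612) (nat_lit 0) (p (nat_lit 0x50592) (nat_lit 0) (p (nat_lit 0x40512) (nat_lit 0) (p (nat_lit 0x50312) (nat_lit 0) (p (nat_lit 0x38292) (nat_lit 0) (p (nat_lit 0x28212) (nat_lit 0) (p (nat_lit 0x38112) (nat_lit 0) (p (nat_lit 0x20092)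 (nat_lit 0) (p (nat_lit 0x10012) (nat_lit 0) pn))))))))))))))))))))))))) :=
  Cl.node (nat_lit 0x111) (nat_lit 2) (by decide +kernel) (ClAll.succ (ClAll.succ ClAll.zero s341) n209)

def n244 : Cl (O (nat_lit 6)) (R (nat_lit 14353))
    (p (nat_lit 0x101) (nat_lit 0) (p (nat_lit 0xc1) (nat_lit 1) (p (nat_lit 0x119) (nat_lit 1) (p (nat_lit 0xc9) (nat_lit 0) (p (nat_lit 0x89) (nat_lit 1) (p (nat_lit 0x41) (nat_lit 0) (p (nat_lit 0x10a0b0a89089a) (nat_lit 0) (p (nat_lit 0x898a8a08881a) (nat_lit 0) (p (nat_lit 0x109088988079a) (nat_lit 0) (p (nat_lit 0x88880907871a) (nat_lit 0) (p (nat_lit 0x8000080000000080887068a) (nat_lit 0) (p (nat_lit 0x10888068602) (nat_lit 0) (p (nat_lit 0x8807860582) (nat_lit 0) (p (nat_lit 0x10607058502) (nat_lit 0) (p (nat_lit 0x8586850482) (nat_lit 0) (p (nat_lit 0x160004) (nat_lit 0) (p (nat_lit 0x68612) (nat_lit 0) (p (nat_lit 0x50592) (nat_lit 0) (p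 (nat_lit 0x40512) (nat_lit 0) (p (nat_lit 0x50312) (nat_lit 0) (p (nat_lit 0x38292) (nat_lit 0) (p (nat_lit 0x28212) (nat_lit 0) (p (nat_lit 0x38112) (nat_lit 0) (p (nat_lit 0x20092) (nat_lit 0) (p (nat_lit 0x10012) (nat_lit 0) pn))))))))))))))))))))))))) :=
  Cl.node (nat_lit 0x111) (nat_lit 2) (by decide +kernel) (ClAll.succ (ClAll.succ ClAll.zero n210) n211)

def n245 : Cl (O (nat_lit 6)) (R (nat_lit 14353))
    (p (nat_lit 0x109) (nat_lit 1) (p (nat_lit 0x101) (nat_lit 0) (p (nat_lit 0x119) (nat_lit 0) (p (nat_lit 0xd1) (nat_lit 0) (p (nat_lit 0x81) (nat_lit 0) (p (nat_lit 0x41) (nat_lit 1) (p (nat_lit 0x10a0b0a89089a) (nat_lit 0) (p (nat_lit 0x898a8a08881a) (nat_lit 0) (p (nat_lit 0x109088988079a) (nat_lit 0) (p (nat_lit 0x88880907871a) (nat_lit 0) (p (nat_lit 0x8000080000000080887068a) (nat_lit 0) (p (nat_lit 0x10888068602) (nat_lit 0) (p (nat_lit 0x8807860582) (nat_lit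 0) (p (nat_lit 0x10607058502) (nat_lit 0) (p (nat_lit 0x8586850482) (nat_lit 0) (p (nat_lit 0x160004) (nat_lit 0) (p (nat_lit 0x68612) (nat_lit 0) (p (nat_lit 0x50592) (nat_lit 0) (p (nat_lit 0x40512) (nat_lit 0) (p (nat_lit 0x50312) (nat_lit 0) (p (nat_lit 0x38292) (nat_lit 0) (p (nat_lit 0x28212) (nat_lit 0) (p (nat_lit 0x38112) (nat_lit 0) (p (nat_lit 0x20092) (nat_lit 0) (p (nat_lit 0x10012) (nat_lit 0) pn))))))))))))))))))))))))) :=
  Cl.node (nat_lit 0x89) (nat_lit 2) (by decide +kernel) (ClAll.succ (ClAll.succ ClAll.zero n212) n213)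

def n246 : Cl (O (nat_lit 6)) (R (nat_lit 14353))
    (p (nat_lit 0xc1) (nat_lit 0) (p (nat_lit 0x101) (nat_lit 1) (p (nat_lit 0x119) (nat_lit 0) (p (nat_lit 0xd1) (nat_lit 0) (p (nat_lit 0x81) (nat_lit 0) (p (nat_lit 0x41) (nat_lit 1) (p (nat_lit 0x10a0b0a89089a) (nat_lit 0) (p (nat_lit 0x898a8a08881a) (nat_lit 0) (p (nat_lit 0x109088988079a) (nat_lit 0) (p (nat_lit 0x88880907871a) (nat_lit 0) (p (nat_lit 0x8000080000000080887068a) (nat_lit 0) (p (nat_lit 0x10888068602) (nat_lit 0) (p (nat_lit 0x8807860582) (nat_lit 0) (p (nat_lit 0x10607058502) (nat_lit 0) (p (nat_lit 0x8586850482) (nat_lit 0) (p (nat_lit 0x160004) (nat_lit 0) (p (nat_lit 0x68612) (nat_lit 0) (p (nat_lit 0x50592) (nat_lit 0) (p (nat_lit 0x40512) (nat_lit 0) (p (nat_lit 0x50312) (nat_lit 0) (p (nat_lit 0x38292) (nat_lit 0) (p (nat_lit 0x28212) (nat_lit 0) (p (nat_lit 0x38112) (nat_lit 0) (p (nat_lit 0x20092)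 (nat_lit 0) (p (nat_lit 0x10012) (nat_lit 0) pn))))))))))))))))))))))))) :=
  Cl.node (nat_lit 0x89) (nat_lit 2) (by decide +kernel) (ClAll.succ (ClAll.succ ClAll.zero s443) n214)

def n247 : Cl (O (nat_lit 6)) (R (nat_lit 14353))
    (p (nat_lit 0xc1) (nat_lit 1) (p (nat_lit 0x101) (nat_lit 1) (p (nat_lit 0x119) (nat_lit 0) (p (nat_lit 0xd1) (nat_lit 0) (p (nat_lit 0x81) (nat_lit 0) (p (nat_lit 0x41) (nat_lit 1) (p (nat_lit 0x10a0b0a89089a) (nat_lit 0) (p (nat_lit 0x898a8a08881a) (nat_lit 0) (p (nat_lit 0x109088988079a) (nat_lit 0) (p (nat_lit 0x88880907871a) (nat_lit 0) (p (nat_lit 0x8000080000000080887068a) (nat_lit 0) (p (nat_lit 0x10888068602) (nat_lit 0) (p (nat_lit 0x8807860582) (nat_lit 0) (p (nat_lit 0x10607058502) (nat_lit 0) (p (nat_lit 0x8586850482) (nat_lit 0) (p (nat_lit 0x160004) (nat_lit 0) (p (nat_lit 0x68612) (nat_lit 0) (p (nat_lit 0x50592) (nat_lit 0) (p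 (nat_lit 0x40512) (nat_lit 0) (p (nat_lit 0x50312) (nat_lit 0) (p (nat_lit 0x38292) (nat_lit 0) (p (nat_lit 0x28212) (nat_lit 0) (p (nat_lit 0x38112) (nat_lit 0) (p (nat_lit 0x20092) (nat_lit 0) (p (nat_lit 0x10012) (nat_lit 0) pn))))))))))))))))))))))))) :=
  Cl.node (nat_lit 0x89) (nat_lit 2) (by decide +kernel) (ClAll.succ (ClAll.succ ClAll.zero s457) n215)

def n248 : Cl (O (nat_lit 6)) (R (nat_lit 14353))
    (p (nat_lit 0xc9) (nat_lit 1) (p (nat_lit 0xc1) (nat_lit 0) (p (nat_lit 0x119) (nat_lit 1) (p (nat_lit 0xd1) (nat_lit 0) (p (nat_lit 0x81) (nat_lit 0) (p (nat_lit 0x41) (nat_lit 1) (p (nat_lit 0x10a0b0a89089a) (nat_lit 0) (p (nat_lit 0x898a8a08881a) (nat_lit 0) (p (nat_lit 0x109088988079a) (nat_lit 0) (p (nat_lit 0x88880907871a) (nat_lit 0) (p (nat_lit 0x8000080000000080887068a) (nat_lit 0) (p (nat_lit 0x10888068602) (nat_lit 0) (p (nat_lit 0x8807860582) (nat_lit 0)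 (p (nat_lit 0x10607058502) (nat_lit 0) (p (nat_lit 0x8586850482) (nat_lit 0) (p (nat_lit 0x160004) (nat_lit 0) (p (nat_lit 0x68612) (nat_lit 0) (p (nat_lit 0x50592) (nat_lit 0) (p (nat_lit 0x40512) (nat_lit 0) (p (nat_lit 0x50312) (nat_lit 0) (p (nat_lit 0x38292) (nat_lit 0) (p (nat_lit 0x28212) (nat_lit 0) (p (nat_lit 0x38112) (nat_lit 0) (p (nat_lit 0x20092) (nat_lit 0) (p (nat_lit 0x10012) (nat_lit 0) pn))))))))))))))))))))))))) :=
  Cl.node (nat_lit 0x89) (nat_lit 2) (by decide +kernel) (ClAll.succ (ClAll.succ ClAll.zero s472) n216)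

def n249 : Cl (O (nat_lit 6)) (R (nat_lit 14353))
    (p (nat_lit 0x101) (nat_lit 0) (p (nat_lit 0xc1) (nat_lit 1) (p (nat_lit 0x119) (nat_lit 1) (p (nat_lit 0xd1) (nat_lit 0) (p (nat_lit 0x81) (nat_lit 0) (p (nat_lit 0x41) (nat_lit 1) (p (nat_lit 0x10a0b0a89089a) (nat_lit 0) (p (nat_lit 0x898a8a08881a) (nat_lit 0) (p (nat_lit 0x109088988079a) (nat_lit 0) (p (nat_lit 0x88880907871a) (nat_lit 0) (p (nat_lit 0x8000080000000080887068a) (nat_lit 0) (p (nat_lit 0x10888068602) (nat_lit 0) (p (nat_lit 0x8807860582) (nat_lit 0) (p (nat_lit 0x10607058502) (nat_lit 0) (p (nat_lit 0x8586850482) (nat_lit 0) (p (nat_lit 0x160004) (nat_lit 0) (p (nat_lit 0x68612) (nat_lit 0) (p (nat_lit 0x50592) (nat_lit 0) (p (nat_lit 0x40512) (nat_lit 0) (p (nat_lit 0x50312) (nat_lit 0) (p (nat_lit 0x38292) (nat_lit 0) (p (nat_lit 0x28212) (nat_lit 0) (p (nat_lit 0x38112) (nat_lit 0) (p (nat_lit 0x20092)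 (nat_lit 0) (p (nat_lit 0x10012) (nat_lit 0) pn))))))))))))))))))))))))) :=
  Cl.node (nat_lit 0x89) (nat_lit 2) (by decide +kernel) (ClAll.succ (ClAll.succ ClAll.zero s486) n217)

def n250 : Cl (O (nat_lit 6)) (R (nat_lit 14353))
    (p (nat_lit 0x101) (nat_lit 1) (p (nat_lit 0xc1) (nat_lit 1) (p (nat_lit 0x119) (nat_lit 1) (p (nat_lit 0xd1) (nat_lit 0) (p (nat_lit 0x81) (nat_lit 0) (p (nat_lit 0x41) (nat_lit 1) (p (nat_lit 0x10a0b0a89089a) (nat_lit 0) (p (nat_lit 0x898a8a08881a) (nat_lit 0) (p (nat_lit 0x109088988079a) (nat_lit 0) (p (nat_lit 0x88880907871a) (nat_lit 0) (p (nat_lit 0x8000080000000080887068a) (nat_lit 0) (p (nat_lit 0x10888068602) (nat_lit 0) (p (nat_lit 0x8807860582) (nat_lit 0) (p (nat_lit 0x10607058502) (nat_lit 0) (p (nat_lit 0x8586850482) (nat_lit 0) (p (nat_lit 0x160004) (nat_lit 0) (p (nat_lit 0x68612) (nat_lit 0) (p (nat_lit 0x50592) (nat_lit 0) (p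 (nat_lit 0x40512) (nat_lit 0) (p (nat_lit 0x50312) (nat_lit 0) (p (nat_lit 0x38292) (nat_lit 0) (p (nat_lit 0x28212) (nat_lit 0) (p (nat_lit 0x38112) (nat_lit 0) (p (nat_lit 0x20092) (nat_lit 0) (p (nat_lit 0x10012) (nat_lit 0) pn))))))))))))))))))))))))) :=
  Cl.node (nat_lit 0x89) (nat_lit 2) (by decide +kernel) (ClAll.succ (ClAll.succ ClAll.zero s513) n218)

def n251 : Cl (O (nat_lit 6)) (R (nat_lit 14353))
    (p (nat_lit 0x109) (nat_lit 1) (p (nat_lit 0x101) (nat_lit 0) (p (nat_lit 0x111) (nat_lit 0) (p (nat_lit 0xd1) (nat_lit 1) (p (nat_lit 0x81) (nat_lit 0) (p (nat_lit 0x41) (nat_lit 1) (p (nat_lit 0x10a0b0a89089a) (nat_lit 0) (p (nat_lit 0x898a8a08881a) (nat_lit 0) (p (nat_lit 0x109088988079a) (nat_lit 0) (p (nat_lit 0x88880907871a) (nat_lit 0) (p (nat_lit 0x8000080000000080887068a) (nat_lit 0) (p (nat_lit 0x10888068602) (nat_lit 0) (p (nat_lit 0x8807860582) (nat_lit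 0) (p (nat_lit 0x10607058502) (nat_lit 0) (p (nat_lit 0x8586850482) (nat_lit 0) (p (nat_lit 0x160004) (nat_lit 0) (p (nat_lit 0x68612) (nat_lit 0) (p (nat_lit 0x50592) (nat_lit 0) (p (nat_lit 0x40512) (nat_lit 0) (p (nat_lit 0x50312) (nat_lit 0) (p (nat_lit 0x38292) (nat_lit 0) (p (nat_lit 0x28212) (nat_lit 0) (p (nat_lit 0x38112) (nat_lit 0) (p (nat_lit 0x20092) (nat_lit 0) (p (nat_lit 0x10012) (nat_lit 0) pn))))))))))))))))))))))))) :=
  Cl.node (nat_lit 0x89) (nat_lit 2) (by decide +kernel) (ClAll.succ (ClAll.succ ClAll.zero s528) n219)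

def n252 : Cl (O (nat_lit 6)) (R (nat_lit 14353))
    (p (nat_lit 0x89) (nat_lit 0) (p (nat_lit 0x101) (nat_lit 1) (p (nat_lit 0x111) (nat_lit 0) (p (nat_lit 0xd1) (nat_lit 1) (p (nat_lit 0x81) (nat_lit 0) (p (nat_lit 0x41) (nat_lit 1) (p (nat_lit 0x10a0b0a89089a) (nat_lit 0) (p (nat_lit 0x898a8a08881a) (nat_lit 0) (p (nat_lit 0x109088988079a) (nat_lit 0) (p (nat_lit 0x88880907871a) (nat_lit 0) (p (nat_lit 0x8000080000000080887068a) (nat_lit 0) (p (nat_lit 0x10888068602) (nat_lit 0) (p (nat_lit 0x8807860582) (nat_lit 0) (p (nat_lit 0x10607058502) (nat_lit 0) (p (nat_lit 0x8586850482) (nat_lit 0) (p (nat_lit 0x160004) (nat_lit 0) (p (nat_lit 0x68612) (nat_lit 0) (p (nat_lit 0x50592) (nat_lit 0) (p (nat_lit 0x40512) (nat_lit 0) (p (nat_lit 0x50312) (nat_lit 0) (p (nat_lit 0x38292) (nat_lit 0) (p (nat_lit 0x28212) (nat_lit 0) (p (nat_lit 0x38112) (nat_lit 0) (p (nat_lit 0x20092)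 (nat_lit 0) (p (nat_lit 0x10012) (nat_lit 0) pn))))))))))))))))))))))))) :=
  Cl.node (nat_lit 0x3cc2a) (nat_lit 12) (by decide +kernel) (ClAll.succ (ClAll.succ (ClAll.succ (ClAll.succ (ClAll.succ (ClAll.succ (ClAll.succ (ClAll.succ (ClAll.succ (ClAll.succ (ClAll.succ (ClAll.succ ClAll.zero n220) s534) s535) s536) s537) s538) s539) s540) s541) s542) s543) s544)

def n253 : Cl (O (nat_lit 6)) (R (nat_lit 14353))
    (p (nat_lit 0x89) (nat_lit 1) (p (nat_lit 0x101) (nat_lit 1) (p (nat_lit 0x111) (nat_lit 0) (p (nat_lit 0xd1) (nat_lit 1) (p (nat_lit 0x81) (nat_lit 0) (p (nat_lit 0x41) (nat_lit 1) (p (nat_lit 0x10a0b0a89089a) (nat_lit 0) (p (nat_lit 0x898a8a08881a) (nat_lit 0) (p (nat_lit 0x109088988079a) (nat_lit 0) (p (nat_lit 0x88880907871a) (nat_lit 0) (p (nat_lit 0x8000080000000080887068a) (nat_lit 0) (p (nat_lit 0x10888068602) (nat_lit 0) (p (nat_lit 0x8807860582) (nat_lit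 0) (p (nat_lit 0x10607058502) (nat_lit 0) (p (nat_lit 0x8586850482) (nat_lit 0) (p (nat_lit 0x160004) (nat_lit 0) (p (nat_lit 0x68612) (nat_lit 0) (p (nat_lit 0x50592) (nat_lit 0) (p (nat_lit 0x40512) (nat_lit 0) (p (nat_lit 0x50312) (nat_lit 0) (p (nat_lit 0x38292) (nat_lit 0) (p (nat_lit 0x28212) (nat_lit 0) (p (nat_lit 0x38112) (nat_lit 0) (p (nat_lit 0x20092) (nat_lit 0) (p (nat_lit 0x10012) (nat_lit 0) pn))))))))))))))))))))))))) :=
  Cl.node (nat_lit 0xc9) (nat_lit 2) (by decide +kernel) (ClAll.succ (ClAll.succ ClAll.zero n221) s558)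

def n254 : Cl (O (nat_lit 6)) (R (nat_lit 14353))
    (p (nat_lit 0xc9) (nat_lit 1) (p (nat_lit 0x89) (nat_lit 1) (p (nat_lit 0x111) (nat_lit 1) (p (nat_lit 0xd1) (nat_lit 1) (p (nat_lit 0x81) (nat_lit 0) (p (nat_lit 0x41) (nat_lit 1) (p (nat_lit 0x10a0b0a89089a) (nat_lit 0) (p (nat_lit 0x898a8a08881a) (nat_lit 0) (p (nat_lit 0x109088988079a) (nat_lit 0) (p (nat_lit 0x88880907871a) (nat_lit 0) (p (nat_lit 0x8000080000000080887068a) (nat_lit 0) (p (nat_lit 0x10888068602) (nat_lit 0) (p (nat_lit 0x8807860582) (nat_lit 0) (p (nat_lit 0x10607058502) (nat_lit 0) (p (nat_lit 0x8586850482) (nat_lit 0) (p (nat_lit 0x160004) (nat_lit 0) (p (nat_lit 0x68612) (nat_lit 0) (p (nat_lit 0x50592) (nat_lit 0) (p (nat_lit 0x40512) (nat_lit 0) (p (nat_lit 0x50312) (nat_lit 0) (p (nat_lit 0x38292) (nat_lit 0) (p (nat_lit 0x28212) (nat_lit 0) (p (nat_lit 0x38112) (nat_lit 0) (p (nat_lit 0x20092)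 (nat_lit 0) (p (nat_lit 0x10012) (nat_lit 0) pn))))))))))))))))))))))))) :=
  Cl.node (nat_lit 0x109) (nat_lit 2) (by decide +kernel) (ClAll.succ (ClAll.succ ClAll.zero n222) s573)

def n255 : Cl (O (nat_lit 6)) (R (nat_lit 14353))
    (p (nat_lit 0x109) (nat_lit 0) (p (nat_lit 0x101) (nat_lit 0) (p (nat_lit 0x119) (nat_lit 0) (p (nat_lit 0xc1) (nat_lit 0) (p (nat_lit 0x81) (nat_lit 1) (p (nat_lit 0x41) (nat_lit 1) (p (nat_lit 0x10a0b0a89089a) (nat_lit 0) (p (nat_lit 0x898a8a08881a) (nat_lit 0) (p (nat_lit 0x109088988079a) (nat_lit 0) (p (nat_lit 0x88880907871a) (nat_lit 0) (p (nat_lit 0x8000080000000080887068a) (nat_lit 0) (p (nat_lit 0x10888068602) (nat_lit 0) (p (nat_lit 0x8807860582) (nat_lit 0) (p (nat_lit 0x10607058502) (nat_lit 0) (p (nat_lit 0x8586850482) (nat_lit 0) (p (nat_lit 0x160004) (nat_lit 0) (p (nat_lit 0x68612) (nat_lit 0) (p (nat_lit 0x50592) (nat_lit 0) (p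 (nat_lit 0x40512) (nat_lit 0) (p (nat_lit 0x50312) (nat_lit 0) (p (nat_lit 0x38292) (nat_lit 0) (p (nat_lit 0x28212) (nat_lit 0) (p (nat_lit 0x38112) (nat_lit 0) (p (nat_lit 0x20092) (nat_lit 0) (p (nat_lit 0x10012) (nat_lit 0) pn))))))))))))))))))))))))) :=
  Cl.node (nat_lit 0x111) (nat_lit 2) (by decide +kernel) (ClAll.succ (ClAll.succ ClAll.zero s574) n223)

def n256 : Cl (O (nat_lit 6)) (R (nat_lit 14353))
    (p (nat_lit 0x109) (nat_lit 1) (p (nat_lit 0x101) (nat_lit 0) (p (nat_lit 0x119) (nat_lit 0) (p (nat_lit 0xc1) (nat_lit 0) (p (nat_lit 0x81) (nat_lit 1) (p (nat_lit 0x41) (nat_lit 1) (p (nat_lit 0x10a0b0a89089a) (nat_lit 0) (p (nat_lit 0x898a8a08881a) (nat_lit 0) (p (nat_lit 0x109088988079a) (nat_lit 0) (p (nat_lit 0x88880907871a) (nat_lit 0) (p (nat_lit 0x8000080000000080887068a) (nat_lit 0) (p (nat_lit 0x10888068602) (nat_lit 0) (p (nat_lit 0x8807860582) (nat_lit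 0) (p (nat_lit 0x10607058502) (nat_lit 0) (p (nat_lit 0x8586850482) (nat_lit 0) (p (nat_lit 0x160004) (nat_lit 0) (p (nat_lit 0x68612) (nat_lit 0) (p (nat_lit 0x50592) (nat_lit 0) (p (nat_lit 0x40512) (nat_lit 0) (p (nat_lit 0x50312) (nat_lit 0) (p (nat_lit 0x38292) (nat_lit 0) (p (nat_lit 0x28212) (nat_lit 0) (p (nat_lit 0x38112) (nat_lit 0) (p (nat_lit 0x20092) (nat_lit 0) (p (nat_lit 0x10012) (nat_lit 0) pn))))))))))))))))))))))))) :=
  Cl.node (nat_lit 0xc9) (nat_lit 2) (by decide +kernel) (ClAll.succ (ClAll.succ ClAll.zero n224) s640)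

def n257 : Cl (O (nat_lit 6)) (R (nat_lit 14353))
    (p (nat_lit 0xc9) (nat_lit 0) (p (nat_lit 0x101) (nat_lit 1) (p (nat_lit 0x119) (nat_lit 0) (p (nat_lit 0xc1) (nat_lit 0) (p (nat_lit 0x81) (nat_lit 1) (p (nat_lit 0x41) (nat_lit 1) (p (nat_lit 0x10a0b0a89089a) (nat_lit 0) (p (nat_lit 0x898a8a08881a) (nat_lit 0) (p (nat_lit 0x109088988079a) (nat_lit 0) (p (nat_lit 0x88880907871a) (nat_lit 0) (p (nat_lit 0x8000080000000080887068a) (nat_lit 0) (p (nat_lit 0x10888068602) (nat_lit 0) (p (nat_lit 0x8807860582) (nat_lit 0) (p (nat_lit 0x10607058502) (nat_lit 0) (p (nat_lit 0x8586850482) (nat_lit 0) (p (nat_lit 0x160004) (nat_lit 0) (p (nat_lit 0x68612) (nat_lit 0) (p (nat_lit 0x50592) (nat_lit 0) (p (nat_lit 0x40512) (nat_lit 0) (p (nat_lit 0x50312) (nat_lit 0) (p (nat_lit 0x38292) (nat_lit 0) (p (nat_lit 0x28212) (nat_lit 0) (p (nat_lit 0x38112) (nat_lit 0) (p (nat_lit 0x20092)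 (nat_lit 0) (p (nat_lit 0x10012) (nat_lit 0) pn))))))))))))))))))))))))) :=
  Cl.node (nat_lit 0xd1) (nat_lit 2) (by decide +kernel) (ClAll.succ (ClAll.succ ClAll.zero n225) n226)

def n258 : Cl (O (nat_lit 6)) (R (nat_lit 14353))
    (p (nat_lit 0xd1) (nat_lit 1) (p (nat_lit 0xc9) (nat_lit 0) (p (nat_lit 0x119) (nat_lit 1) (p (nat_lit 0xc1) (nat_lit 0) (p (nat_lit 0x81) (nat_lit 1) (p (nat_lit 0x41) (nat_lit 1) (p (nat_lit 0x10a0b0a89089a) (nat_lit 0) (p (nat_lit 0x898a8a08881a) (nat_lit 0) (p (nat_lit 0x109088988079a) (nat_lit 0) (p (nat_lit 0x88880907871a) (nat_lit 0) (p (nat_lit 0x8000080000000080887068a) (nat_lit 0) (p (nat_lit 0x10888068602) (nat_lit 0) (p (nat_lit 0x8807860582) (nat_lit 0) (p (nat_lit 0x10607058502) (nat_lit 0) (p (nat_lit 0x8586850482) (nat_lit 0) (p (nat_lit 0x160004) (nat_lit 0) (p (nat_lit 0x68612) (nat_lit 0) (p (nat_lit 0x50592) (nat_lit 0) (p (nat_lit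 0x40512) (nat_lit 0) (p (nat_lit 0x50312) (nat_lit 0) (p (nat_lit 0x38292) (nat_lit 0) (p (nat_lit 0x28212) (nat_lit 0) (p (nat_lit 0x38112) (nat_lit 0) (p (nat_lit 0x20092) (nat_lit 0) (p (nat_lit 0x10012) (nat_lit 0) pn))))))))))))))))))))))))) :=
  Cl.node (nat_lit 0x111) (nat_lit 2) (by decide +kernel) (ClAll.succ (ClAll.succ ClAll.zero s679) n227)

def n259 : Cl (O (nat_lit 6)) (R (nat_lit 14353))
    (p (nat_lit 0x109) (nat_lit 0) (p (nat_lit 0xc9) (nat_lit 1) (p (nat_lit 0x119) (nat_lit 1) (p (nat_lit 0xc1) (nat_lit 0) (p (nat_lit 0x81) (nat_lit 1) (p (nat_lit 0x41) (nat_lit 1) (p (nat_lit 0x10a0b0a89089a) (nat_lit 0) (p (nat_lit 0x898a8a08881a) (nat_lit 0) (p (nat_lit 0x109088988079a) (nat_lit 0) (p (nat_lit 0x88880907871a) (nat_lit 0) (p (nat_lit 0x8000080000000080887068a) (nat_lit 0) (p (nat_lit 0x10888068602) (nat_lit 0) (p (nat_lit 0x8807860582) (nat_lit 0) (p (nat_lit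 0x10607058502) (nat_lit 0) (p (nat_lit 0x8586850482) (nat_lit 0) (p (nat_lit 0x160004) (nat_lit 0) (p (nat_lit 0x68612) (nat_lit 0) (p (nat_lit 0x50592) (nat_lit 0) (p (nat_lit 0x40512) (nat_lit 0) (p (nat_lit 0x50312) (nat_lit 0) (p (nat_lit 0x38292) (nat_lit 0) (p (nat_lit 0x28212) (nat_lit 0) (p (nat_lit 0x38112) (nat_lit 0) (p (nat_lit 0x20092) (nat_lit 0) (p (nat_lit 0x10012) (nat_lit 0) pn))))))))))))))))))))))))) :=
  Cl.node (nat_lit 0x111) (nat_lit 2) (by decide +kernel) (ClAll.succ (ClAll.succ ClAll.zero n228) n229)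

def n260 : Cl (O (nat_lit 6)) (R (nat_lit 14353))
    (p (nat_lit 0x101) (nat_lit 0) (p (nat_lit 0x119) (nat_lit 0) (p (nat_lit 0xd1) (nat_lit 0) (p (nat_lit 0x89) (nat_lit 0) (p (nat_lit 0x41) (nat_lit 0) (p (nat_lit 0x10a0b0a89089a) (nat_lit 0) (p (nat_lit 0x898a8a08881a) (nat_lit 0) (p (nat_lit 0x109088988079a) (nat_lit 0) (p (nat_lit 0x88880907871a) (nat_lit 0) (p (nat_lit 0x8000080000000080887068a) (nat_lit 0) (p (nat_lit 0x10888068602) (nat_lit 0) (p (nat_lit 0x8807860582) (nat_lit 0) (p (nat_lit 0x10607058502) (nat_lit 0) (p (nat_lit 0x8586850482) (nat_lit 0) (p (nat_lit 0x160004) (nat_lit 0) (p (nat_lit 0x68612) (nat_lit 0) (p (nat_lit 0x50592) (nat_lit 0) (p (nat_lit 0x40512) (nat_lit 0) (p (nat_lit 0x50312) (nat_lit 0) (p (nat_lit 0x38292) (nat_lit 0) (p (nat_lit 0x28212) (nat_lit 0) (p (nat_lit 0x38112) (nat_lit 0) (p (nat_lit 0x20092) (nat_lit 0) (p (nat_lit 0x10012)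 (nat_lit 0) pn)))))))))))))))))))))))) :=
  Cl.node (nat_lit 0x109) (nat_lit 2) (by decide +kernel) (ClAll.succ (ClAll.succ ClAll.zero s0) n230)

def n261 : Cl (O (nat_lit 6)) (R (nat_lit 14353))
    (p (nat_lit 0x101) (nat_lit 1) (p (nat_lit 0x119) (nat_lit 0) (p (nat_lit 0xd1) (nat_lit 0) (p (nat_lit 0x89) (nat_lit 0) (p (nat_lit 0x41) (nat_lit 0) (p (nat_lit 0x10a0b0a89089a) (nat_lit 0) (p (nat_lit 0x898a8a08881a) (nat_lit 0) (p (nat_lit 0x109088988079a) (nat_lit 0) (p (nat_lit 0x88880907871a) (nat_lit 0) (p (nat_lit 0x8000080000000080887068a) (nat_lit 0) (p (nat_lit 0x10888068602) (nat_lit 0) (p (nat_lit 0x8807860582) (nat_lit 0) (p (nat_lit 0x10607058502) (nat_lit 0) (p (nat_lit 0x8586850482) (nat_lit 0) (p (nat_lit 0x160004) (nat_lit 0) (p (nat_lit 0x68612) (nat_lit 0) (p (nat_lit 0x50592) (nat_lit 0) (p (nat_lit 0x40512) (nat_lit 0) (p (nat_lit 0x50312) (nat_lit 0) (p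 (nat_lit 0x38292) (nat_lit 0) (p (nat_lit 0x28212) (nat_lit 0) (p (nat_lit 0x38112) (nat_lit 0) (p (nat_lit 0x20092) (nat_lit 0) (p (nat_lit 0x10012) (nat_lit 0) pn)))))))))))))))))))))))) :=
  Cl.node (nat_lit 0x81) (nat_lit 2) (by decide +kernel) (ClAll.succ (ClAll.succ ClAll.zero n231) n232)

def n262 : Cl (O (nat_lit 6)) (R (nat_lit 14353))
    (p (nat_lit 0xc1) (nat_lit 0) (p (nat_lit 0x119) (nat_lit 1) (p (nat_lit 0xd1) (nat_lit 0) (p (nat_lit 0x89) (nat_lit 0) (p (nat_lit 0x41) (nat_lit 0) (p (nat_lit 0x10a0b0a89089a) (nat_lit 0) (p (nat_lit 0x898a8a08881a) (nat_lit 0) (p (nat_lit 0x109088988079a) (nat_lit 0) (p (nat_lit 0x88880907871a) (nat_lit 0) (p (nat_lit 0x8000080000000080887068a) (nat_lit 0) (p (nat_lit 0x10888068602) (nat_lit 0) (p (nat_lit 0x8807860582) (nat_lit 0) (p (nat_lit 0x10607058502) (nat_lit 0) (p (nat_lit 0x8586850482) (nat_lit 0) (p (nat_lit 0x160004)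 (nat_lit 0) (p (nat_lit 0x68612) (nat_lit 0) (p (nat_lit 0x50592) (nat_lit 0) (p (nat_lit 0x40512) (nat_lit 0) (p (nat_lit 0x50312) (nat_lit 0) (p (nat_lit 0x38292) (nat_lit 0) (p (nat_lit 0x28212) (nat_lit 0) (p (nat_lit 0x38112) (nat_lit 0) (p (nat_lit 0x20092) (nat_lit 0) (p (nat_lit 0x10012) (nat_lit 0) pn)))))))))))))))))))))))) :=
  Cl.node (nat_lit 0xc9) (nat_lit 2) (by decide +kernel) (ClAll.succ (ClAll.succ ClAll.zero s83) n233)

def n263 : Cl (O (nat_lit 6)) (R (nat_lit 14353))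
    (p (nat_lit 0xc1) (nat_lit 1) (p (nat_lit 0x119) (nat_lit 1) (p (nat_lit 0xd1) (nat_lit 0) (p (nat_lit 0x89) (nat_lit 0) (p (nat_lit 0x41) (nat_lit 0) (p (nat_lit 0x10a0b0a89089a) (nat_lit 0) (p (nat_lit 0x898a8a08881a) (nat_lit 0) (p (nat_lit 0x109088988079a) (nat_lit 0) (p (nat_lit 0x88880907871a) (nat_lit 0) (p (nat_lit 0x8000080000000080887068a) (nat_lit 0) (p (nat_lit 0x10888068602) (nat_lit 0) (p (nat_lit 0x8807860582) (nat_lit 0) (p (nat_lit 0x10607058502) (nat_lit 0) (p (nat_lit 0x8586850482) (nat_lit 0) (p (nat_lit 0x160004) (nat_lit 0) (p (nat_lit 0x68612) (nat_lit 0) (p (nat_lit 0x50592) (nat_lit 0) (p (nat_lit 0x40512) (nat_lit 0) (p (nat_lit 0x50312) (nat_lit 0) (p (nat_lit 0x38292) (nat_lit 0) (p (nat_lit 0x28212) (nat_lit 0) (p (nat_lit 0x38112) (nat_lit 0) (p (nat_lit 0x20092) (nat_lit 0) (p (nat_lit 0x10012) (nat_lit 0) pn)))))))))))))))))))))))) :=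
  Cl.node (nat_lit 0x81) (nat_lit 2) (by decide +kernel) (ClAll.succ (ClAll.succ ClAll.zero n234) n235)

def n264 : Cl (O (nat_lit 6)) (R (nat_lit 14353))
    (p (nat_lit 0x101) (nat_lit 0) (p (nat_lit 0x111) (nat_lit 0) (p (nat_lit 0xd1) (nat_lit 1) (p (nat_lit 0x89) (nat_lit 0) (p (nat_lit 0x41) (nat_lit 0) (p (nat_lit 0x10a0b0a89089a) (nat_lit 0) (p (nat_lit 0x898a8a08881a) (nat_lit 0) (p (nat_lit 0x109088988079a) (nat_lit 0) (p (nat_lit 0x88880907871a) (nat_lit 0) (p (nat_lit 0x8000080000000080887068a) (nat_lit 0) (p (nat_lit 0x10888068602) (nat_lit 0) (p (nat_lit 0x8807860582) (nat_lit 0) (p (nat_lit 0x10607058502) (nat_lit 0) (p (nat_lit 0x8586850482) (nat_lit 0) (p (nat_lit 0x160004) (nat_lit 0) (p (nat_lit 0x68612) (nat_lit 0) (p (nat_lit 0x50592) (nat_lit 0) (p (nat_lit 0x40512) (nat_lit 0) (p (nat_lit 0x50312) (nat_lit 0) (p (nat_lit 0x38292) (nat_lit 0) (p (nat_lit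 0x28212) (nat_lit 0) (p (nat_lit 0x38112) (nat_lit 0) (p (nat_lit 0x20092) (nat_lit 0) (p (nat_lit 0x10012) (nat_lit 0) pn)))))))))))))))))))))))) :=
  Cl.node (nat_lit 0x109) (nat_lit 2) (by decide +kernel) (ClAll.succ (ClAll.succ ClAll.zero s173) n236)

def n265 : Cl (O (nat_lit 6)) (R (nat_lit 14353))
    (p (nat_lit 0x101) (nat_lit 1) (p (nat_lit 0x111) (nat_lit 0) (p (nat_lit 0xd1) (nat_lit 1) (p (nat_lit 0x89) (nat_lit 0) (p (nat_lit 0x41) (nat_lit 0) (p (nat_lit 0x10a0b0a89089a) (nat_lit 0) (p (nat_lit 0x898a8a08881a) (nat_lit 0) (p (nat_lit 0x109088988079a) (nat_lit 0) (p (nat_lit 0x88880907871a) (nat_lit 0) (p (nat_lit 0x8000080000000080887068a) (nat_lit 0) (p (nat_lit 0x10888068602) (nat_lit 0) (p (nat_lit 0x8807860582) (nat_lit 0) (p (nat_lit 0x10607058502) (nat_lit 0) (p (nat_lit 0x8586850482) (nat_lit 0) (p (nat_lit 0x160004) (nat_lit 0) (p (nat_lit 0x68612) (nat_lit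 0) (p (nat_lit 0x50592) (nat_lit 0) (p (nat_lit 0x40512) (nat_lit 0) (p (nat_lit 0x50312) (nat_lit 0) (p (nat_lit 0x38292) (nat_lit 0) (p (nat_lit 0x28212) (nat_lit 0) (p (nat_lit 0x38112) (nat_lit 0) (p (nat_lit 0x20092) (nat_lit 0) (p (nat_lit 0x10012) (nat_lit 0) pn)))))))))))))))))))))))) :=
  Cl.node (nat_lit 0x81) (nat_lit 2) (by decide +kernel) (ClAll.succ (ClAll.succ ClAll.zero n237) n238)

def n266 : Cl (O (nat_lit 6)) (R (nat_lit 14353))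
    (p (nat_lit 0x81) (nat_lit 1) (p (nat_lit 0x111) (nat_lit 1) (p (nat_lit 0xd1) (nat_lit 1) (p (nat_lit 0x89) (nat_lit 0) (p (nat_lit 0x41) (nat_lit 0) (p (nat_lit 0x10a0b0a89089a) (nat_lit 0) (p (nat_lit 0x898a8a08881a) (nat_lit 0) (p (nat_lit 0x109088988079a) (nat_lit 0) (p (nat_lit 0x88880907871a) (nat_lit 0) (p (nat_lit 0x8000080000000080887068a) (nat_lit 0) (p (nat_lit 0x10888068602) (nat_lit 0) (p (nat_lit 0x8807860582) (nat_lit 0) (p (nat_lit 0x10607058502) (nat_lit 0) (p (nat_lit 0x8586850482) (nat_lit 0) (p (nat_lit 0x160004) (nat_lit 0) (p (nat_lit 0x68612) (nat_lit 0) (p (nat_lit 0x50592) (nat_lit 0) (p (nat_lit 0x40512) (nat_lit 0) (p (nat_lit 0x50312) (nat_lit 0) (p (nat_lit 0x38292) (nat_lit 0) (p (nat_lit 0x28212) (nat_lit 0) (p (nat_lit 0x38112) (nat_lit 0) (p (nat_lit 0x20092) (nat_lit 0) (p (nat_lit 0x10012) (nat_lit 0) pn)))))))))))))))))))))))) :=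
  Cl.node (nat_lit 0xc1) (nat_lit 2) (by decide +kernel) (ClAll.succ (ClAll.succ ClAll.zero s233) n239)

def n267 : Cl (O (nat_lit 6)) (R (nat_lit 14353))
    (p (nat_lit 0x101) (nat_lit 0) (p (nat_lit 0x119) (nat_lit 0) (p (nat_lit 0xc9) (nat_lit 0) (p (nat_lit 0x89) (nat_lit 1) (p (nat_lit 0x41) (nat_lit 0) (p (nat_lit 0x10a0b0a89089a) (nat_lit 0) (p (nat_lit 0x898a8a08881a) (nat_lit 0) (p (nat_lit 0x109088988079a) (nat_lit 0) (p (nat_lit 0x88880907871a) (nat_lit 0) (p (nat_lit 0x8000080000000080887068a) (nat_lit 0) (p (nat_lit 0x10888068602) (nat_lit 0) (p (nat_lit 0x8807860582) (nat_lit 0) (p (nat_lit 0x10607058502) (nat_lit 0) (p (nat_lit 0x8586850482) (nat_lit 0) (p (nat_lit 0x160004) (nat_lit 0) (p (nat_lit 0x68612) (nat_lit 0) (p (nat_lit 0x50592) (nat_lit 0) (p (nat_lit 0x40512) (nat_lit 0) (p (nat_lit 0x50312) (nat_lit 0) (p (nat_lit 0x38292) (nat_lit 0) (p (nat_lit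 0x28212) (nat_lit 0) (p (nat_lit 0x38112) (nat_lit 0) (p (nat_lit 0x20092) (nat_lit 0) (p (nat_lit 0x10012) (nat_lit 0) pn)))))))))))))))))))))))) :=
  Cl.node (nat_lit 0x109) (nat_lit 2) (by decide +kernel) (ClAll.succ (ClAll.succ ClAll.zero n240) n241)

def n268 : Cl (O (nat_lit 6)) (R (nat_lit 14353))
    (p (nat_lit 0x101) (nat_lit 1) (p (nat_lit 0x119) (nat_lit 0) (p (nat_lit 0xc9) (nat_lit 0) (p (nat_lit 0x89) (nat_lit 1) (p (nat_lit 0x41) (nat_lit 0) (p (nat_lit 0x10a0b0a89089a) (nat_lit 0) (p (nat_lit 0x898a8a08881a) (nat_lit 0) (p (nat_lit 0x109088988079a) (nat_lit 0) (p (nat_lit 0x88880907871a) (nat_lit 0) (p (nat_lit 0x8000080000000080887068a) (nat_lit 0) (p (nat_lit 0x10888068602) (nat_lit 0) (p (nat_lit 0x8807860582) (nat_lit 0) (p (nat_lit 0x10607058502) (nat_lit 0) (p (nat_lit 0x8586850482) (nat_lit 0) (p (nat_lit 0x160004) (nat_lit 0) (p (nat_lit 0x68612) (nat_lit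 0) (p (nat_lit 0x50592) (nat_lit 0) (p (nat_lit 0x40512) (nat_lit 0) (p (nat_lit 0x50312) (nat_lit 0) (p (nat_lit 0x38292) (nat_lit 0) (p (nat_lit 0x28212) (nat_lit 0) (p (nat_lit 0x38112) (nat_lit 0) (p (nat_lit 0x20092) (nat_lit 0) (p (nat_lit 0x10012) (nat_lit 0) pn)))))))))))))))))))))))) :=
  Cl.node (nat_lit 0xc1) (nat_lit 2) (by decide +kernel) (ClAll.succ (ClAll.succ ClAll.zero n242) s339)

def n269 : Cl (O (nat_lit 6)) (R (nat_lit 14353))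
    (p (nat_lit 0xc1) (nat_lit 0) (p (nat_lit 0x119) (nat_lit 1) (p (nat_lit 0xc9) (nat_lit 0) (p (nat_lit 0x89) (nat_lit 1) (p (nat_lit 0x41) (nat_lit 0) (p (nat_lit 0x10a0b0a89089a) (nat_lit 0) (p (nat_lit 0x898a8a08881a) (nat_lit 0) (p (nat_lit 0x109088988079a) (nat_lit 0) (p (nat_lit 0x88880907871a) (nat_lit 0) (p (nat_lit 0x8000080000000080887068a) (nat_lit 0) (p (nat_lit 0x10888068602) (nat_lit 0) (p (nat_lit 0x8807860582) (nat_lit 0) (p (nat_lit 0x10607058502) (nat_lit 0) (p (nat_lit 0x8586850482) (nat_lit 0) (p (nat_lit 0x160004) (nat_lit 0) (p (nat_lit 0x68612) (nat_lit 0) (p (nat_lit 0x50592) (nat_lit 0) (p (nat_lit 0x40512) (nat_lit 0) (p (nat_lit 0x50312) (nat_lit 0) (p (nat_lit 0x38292) (nat_lit 0) (p (nat_lit 0x28212) (nat_lit 0) (p (nat_lit 0x38112) (nat_lit 0) (p (nat_lit 0x20092) (nat_lit 0) (p (nat_lit 0x10012) (nat_lit 0) pn)))))))))))))))))))))))) :=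
  Cl.node (nat_lit 0xd1) (nat_lit 2) (by decide +kernel) (ClAll.succ (ClAll.succ ClAll.zero s340) n243)

def n270 : Cl (O (nat_lit 6)) (R (nat_lit 14353))
    (p (nat_lit 0xc1) (nat_lit 1) (p (nat_lit 0x119) (nat_lit 1) (p (nat_lit 0xc9) (nat_lit 0) (p (nat_lit 0x89) (nat_lit 1) (p (nat_lit 0x41) (nat_lit 0) (p (nat_lit 0x10a0b0a89089a) (nat_lit 0) (p (nat_lit 0x898a8a08881a) (nat_lit 0) (p (nat_lit 0x109088988079a) (nat_lit 0) (p (nat_lit 0x88880907871a) (nat_lit 0) (p (nat_lit 0x8000080000000080887068a) (nat_lit 0) (p (nat_lit 0x10888068602) (nat_lit 0) (p (nat_lit 0x8807860582) (nat_lit 0) (p (nat_lit 0x10607058502) (nat_lit 0) (p (nat_lit 0x8586850482) (nat_lit 0) (p (nat_lit 0x160004) (nat_lit 0) (p (nat_lit 0x68612) (nat_lit 0) (p (nat_lit 0x50592) (nat_lit 0) (p (nat_lit 0x40512) (nat_lit 0) (p (nat_lit 0x50312) (nat_lit 0) (p (nat_lit 0x38292) (nat_lit 0) (p (nat_lit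 0x28212) (nat_lit 0) (p (nat_lit 0x38112) (nat_lit 0) (p (nat_lit 0x20092) (nat_lit 0) (p (nat_lit 0x10012) (nat_lit 0) pn)))))))))))))))))))))))) :=
  Cl.node (nat_lit 0x101) (nat_lit 2) (by decide +kernel) (ClAll.succ (ClAll.succ ClAll.zero n244) s413)

def n271 : Cl (O (nat_lit 6)) (R (nat_lit 14353))
    (p (nat_lit 0x101) (nat_lit 0) (p (nat_lit 0x119) (nat_lit 0) (p (nat_lit 0xd1) (nat_lit 0) (p (nat_lit 0x81) (nat_lit 0) (p (nat_lit 0x41) (nat_lit 1) (p (nat_lit 0x10a0b0a89089a) (nat_lit 0) (p (nat_lit 0x898a8a08881a) (nat_lit 0) (p (nat_lit 0x109088988079a) (nat_lit 0) (p (nat_lit 0x88880907871a) (nat_lit 0) (p (nat_lit 0x8000080000000080887068a) (nat_lit 0) (p (nat_lit 0x10888068602) (nat_lit 0) (p (nat_lit 0x8807860582) (nat_lit 0) (p (nat_lit 0x10607058502) (nat_lit 0) (p (nat_lit 0x8586850482) (nat_lit 0) (p (nat_lit 0x160004) (nat_lit 0) (p (nat_lit 0x68612) (nat_lit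 0) (p (nat_lit 0x50592) (nat_lit 0) (p (nat_lit 0x40512) (nat_lit 0) (p (nat_lit 0x50312) (nat_lit 0) (p (nat_lit 0x38292) (nat_lit 0) (p (nat_lit 0x28212) (nat_lit 0) (p (nat_lit 0x38112) (nat_lit 0) (p (nat_lit 0x20092) (nat_lit 0) (p (nat_lit 0x10012) (nat_lit 0) pn)))))))))))))))))))))))) :=
  Cl.node (nat_lit 0x109) (nat_lit 2) (by decide +kernel) (ClAll.succ (ClAll.succ ClAll.zero s416) n245)

def n272 : Cl (O (nat_lit 6)) (R (nat_lit 14353))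
    (p (nat_lit 0x101) (nat_lit 1) (p (nat_lit 0x119) (nat_lit 0) (p (nat_lit 0xd1) (nat_lit 0) (p (nat_lit 0x81) (nat_lit 0) (p (nat_lit 0x41) (nat_lit 1) (p (nat_lit 0x10a0b0a89089a) (nat_lit 0) (p (nat_lit 0x898a8a08881a) (nat_lit 0) (p (nat_lit 0x109088988079a) (nat_lit 0) (p (nat_lit 0x88880907871a) (nat_lit 0) (p (nat_lit 0x8000080000000080887068a) (nat_lit 0) (p (nat_lit 0x10888068602) (nat_lit 0) (p (nat_lit 0x8807860582) (nat_lit 0) (p (nat_lit 0x10607058502) (nat_lit 0) (p (nat_lit 0x8586850482) (nat_lit 0) (p (nat_lit 0x160004) (nat_lit 0) (p (nat_lit 0x68612) (nat_lit 0) (p (nat_lit 0x50592) (nat_lit 0) (p (nat_lit 0x40512) (nat_lit 0) (p (nat_lit 0x50312) (nat_lit 0) (p (nat_lit 0x38292) (nat_lit 0) (p (nat_lit 0x28212) (nat_lit 0) (p (nat_lit 0x38112) (nat_lit 0) (p (nat_lit 0x20092) (nat_lit 0) (p (nat_lit 0x10012) (nat_lit 0) pn)))))))))))))))))))))))) :=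
  Cl.node (nat_lit 0xc1) (nat_lit 2) (by decide +kernel) (ClAll.succ (ClAll.succ ClAll.zero n246) n247)

def n273 : Cl (O (nat_lit 6)) (R (nat_lit 14353))
    (p (nat_lit 0xc1) (nat_lit 0) (p (nat_lit 0x119) (nat_lit 1) (p (nat_lit 0xd1) (nat_lit 0) (p (nat_lit 0x81) (nat_lit 0) (p (nat_lit 0x41) (nat_lit 1) (p (nat_lit 0x10a0b0a89089a) (nat_lit 0) (p (nat_lit 0x898a8a08881a) (nat_lit 0) (p (nat_lit 0x109088988079a) (nat_lit 0) (p (nat_lit 0x88880907871a) (nat_lit 0) (p (nat_lit 0x8000080000000080887068a) (nat_lit 0) (p (nat_lit 0x10888068602) (nat_lit 0) (p (nat_lit 0x8807860582) (nat_lit 0) (p (nat_lit 0x10607058502) (nat_lit 0) (p (nat_lit 0x8586850482) (nat_lit 0) (p (nat_lit 0x160004) (nat_lit 0) (p (nat_lit 0x68612) (nat_lit 0) (p (nat_lit 0x50592) (nat_lit 0) (p (nat_lit 0x40512) (nat_lit 0) (p (nat_lit 0x50312) (nat_lit 0) (p (nat_lit 0x38292) (nat_lit 0) (p (nat_lit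 0x28212) (nat_lit 0) (p (nat_lit 0x38112) (nat_lit 0) (p (nat_lit 0x20092) (nat_lit 0) (p (nat_lit 0x10012) (nat_lit 0) pn)))))))))))))))))))))))) :=
  Cl.node (nat_lit 0xc9) (nat_lit 2) (by decide +kernel) (ClAll.succ (ClAll.succ ClAll.zero s471) n248)

def n274 : Cl (O (nat_lit 6)) (R (nat_lit 14353))
    (p (nat_lit 0xc1) (nat_lit 1) (p (nat_lit 0x119) (nat_lit 1) (p (nat_lit 0xd1) (nat_lit 0) (p (nat_lit 0x81) (nat_lit 0) (p (nat_lit 0x41) (nat_lit 1) (p (nat_lit 0x10a0b0a89089a) (nat_lit 0) (p (nat_lit 0x898a8a08881a) (nat_lit 0) (p (nat_lit 0x109088988079a) (nat_lit 0) (p (nat_lit 0x88880907871a) (nat_lit 0) (p (nat_lit 0x8000080000000080887068a) (nat_lit 0) (p (nat_lit 0x10888068602) (nat_lit 0) (p (nat_lit 0x8807860582) (nat_lit 0) (p (nat_lit 0x10607058502) (nat_lit 0) (p (nat_lit 0x8586850482) (nat_lit 0) (p (nat_lit 0x160004) (nat_lit 0) (p (nat_lit 0x68612) (nat_lit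 0) (p (nat_lit 0x50592) (nat_lit 0) (p (nat_lit 0x40512) (nat_lit 0) (p (nat_lit 0x50312) (nat_lit 0) (p (nat_lit 0x38292) (nat_lit 0) (p (nat_lit 0x28212) (nat_lit 0) (p (nat_lit 0x38112) (nat_lit 0) (p (nat_lit 0x20092) (nat_lit 0) (p (nat_lit 0x10012) (nat_lit 0) pn)))))))))))))))))))))))) :=
  Cl.node (nat_lit 0x101) (nat_lit 2) (by decide +kernel) (ClAll.succ (ClAll.succ ClAll.zero n249) n250)

def n275 : Cl (O (nat_lit 6)) (R (nat_lit 14353))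
    (p (nat_lit 0x101) (nat_lit 0) (p (nat_lit 0x111) (nat_lit 0) (p (nat_lit 0xd1) (nat_lit 1) (p (nat_lit 0x81) (nat_lit 0) (p (nat_lit 0x41) (nat_lit 1) (p (nat_lit 0x10a0b0a89089a) (nat_lit 0) (p (nat_lit 0x898a8a08881a) (nat_lit 0) (p (nat_lit 0x109088988079a) (nat_lit 0) (p (nat_lit 0x88880907871a) (nat_lit 0) (p (nat_lit 0x8000080000000080887068a) (nat_lit 0) (p (nat_lit 0x10888068602) (nat_lit 0) (p (nat_lit 0x8807860582) (nat_lit 0) (p (nat_lit 0x10607058502) (nat_lit 0) (p (nat_lit 0x8586850482) (nat_lit 0) (p (nat_lit 0x160004) (nat_lit 0) (p (nat_lit 0x68612) (nat_lit 0) (p (nat_lit 0x50592) (nat_lit 0) (p (nat_lit 0x40512) (nat_lit 0) (p (nat_lit 0x50312) (nat_lit 0) (p (nat_lit 0x38292) (nat_lit 0) (p (nat_lit 0x28212) (nat_lit 0) (p (nat_lit 0x38112) (nat_lit 0) (p (nat_lit 0x20092) (nat_lit 0) (p (nat_lit 0x10012) (nat_lit 0) pn)))))))))))))))))))))))) :=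
  Cl.node (nat_lit 0x109) (nat_lit 2) (by decide +kernel) (ClAll.succ (ClAll.succ ClAll.zero s527) n251)

def n276 : Cl (O (nat_lit 6)) (R (nat_lit 14353))
    (p (nat_lit 0x101) (nat_lit 1) (p (nat_lit 0x111) (nat_lit 0) (p (nat_lit 0xd1) (nat_lit 1) (p (nat_lit 0x81) (nat_lit 0) (p (nat_lit 0x41) (nat_lit 1) (p (nat_lit 0x10a0b0a89089a) (nat_lit 0) (p (nat_lit 0x898a8a08881a) (nat_lit 0) (p (nat_lit 0x109088988079a) (nat_lit 0) (p (nat_lit 0x88880907871a) (nat_lit 0) (p (nat_lit 0x8000080000000080887068a) (nat_lit 0) (p (nat_lit 0x10888068602) (nat_lit 0) (p (nat_lit 0x8807860582) (nat_lit 0) (p (nat_lit 0x10607058502) (nat_lit 0) (p (nat_lit 0x8586850482) (nat_lit 0) (p (nat_lit 0x160004) (nat_lit 0) (p (nat_lit 0x68612) (nat_lit 0) (p (nat_lit 0x50592) (nat_lit 0) (p (nat_lit 0x40512) (nat_lit 0) (p (nat_lit 0x50312) (nat_lit 0) (p (nat_lit 0x38292) (nat_lit 0) (p (nat_lit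 0x28212) (nat_lit 0) (p (nat_lit 0x38112) (nat_lit 0) (p (nat_lit 0x20092) (nat_lit 0) (p (nat_lit 0x10012) (nat_lit 0) pn)))))))))))))))))))))))) :=
  Cl.node (nat_lit 0x89) (nat_lit 2) (by decide +kernel) (ClAll.succ (ClAll.succ ClAll.zero n252) n253)

def n277 : Cl (O (nat_lit 6)) (R (nat_lit 14353))
    (p (nat_lit 0x89) (nat_lit 1) (p (nat_lit 0x111) (nat_lit 1) (p (nat_lit 0xd1) (nat_lit 1) (p (nat_lit 0x81) (nat_lit 0) (p (nat_lit 0x41) (nat_lit 1) (p (nat_lit 0x10a0b0a89089a) (nat_lit 0) (p (nat_lit 0x898a8a08881a) (nat_lit 0) (p (nat_lit 0x109088988079a) (nat_lit 0) (p (nat_lit 0x88880907871a) (nat_lit 0) (p (nat_lit 0x8000080000000080887068a) (nat_lit 0) (p (nat_lit 0x10888068602) (nat_lit 0) (p (nat_lit 0x8807860582) (nat_lit 0) (p (nat_lit 0x10607058502) (nat_lit 0) (p (nat_lit 0x8586850482) (nat_lit 0) (p (nat_lit 0x160004) (nat_lit 0) (p (nat_lit 0x68612) (nat_lit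 0) (p (nat_lit 0x50592) (nat_lit 0) (p (nat_lit 0x40512) (nat_lit 0) (p (nat_lit 0x50312) (nat_lit 0) (p (nat_lit 0x38292) (nat_lit 0) (p (nat_lit 0x28212) (nat_lit 0) (p (nat_lit 0x38112) (nat_lit 0) (p (nat_lit 0x20092) (nat_lit 0) (p (nat_lit 0x10012) (nat_lit 0) pn)))))))))))))))))))))))) :=
  Cl.node (nat_lit 0xc9) (nat_lit 2) (by decide +kernel) (ClAll.succ (ClAll.succ ClAll.zero s560) n254)

def n278 : Cl (O (nat_lit 6)) (R (nat_lit 14353))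
    (p (nat_lit 0x101) (nat_lit 0) (p (nat_lit 0x119) (nat_lit 0) (p (nat_lit 0xc1) (nat_lit 0) (p (nat_lit 0x81) (nat_lit 1) (p (nat_lit 0x41) (nat_lit 1) (p (nat_lit 0x10a0b0a89089a) (nat_lit 0) (p (nat_lit 0x898a8a08881a) (nat_lit 0) (p (nat_lit 0x109088988079a) (nat_lit 0) (p (nat_lit 0x88880907871a) (nat_lit 0) (p (nat_lit 0x8000080000000080887068a) (nat_lit 0) (p (nat_lit 0x10888068602) (nat_lit 0) (p (nat_lit 0x8807860582) (nat_lit 0) (p (nat_lit 0x10607058502) (nat_lit 0) (p (nat_lit 0x8586850482) (nat_lit 0) (p (nat_lit 0x160004) (nat_lit 0) (p (nat_lit 0x68612) (nat_lit 0) (p (nat_lit 0x50592) (nat_lit 0) (p (nat_lit 0x40512) (nat_lit 0) (p (nat_lit 0x50312) (nat_lit 0) (p (nat_lit 0x38292) (nat_lit 0) (p (nat_lit 0x28212) (nat_lit 0) (p (nat_lit 0x38112) (nat_lit 0) (p (nat_lit 0x20092) (nat_lit 0) (p (nat_lit 0x10012) (nat_lit 0) pn)))))))))))))))))))))))) :=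
  Cl.node (nat_lit 0x109) (nat_lit 2) (by decide +kernel) (ClAll.succ (ClAll.succ ClAll.zero n255) n256)

def n279 : Cl (O (nat_lit 6)) (R (nat_lit 14353))
    (p (nat_lit 0x101) (nat_lit 1) (p (nat_lit 0x119) (nat_lit 0) (p (nat_lit 0xc1) (nat_lit 0) (p (nat_lit 0x81) (nat_lit 1) (p (nat_lit 0x41) (nat_lit 1) (p (nat_lit 0x10a0b0a89089a) (nat_lit 0) (p (nat_lit 0x898a8a08881a) (nat_lit 0) (p (nat_lit 0x109088988079a) (nat_lit 0) (p (nat_lit 0x88880907871a) (nat_lit 0) (p (nat_lit 0x8000080000000080887068a) (nat_lit 0) (p (nat_lit 0x10888068602) (nat_lit 0) (p (nat_lit 0x8807860582) (nat_lit 0) (p (nat_lit 0x10607058502) (nat_lit 0) (p (nat_lit 0x8586850482) (nat_lit 0) (p (nat_lit 0x160004) (nat_lit 0) (p (nat_lit 0x68612) (nat_lit 0) (p (nat_lit 0x50592) (nat_lit 0) (p (nat_lit 0x40512) (nat_lit 0) (p (nat_lit 0x50312) (nat_lit 0) (p (nat_lit 0x38292) (nat_lit 0) (p (nat_lit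 0x28212) (nat_lit 0) (p (nat_lit 0x38112) (nat_lit 0) (p (nat_lit 0x20092) (nat_lit 0) (p (nat_lit 0x10012) (nat_lit 0) pn)))))))))))))))))))))))) :=
  Cl.node (nat_lit 0xc9) (nat_lit 2) (by decide +kernel) (ClAll.succ (ClAll.succ ClAll.zero n257) s677)

def n280 : Cl (O (nat_lit 6)) (R (nat_lit 14353))
    (p (nat_lit 0xc9) (nat_lit 0) (p (nat_lit 0x119) (nat_lit 1) (p (nat_lit 0xc1) (nat_lit 0) (p (nat_lit 0x81) (nat_lit 1) (p (nat_lit 0x41) (nat_lit 1) (p (nat_lit 0x10a0b0a89089a) (nat_lit 0) (p (nat_lit 0x898a8a08881a) (nat_lit 0) (p (nat_lit 0x109088988079a) (nat_lit 0) (p (nat_lit 0x88880907871a) (nat_lit 0) (p (nat_lit 0x8000080000000080887068a) (nat_lit 0) (p (nat_lit 0x10888068602) (nat_lit 0) (p (nat_lit 0x8807860582) (nat_lit 0) (p (nat_lit 0x10607058502) (nat_lit 0) (p (nat_lit 0x8586850482) (nat_lit 0) (p (nat_lit 0x160004) (nat_lit 0) (p (nat_lit 0x68612) (nat_lit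 0) (p (nat_lit 0x50592) (nat_lit 0) (p (nat_lit 0x40512) (nat_lit 0) (p (nat_lit 0x50312) (nat_lit 0) (p (nat_lit 0x38292) (nat_lit 0) (p (nat_lit 0x28212) (nat_lit 0) (p (nat_lit 0x38112) (nat_lit 0) (p (nat_lit 0x20092) (nat_lit 0) (p (nat_lit 0x10012) (nat_lit 0) pn)))))))))))))))))))))))) :=
  Cl.node (nat_lit 0xd1) (nat_lit 2) (by decide +kernel) (ClAll.succ (ClAll.succ ClAll.zero s678) n258)

def n281 : Cl (O (nat_lit 6)) (R (nat_lit 14353))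
    (p (nat_lit 0xc9) (nat_lit 1) (p (nat_lit 0x119) (nat_lit 1) (p (nat_lit 0xc1) (nat_lit 0) (p (nat_lit 0x81) (nat_lit 1) (p (nat_lit 0x41) (nat_lit 1) (p (nat_lit 0x10a0b0a89089a) (nat_lit 0) (p (nat_lit 0x898a8a08881a) (nat_lit 0) (p (nat_lit 0x109088988079a) (nat_lit 0) (p (nat_lit 0x88880907871a) (nat_lit 0) (p (nat_lit 0x8000080000000080887068a) (nat_lit 0) (p (nat_lit 0x10888068602) (nat_lit 0) (p (nat_lit 0x8807860582) (nat_lit 0) (p (nat_lit 0x10607058502) (nat_lit 0) (p (nat_lit 0x8586850482) (nat_lit 0) (p (nat_lit 0x160004) (nat_lit 0) (p (nat_lit 0x68612) (nat_lit 0) (p (nat_lit 0x50592) (nat_lit 0) (p (nat_lit 0x40512) (nat_lit 0) (p (nat_lit 0x50312) (nat_lit 0) (p (nat_lit 0x38292) (nat_lit 0) (p (nat_lit 0x28212) (nat_lit 0) (p (nat_lit 0x38112) (nat_lit 0) (p (nat_lit 0x20092) (nat_lit 0) (p (nat_lit 0x10012) (nat_lit 0) pn)))))))))))))))))))))))) :=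
  Cl.node (nat_lit 0x109) (nat_lit 2) (by decide +kernel) (ClAll.succ (ClAll.succ ClAll.zero n259) s727)

def n282 : Cl (O (nat_lit 6)) (R (nat_lit 14353))
    (p (nat_lit 0x109) (nat_lit 0) (p (nat_lit 0x101) (nat_lit 0) (p (nat_lit 0xc1) (nat_lit 1) (p (nat_lit 0x81) (nat_lit 1) (p (nat_lit 0x41) (nat_lit 1) (p (nat_lit 0x10a0b0a89089a) (nat_lit 0) (p (nat_lit 0x898a8a08881a) (nat_lit 0) (p (nat_lit 0x109088988079a) (nat_lit 0) (p (nat_lit 0x88880907871a) (nat_lit 0) (p (nat_lit 0x8000080000000080887068a) (nat_lit 0) (p (nat_lit 0x10888068602) (nat_lit 0) (p (nat_lit 0x8807860582) (nat_lit 0) (p (nat_lit 0x10607058502) (nat_lit 0) (p (nat_lit 0x8586850482) (nat_lit 0) (p (nat_lit 0x160004) (nat_lit 0) (p (nat_lit 0x68612) (nat_lit 0) (p (nat_lit 0x50592) (nat_lit 0) (p (nat_lit 0x40512) (nat_lit 0) (p (nat_lit 0x50312) (nat_lit 0) (p (nat_lit 0x38292) (nat_lit 0) (p (nat_lit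 0x28212) (nat_lit 0) (p (nat_lit 0x38112) (nat_lit 0) (p (nat_lit 0x20092) (nat_lit 0) (p (nat_lit 0x10012) (nat_lit 0) pn)))))))))))))))))))))))) :=
  Cl.node (nat_lit 0x111) (nat_lit 2) (by decide +kernel) (ClAll.succ (ClAll.succ ClAll.zero s728) s729)

def n283 : Cl (O (nat_lit 6)) (R (nat_lit 14353))
    (p (nat_lit 0x119) (nat_lit 0) (p (nat_lit 0xd1) (nat_lit 0) (p (nat_lit 0x89) (nat_lit 0) (p (nat_lit 0x41) (nat_lit 0) (p (nat_lit 0x10a0b0a89089a) (nat_lit 0) (p (nat_lit 0x898a8a08881a) (nat_lit 0) (p (nat_lit 0x109088988079a) (nat_lit 0) (p (nat_lit 0x88880907871a) (nat_lit 0) (p (nat_lit 0x8000080000000080887068a) (nat_lit 0) (p (nat_lit 0x10888068602) (nat_lit 0) (p (nat_lit 0x8807860582) (nat_lit 0) (p (nat_lit 0x10607058502) (nat_lit 0) (p (nat_lit 0x8586850482) (nat_lit 0) (p (nat_lit 0x160004) (nat_lit 0) (p (nat_lit 0x68612) (nat_lit 0) (p (nat_lit 0x50592) (nat_lit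 0) (p (nat_lit 0x40512) (nat_lit 0) (p (nat_lit 0x50312) (nat_lit 0) (p (nat_lit 0x38292) (nat_lit 0) (p (nat_lit 0x28212) (nat_lit 0) (p (nat_lit 0x38112) (nat_lit 0) (p (nat_lit 0x20092) (nat_lit 0) (p (nat_lit 0x10012) (nat_lit 0) pn))))))))))))))))))))))) :=
  Cl.node (nat_lit 0x101) (nat_lit 2) (by decide +kernel) (ClAll.succ (ClAll.succ ClAll.zero n260) n261)

def n284 : Cl (O (nat_lit 6)) (R (nat_lit 14353))
    (p (nat_lit 0x119) (nat_lit 1) (p (nat_lit 0xd1) (nat_lit 0) (p (nat_lit 0x89) (nat_lit 0) (p (nat_lit 0x41) (nat_lit 0) (p (nat_lit 0x10a0b0a89089a) (nat_lit 0) (p (nat_lit 0x898a8a08881a) (nat_lit 0) (p (nat_lit 0x109088988079a) (nat_lit 0) (p (nat_lit 0x88880907871a) (nat_lit 0) (p (nat_lit 0x8000080000000080887068a) (nat_lit 0) (p (nat_lit 0x10888068602) (nat_lit 0) (p (nat_lit 0x8807860582) (nat_lit 0) (p (nat_lit 0x10607058502) (nat_lit 0) (p (nat_lit 0x8586850482)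 (nat_lit 0) (p (nat_lit 0x160004) (nat_lit 0) (p (nat_lit 0x68612) (nat_lit 0) (p (nat_lit 0x50592) (nat_lit 0) (p (nat_lit 0x40512) (nat_lit 0) (p (nat_lit 0x50312) (nat_lit 0) (p (nat_lit 0x38292) (nat_lit 0) (p (nat_lit 0x28212) (nat_lit 0) (p (nat_lit 0x38112) (nat_lit 0) (p (nat_lit 0x20092) (nat_lit 0) (p (nat_lit 0x10012) (nat_lit 0) pn))))))))))))))))))))))) :=
  Cl.node (nat_lit 0xc1) (nat_lit 2) (by decide +kernel) (ClAll.succ (ClAll.succ ClAll.zero n262) n263)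

def n285 : Cl (O (nat_lit 6)) (R (nat_lit 14353))
    (p (nat_lit 0x111) (nat_lit 0) (p (nat_lit 0xd1) (nat_lit 1) (p (nat_lit 0x89) (nat_lit 0) (p (nat_lit 0x41) (nat_lit 0) (p (nat_lit 0x10a0b0a89089a) (nat_lit 0) (p (nat_lit 0x898a8a08881a) (nat_lit 0) (p (nat_lit 0x109088988079a) (nat_lit 0) (p (nat_lit 0x88880907871a) (nat_lit 0) (p (nat_lit 0x8000080000000080887068a) (nat_lit 0) (p (nat_lit 0x10888068602) (nat_lit 0) (p (nat_lit 0x8807860582) (nat_lit 0) (p (nat_lit 0x10607058502) (nat_lit 0) (p (nat_lit 0x8586850482) (nat_lit 0) (p (nat_lit 0x160004) (nat_lit 0) (p (nat_lit 0x68612) (nat_lit 0) (p (nat_lit 0x50592) (nat_lit 0) (p (nat_lit 0x40512) (nat_lit 0) (p (nat_lit 0x50312) (nat_lit 0) (p (nat_lit 0x38292) (nat_lit 0) (p (nat_lit 0x28212) (nat_lit 0) (p (nat_lit 0x38112) (nat_lit 0) (p (nat_lit 0x20092) (nat_lit 0) (p (nat_lit 0x10012) (nat_lit 0) pn)))))))))))))))))))))))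 :=
  Cl.node (nat_lit 0x101) (nat_lit 2) (by decide +kernel) (ClAll.succ (ClAll.succ ClAll.zero n264) n265)

def n286 : Cl (O (nat_lit 6)) (R (nat_lit 14353))
    (p (nat_lit 0x111) (nat_lit 1) (p (nat_lit 0xd1) (nat_lit 1) (p (nat_lit 0x89) (nat_lit 0) (p (nat_lit 0x41) (nat_lit 0) (p (nat_lit 0x10a0b0a89089a) (nat_lit 0) (p (nat_lit 0x898a8a08881a) (nat_lit 0) (p (nat_lit 0x109088988079a) (nat_lit 0) (p (nat_lit 0x88880907871a) (nat_lit 0) (p (nat_lit 0x8000080000000080887068a) (nat_lit 0) (p (nat_lit 0x10888068602) (nat_lit 0) (p (nat_lit 0x8807860582) (nat_lit 0) (p (nat_lit 0x10607058502) (nat_lit 0) (p (nat_lit 0x8586850482) (nat_lit 0) (p (nat_lit 0x160004) (nat_lit 0) (p (nat_lit 0x68612) (nat_lit 0) (p (nat_lit 0x50592) (nat_lit 0) (p (nat_lit 0x40512) (nat_lit 0) (p (nat_lit 0x50312) (nat_lit 0) (p (nat_lit 0x38292) (nat_lit 0) (p (nat_lit 0x28212) (nat_lit 0) (p (nat_lit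 0x38112) (nat_lit 0) (p (nat_lit 0x20092) (nat_lit 0) (p (nat_lit 0x10012) (nat_lit 0) pn))))))))))))))))))))))) :=
  Cl.node (nat_lit 0x81) (nat_lit 2) (by decide +kernel) (ClAll.succ (ClAll.succ ClAll.zero s232) n266)

def n287 : Cl (O (nat_lit 6)) (R (nat_lit 14353))
    (p (nat_lit 0x119) (nat_lit 0) (p (nat_lit 0xc9) (nat_lit 0) (p (nat_lit 0x89) (nat_lit 1) (p (nat_lit 0x41) (nat_lit 0) (p (nat_lit 0x10a0b0a89089a) (nat_lit 0) (p (nat_lit 0x898a8a08881a) (nat_lit 0) (p (nat_lit 0x109088988079a) (nat_lit 0) (p (nat_lit 0x88880907871a) (nat_lit 0) (p (nat_lit 0x8000080000000080887068a) (nat_lit 0) (p (nat_lit 0x10888068602) (nat_lit 0) (p (nat_lit 0x8807860582) (nat_lit 0) (p (nat_lit 0x10607058502) (nat_lit 0) (p (nat_lit 0x8586850482) (nat_lit 0) (p (nat_lit 0x160004) (nat_lit 0) (p (nat_lit 0x68612) (nat_lit 0) (p (nat_lit 0x50592) (nat_lit 0) (p (nat_lit 0x40512) (nat_lit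 0) (p (nat_lit 0x50312) (nat_lit 0) (p (nat_lit 0x38292) (nat_lit 0) (p (nat_lit 0x28212) (nat_lit 0) (p (nat_lit 0x38112) (nat_lit 0) (p (nat_lit 0x20092) (nat_lit 0) (p (nat_lit 0x10012) (nat_lit 0) pn))))))))))))))))))))))) :=
  Cl.node (nat_lit 0x101) (nat_lit 2) (by decide +kernel) (ClAll.succ (ClAll.succ ClAll.zero n267) n268)

def n288 : Cl (O (nat_lit 6)) (R (nat_lit 14353))
    (p (nat_lit 0x119) (nat_lit 1) (p (nat_lit 0xc9) (nat_lit 0) (p (nat_lit 0x89) (nat_lit 1) (p (nat_lit 0x41) (nat_lit 0) (p (nat_lit 0x10a0b0a89089a) (nat_lit 0) (p (nat_lit 0x898a8a08881a) (nat_lit 0) (p (nat_lit 0x109088988079a) (nat_lit 0) (p (nat_lit 0x88880907871a) (nat_lit 0) (p (nat_lit 0x8000080000000080887068a) (nat_lit 0) (p (nat_lit 0x10888068602) (nat_lit 0) (p (nat_lit 0x8807860582) (nat_lit 0) (p (nat_lit 0x10607058502) (nat_lit 0) (p (nat_lit 0x8586850482) (nat_lit 0) (p (nat_lit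 0x160004) (nat_lit 0) (p (nat_lit 0x68612) (nat_lit 0) (p (nat_lit 0x50592) (nat_lit 0) (p (nat_lit 0x40512) (nat_lit 0) (p (nat_lit 0x50312) (nat_lit 0) (p (nat_lit 0x38292) (nat_lit 0) (p (nat_lit 0x28212) (nat_lit 0) (p (nat_lit 0x38112) (nat_lit 0) (p (nat_lit 0x20092) (nat_lit 0) (p (nat_lit 0x10012) (nat_lit 0) pn))))))))))))))))))))))) :=
  Cl.node (nat_lit 0xc1) (nat_lit 2) (by decide +kernel) (ClAll.succ (ClAll.succ ClAll.zero n269) n270)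

def n289 : Cl (O (nat_lit 6)) (R (nat_lit 14353))
    (p (nat_lit 0x119) (nat_lit 0) (p (nat_lit 0xd1) (nat_lit 0) (p (nat_lit 0x81) (nat_lit 0) (p (nat_lit 0x41) (nat_lit 1) (p (nat_lit 0x10a0b0a89089a) (nat_lit 0) (p (nat_lit 0x898a8a08881a) (nat_lit 0) (p (nat_lit 0x109088988079a) (nat_lit 0) (p (nat_lit 0x88880907871a) (nat_lit 0) (p (nat_lit 0x8000080000000080887068a) (nat_lit 0) (p (nat_lit 0x10888068602) (nat_lit 0) (p (nat_lit 0x8807860582) (nat_lit 0) (p (nat_lit 0x10607058502) (nat_lit 0) (p (nat_lit 0x8586850482) (nat_lit 0) (p (nat_lit 0x160004) (nat_lit 0) (p (nat_lit 0x68612) (nat_lit 0) (p (nat_lit 0x50592) (nat_lit 0) (p (nat_lit 0x40512) (nat_lit 0) (p (nat_lit 0x50312) (nat_lit 0) (p (nat_lit 0x38292) (nat_lit 0) (p (nat_lit 0x28212) (nat_lit 0) (p (nat_lit 0x38112) (nat_lit 0) (p (nat_lit 0x20092) (nat_lit 0) (p (nat_lit 0x10012) (nat_lit 0) pn)))))))))))))))))))))))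 :=
  Cl.node (nat_lit 0x101) (nat_lit 2) (by decide +kernel) (ClAll.succ (ClAll.succ ClAll.zero n271) n272)

def n290 : Cl (O (nat_lit 6)) (R (nat_lit 14353))
    (p (nat_lit 0x119) (nat_lit 1) (p (nat_lit 0xd1) (nat_lit 0) (p (nat_lit 0x81) (nat_lit 0) (p (nat_lit 0x41) (nat_lit 1) (p (nat_lit 0x10a0b0a89089a) (nat_lit 0) (p (nat_lit 0x898a8a08881a) (nat_lit 0) (p (nat_lit 0x109088988079a) (nat_lit 0) (p (nat_lit 0x88880907871a) (nat_lit 0) (p (nat_lit 0x8000080000000080887068a) (nat_lit 0) (p (nat_lit 0x10888068602) (nat_lit 0) (p (nat_lit 0x8807860582) (nat_lit 0) (p (nat_lit 0x10607058502) (nat_lit 0) (p (nat_lit 0x8586850482) (nat_lit 0) (p (nat_lit 0x160004) (nat_lit 0) (p (nat_lit 0x68612) (nat_lit 0) (p (nat_lit 0x50592) (nat_lit 0) (p (nat_lit 0x40512) (nat_lit 0) (p (nat_lit 0x50312) (nat_lit 0) (p (nat_lit 0x38292) (nat_lit 0) (p (nat_lit 0x28212) (nat_lit 0) (p (nat_lit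 0x38112) (nat_lit 0) (p (nat_lit 0x20092) (nat_lit 0) (p (nat_lit 0x10012) (nat_lit 0) pn))))))))))))))))))))))) :=
  Cl.node (nat_lit 0xc1) (nat_lit 2) (by decide +kernel) (ClAll.succ (ClAll.succ ClAll.zero n273) n274)

def n291 : Cl (O (nat_lit 6)) (R (nat_lit 14353))
    (p (nat_lit 0x111) (nat_lit 0) (p (nat_lit 0xd1) (nat_lit 1) (p (nat_lit 0x81) (nat_lit 0) (p (nat_lit 0x41) (nat_lit 1) (p (nat_lit 0x10a0b0a89089a) (nat_lit 0) (p (nat_lit 0x898a8a08881a) (nat_lit 0) (p (nat_lit 0x109088988079a) (nat_lit 0) (p (nat_lit 0x88880907871a) (nat_lit 0) (p (nat_lit 0x8000080000000080887068a) (nat_lit 0) (p (nat_lit 0x10888068602) (nat_lit 0) (p (nat_lit 0x8807860582) (nat_lit 0) (p (nat_lit 0x10607058502) (nat_lit 0) (p (nat_lit 0x8586850482) (nat_lit 0) (p (nat_lit 0x160004) (nat_lit 0) (p (nat_lit 0x68612) (nat_lit 0) (p (nat_lit 0x50592) (nat_lit 0) (p (nat_lit 0x40512) (nat_lit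 0) (p (nat_lit 0x50312) (nat_lit 0) (p (nat_lit 0x38292) (nat_lit 0) (p (nat_lit 0x28212) (nat_lit 0) (p (nat_lit 0x38112) (nat_lit 0) (p (nat_lit 0x20092) (nat_lit 0) (p (nat_lit 0x10012) (nat_lit 0) pn))))))))))))))))))))))) :=
  Cl.node (nat_lit 0x101) (nat_lit 2) (by decide +kernel) (ClAll.succ (ClAll.succ ClAll.zero n275) n276)

def n292 : Cl (O (nat_lit 6)) (R (nat_lit 14353))
    (p (nat_lit 0x111) (nat_lit 1) (p (nat_lit 0xd1) (nat_lit 1) (p (nat_lit 0x81) (nat_lit 0) (p (nat_lit 0x41) (nat_lit 1) (p (nat_lit 0x10a0b0a89089a) (nat_lit 0) (p (nat_lit 0x898a8a08881a) (nat_lit 0) (p (nat_lit 0x109088988079a) (nat_lit 0) (p (nat_lit 0x88880907871a) (nat_lit 0) (p (nat_lit 0x8000080000000080887068a) (nat_lit 0) (p (nat_lit 0x10888068602) (nat_lit 0) (p (nat_lit 0x8807860582) (nat_lit 0) (p (nat_lit 0x10607058502) (nat_lit 0) (p (nat_lit 0x8586850482) (nat_lit 0) (p (nat_lit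 0x160004) (nat_lit 0) (p (nat_lit 0x68612) (nat_lit 0) (p (nat_lit 0x50592) (nat_lit 0) (p (nat_lit 0x40512) (nat_lit 0) (p (nat_lit 0x50312) (nat_lit 0) (p (nat_lit 0x38292) (nat_lit 0) (p (nat_lit 0x28212) (nat_lit 0) (p (nat_lit 0x38112) (nat_lit 0) (p (nat_lit 0x20092) (nat_lit 0) (p (nat_lit 0x10012) (nat_lit 0) pn))))))))))))))))))))))) :=
  Cl.node (nat_lit 0x89) (nat_lit 2) (by decide +kernel) (ClAll.succ (ClAll.succ ClAll.zero s559) n277)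

def n293 : Cl (O (nat_lit 6)) (R (nat_lit 14353))
    (p (nat_lit 0x119) (nat_lit 0) (p (nat_lit 0xc1) (nat_lit 0) (p (nat_lit 0x81) (nat_lit 1) (p (nat_lit 0x41) (nat_lit 1) (p (nat_lit 0x10a0b0a89089a) (nat_lit 0) (p (nat_lit 0x898a8a08881a) (nat_lit 0) (p (nat_lit 0x109088988079a) (nat_lit 0) (p (nat_lit 0x88880907871a) (nat_lit 0) (p (nat_lit 0x8000080000000080887068a) (nat_lit 0) (p (nat_lit 0x10888068602) (nat_lit 0) (p (nat_lit 0x8807860582) (nat_lit 0) (p (nat_lit 0x10607058502) (nat_lit 0) (p (nat_lit 0x8586850482) (nat_lit 0) (p (nat_lit 0x160004) (nat_lit 0) (p (nat_lit 0x68612) (nat_lit 0) (p (nat_lit 0x50592) (nat_lit 0) (p (nat_lit 0x40512) (nat_lit 0) (p (nat_lit 0x50312) (nat_lit 0) (p (nat_lit 0x38292) (nat_lit 0) (p (nat_lit 0x28212) (nat_lit 0) (p (nat_lit 0x38112) (nat_lit 0) (p (nat_lit 0x20092) (nat_lit 0) (p (nat_lit 0x10012) (nat_lit 0) pn)))))))))))))))))))))))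 :=
  Cl.node (nat_lit 0x101) (nat_lit 2) (by decide +kernel) (ClAll.succ (ClAll.succ ClAll.zero n278) n279)

def n294 : Cl (O (nat_lit 6)) (R (nat_lit 14353))
    (p (nat_lit 0x119) (nat_lit 1) (p (nat_lit 0xc1) (nat_lit 0) (p (nat_lit 0x81) (nat_lit 1) (p (nat_lit 0x41) (nat_lit 1) (p (nat_lit 0x10a0b0a89089a) (nat_lit 0) (p (nat_lit 0x898a8a08881a) (nat_lit 0) (p (nat_lit 0x109088988079a) (nat_lit 0) (p (nat_lit 0x88880907871a) (nat_lit 0) (p (nat_lit 0x8000080000000080887068a) (nat_lit 0) (p (nat_lit 0x10888068602) (nat_lit 0) (p (nat_lit 0x8807860582) (nat_lit 0) (p (nat_lit 0x10607058502) (nat_lit 0) (p (nat_lit 0x8586850482) (nat_lit 0) (p (nat_lit 0x160004) (nat_lit 0) (p (nat_lit 0x68612) (nat_lit 0) (p (nat_lit 0x50592) (nat_lit 0) (p (nat_lit 0x40512) (nat_lit 0) (p (nat_lit 0x50312) (nat_lit 0) (p (nat_lit 0x38292) (nat_lit 0) (p (nat_lit 0x28212) (nat_lit 0) (p (nat_lit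 0x38112) (nat_lit 0) (p (nat_lit 0x20092) (nat_lit 0) (p (nat_lit 0x10012) (nat_lit 0) pn))))))))))))))))))))))) :=
  Cl.node (nat_lit 0xc9) (nat_lit 2) (by decide +kernel) (ClAll.succ (ClAll.succ ClAll.zero n280) n281)

def n295 : Cl (O (nat_lit 6)) (R (nat_lit 14353))
    (p (nat_lit 0x101) (nat_lit 0) (p (nat_lit 0xc1) (nat_lit 1) (p (nat_lit 0x81) (nat_lit 1) (p (nat_lit 0x41) (nat_lit 1) (p (nat_lit 0x10a0b0a89089a) (nat_lit 0) (p (nat_lit 0x898a8a08881a) (nat_lit 0) (p (nat_lit 0x109088988079a) (nat_lit 0) (p (nat_lit 0x88880907871a) (nat_lit 0) (p (nat_lit 0x8000080000000080887068a) (nat_lit 0) (p (nat_lit 0x10888068602) (nat_lit 0) (p (nat_lit 0x8807860582) (nat_lit 0) (p (nat_lit 0x10607058502) (nat_lit 0) (p (nat_lit 0x8586850482) (nat_lit 0) (p (nat_lit 0x160004) (nat_lit 0) (p (nat_lit 0x68612) (nat_lit 0) (p (nat_lit 0x50592) (nat_lit 0) (p (nat_lit 0x40512) (nat_lit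 0) (p (nat_lit 0x50312) (nat_lit 0) (p (nat_lit 0x38292) (nat_lit 0) (p (nat_lit 0x28212) (nat_lit 0) (p (nat_lit 0x38112) (nat_lit 0) (p (nat_lit 0x20092) (nat_lit 0) (p (nat_lit 0x10012) (nat_lit 0) pn))))))))))))))))))))))) :=
  Cl.node (nat_lit 0x109) (nat_lit 2) (by decide +kernel) (ClAll.succ (ClAll.succ ClAll.zero n282) s730)

def n296 : Cl (O (nat_lit 6)) (R (nat_lit 14353))
    (p (nat_lit 0xd1) (nat_lit 0) (p (nat_lit 0x89) (nat_lit 0) (p (nat_lit 0x41) (nat_lit 0) (p (nat_lit 0x10a0b0a89089a) (nat_lit 0) (p (nat_lit 0x898a8a08881a) (nat_lit 0) (p (nat_lit 0x109088988079a) (nat_lit 0) (p (nat_lit 0x88880907871a) (nat_lit 0) (p (nat_lit 0x8000080000000080887068a) (nat_lit 0) (p (nat_lit 0x10888068602) (nat_lit 0) (p (nat_lit 0x8807860582) (nat_lit 0) (p (nat_lit 0x10607058502) (nat_lit 0) (p (nat_lit 0x8586850482) (nat_lit 0) (p (nat_lit 0x160004) (nat_lit 0) (p (nat_lit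 0x68612) (nat_lit 0) (p (nat_lit 0x50592) (nat_lit 0) (p (nat_lit 0x40512) (nat_lit 0) (p (nat_lit 0x50312) (nat_lit 0) (p (nat_lit 0x38292) (nat_lit 0) (p (nat_lit 0x28212) (nat_lit 0) (p (nat_lit 0x38112) (nat_lit 0) (p (nat_lit 0x20092) (nat_lit 0) (p (nat_lit 0x10012) (nat_lit 0) pn)))))))))))))))))))))) :=
  Cl.node (nat_lit 0x119) (nat_lit 2) (by decide +kernel) (ClAll.succ (ClAll.succ ClAll.zero n283) n284)

def n297 : Cl (O (nat_lit 6)) (R (nat_lit 14353))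
    (p (nat_lit 0xd1) (nat_lit 1) (p (nat_lit 0x89) (nat_lit 0) (p (nat_lit 0x41) (nat_lit 0) (p (nat_lit 0x10a0b0a89089a) (nat_lit 0) (p (nat_lit 0x898a8a08881a) (nat_lit 0) (p (nat_lit 0x109088988079a) (nat_lit 0) (p (nat_lit 0x88880907871a) (nat_lit 0) (p (nat_lit 0x8000080000000080887068a) (nat_lit 0) (p (nat_lit 0x10888068602) (nat_lit 0) (p (nat_lit 0x8807860582) (nat_lit 0) (p (nat_lit 0x10607058502) (nat_lit 0) (p (nat_lit 0x8586850482) (nat_lit 0) (p (nat_lit 0x160004) (nat_lit 0) (p (nat_lit 0x68612) (nat_lit 0) (p (nat_lit 0x50592) (nat_lit 0) (p (nat_lit 0x40512) (nat_lit 0) (p (nat_lit 0x50312) (nat_lit 0) (p (nat_lit 0x38292) (nat_lit 0) (p (nat_lit 0x28212) (nat_lit 0) (p (nat_lit 0x38112) (nat_lit 0) (p (nat_lit 0x20092) (nat_lit 0) (p (nat_lit 0x10012) (nat_lit 0) pn)))))))))))))))))))))) :=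
  Cl.node (nat_lit 0x111) (nat_lit 2) (by decide +kernel) (ClAll.succ (ClAll.succ ClAll.zero n285) n286)

def n298 : Cl (O (nat_lit 6)) (R (nat_lit 14353))
    (p (nat_lit 0xc9) (nat_lit 0) (p (nat_lit 0x89) (nat_lit 1) (p (nat_lit 0x41) (nat_lit 0) (p (nat_lit 0x10a0b0a89089a) (nat_lit 0) (p (nat_lit 0x898a8a08881a) (nat_lit 0) (p (nat_lit 0x109088988079a) (nat_lit 0) (p (nat_lit 0x88880907871a) (nat_lit 0) (p (nat_lit 0x8000080000000080887068a) (nat_lit 0) (p (nat_lit 0x10888068602) (nat_lit 0) (p (nat_lit 0x8807860582) (nat_lit 0) (p (nat_lit 0x10607058502) (nat_lit 0) (p (nat_lit 0x8586850482) (nat_lit 0) (p (nat_lit 0x160004) (nat_lit 0) (p (nat_lit 0x68612) (nat_lit 0) (p (nat_lit 0x50592) (nat_lit 0) (p (nat_lit 0x40512) (nat_lit 0) (p (nat_lit 0x50312) (nat_lit 0) (p (nat_lit 0x38292) (nat_lit 0) (p (nat_lit 0x28212) (nat_lit 0) (p (nat_lit 0x38112) (nat_lit 0) (p (nat_lit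 0x20092) (nat_lit 0) (p (nat_lit 0x10012) (nat_lit 0) pn)))))))))))))))))))))) :=
  Cl.node (nat_lit 0x119) (nat_lit 2) (by decide +kernel) (ClAll.succ (ClAll.succ ClAll.zero n287) n288)

def n299 : Cl (O (nat_lit 6)) (R (nat_lit 14353))
    (p (nat_lit 0xc9) (nat_lit 1) (p (nat_lit 0x89) (nat_lit 1) (p (nat_lit 0x41) (nat_lit 0) (p (nat_lit 0x10a0b0a89089a) (nat_lit 0) (p (nat_lit 0x898a8a08881a) (nat_lit 0) (p (nat_lit 0x109088988079a) (nat_lit 0) (p (nat_lit 0x88880907871a) (nat_lit 0) (p (nat_lit 0x8000080000000080887068a) (nat_lit 0) (p (nat_lit 0x10888068602) (nat_lit 0) (p (nat_lit 0x8807860582) (nat_lit 0) (p (nat_lit 0x10607058502) (nat_lit 0) (p (nat_lit 0x8586850482) (nat_lit 0) (p (nat_lit 0x160004) (nat_lit 0) (p (nat_lit 0x68612) (nat_lit 0) (p (nat_lit 0x50592) (nat_lit 0) (p (nat_lit 0x40512) (nat_lit 0) (p (nat_lit 0x50312) (nat_lit 0) (p (nat_lit 0x38292) (nat_lit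 0) (p (nat_lit 0x28212) (nat_lit 0) (p (nat_lit 0x38112) (nat_lit 0) (p (nat_lit 0x20092) (nat_lit 0) (p (nat_lit 0x10012) (nat_lit 0) pn)))))))))))))))))))))) :=
  Cl.node (nat_lit 0x109) (nat_lit 2) (by decide +kernel) (ClAll.succ (ClAll.succ ClAll.zero s414) s415)

def n300 : Cl (O (nat_lit 6)) (R (nat_lit 14353))
    (p (nat_lit 0xd1) (nat_lit 0) (p (nat_lit 0x81) (nat_lit 0) (p (nat_lit 0x41) (nat_lit 1) (p (nat_lit 0x10a0b0a89089a) (nat_lit 0) (p (nat_lit 0x898a8a08881a) (nat_lit 0) (p (nat_lit 0x109088988079a) (nat_lit 0) (p (nat_lit 0x88880907871a) (nat_lit 0) (p (nat_lit 0x8000080000000080887068a) (nat_lit 0) (p (nat_lit 0x10888068602) (nat_lit 0) (p (nat_lit 0x8807860582) (nat_lit 0) (p (nat_lit 0x10607058502) (nat_lit 0) (p (nat_lit 0x8586850482) (nat_lit 0) (p (nat_lit 0x160004) (nat_lit 0) (p (nat_lit 0x68612) (nat_lit 0) (p (nat_lit 0x50592) (nat_lit 0) (p (nat_lit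 0x40512) (nat_lit 0) (p (nat_lit 0x50312) (nat_lit 0) (p (nat_lit 0x38292) (nat_lit 0) (p (nat_lit 0x28212) (nat_lit 0) (p (nat_lit 0x38112) (nat_lit 0) (p (nat_lit 0x20092) (nat_lit 0) (p (nat_lit 0x10012) (nat_lit 0) pn)))))))))))))))))))))) :=
  Cl.node (nat_lit 0x119) (nat_lit 2) (by decide +kernel) (ClAll.succ (ClAll.succ ClAll.zero n289) n290)

def n301 : Cl (O (nat_lit 6)) (R (nat_lit 14353))
    (p (nat_lit 0xd1) (nat_lit 1) (p (nat_lit 0x81) (nat_lit 0) (p (nat_lit 0x41) (nat_lit 1) (p (nat_lit 0x10a0b0a89089a) (nat_lit 0) (p (nat_lit 0x898a8a08881a) (nat_lit 0) (p (nat_lit 0x109088988079a) (nat_lit 0) (p (nat_lit 0x88880907871a) (nat_lit 0) (p (nat_lit 0x8000080000000080887068a) (nat_lit 0) (p (nat_lit 0x10888068602) (nat_lit 0) (p (nat_lit 0x8807860582) (nat_lit 0) (p (nat_lit 0x10607058502) (nat_lit 0) (p (nat_lit 0x8586850482) (nat_lit 0) (p (nat_lit 0x160004) (nat_lit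 0) (p (nat_lit 0x68612) (nat_lit 0) (p (nat_lit 0x50592) (nat_lit 0) (p (nat_lit 0x40512) (nat_lit 0) (p (nat_lit 0x50312) (nat_lit 0) (p (nat_lit 0x38292) (nat_lit 0) (p (nat_lit 0x28212) (nat_lit 0) (p (nat_lit 0x38112) (nat_lit 0) (p (nat_lit 0x20092) (nat_lit 0) (p (nat_lit 0x10012) (nat_lit 0) pn)))))))))))))))))))))) :=
  Cl.node (nat_lit 0x111) (nat_lit 2) (by decide +kernel) (ClAll.succ (ClAll.succ ClAll.zero n291) n292)

def n302 : Cl (O (nat_lit 6)) (R (nat_lit 14353))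
    (p (nat_lit 0xc1) (nat_lit 0) (p (nat_lit 0x81) (nat_lit 1) (p (nat_lit 0x41) (nat_lit 1) (p (nat_lit 0x10a0b0a89089a) (nat_lit 0) (p (nat_lit 0x898a8a08881a) (nat_lit 0) (p (nat_lit 0x109088988079a) (nat_lit 0) (p (nat_lit 0x88880907871a) (nat_lit 0) (p (nat_lit 0x8000080000000080887068a) (nat_lit 0) (p (nat_lit 0x10888068602) (nat_lit 0) (p (nat_lit 0x8807860582) (nat_lit 0) (p (nat_lit 0x10607058502) (nat_lit 0) (p (nat_lit 0x8586850482) (nat_lit 0) (p (nat_lit 0x160004) (nat_lit 0) (p (nat_lit 0x68612) (nat_lit 0) (p (nat_lit 0x50592) (nat_lit 0) (p (nat_lit 0x40512) (nat_lit 0) (p (nat_lit 0x50312) (nat_lit 0) (p (nat_lit 0x38292) (nat_lit 0) (p (nat_lit 0x28212) (nat_lit 0) (p (nat_lit 0x38112) (nat_lit 0) (p (nat_lit 0x20092) (nat_lit 0) (p (nat_lit 0x10012) (nat_lit 0) pn)))))))))))))))))))))) :=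
  Cl.node (nat_lit 0x119) (nat_lit 2) (by decide +kernel) (ClAll.succ (ClAll.succ ClAll.zero n293) n294)

def n303 : Cl (O (nat_lit 6)) (R (nat_lit 14353))
    (p (nat_lit 0xc1) (nat_lit 1) (p (nat_lit 0x81) (nat_lit 1) (p (nat_lit 0x41) (nat_lit 1) (p (nat_lit 0x10a0b0a89089a) (nat_lit 0) (p (nat_lit 0x898a8a08881a) (nat_lit 0) (p (nat_lit 0x109088988079a) (nat_lit 0) (p (nat_lit 0x88880907871a) (nat_lit 0) (p (nat_lit 0x8000080000000080887068a) (nat_lit 0) (p (nat_lit 0x10888068602) (nat_lit 0) (p (nat_lit 0x8807860582) (nat_lit 0) (p (nat_lit 0x10607058502) (nat_lit 0) (p (nat_lit 0x8586850482) (nat_lit 0) (p (nat_lit 0x160004) (nat_lit 0) (p (nat_lit 0x68612) (nat_lit 0) (p (nat_lit 0x50592) (nat_lit 0) (p (nat_lit 0x40512) (nat_lit 0) (p (nat_lit 0x50312) (nat_lit 0) (p (nat_lit 0x38292) (nat_lit 0) (p (nat_lit 0x28212) (nat_lit 0) (p (nat_lit 0x38112) (nat_lit 0) (p (nat_lit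 0x20092) (nat_lit 0) (p (nat_lit 0x10012) (nat_lit 0) pn)))))))))))))))))))))) :=
  Cl.node (nat_lit 0x101) (nat_lit 2) (by decide +kernel) (ClAll.succ (ClAll.succ ClAll.zero n295) s731)

def n304 : Cl (O (nat_lit 6)) (R (nat_lit 14353))
    (p (nat_lit 0x89) (nat_lit 0) (p (nat_lit 0x41) (nat_lit 0) (p (nat_lit 0x10a0b0a89089a) (nat_lit 0) (p (nat_lit 0x898a8a08881a) (nat_lit 0) (p (nat_lit 0x109088988079a) (nat_lit 0) (p (nat_lit 0x88880907871a) (nat_lit 0) (p (nat_lit 0x8000080000000080887068a) (nat_lit 0) (p (nat_lit 0x10888068602) (nat_lit 0) (p (nat_lit 0x8807860582) (nat_lit 0) (p (nat_lit 0x10607058502) (nat_lit 0) (p (nat_lit 0x8586850482) (nat_lit 0) (p (nat_lit 0x160004) (nat_lit 0) (p (nat_lit 0x68612) (nat_lit 0) (p (nat_lit 0x50592) (nat_lit 0) (p (nat_lit 0x40512) (nat_lit 0) (p (nat_lit 0x50312) (nat_lit 0) (p (nat_lit 0x38292) (nat_lit 0) (p (nat_lit 0x28212)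 (nat_lit 0) (p (nat_lit 0x38112) (nat_lit 0) (p (nat_lit 0x20092) (nat_lit 0) (p (nat_lit 0x10012) (nat_lit 0) pn))))))))))))))))))))) :=
  Cl.node (nat_lit 0xd1) (nat_lit 2) (by decide +kernel) (ClAll.succ (ClAll.succ ClAll.zero n296) n297)

def n305 : Cl (O (nat_lit 6)) (R (nat_lit 14353))
    (p (nat_lit 0x89) (nat_lit 1) (p (nat_lit 0x41) (nat_lit 0) (p (nat_lit 0x10a0b0a89089a) (nat_lit 0) (p (nat_lit 0x898a8a08881a) (nat_lit 0) (p (nat_lit 0x109088988079a) (nat_lit 0) (p (nat_lit 0x88880907871a) (nat_lit 0) (p (nat_lit 0x8000080000000080887068a) (nat_lit 0) (p (nat_lit 0x10888068602) (nat_lit 0) (p (nat_lit 0x8807860582) (nat_lit 0) (p (nat_lit 0x10607058502) (nat_lit 0) (p (nat_lit 0x8586850482) (nat_lit 0) (p (nat_lit 0x160004) (nat_lit 0) (p (nat_lit 0x68612) (nat_lit 0) (p (nat_lit 0x50592) (nat_lit 0) (p (nat_lit 0x40512) (nat_lit 0) (p (nat_lit 0x50312) (nat_lit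 0) (p (nat_lit 0x38292) (nat_lit 0) (p (nat_lit 0x28212) (nat_lit 0) (p (nat_lit 0x38112) (nat_lit 0) (p (nat_lit 0x20092) (nat_lit 0) (p (nat_lit 0x10012) (nat_lit 0) pn))))))))))))))))))))) :=
  Cl.node (nat_lit 0xc9) (nat_lit 2) (by decide +kernel) (ClAll.succ (ClAll.succ ClAll.zero n298) n299)

def n306 : Cl (O (nat_lit 6)) (R (nat_lit 14353))
    (p (nat_lit 0x81) (nat_lit 0) (p (nat_lit 0x41) (nat_lit 1) (p (nat_lit 0x10a0b0a89089a) (nat_lit 0) (p (nat_lit 0x898a8a08881a) (nat_lit 0) (p (nat_lit 0x109088988079a) (nat_lit 0) (p (nat_lit 0x88880907871a) (nat_lit 0) (p (nat_lit 0x8000080000000080887068a) (nat_lit 0) (p (nat_lit 0x10888068602) (nat_lit 0) (p (nat_lit 0x8807860582) (nat_lit 0) (p (nat_lit 0x10607058502) (nat_lit 0) (p (nat_lit 0x8586850482) (nat_lit 0) (p (nat_lit 0x160004) (nat_lit 0) (p (nat_lit 0x68612) (nat_lit 0) (p (nat_lit 0x50592) (nat_lit 0) (p (nat_lit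 0x40512) (nat_lit 0) (p (nat_lit 0x50312) (nat_lit 0) (p (nat_lit 0x38292) (nat_lit 0) (p (nat_lit 0x28212) (nat_lit 0) (p (nat_lit 0x38112) (nat_lit 0) (p (nat_lit 0x20092) (nat_lit 0) (p (nat_lit 0x10012) (nat_lit 0) pn))))))))))))))))))))) :=
  Cl.node (nat_lit 0xd1) (nat_lit 2) (by decide +kernel) (ClAll.succ (ClAll.succ ClAll.zero n300) n301)

def n307 : Cl (O (nat_lit 6)) (R (nat_lit 14353))
    (p (nat_lit 0x81) (nat_lit 1) (p (nat_lit 0x41) (nat_lit 1) (p (nat_lit 0x10a0b0a89089a) (nat_lit 0) (p (nat_lit 0x898a8a08881a) (nat_lit 0) (p (nat_lit 0x109088988079a) (nat_lit 0) (p (nat_lit 0x88880907871a) (nat_lit 0) (p (nat_lit 0x8000080000000080887068a) (nat_lit 0) (p (nat_lit 0x10888068602) (nat_lit 0) (p (nat_lit 0x8807860582) (nat_lit 0) (p (nat_lit 0x10607058502) (nat_lit 0) (p (nat_lit 0x8586850482) (nat_lit 0) (p (nat_lit 0x160004) (nat_lit 0) (p (nat_lit 0x68612)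 (nat_lit 0) (p (nat_lit 0x50592) (nat_lit 0) (p (nat_lit 0x40512) (nat_lit 0) (p (nat_lit 0x50312) (nat_lit 0) (p (nat_lit 0x38292) (nat_lit 0) (p (nat_lit 0x28212) (nat_lit 0) (p (nat_lit 0x38112) (nat_lit 0) (p (nat_lit 0x20092) (nat_lit 0) (p (nat_lit 0x10012) (nat_lit 0) pn))))))))))))))))))))) :=
  Cl.node (nat_lit 0xc1) (nat_lit 2) (by decide +kernel) (ClAll.succ (ClAll.succ ClAll.zero n302) n303)

def n308 : Cl (O (nat_lit 6)) (R (nat_lit 14353))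
    (p (nat_lit 0x41) (nat_lit 0) (p (nat_lit 0x10a0b0a89089a) (nat_lit 0) (p (nat_lit 0x898a8a08881a) (nat_lit 0) (p (nat_lit 0x109088988079a) (nat_lit 0) (p (nat_lit 0x88880907871a) (nat_lit 0) (p (nat_lit 0x8000080000000080887068a) (nat_lit 0) (p (nat_lit 0x10888068602) (nat_lit 0) (p (nat_lit 0x8807860582) (nat_lit 0) (p (nat_lit 0x10607058502) (nat_lit 0) (p (nat_lit 0x8586850482) (nat_lit 0) (p (nat_lit 0x160004) (nat_lit 0) (p (nat_lit 0x68612) (nat_lit 0) (p (nat_lit 0x50592) (nat_lit 0) (p (nat_lit 0x40512) (nat_lit 0) (p (nat_lit 0x50312) (nat_lit 0) (p (nat_lit 0x38292) (nat_lit 0) (p (nat_lit 0x28212) (nat_lit 0) (p (nat_lit 0x38112) (nat_lit 0) (p (nat_lit 0x20092) (nat_lit 0) (p (nat_lit 0x10012) (nat_lit 0) pn)))))))))))))))))))) :=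
  Cl.node (nat_lit 0x89) (nat_lit 2) (by decide +kernel) (ClAll.succ (ClAll.succ ClAll.zero n304) n305)

def n309 : Cl (O (nat_lit 6)) (R (nat_lit 14353))
    (p (nat_lit 0x41) (nat_lit 1) (p (nat_lit 0x10a0b0a89089a) (nat_lit 0) (p (nat_lit 0x898a8a08881a) (nat_lit 0) (p (nat_lit 0x109088988079a) (nat_lit 0) (p (nat_lit 0x88880907871a) (nat_lit 0) (p (nat_lit 0x8000080000000080887068a) (nat_lit 0) (p (nat_lit 0x10888068602) (nat_lit 0) (p (nat_lit 0x8807860582) (nat_lit 0) (p (nat_lit 0x10607058502) (nat_lit 0) (p (nat_lit 0x8586850482) (nat_lit 0) (p (nat_lit 0x160004) (nat_lit 0) (p (nat_lit 0x68612) (nat_lit 0) (p (nat_lit 0x50592) (nat_lit 0) (p (nat_lit 0x40512) (nat_lit 0) (p (nat_lit 0x50312) (nat_lit 0) (p (nat_lit 0x38292) (nat_lit 0) (p (nat_lit 0x28212) (nat_lit 0) (p (nat_lit 0x38112) (nat_lit 0) (p (nat_lit 0x20092) (nat_lit 0) (p (nat_lit 0x10012) (nat_lit 0)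 pn)))))))))))))))))))) :=
  Cl.node (nat_lit 0x81) (nat_lit 2) (by decide +kernel) (ClAll.succ (ClAll.succ ClAll.zero n306) n307)

def n310 : Cl (O (nat_lit 6)) (R (nat_lit 14353))
    (p (nat_lit 0x10a0b0a89089a) (nat_lit 0) (p (nat_lit 0x898a8a08881a) (nat_lit 0) (p (nat_lit 0x109088988079a) (nat_lit 0) (p (nat_lit 0x88880907871a) (nat_lit 0) (p (nat_lit 0x8000080000000080887068a) (nat_lit 0) (p (nat_lit 0x10888068602) (nat_lit 0) (p (nat_lit 0x8807860582) (nat_lit 0) (p (nat_lit 0x10607058502) (nat_lit 0) (p (nat_lit 0x8586850482) (nat_lit 0) (p (nat_lit 0x160004) (nat_lit 0) (p (nat_lit 0x68612) (nat_lit 0) (p (nat_lit 0x50592) (nat_lit 0) (p (nat_lit 0x40512) (nat_lit 0) (p (nat_lit 0x50312) (nat_lit 0) (p (nat_lit 0x38292) (nat_lit 0) (p (nat_lit 0x28212) (nat_lit 0) (p (nat_lit 0x38112) (nat_lit 0) (p (nat_lit 0x20092) (nat_lit 0) (p (nat_lit 0x10012) (nat_lit 0) pn)))))))))))))))))))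 :=
  Cl.node (nat_lit 0x41) (nat_lit 2) (by decide +kernel) (ClAll.succ (ClAll.succ ClAll.zero n308) n309)

def n311 : Cl (O (nat_lit 6)) (R (nat_lit 14353))
    (p (nat_lit 0x898a8a08881a) (nat_lit 0) (p (nat_lit 0x109088988079a) (nat_lit 0) (p (nat_lit 0x88880907871a) (nat_lit 0) (p (nat_lit 0x8000080000000080887068a) (nat_lit 0) (p (nat_lit 0x10888068602) (nat_lit 0) (p (nat_lit 0x8807860582) (nat_lit 0) (p (nat_lit 0x10607058502) (nat_lit 0) (p (nat_lit 0x8586850482) (nat_lit 0) (p (nat_lit 0x160004) (nat_lit 0) (p (nat_lit 0x68612) (nat_lit 0) (p (nat_lit 0x50592) (nat_lit 0) (p (nat_lit 0x40512) (nat_lit 0) (p (nat_lit 0x50312) (nat_lit 0) (p (nat_lit 0x38292) (nat_lit 0) (p (nat_lit 0x28212) (nat_lit 0) (p (nat_lit 0x38112) (nat_lit 0) (p (nat_lit 0x20092) (nat_lit 0) (p (nat_lit 0x10012) (nat_lit 0) pn)))))))))))))))))) :=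
  Cl.node (nat_lit 0x10a0b0a89089a) (nat_lit 1) (by decide +kernel) (ClAll.succ ClAll.zero n310)

def n312 : Cl (O (nat_lit 6)) (R (nat_lit 14353))
    (p (nat_lit 0x109088988079a) (nat_lit 0) (p (nat_lit 0x88880907871a) (nat_lit 0) (p (nat_lit 0x8000080000000080887068a) (nat_lit 0) (p (nat_lit 0x10888068602) (nat_lit 0) (p (nat_lit 0x8807860582) (nat_lit 0) (p (nat_lit 0x10607058502) (nat_lit 0) (p (nat_lit 0x8586850482) (nat_lit 0) (p (nat_lit 0x160004) (nat_lit 0) (p (nat_lit 0x68612) (nat_lit 0) (p (nat_lit 0x50592) (nat_lit 0) (p (nat_lit 0x40512) (nat_lit 0) (p (nat_lit 0x50312) (nat_lit 0) (p (nat_lit 0x38292) (nat_lit 0) (p (nat_lit 0x28212) (nat_lit 0) (p (nat_lit 0x38112) (nat_lit 0) (p (nat_lit 0x20092) (nat_lit 0) (p (nat_lit 0x10012) (nat_lit 0) pn))))))))))))))))) :=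
  Cl.node (nat_lit 0x898a8a08881a) (nat_lit 1) (by decide +kernel) (ClAll.succ ClAll.zero n311)

def n313 : Cl (O (nat_lit 6)) (R (nat_lit 14353))
    (p (nat_lit 0x88880907871a) (nat_lit 0) (p (nat_lit 0x8000080000000080887068a) (nat_lit 0) (p (nat_lit 0x10888068602) (nat_lit 0) (p (nat_lit 0x8807860582) (nat_lit 0) (p (nat_lit 0x10607058502) (nat_lit 0) (p (nat_lit 0x8586850482) (nat_lit 0) (p (nat_lit 0x160004) (nat_lit 0) (p (nat_lit 0x68612) (nat_lit 0) (p (nat_lit 0x50592) (nat_lit 0) (p (nat_lit 0x40512) (nat_lit 0) (p (nat_lit 0x50312) (nat_lit 0) (p (nat_lit 0x38292) (nat_lit 0) (p (nat_lit 0x28212) (nat_lit 0) (p (nat_lit 0x38112) (nat_lit 0) (p (nat_lit 0x20092) (nat_lit 0) (p (nat_lit 0x10012) (nat_lit 0) pn)))))))))))))))) :=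
  Cl.node (nat_lit 0x109088988079a) (nat_lit 1) (by decide +kernel) (ClAll.succ ClAll.zero n312)

def n314 : Cl (O (nat_lit 6)) (R (nat_lit 14353))
    (p (nat_lit 0x8000080000000080887068a) (nat_lit 0) (p (nat_lit 0x10888068602) (nat_lit 0) (p (nat_lit 0x8807860582) (nat_lit 0) (p (nat_lit 0x10607058502) (nat_lit 0) (p (nat_lit 0x8586850482) (nat_lit 0) (p (nat_lit 0x160004) (nat_lit 0) (p (nat_lit 0x68612) (nat_lit 0) (p (nat_lit 0x50592) (nat_lit 0) (p (nat_lit 0x40512) (nat_lit 0) (p (nat_lit 0x50312) (nat_lit 0) (p (nat_lit 0x38292) (nat_lit 0) (p (nat_lit 0x28212) (nat_lit 0) (p (nat_lit 0x38112) (nat_lit 0) (p (nat_lit 0x20092) (nat_lit 0) (p (nat_lit 0x10012) (nat_lit 0) pn))))))))))))))) :=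
  Cl.node (nat_lit 0x88880907871a) (nat_lit 1) (by decide +kernel) (ClAll.succ ClAll.zero n313)

def n315 : Cl (O (nat_lit 6)) (R (nat_lit 14353))
    (p (nat_lit 0x10888068602) (nat_lit 0) (p (nat_lit 0x8807860582) (nat_lit 0) (p (nat_lit 0x10607058502) (nat_lit 0) (p (nat_lit 0x8586850482) (nat_lit 0) (p (nat_lit 0x160004) (nat_lit 0) (p (nat_lit 0x68612) (nat_lit 0) (p (nat_lit 0x50592) (nat_lit 0) (p (nat_lit 0x40512) (nat_lit 0) (p (nat_lit 0x50312) (nat_lit 0) (p (nat_lit 0x38292) (nat_lit 0) (p (nat_lit 0x28212) (nat_lit 0) (p (nat_lit 0x38112) (nat_lit 0) (p (nat_lit 0x20092) (nat_lit 0) (p (nat_lit 0x10012) (nat_lit 0) pn)))))))))))))) :=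
  Cl.node (nat_lit 0x8000080000000080887068a) (nat_lit 1) (by decide +kernel) (ClAll.succ ClAll.zero n314)

def n316 : Cl (O (nat_lit 6)) (R (nat_lit 14353))
    (p (nat_lit 0x8807860582) (nat_lit 0) (p (nat_lit 0x10607058502) (nat_lit 0) (p (nat_lit 0x8586850482) (nat_lit 0) (p (nat_lit 0x160004) (nat_lit 0) (p (nat_lit 0x68612) (nat_lit 0) (p (nat_lit 0x50592) (nat_lit 0) (p (nat_lit 0x40512) (nat_lit 0) (p (nat_lit 0x50312) (nat_lit 0) (p (nat_lit 0x38292) (nat_lit 0) (p (nat_lit 0x28212) (nat_lit 0) (p (nat_lit 0x38112) (nat_lit 0) (p (nat_lit 0x20092) (nat_lit 0) (p (nat_lit 0x10012) (nat_lit 0) pn))))))))))))) :=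
  Cl.node (nat_lit 0x10888068602) (nat_lit 1) (by decide +kernel) (ClAll.succ ClAll.zero n315)

def n317 : Cl (O (nat_lit 6)) (R (nat_lit 14353))
    (p (nat_lit 0x10607058502) (nat_lit 0) (p (nat_lit 0x8586850482) (nat_lit 0) (p (nat_lit 0x160004) (nat_lit 0) (p (nat_lit 0x68612) (nat_lit 0) (p (nat_lit 0x50592) (nat_lit 0) (p (nat_lit 0x40512) (nat_lit 0) (p (nat_lit 0x50312) (nat_lit 0) (p (nat_lit 0x38292) (nat_lit 0) (p (nat_lit 0x28212) (nat_lit 0) (p (nat_lit 0x38112) (nat_lit 0) (p (nat_lit 0x20092) (nat_lit 0) (p (nat_lit 0x10012) (nat_lit 0) pn)))))))))))) :=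
  Cl.node (nat_lit 0x8807860582) (nat_lit 1) (by decide +kernel) (ClAll.succ ClAll.zero n316)

def n318 : Cl (O (nat_lit 6)) (R (nat_lit 14353))
    (p (nat_lit 0x8586850482) (nat_lit 0) (p (nat_lit 0x160004) (nat_lit 0) (p (nat_lit 0x68612) (nat_lit 0) (p (nat_lit 0x50592) (nat_lit 0) (p (nat_lit 0x40512) (nat_lit 0) (p (nat_lit 0x50312) (nat_lit 0) (p (nat_lit 0x38292) (nat_lit 0) (p (nat_lit 0x28212) (nat_lit 0) (p (nat_lit 0x38112) (nat_lit 0) (p (nat_lit 0x20092) (nat_lit 0) (p (nat_lit 0x10012) (nat_lit 0) pn))))))))))) :=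
  Cl.node (nat_lit 0x10607058502) (nat_lit 1) (by decide +kernel) (ClAll.succ ClAll.zero n317)

def n319 : Cl (O (nat_lit 6)) (R (nat_lit 14353))
    (p (nat_lit 0x160004) (nat_lit 0) (p (nat_lit 0x68612) (nat_lit 0) (p (nat_lit 0x50592) (nat_lit 0) (p (nat_lit 0x40512) (nat_lit 0) (p (nat_lit 0x50312) (nat_lit 0) (p (nat_lit 0x38292) (nat_lit 0) (p (nat_lit 0x28212) (nat_lit 0) (p (nat_lit 0x38112) (nat_lit 0) (p (nat_lit 0x20092) (nat_lit 0) (p (nat_lit 0x10012) (nat_lit 0) pn)))))))))) :=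
  Cl.node (nat_lit 0x8586850482) (nat_lit 1) (by decide +kernel) (ClAll.succ ClAll.zero n318)

def n320 : Cl (O (nat_lit 6)) (R (nat_lit 14353))
    (p (nat_lit 0x68612) (nat_lit 0) (p (nat_lit 0x50592) (nat_lit 0) (p (nat_lit 0x40512) (nat_lit 0) (p (nat_lit 0x50312) (nat_lit 0) (p (nat_lit 0x38292) (nat_lit 0) (p (nat_lit 0x28212) (nat_lit 0) (p (nat_lit 0x38112) (nat_lit 0) (p (nat_lit 0x20092) (nat_lit 0) (p (nat_lit 0x10012) (nat_lit 0) pn))))))))) :=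
  Cl.node (nat_lit 0x160004) (nat_lit 2) (by decide +kernel) (ClAll.succ (ClAll.succ ClAll.zero n319) s732)

def n321 : Cl (O (nat_lit 6)) (R (nat_lit 14353))
    (p (nat_lit 0x50592) (nat_lit 0) (p (nat_lit 0x40512) (nat_lit 0) (p (nat_lit 0x50312) (nat_lit 0) (p (nat_lit 0x38292) (nat_lit 0) (p (nat_lit 0x28212) (nat_lit 0) (p (nat_lit 0x38112) (nat_lit 0) (p (nat_lit 0x20092) (nat_lit 0) (p (nat_lit 0x10012) (nat_lit 0) pn)))))))) :=
  Cl.node (nat_lit 0x68612) (nat_lit 1) (by decide +kernel) (ClAll.succ ClAll.zero n320)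

def n322 : Cl (O (nat_lit 6)) (R (nat_lit 14353))
    (p (nat_lit 0x40512) (nat_lit 0) (p (nat_lit 0x50312) (nat_lit 0) (p (nat_lit 0x38292) (nat_lit 0) (p (nat_lit 0x28212) (nat_lit 0) (p (nat_lit 0x38112) (nat_lit 0) (p (nat_lit 0x20092) (nat_lit 0) (p (nat_lit 0x10012) (nat_lit 0) pn))))))) :=
  Cl.node (nat_lit 0x50592) (nat_lit 1) (by decide +kernel) (ClAll.succ ClAll.zero n321)

def n323 : Cl (O (nat_lit 6)) (R (nat_lit 14353))
    (p (nat_lit 0x50312) (nat_lit 0) (p (nat_lit 0x38292) (nat_lit 0) (p (nat_lit 0x28212) (nat_lit 0) (p (nat_lit 0x38112) (nat_lit 0) (p (nat_lit 0x20092) (nat_lit 0) (p (nat_lit 0x10012) (nat_lit 0) pn)))))) :=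
  Cl.node (nat_lit 0x40512) (nat_lit 1) (by decide +kernel) (ClAll.succ ClAll.zero n322)

def n324 : Cl (O (nat_lit 6)) (R (nat_lit 14353))
    (p (nat_lit 0x38292) (nat_lit 0) (p (nat_lit 0x28212) (nat_lit 0) (p (nat_lit 0x38112) (nat_lit 0) (p (nat_lit 0x20092) (nat_lit 0) (p (nat_lit 0x10012) (nat_lit 0) pn))))) :=
  Cl.node (nat_lit 0x50312) (nat_lit 1) (by decide +kernel) (ClAll.succ ClAll.zero n323)

def n325 : Cl (O (nat_lit 6)) (R (nat_lit 14353))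
    (p (nat_lit 0x28212) (nat_lit 0) (p (nat_lit 0x38112) (nat_lit 0) (p (nat_lit 0x20092) (nat_lit 0) (p (nat_lit 0x10012) (nat_lit 0) pn)))) :=
  Cl.node (nat_lit 0x38292) (nat_lit 1) (by decide +kernel) (ClAll.succ ClAll.zero n324)

def n326 : Cl (O (nat_lit 6)) (R (nat_lit 14353))
    (p (nat_lit 0x38112) (nat_lit 0) (p (nat_lit 0x20092) (nat_lit 0) (p (nat_lit 0x10012) (nat_lit 0) pn))) :=
  Cl.node (nat_lit 0x28212) (nat_lit 1) (by decide +kernel) (ClAll.succ ClAll.zero n325)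

def n327 : Cl (O (nat_lit 6)) (R (nat_lit 14353))
    (p (nat_lit 0x20092) (nat_lit 0) (p (nat_lit 0x10012) (nat_lit 0) pn)) :=
  Cl.node (nat_lit 0x38112) (nat_lit 1) (by decide +kernel) (ClAll.succ ClAll.zero n326)

def n328 : Cl (O (nat_lit 6)) (R (nat_lit 14353))
    (p (nat_lit 0x10012) (nat_lit 0) pn) :=
  Cl.node (nat_lit 0x20092) (nat_lit 1) (by decide +kernel) (ClAll.succ ClAll.zero n327)

def n329 : Cl (O (nat_lit 6)) (R (nat_lit 14353))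
    pn :=
  Cl.node (nat_lit 0x10012) (nat_lit 1) (by decide +kernel) (ClAll.succ ClAll.zero n328)

theorem top : Cl (O (nat_lit 6)) (R (nat_lit 14353)) pn := n329

end Pool.Agent.Gen.F5.X12CD3Cm6
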